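import Pool.Agent.Work.MP_49e099_an.CI.E2

/-!
# The first eigenvalue is resonant
`exists_lam1`: `l1 = sInf {En η η | W0 η, ∫ η² = 1}`; the set is nonempty (a bump in a ball in `Ω`, `Sm.w0`, normalised by `W0.smul`, `En_smul`, `En_comm`), bounded below by `1/C` (`poincare`). For general `η` normalise (if `∫ η² = 0` use `En_nonneg`). Replace `η` by `|η|` (`W0.comp`, `FE.of_le`).
`nash`: `η² ≤ 2 |η| + 2 ((|η| - 1)₊)²`, `sob_two` for `(|η| - 1)₊` with `A = {1 < |η|}`, `vol A ≤ ∫ |η|` (Chebyshev), `FE.of_le`.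
`res_lam1`: suppose not; `lin_super` for the data `c = l1`, `μ = 1` gives `z, h` with `h ≥ θ` a.e. on `Ω`. Put `q u v = En u v - l1 ∫ u v`, a nonnegative symmetric form on `W0`, so `q z η² ≤ q z z * q η η` (discriminant of `t ↦ q (z + t η) (z + t η)`). For `η` from `exists_lam1`: `θ ∫ η ≤ ∫ h η = q z η ≤ √(q z z) √ε`, while `1 ≤ 2 ∫ η + C (l1 + ε) (∫ η)^(2s/N)`. Let `ε → 0`.
-/

namespace Pool.Agent.Work.MP_49e099_an

open MeasureTheory Set Filter Topology Metric

noncomputable section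

variable {N : ℕ} {a s : ℝ} {Ω : Set (Es N)}

theorem cie1_bump (hp : Par N a s) (hΩ : Dom Ω) (hne : Ω.Nonempty) :
    ∃ η, W0 a s Ω η ∧ 0 < ∫ x, η x ^ 2 := by
  obtain ⟨x0, hx0⟩ := hne
  obtain ⟨r, hr, hb⟩ := Metric.isOpen_iff.1 hΩ.op x0 hx0
  have hw : W0 a s Ω fun x => max (r - ‖x - x0‖) 0 := by
    refine (W0.of_lip hp hΩ (L := 1) ?_ ?_).1
    · intro x y
      have h1 := abs_max_sub_max_le_abs (r - ‖x - x0‖) (r - ‖y - x0‖) 0
      have h2 := abs_norm_sub_norm_le (y - x0) (x - x0)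
      have e1 : r - ‖x - x0‖ - (r - ‖y - x0‖) = ‖y - x0‖ - ‖x - x0‖ := by ring
      have e2 : y - x0 - (x - x0) = -(x - y) := by abel
      rw [e1] at h1
      rw [e2, norm_neg] at h2
      linarith
    · intro x hx
      have : r ≤ ‖x - x0‖ := by
        by_contra h
        exact hx (hb (by rw [mem_ball, dist_eq_norm]; exact not_le.1 h))
      exact max_eq_right (by linarith)
  refine ⟨_, hw, ?_⟩
  have hc : Continuous fun x : Es N => max (r - ‖x - x0‖) 0 ^ 2 := by fun_prop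
  rw [integral_pos_iff_support_of_nonneg (fun x => sq_nonneg _) (hw.memLp hp hΩ).integrable_sq]
  refine hc.isOpen_support.measure_pos _ ⟨x0, ?_⟩
  rw [Function.mem_support, sub_self, norm_zero, sub_zero, max_eq_left hr.le]
  positivity

theorem cie1_norm (hp : Par N a s) {η : Es N → ℝ} (hη : W0 a s Ω η) (h : 0 < ∫ x, η x ^ 2) :
    ∃ η', W0 a s Ω η' ∧ ∫ x, η' x ^ 2 = 1 ∧ En N a s η' η' * ∫ x, η x ^ 2 = En N a s η η := by
  set I := ∫ x, η x ^ 2 with hI
  have ht : (√I)⁻¹ ^ 2 * I = 1 := by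
    rw [inv_pow, Real.sq_sqrt h.le, inv_mul_cancel₀ h.ne']
  refine ⟨fun x => (√I)⁻¹ * η x, hη.smul hp.ha _, ?_, ?_⟩
  · simp only [mul_pow]
    rw [integral_const_mul, ← hI, ht]
  · rw [En_smul, En_comm, En_smul]
    calc (√I)⁻¹ * ((√I)⁻¹ * En N a s η η) * I = ((√I)⁻¹ ^ 2 * I) * En N a s η η := by ring
      _ = En N a s η η := by rw [ht, one_mul]

theorem cie1_abs (hp : Par N a s) {η : Es N → ℝ} (hη : W0 a s Ω η) :
    W0 a s Ω (fun x => |η x|) ∧
      En N a s (fun x => |η x|) (fun x => |η x|) ≤ En N a s η η := by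
  have hw : W0 a s Ω (fun x => |η x|) :=
    hη.comp hp.ha (Φ := fun t => |t|) (L := 1)
      (fun p q => by rw [one_mul]; exact abs_abs_sub_abs_le_abs_sub p q) abs_zero
  refine ⟨hw, ?_⟩
  have := (FE.of_le hp.ha hη.toFE hw.meas (L := 1)
    (fun p q => by rw [one_mul]; exact abs_abs_sub_abs_le_abs_sub _ _)).2
  simpa using this

theorem exists_lam1 (hp : Par N a s) (hΩ : Dom Ω) (hne : Ω.Nonempty) : ∃ l1 > 0,
    (∀ η, W0 a s Ω η → l1 * ∫ x, η x ^ 2 ≤ En N a s η η) ∧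
    ∀ ε > 0, ∃ η, W0 a s Ω η ∧ (∀ x, 0 ≤ η x) ∧ ∫ x, η x ^ 2 = 1 ∧ En N a s η η ≤ l1 + ε := by
  obtain ⟨C, hC, hP⟩ := poincare hp hΩ
  set S : Set ℝ := {e | ∃ η, W0 a s Ω η ∧ ∫ x, η x ^ 2 = 1 ∧ En N a s η η = e} with hS
  have hSne : S.Nonempty := by
    obtain ⟨η, hη, h⟩ := cie1_bump hp hΩ hne
    obtain ⟨η', h1, h2, -⟩ := cie1_norm hp hη h
    exact ⟨_, η', h1, h2, rfl⟩
  have hlow : ∀ e ∈ S, C⁻¹ ≤ e := by
    rintro e ⟨η, h1, h2, rfl⟩
    have := (hP η h1).1
    rw [h2] at this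
    rw [inv_le_iff_one_le_mul₀' hC]
    exact this
  have hbd : BddBelow S := ⟨C⁻¹, hlow⟩
  refine ⟨sInf S, lt_of_lt_of_le (inv_pos.2 hC) (le_csInf hSne hlow), ?_, ?_⟩
  · intro η hη
    rcases (integral_nonneg (fun x => sq_nonneg (η x)) : 0 ≤ ∫ x, η x ^ 2).eq_or_lt with h | h
    · rw [← h, mul_zero]
      exact En_nonneg hp.ha η
    · obtain ⟨η', h1, h2, h3⟩ := cie1_norm hp hη h
      rw [← h3]
      exact mul_le_mul_of_nonneg_right (csInf_le hbd ⟨η', h1, h2, rfl⟩) h.le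
  · intro ε hε
    obtain ⟨e, ⟨η, h1, h2, rfl⟩, he⟩ := exists_lt_of_csInf_lt hSne (lt_add_of_pos_right _ hε)
    obtain ⟨h3, h4⟩ := cie1_abs hp h1
    refine ⟨fun x => |η x|, h3, fun x => abs_nonneg _, ?_, h4.trans he.le⟩
    simp only [sq_abs]
    exact h2

theorem nash (hp : Par N a s) (hΩ : Dom Ω) : ∃ C > 0, ∀ η : Es N → ℝ, W0 a s Ω η →
    ∫ x, η x ^ 2 ≤ 2 * (∫ x, |η x|) + C * En N a s η η * (∫ x, |η x|) ^ (2 * s / N) := by
  obtain ⟨C, hC, hS⟩ := sob_two hp hΩ
  refine ⟨2 * C, by positivity, fun η hη => ?_⟩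
  obtain ⟨hv, hvE⟩ := cie1_abs hp hη
  have hw := cib2_w0 hp hv (k := 1) zero_le_one
  have hA : MeasurableSet {x | 1 < |η x|} := measurableSet_lt measurable_const hv.meas
  have h1 := hS _ {x | 1 < |η x|} hw hA (cib2_fin hΩ hv zero_le_one) (fun x hx => by
    have : |η x| ≤ 1 := not_lt.1 hx
    exact max_eq_right (by linarith))
  have h2 := (FE.of_le hp.ha hv.toFE hw.meas (L := 1)
    (fun p q => by rw [one_mul]; exact cib2_lip 1 _ _)).2
  rw [one_pow, one_mul] at h2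
  have h3 := cib2_cheb hp hΩ hv (k := 0) (t := 1) le_rfl one_pos
  simp only [zero_add, one_mul, sub_zero, abs_nonneg, max_eq_left] at h3
  have he : 0 ≤ 2 * s / N := by
    have := hp.hs
    positivity
  have h4 : volume.real {x | 1 < |η x|} ^ (2 * s / N) ≤ (∫ x, |η x|) ^ (2 * s / N) :=
    Real.rpow_le_rpow measureReal_nonneg h3 he
  have i1 : Integrable fun x => |η x| := hv.int hp hΩ
  have i2 := (hw.memLp hp hΩ).integrable_sq
  have h5 : ∫ x, η x ^ 2 ≤ ∫ x, (2 * |η x| + 2 * max (|η x| - 1) 0 ^ 2) := by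
    refine integral_mono (hη.memLp hp hΩ).integrable_sq ((i1.const_mul 2).add (i2.const_mul 2))
      fun x => ?_
    have h0 := abs_nonneg (η x)
    show η x ^ 2 ≤ 2 * |η x| + 2 * max (|η x| - 1) 0 ^ 2
    rw [← sq_abs]
    rcases le_total (|η x| - 1) 0 with h | h
    · rw [max_eq_right h]; nlinarith
    · rw [max_eq_left h]; nlinarith [sq_nonneg (|η x| - 1)]
  rw [integral_add (i1.const_mul 2) (i2.const_mul 2), integral_const_mul, integral_const_mul] at h5
  have h6 : C * En N a s (fun x => max (|η x| - 1) 0) (fun x => max (|η x| - 1) 0) *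
      volume.real {x | 1 < |η x|} ^ (2 * s / N) ≤
      C * En N a s η η * (∫ x, |η x|) ^ (2 * s / N) := by
    refine mul_le_mul (mul_le_mul_of_nonneg_left (h2.trans hvE) hC.le) h4
      (Real.rpow_nonneg measureReal_nonneg _) (mul_nonneg hC.le (En_nonneg hp.ha η))
  linarith

theorem res_lam1 (hp : Par N a s) (hΩ : Dom Ω) {l1 m : ℝ} (hm : N / (2 * s) < m)
    (h1 : ∀ η, W0 a s Ω η → l1 * ∫ x, η x ^ 2 ≤ En N a s η η)
    (h2 : ∀ ε > 0, ∃ η, W0 a s Ω η ∧ (∀ x, 0 ≤ η x) ∧ ∫ x, η x ^ 2 = 1 ∧ En N a s η η ≤ l1 + ε)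
    {f : Es N → ℝ} (fm : Measurable f) (fp : MemLp f (ENNReal.ofReal m) (volume.restrict Ω))
    (f0 : ∀ᵐ x, x ∈ Ω → 0 ≤ f x) : Res N a s Ω (fun _ => l1) f := by
  by_contra hR
  have hd : Dat Ω m 1 1 |l1| (fun _ => l1) (fun _ => 1) f :=
    ⟨measurable_const, fun _ => le_rfl, measurable_const, one_pos, fun _ => le_rfl,
      fun _ => le_rfl, fm, fp⟩
  obtain ⟨θ, hθ, K, M, z, h, hz, -, hm', hK, hl, hs⟩ := lin_super hp hΩ hm hd hR
  have : IsFiniteMeasure (volume.restrict Ω) := isFiniteMeasure_restrict.2 hΩ.fin.ne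
  have hh : MemLp h (ENNReal.ofReal m) (volume.restrict Ω) := by
    have g1 : MemLp (fun x => K * (1 + |f x|)) (ENNReal.ofReal m) (volume.restrict Ω) :=
      ((memLp_const (1 : ℝ)).add fp.abs).const_mul K
    refine g1.of_le hm'.aestronglyMeasurable (Eventually.of_forall fun x => ?_)
    rw [Real.norm_eq_abs, Real.norm_eq_abs]
    exact (hK x).trans (le_abs_self _)
  obtain ⟨D, -, hD⟩ := dual hp hΩ hm hh
  obtain ⟨C, hC, hN⟩ := nash hp hΩ
  have hΩm : MeasurableSet Ω := hΩ.op.measurableSet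
  set Q := En N a s z z - l1 * ∫ x, z x ^ 2 with hQ
  have hQ0 : 0 ≤ Q := sub_nonneg.2 (h1 z hz)
  set B := (1 + Q) / (2 * θ) with hB
  have he : 0 < 2 * s / N := by
    have := hp.hs
    have h3 : (0 : ℝ) < N := by have := hp.hN; positivity
    positivity
  have key : ∀ δ > 0, 1 ≤ 2 * (δ * B) + C * (l1 + δ ^ 2) * (δ * B) ^ (2 * s / N) := by
    intro δ hδ
    obtain ⟨η, hη, η0, η1, ηE⟩ := h2 (δ ^ 2) (by positivity)
    have mz := hz.memLp hp hΩ
    have mη := hη.memLp hp hΩ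
    have izη : Integrable fun x => z x * η x := (L2_cs mz mη).1
    have iη : Integrable η := hη.int hp hΩ
    have ihη : IntegrableOn (fun x => h x * η x) Ω := (hD η Ω hη hΩm hΩ.fin hη.zero).1
    have e1 : En N a s z η = l1 * (∫ x, z x * η x) + ∫ x in Ω, h x * η x := by
      rw [hs η hη]
      have : ∀ x, (l1 * z x + h x) * η x = l1 * (z x * η x) + h x * η x := fun x => by ring
      simp only [this]
      rw [integral_add (izη.integrableOn.const_mul l1) ihη, integral_const_mul,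
        setIntegral_eq_integral_of_forall_compl_eq_zero
          (fun x hx => by rw [hη.zero x hx, mul_zero])]
    have e2 : θ * ∫ x, η x ≤ ∫ x in Ω, h x * η x := by
      rw [← setIntegral_eq_integral_of_forall_compl_eq_zero (s := Ω) (fun x hx => hη.zero x hx),
        ← integral_const_mul]
      refine integral_mono_ae (iη.integrableOn.const_mul θ) ihη ?_
      rw [EventuallyLE, ae_restrict_iff' hΩm]
      filter_upwards [f0] with x hx hxΩ
      refine mul_le_mul_of_nonneg_right ?_ (η0 x)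
      have a1 := hl x
      have a2 := hx hxΩ
      have a3 := mul_nonneg hθ.le (abs_nonneg (f x))
      linarith
    have quad : ∀ t : ℝ, 0 ≤ Q + 2 * t * (∫ x in Ω, h x * η x) + t ^ 2 * δ ^ 2 := by
      intro t
      have hw := hz.add hp.ha (hη.smul hp.ha t)
      have a1 := h1 _ hw
      rw [cia3_exp hp.ha hz.toFE (hη.smul hp.ha t).toFE, En_smul, En_smul,
        En_comm (fun x => t * η x), En_smul] at a1
      have a2 : ∫ x, (z x + t * η x) ^ 2 =
          (∫ x, z x ^ 2) + 2 * t * (∫ x, z x * η x) + t ^ 2 := by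
        have : ∀ x, (z x + t * η x) ^ 2 =
            (z x ^ 2 + 2 * t * (z x * η x)) + t ^ 2 * η x ^ 2 := fun x => by ring
        simp only [this]
        have i3 : Integrable fun x => z x ^ 2 + 2 * t * (z x * η x) :=
          mz.integrable_sq.add (izη.const_mul _)
        rw [integral_add i3 (mη.integrable_sq.const_mul _),
          integral_add mz.integrable_sq (izη.const_mul _), integral_const_mul, integral_const_mul,
          η1, mul_one]
      rw [a2, e1] at a1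
      have a3 := mul_le_mul_of_nonneg_left ηE (sq_nonneg t)
      nlinarith
    have e3 : ∫ x, η x ≤ δ * B := by
      have a1 := quad (-δ⁻¹)
      have a2 : (-δ⁻¹) ^ 2 * δ ^ 2 = 1 := by field_simp
      rw [a2] at a1
      have a3 : 2 * (∫ x in Ω, h x * η x) ≤ δ * (1 + Q) := by
        have a4 := mul_nonneg hδ.le a1
        have a5 : δ * (Q + 2 * -δ⁻¹ * (∫ x in Ω, h x * η x) + 1) =
            δ * (1 + Q) - 2 * (∫ x in Ω, h x * η x) := by field_simp; ring
        linarith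
      rw [hB, ← mul_div_assoc, le_div_iff₀ (by positivity)]
      linarith
    have e4 := hN η hη
    have e5 : ∫ x, |η x| = ∫ x, η x := by
      congr 1
      funext x
      exact abs_of_nonneg (η0 x)
    rw [η1, e5] at e4
    have e6 : 0 ≤ ∫ x, η x := integral_nonneg η0
    have e7 : C * En N a s η η * (∫ x, η x) ^ (2 * s / N) ≤
        C * (l1 + δ ^ 2) * (δ * B) ^ (2 * s / N) :=
      mul_le_mul (mul_le_mul_of_nonneg_left ηE hC.le) (Real.rpow_le_rpow e6 e3 he.le)
        (Real.rpow_nonneg e6 _) (mul_nonneg hC.le ((En_nonneg hp.ha η).trans ηE))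
    linarith
  have hc : Continuous fun δ : ℝ => 2 * (δ * B) + C * (l1 + δ ^ 2) * (δ * B) ^ (2 * s / N) := by
    have c1 : Continuous fun δ : ℝ => (δ * B) ^ (2 * s / N) :=
      (Real.continuous_rpow_const he.le).comp (by fun_prop)
    exact (by fun_prop : Continuous fun δ : ℝ => 2 * (δ * B)).add
      ((by fun_prop : Continuous fun δ : ℝ => C * (l1 + δ ^ 2)).mul c1)
  have ht := (hc.tendsto 0).mono_left (nhdsWithin_le_nhds (s := Ioi 0))
  simp only [zero_mul, mul_zero, Real.zero_rpow he.ne', add_zero] at ht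
  obtain ⟨δ, a1, a2⟩ := ((ht.eventually_lt_const one_pos).and self_mem_nhdsWithin).exists
  exact absurd (key δ a2) (not_le.2 a1)

end

end Pool.Agent.Work.MP_49e099_an
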