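import Pool.Agent.Work.MP_49e099_an.CI.Stmt

-- merged part: Pool.Agent.Work.MP_49e099_an.CI.S1
section
-- merged part: Pool.Agent.Work.MP_49e099_an.CI.Df
section
/-! Internal definitions for the convex integration proof (see PROOF.md in this folder). -/

namespace Pool.Agent.Work.MP_49e099_an

open MeasureTheory Set Filter Topology Metric

noncomputable section

abbrev Es (N : ℕ) : Type := EuclideanSpace ℝ (Fin N)

/-- the standing assumptions on the parameters -/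
structure Par (N : ℕ) (a s : ℝ) : Prop where
  hN : 2 ≤ N
  hs : 1 / 2 < s
  hs1 : s < 1
  ha : 0 < a

variable {N : ℕ}

/-- bounded open sets -/
structure Dom (Ω : Set (Es N)) : Prop where
  op : IsOpen Ω
  bd : Bornology.IsBounded Ω

/-- bounded measurable functions -/
structure BM (u : Es N → ℝ) : Prop where
  meas : Measurable u
  bdd : ∃ M, ∀ x, |u x| ≤ M

/-- bounded measurable functions with bounded support -/
structure BS (u : Es N → ℝ) : Prop extends BM u where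
  supp : ∃ R, ∀ x, R ≤ ‖x‖ → u x = 0

/-- the gradient-square term as a real number -/
def Dr (a s : ℝ) (u : Es N → ℝ) (x : Es N) : ℝ := (Dsq N a s u x).toReal

/-- measurable functions of finite energy -/
structure FE (a s : ℝ) (u : Es N → ℝ) : Prop where
  meas : Measurable u
  fin : ∫⁻ x, Dsq N a s u x < ⊤

/-- measurable representatives of `W_0^{s,2}(Ω)` -/
structure W0 (a s : ℝ) (Ω : Set (Es N)) (u : Es N → ℝ) : Prop extends FE a s u where
  zero : ∀ x, x ∉ Ω → u x = 0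

/-- smooth functions with compact support in `Ω` -/
structure Sm (Ω : Set (Es N)) (η : Es N → ℝ) : Prop where
  cd : ContDiff ℝ 2 η
  cs : HasCompactSupport η
  sub : tsupport η ⊆ Ω

/-- exterior balls of every small size at every boundary point -/
def ExtBall (Ω : Set (Es N)) : Prop :=
  ∃ ε > 0, ∃ r0 > 0, ∀ p ∈ frontier Ω, ∀ t, 0 < t → t ≤ r0 →
    ∃ q : Es N, ‖q - p‖ ≤ t ∧ Disjoint (ball q (ε * t)) Ω

/-- variational solutions of `L u = R` -/
def VSol (a s : ℝ) (Ω : Set (Es N)) (u R : Es N → ℝ) : Prop :=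
  ∀ η, W0 a s Ω η → En N a s u η = ∫ x in Ω, R x * η x

/-- solutions of `L u = R` tested with continuous functions -/
def ESol (a s : ℝ) (Ω : Set (Es N)) (u R : Es N → ℝ) : Prop :=
  ∀ φ, Continuous φ → W0 a s Ω φ → En N a s φ u = ∫ x in Ω, R x * φ x

/-- convolution -/
def conv (G σ : Es N → ℝ) (x : Es N) : ℝ := ∫ y, G (x - y) * σ y

/-- the nonlocal operator with kernel `k` -/
def Lk (k u : Es N → ℝ) (x : Es N) : ℝ := ∫ y, (u x - u y) * k (x - y)

/-- its energy form -/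
def Ek (k u v : Es N → ℝ) : ℝ := 1 / 2 * ∫ x, ∫ y, (u x - u y) * (v x - v y) * k (x - y)

/-- the fractional Laplacian of a smooth function -/
def Lf (a s : ℝ) (F : Es N → ℝ) (x : Es N) : ℝ :=
  -(a / 2) * ∫ h, (F (x + h) + F (x - h) - 2 * F x) / ‖h‖ ^ (N + 2 * s)

/-- integrable even kernels -/
structure Kn (k : Es N → ℝ) : Prop where
  meas : Measurable k
  int : Integrable k
  even : ∀ h, k (-h) = k h
  nonneg : ∀ h, 0 ≤ k h

/-- truncations of the singular kernel -/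
structure KF (a s : ℝ) (k : ℕ → Es N → ℝ) : Prop where
  kn : ∀ n, Kn (k n)
  le : ∀ n h, h ≠ 0 → k n h ≤ a / ‖h‖ ^ (N + 2 * s)
  lim : ∀ h, h ≠ 0 → Tendsto (fun n => k n h) atTop (𝓝 (a / ‖h‖ ^ (N + 2 * s)))

/-- approximate identities -/
structure AI (κ : ℕ → Es N → ℝ) : Prop where
  kn : ∀ n, Kn (κ n)
  one : ∀ n, ∫ y, κ n y = 1
  conc : ∀ δ > 0, Tendsto (fun n => ∫ y in (ball (0 : Es N) δ)ᶜ, κ n y) atTop (𝓝 0)

/-- the Riesz kernel -/
def rz (c0 s : ℝ) (y : Es N) : ℝ := c0 * ‖y‖ ^ (-((N : ℝ) - 2 * s))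

/-- the truncation by the heat semigroup and the fundamental solution -/
structure Heat (a s c0 : ℝ) (k κ : ℕ → Es N → ℝ) : Prop where
  kf : KF a s k
  ai : AI κ
  pos : 0 < c0
  bdd : ∀ n, ∃ M, ∀ h, k n h ≤ M
  pv : ∀ ξ x v, BM ξ → HasFracLap N a s ξ x v → Tendsto (fun n => Lk (k n) ξ x) atTop (𝓝 v)
  fund : ∀ n x, x ≠ 0 → Lk (k n) (rz c0 s) x = κ n x

/-- kernels with the size and the increments of the Riesz kernel -/
structure Gk (s A : ℝ) (G : Es N → ℝ) : Prop where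
  meas : Measurable G
  le : ∀ x, x ≠ 0 → |G x| ≤ A * ‖x‖ ^ (-((N : ℝ) - 2 * s))
  diff : ∀ x x', x ≠ 0 → x' ≠ 0 → |G x - G x'| ≤
    A * ‖x - x'‖ * (‖x‖ ^ (-((N : ℝ) - 2 * s) - 1) + ‖x'‖ ^ (-((N : ℝ) - 2 * s) - 1))

/-- the part of the Riesz kernel near the origin -/
def nr (c0 s l : ℝ) (y : Es N) : ℝ :=
  c0 * max (‖y‖ ^ (-((N : ℝ) - 2 * s)) - l ^ (-((N : ℝ) - 2 * s))) 0

/-- a compactly supported parametrix `kR` with remainder `q` on the ball of radius `ρ0` -/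
structure Cut (a s c0 R ρ0 A : ℝ) (kR q : Es N → ℝ) : Prop where
  gk : Gk s A kR
  out : ∀ x, R ≤ ‖x‖ → kR x = 0
  far : ∀ l, 0 < l → l ≤ R / 2 → ∃ kf : Es N → ℝ, BM kf ∧
    (∀ x, x ≠ 0 → kR x = nr c0 s l x + kf x) ∧ ∀ x x', |kf x - kf x'| ≤ A * ‖x - x'‖ *
      (max ‖x‖ l ^ (-((N : ℝ) - 2 * s) - 1) + max ‖x'‖ l ^ (-((N : ℝ) - 2 * s) - 1))
  bq : BM q
  uc : UniformContinuous q
  weak : ∀ σ φ : Es N → ℝ, BM σ → (∀ x, ρ0 ≤ ‖x‖ → σ x = 0) → Continuous φ →
    (∀ x, ρ0 ≤ ‖x‖ → φ x = 0) → FE a s φ →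
    En N a s φ (conv kR σ) = ∫ x, φ x * (σ x + conv q σ x)

/-- the exponents of the peaks -/
structure Ex (N : ℕ) (s θ γ : ℝ) : Prop where
  t1 : (N : ℝ) - 2 * s < θ
  t2 : θ < N
  t3 : θ ≤ 2 * ((N : ℝ) - 2 * s)
  g1 : (N : ℝ) < γ
  g2 : γ < θ + 2 * s

/-- one peak of height `α` and width `r` at `p`: source `ρ`, potential `conv (nr c0 s l) ρ` -/
structure Pk (s γ c0 C c α r l : ℝ) (p : Es N) (ρ : Es N → ℝ) : Prop where
  bm : BM ρ
  nonneg : ∀ y, 0 ≤ ρ y
  out : ∀ y, l ≤ ‖y - p‖ → ρ y = 0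
  mass : ∫ y, ρ y = α * r ^ ((N : ℝ) - 2 * s)
  low : ∀ y, ‖y - p‖ < l → c * α * r ^ (γ - 2 * s) * (r + ‖y - p‖) ^ (-γ) ≤ ρ y
  p0 : ∀ y, 0 ≤ conv (nr c0 s l) ρ y
  ple : ∀ y, conv (nr c0 s l) ρ y ≤ C * α * (r / (r + ‖y - p‖)) ^ ((N : ℝ) - 2 * s)
  pout : ∀ y, 2 * l ≤ ‖y - p‖ → conv (nr c0 s l) ρ y = 0
  pdiff : ∀ y y', |conv (nr c0 s l) ρ y - conv (nr c0 s l) ρ y'| ≤
    C * α * r ^ ((N : ℝ) - 2 * s) * ‖y - y'‖ * ((r + ‖y - p‖) ^ (-((N : ℝ) - 2 * s) - 1) +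
      (r + ‖y' - p‖) ^ (-((N : ℝ) - 2 * s) - 1))
  pge : ∀ y, ‖y - p‖ < r → c * α ≤ conv (nr c0 s l) ρ y

/-- peaks at an `l`-separated set `T` that carry the mass of `g` -/
structure Cfg (s γ c0 C c α B l : ℝ) (S : Set (Es N)) (g : Es N → ℝ) (T : Finset (Es N))
    (r : Es N → ℝ) (ρ : Es N → Es N → ℝ) : Prop where
  sub : ∀ p ∈ T, p ∈ S
  sep : ∀ p ∈ T, ∀ p' ∈ T, p ≠ p' → l ≤ ‖p - p'‖
  pos : ∀ p ∈ T, 0 < r p
  le : ∀ p ∈ T, r p ^ ((N : ℝ) - 2 * s) ≤ B * l ^ N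
  pk : ∀ p ∈ T, Pk s γ c0 C c α (r p) (l / 8) p (ρ p)
  cell : ∀ G F : Es N → ℝ, Integrable (fun y => F y * g y) →
    (∀ᵐ y, ∀ p ∈ T, ‖y - p‖ ≤ l → G p ≤ F y) →
    ∑ p ∈ T, α * r p ^ ((N : ℝ) - 2 * s) * G p ≤ ∫ y, F y * g y

/-- the data of the equation, with everywhere defined bounds -/
structure Dat (Ω : Set (Es N)) (m μ1 μ2 C : ℝ) (c μ f : Es N → ℝ) : Prop where
  cm : Measurable c
  cb : ∀ x, |c x| ≤ C
  mm : Measurable μ
  m0 : 0 < μ1
  m1 : ∀ x, μ1 ≤ μ x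
  m2 : ∀ x, μ x ≤ μ2
  fm : Measurable f
  fp : MemLp f (ENNReal.ofReal m) (volume.restrict Ω)

/-- the right-hand side of the equation -/
def rhs (a s lam : ℝ) (c μ f u : Es N → ℝ) (x : Es N) : ℝ :=
  c x * u x + μ x * Dr a s u x + lam * f x

/-- a state of the iteration: `u0 + W` is a supersolution with defect `ω` -/
structure St (a s lam μ2 : ℝ) (Ω : Set (Es N)) (c μ f u0 W ω : Es N → ℝ) : Prop where
  w0 : W0 a s Ω W
  db : ∃ K : ℝ, ∀ x, Dsq N a s W x ≤ ENNReal.ofReal K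
  meas : Measurable ω
  int : IntegrableOn ω Ω
  eq : ESol a s Ω (fun x => u0 x + W x) fun x => rhs a s lam c μ f (fun x => u0 x + W x) x + ω x
  low : ∃ ε > 0, ∃ K : ℝ, ∀ᵐ x, x ∈ Ω →
    4 * μ2 * (if K < Dr a s u0 x then Dr a s u0 x else 0) + ε * (1 + Dr a s u0 x) ≤ ω x

end

end Pool.Agent.Work.MP_49e099_an
end

-- merged part: Pool.Agent.Work.MP_49e099_an.CI.A1
section
/-!
# Radial integrals
`ball_int`, `tail_int`: translate to `x = 0` (`integral_sub_left_eq_self`), polar coordinates `integral_fun_norm_addHaar` (or scaling `Measure.integral_comp_smul` from `r = 1`), `integrableOn_ball_of_norm_le_rpow`, `integrable_one_add_norm`, `integrableOn_Ioi_rpow_of_lt`.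
`conv_soft`: split at `‖x - y‖ = (r + ‖x‖)/4`. Outside, `‖x - y‖^(-α) ≤ 4^α (r + ‖x‖)^(-α)` and `soft_int`; inside, `r + ‖y‖ ≥ 3 (r + ‖x‖)/4`, `ball_int` and `(r + ‖x‖)^(N - γ) ≤ r^(N - γ)`.
`loc_pot`: split at `‖x - y‖ = 1`. `rpow_diff`: mean value theorem, or `Real.rpow` convexity.
`scales`: `r ≤ B^(1/β) l^(N/β)` with `β = N - 2s`, `N/β > 1`, `θ N/β - θ - 2 s = 2 s (θ/β - 1) > 0`.
-/

namespace Pool.Agent.Work.MP_49e099_an

open MeasureTheory Set Filter Topology Metric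

noncomputable section

variable {N : ℕ} {a s : ℝ} {Ω : Set (Es N)}

theorem vol_ball (N : ℕ) : ∃ w > 0, ∀ (x : Es N) (r : ℝ), 0 < r →
    volume.real (ball x r) = w * r ^ N ∧ volume.real (closedBall x r) = w * r ^ N := by
  refine ⟨volume.real (ball (0 : Es N) 1), ENNReal.toReal_pos
    (measure_ball_pos _ _ one_pos).ne' measure_ball_lt_top.ne, fun x r hr => ⟨?_, ?_⟩⟩
  · rw [measureReal_def, Measure.addHaar_ball_of_pos _ _ hr, ENNReal.toReal_mul,
      ENNReal.toReal_ofReal (by positivity), finrank_euclideanSpace_fin, mul_comm, measureReal_def]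
  · rw [Measure.addHaar_real_closedBall _ _ hr.le, finrank_euclideanSpace_fin, mul_comm]

theorem cia1_rad (hN : 1 ≤ N) : ∃ w > 0, ∀ (e : ℝ) (S : Set ℝ), MeasurableSet S →
    IntegrableOn (fun t : ℝ => t ^ (N - e - 1)) (Ioi 0 ∩ S) → ∀ x : Es N,
      IntegrableOn (fun y => ‖x - y‖ ^ (-e)) {y | ‖x - y‖ ∈ S} ∧
      ∫ y in {y | ‖x - y‖ ∈ S}, ‖x - y‖ ^ (-e) = w * ∫ t in Ioi 0 ∩ S, t ^ (N - e - 1) := by
  have : Nonempty (Fin N) := ⟨⟨0, hN⟩⟩
  obtain ⟨w, hw, hv⟩ := vol_ball N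
  refine ⟨N * w, by positivity, fun e S hS h x => ?_⟩
  have hm : MeasurableSet {y : Es N | ‖x - y‖ ∈ S} :=
    (by fun_prop : Measurable fun y : Es N => ‖x - y‖) hS
  have h1 : EqOn (fun t : ℝ => t ^ (Module.finrank ℝ (Es N) - 1) •
      S.indicator (fun t : ℝ => t ^ (-e)) t) (S.indicator fun t : ℝ => t ^ (N - e - 1))
      (Ioi 0) := by
    intro t ht
    by_cases h2 : t ∈ S
    · simp only [indicator_of_mem h2, finrank_euclideanSpace_fin, smul_eq_mul]
      rw [← Real.rpow_natCast, ← Real.rpow_add ht, Nat.cast_sub hN]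
      congr 1
      push_cast
      ring
    · simp [indicator_of_notMem h2]
  have h2 : {y : Es N | ‖x - y‖ ∈ S}.indicator (fun y => ‖x - y‖ ^ (-e)) =
      fun y => (fun z : Es N => S.indicator (fun t : ℝ => t ^ (-e)) ‖z‖) (x - y) := rfl
  rw [← integrable_indicator_iff hm, ← integral_indicator hm, h2, integral_sub_left_eq_self,
    integral_fun_norm_addHaar, setIntegral_congr_fun measurableSet_Ioi h1,
    setIntegral_indicator hS, (hv 0 1 one_pos).1]
  refine ⟨Integrable.comp_sub_left ((integrable_fun_norm_addHaar volume).2 ?_) x, ?_⟩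
  · rw [integrableOn_congr_fun h1 measurableSet_Ioi, integrableOn_indicator_iff hS, inter_comm]
    exact h
  · simp [mul_assoc]

theorem ball_int (hN : 1 ≤ N) {α : ℝ} (hα : α < N) : ∃ C > 0, ∀ (x : Es N) (r : ℝ), 0 < r →
    IntegrableOn (fun y => ‖x - y‖ ^ (-α)) (ball x r) ∧
      ∫ y in ball x r, ‖x - y‖ ^ (-α) = C * r ^ (N - α) := by
  obtain ⟨w, hw, h⟩ := cia1_rad hN
  have h0 : 0 < N - α := sub_pos.2 hα
  refine ⟨w / (N - α), by positivity, fun x r hr => ?_⟩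
  have h1 := h α (Iio r) measurableSet_Iio
  have h2 : {y : Es N | ‖x - y‖ ∈ Iio r} = ball x r := by
    ext y
    simp [dist_eq_norm, norm_sub_rev]
  rw [Ioi_inter_Iio] at h1
  have h3 := h1 ((intervalIntegrable_iff_integrableOn_Ioo_of_le hr.le).1
    (intervalIntegral.intervalIntegrable_rpow' (by linarith only [hα]))) x
  rw [h2, ← integral_Ioc_eq_integral_Ioo, ← intervalIntegral.integral_of_le hr.le,
    integral_rpow (Or.inl (by linarith only [hα])), sub_add_cancel, Real.zero_rpow h0.ne'] at h3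
  exact ⟨h3.1, h3.2.trans (by ring)⟩

theorem tail_int (hN : 1 ≤ N) {γ : ℝ} (hγ : (N : ℝ) < γ) : ∃ C > 0, ∀ (x : Es N) (r : ℝ), 0 < r →
    IntegrableOn (fun y => ‖x - y‖ ^ (-γ)) (ball x r)ᶜ ∧
      ∫ y in (ball x r)ᶜ, ‖x - y‖ ^ (-γ) = C * r ^ (N - γ) := by
  obtain ⟨w, hw, h⟩ := cia1_rad hN
  have h0 : 0 < γ - N := sub_pos.2 hγ
  refine ⟨w / (γ - N), by positivity, fun x r hr => ?_⟩
  have h1 := h γ (Ici r) measurableSet_Ici
  have h2 : {y : Es N | ‖x - y‖ ∈ Ici r} = (ball x r)ᶜ := by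
    ext y
    simp [dist_eq_norm, norm_sub_rev]
  rw [inter_eq_right.2 (Ici_subset_Ioi.2 hr)] at h1
  have h3 := h1 ((integrableOn_Ici_iff_integrableOn_Ioi).2
    (integrableOn_Ioi_rpow_of_lt (by linarith only [hγ]) hr)) x
  rw [h2, integral_Ici_eq_integral_Ioi, integral_Ioi_rpow_of_lt (by linarith only [hγ]) hr,
    sub_add_cancel, ← neg_sub γ, neg_div_neg_eq, neg_sub] at h3
  exact ⟨h3.1, h3.2.trans (by ring)⟩

theorem cia1_split {f g1 g2 : Es N → ℝ} {S : Set (Es N)} (hS : MeasurableSet S)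
    (hf : Measurable f) (h0 : ∀ y, 0 ≤ f y) (h1 : IntegrableOn g1 S) (h2 : IntegrableOn g2 Sᶜ)
    (l1 : ∀ y ∈ S, f y ≤ g1 y) (l2 : ∀ y ∈ Sᶜ, f y ≤ g2 y) :
    Integrable f ∧ ∫ y, f y ≤ (∫ y in S, g1 y) + ∫ y in Sᶜ, g2 y := by
  have i1 : IntegrableOn f S := h1.mono' hf.aestronglyMeasurable
    (ae_restrict_of_forall_mem hS fun y hy => (Real.norm_of_nonneg (h0 y)).trans_le (l1 y hy))
  have i2 : IntegrableOn f Sᶜ := h2.mono' hf.aestronglyMeasurable
    (ae_restrict_of_forall_mem hS.compl fun y hy => (Real.norm_of_nonneg (h0 y)).trans_le (l2 y hy))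
  have i3 : Integrable f := by
    rw [← integrableOn_univ, ← union_compl_self S]
    exact i1.union i2
  refine ⟨i3, ?_⟩
  rw [← integral_add_compl hS i3]
  exact add_le_add (setIntegral_mono_on i1 h1 hS l1) (setIntegral_mono_on i2 h2 hS.compl l2)

theorem cia1_out {x y : Es N} {r : ℝ} (h : y ∈ (ball x r)ᶜ) : r ≤ ‖x - y‖ := by
  simpa [dist_eq_norm, norm_sub_rev] using h

theorem soft_int (hN : 1 ≤ N) {γ : ℝ} (hγ : (N : ℝ) < γ) : ∃ C > 0, ∀ (x : Es N) (r : ℝ), 0 < r →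
    Integrable (fun y => (r + ‖x - y‖) ^ (-γ)) ∧ ∫ y, (r + ‖x - y‖) ^ (-γ) ≤ C * r ^ (N - γ) := by
  obtain ⟨w, hw, hv⟩ := vol_ball N
  obtain ⟨C, hC, ht⟩ := tail_int hN hγ
  have hγ0 : -γ ≤ 0 := by linarith only [hγ, Nat.cast_nonneg (α := ℝ) N]
  refine ⟨w + C, by positivity, fun x r hr => ?_⟩
  obtain ⟨h1, h2⟩ := cia1_split (f := fun y => (r + ‖x - y‖) ^ (-γ)) (g1 := fun _ => r ^ (-γ))
    measurableSet_ball (by fun_prop) (fun y => by positivity)
    (integrableOn_const measure_ball_lt_top.ne) (ht x r hr).1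
    (fun y _ => Real.rpow_le_rpow_of_nonpos hr (le_add_of_nonneg_right (norm_nonneg _)) hγ0)
    fun y hy => Real.rpow_le_rpow_of_nonpos (hr.trans_le (cia1_out hy))
      (le_add_of_nonneg_left hr.le) hγ0
  refine ⟨h1, h2.trans_eq ?_⟩
  rw [(ht x r hr).2, setIntegral_const, (hv x r hr).1, smul_eq_mul, sub_eq_add_neg,
    Real.rpow_add hr, Real.rpow_natCast]
  ring

theorem conv_soft (hN : 1 ≤ N) {α γ : ℝ} (h0 : 0 ≤ α) (hα : α < N) (hγ : (N : ℝ) < γ) :
    ∃ C > 0, ∀ (x p : Es N) (r : ℝ), 0 < r →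
      Integrable (fun y => (r + ‖y - p‖) ^ (-γ) * ‖x - y‖ ^ (-α)) ∧
      ∫ y, (r + ‖y - p‖) ^ (-γ) * ‖x - y‖ ^ (-α) ≤ C * r ^ (N - γ) * (r + ‖x - p‖) ^ (-α) := by
  obtain ⟨C1, hC1, hb⟩ := ball_int hN hα
  obtain ⟨C2, hC2, hs⟩ := soft_int hN hγ
  have hγ0 : -γ ≤ 0 := by linarith only [h0, hα, hγ, Nat.cast_nonneg (α := ℝ) N]
  refine ⟨(C1 / 2 ^ (N - γ) + C2) / 2 ^ (-α), by positivity, fun x p r hr => ?_⟩
  obtain ⟨ρ, hρ⟩ : ∃ ρ, ρ = (r + ‖x - p‖) / 2 := ⟨_, rfl⟩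
  have hρ1 : r / 2 ≤ ρ := by linarith only [hρ, norm_nonneg (x - p)]
  have hρ0 : 0 < ρ := (half_pos hr).trans_le hρ1
  have i2 := (hs p r hr).1.mul_const (ρ ^ (-α))
  obtain ⟨h1, h2⟩ := cia1_split (f := fun y => (r + ‖y - p‖) ^ (-γ) * ‖x - y‖ ^ (-α))
    measurableSet_ball (by fun_prop) (fun y => by positivity)
    ((hb x ρ hρ0).1.const_mul (ρ ^ (-γ))) i2.integrableOn
    (fun y hy => mul_le_mul_of_nonneg_right (Real.rpow_le_rpow_of_nonpos hρ0 (by
      have := norm_sub_le_norm_sub_add_norm_sub x y p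
      rw [mem_ball, dist_eq_norm, norm_sub_rev] at hy
      linarith only [hρ, hy, this]) hγ0) (by positivity))
    fun y hy => by
      rw [norm_sub_rev y]
      exact mul_le_mul_of_nonneg_left
        (Real.rpow_le_rpow_of_nonpos hρ0 (cia1_out hy) (neg_nonpos.2 h0)) (by positivity)
  refine ⟨h1, h2.trans ?_⟩
  have h3 := setIntegral_le_integral (s := (ball x ρ)ᶜ) i2 (.of_forall fun y => by positivity)
  have h4 := mul_le_mul_of_nonneg_right (hs p r hr).2 (Real.rpow_nonneg hρ0.le (-α))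
  have h5 := Real.rpow_le_rpow_of_nonpos (half_pos hr) hρ1 (sub_nonpos.2 hγ.le)
  have h6 : ρ ^ (-γ) * (C1 * ρ ^ (N - α)) = C1 * ρ ^ (-α) * ρ ^ (N - γ) := by
    rw [mul_left_comm, mul_assoc, ← Real.rpow_add hρ0, ← Real.rpow_add hρ0]
    congr 2
    ring
  have h7 : ρ ^ (-α) = (r + ‖x - p‖) ^ (-α) / 2 ^ (-α) := by
    rw [hρ, Real.div_rpow (by positivity) zero_le_two]
  rw [integral_mul_const (μ := volume)] at h3
  rw [Real.div_rpow hr.le zero_le_two] at h5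
  rw [integral_const_mul, (hb x ρ hρ0).2, h6]
  refine (add_le_add (mul_le_mul_of_nonneg_left h5 (by positivity)) (h3.trans h4)).trans_eq ?_
  rw [h7]
  ring

theorem loc_pot (hN : 1 ≤ N) {α : ℝ} (h0 : 0 ≤ α) (hα : α < N) (R : ℝ) : ∃ C > 0,
    ∀ (σ : Es N → ℝ) (M : ℝ), Measurable σ → (∀ y, |σ y| ≤ M) → (∀ y, R ≤ ‖y‖ → σ y = 0) →
      ∀ x, Integrable (fun y => ‖x - y‖ ^ (-α) * σ y) ∧ ∫ y, ‖x - y‖ ^ (-α) * |σ y| ≤ C * M := by
  obtain ⟨C, hC, hb⟩ := ball_int hN hα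
  refine ⟨C + volume.real (ball (0 : Es N) R), by positivity, fun σ M hσ hM hR x => ?_⟩
  have hM0 := (abs_nonneg _).trans (hM 0)
  have i2 : Integrable ((ball (0 : Es N) R).indicator fun _ => M) :=
    (integrable_indicator_iff measurableSet_ball).2 (integrableOn_const measure_ball_lt_top.ne)
  obtain ⟨h1, h2⟩ := cia1_split (f := fun y => ‖x - y‖ ^ (-α) * |σ y|)
    measurableSet_ball (by fun_prop) (fun y => by positivity)
    ((hb x 1 one_pos).1.mul_const M) i2.integrableOn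
    (fun y _ => mul_le_mul_of_nonneg_left (hM y) (by positivity)) fun y hy => by
      by_cases h : y ∈ ball (0 : Es N) R
      · rw [indicator_of_mem h, ← one_mul M]
        exact mul_le_mul (Real.rpow_le_one_of_one_le_of_nonpos (cia1_out hy) (neg_nonpos.2 h0))
          (hM y) (abs_nonneg _) zero_le_one
      · rw [indicator_of_notMem h, hR y (by simpa using h), abs_zero, mul_zero]
  refine ⟨h1.mono' (Measurable.aestronglyMeasurable (by fun_prop)) (.of_forall fun y => ?_),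
    h2.trans ?_⟩
  · rw [norm_mul, Real.norm_of_nonneg (by positivity), Real.norm_eq_abs]
  · have h3 := setIntegral_le_integral (s := (ball x 1)ᶜ) i2
      (.of_forall fun y => indicator_nonneg (fun _ _ => hM0) y)
    rw [integral_indicator_const (μ := volume) _ measurableSet_ball, smul_eq_mul] at h3
    rw [integral_mul_const, (hb x 1 one_pos).2, Real.one_rpow]
    linarith only [h3]

theorem rpow_diff {β u v : ℝ} (hβ : 0 ≤ β) (hu : 0 < u) (hv : 0 < v) :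
    |u ^ (-β) - v ^ (-β)| ≤ β * |u - v| * (u ^ (-β - 1) + v ^ (-β - 1)) := by
  wlog h : u < v generalizing u v
  · rcases (not_lt.1 h).eq_or_lt with rfl | h
    · simp
    · rw [abs_sub_comm, abs_sub_comm u, add_comm]
      exact this hv hu h
  have hd : ∀ t, u ≤ t → HasDerivAt (fun t : ℝ => t ^ (-β)) (-β * t ^ (-β - 1)) t :=
    fun t ht => Real.hasDerivAt_rpow_const (Or.inl (hu.trans_le ht).ne')
  obtain ⟨c, hc, e⟩ := exists_hasDerivAt_eq_slope _ _ h
    (fun t ht => (hd t ht.1).continuousAt.continuousWithinAt) fun t ht => hd t ht.1.le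
  have h1 : c ^ (-β - 1) ≤ u ^ (-β - 1) := Real.rpow_le_rpow_of_nonpos hu hc.1.le (by linarith only [hβ])
  have h2 := Real.rpow_nonneg (hu.trans hc.1).le (-β - 1)
  have h3 := Real.rpow_nonneg hv.le (-β - 1)
  rw [eq_div_iff (sub_pos.2 h).ne'] at e
  rw [abs_sub_comm, ← e, abs_mul, abs_mul, abs_neg, abs_of_nonneg hβ, abs_of_nonneg h2,
    abs_sub_comm, mul_right_comm]
  exact mul_le_mul_of_nonneg_left (by linarith) (by positivity)

theorem cia1_small {K e τ l : ℝ} (hK : 0 < K) (he : 0 < e) (hτ : 0 < τ) (hl : 0 < l)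
    (h : l ≤ (τ / K) ^ e⁻¹) : K * l ^ e ≤ τ := by
  have := Real.rpow_le_rpow hl.le h he.le
  rwa [Real.rpow_inv_rpow (by positivity) he.ne', le_div_iff₀' hK] at this

theorem scales (hp : Par N a s) {θ : ℝ} (hθ : (N : ℝ) - 2 * s < θ) (B : ℝ) {τ : ℝ} (hτ : 0 < τ) :
    ∃ l0 > 0, l0 ≤ 1 ∧ ∀ l r : ℝ, 0 < l → l ≤ l0 → 0 < r → r ^ ((N : ℝ) - 2 * s) ≤ B * l ^ N →
      r ≤ τ * l ∧ r ^ θ ≤ τ * l ^ (θ + 2 * s) := by
  have hs := hp.hs
  have hN : (2 : ℝ) ≤ N := by exact_mod_cast hp.hN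
  obtain ⟨β, hβ⟩ : ∃ β, β = (N : ℝ) - 2 * s := ⟨_, rfl⟩
  rw [← hβ] at hθ ⊢
  have h0 : 0 < β := by linarith only [hN, hβ, hp, hp.hs1]
  obtain ⟨K, hK⟩ : ∃ K, K = (|B| + 1) ^ β⁻¹ := ⟨_, rfl⟩
  have hK0 : 0 < K := by rw [hK]; positivity
  have hθ0 := h0.trans hθ
  have e1 : 0 < 2 * s / β := by positivity
  have e2 : 0 < 2 * s * (θ - β) / β := by
    have := sub_pos.2 hθ
    positivity
  refine ⟨min 1 (min ((τ / K) ^ (2 * s / β)⁻¹) ((τ / K ^ θ) ^ (2 * s * (θ - β) / β)⁻¹)),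
    by positivity, min_le_left _ _, fun l r hl h1 hr h2 => ?_⟩
  rw [le_min_iff, le_min_iff] at h1
  have h3 : r ≤ K * l ^ (N / β) := by
    rw [hK, div_eq_mul_inv, Real.rpow_mul hl.le, ← Real.mul_rpow (by positivity) (by positivity),
      Real.le_rpow_inv_iff_of_pos hr.le (by positivity) h0, Real.rpow_natCast]
    exact h2.trans (mul_le_mul_of_nonneg_right (by linarith only [le_abs_self B]) (by positivity))
  constructor
  · refine h3.trans ?_
    rw [show N / β = 2 * s / β + 1 by field_simp; linarith only [hβ], Real.rpow_add_one hl.ne', ← mul_assoc]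
    exact mul_le_mul_of_nonneg_right (cia1_small hK0 e1 hτ hl h1.2.1) hl.le
  · refine (Real.rpow_le_rpow hr.le h3 hθ0.le).trans ?_
    rw [Real.mul_rpow hK0.le (by positivity), ← Real.rpow_mul hl.le,
      show N / β * θ = 2 * s * (θ - β) / β + (θ + 2 * s) by
        field_simp; linear_combination -θ * hβ, Real.rpow_add hl, ← mul_assoc]
    exact mul_le_mul_of_nonneg_right (cia1_small (by positivity) e2 hτ hl h1.2.2) (by positivity)

theorem exists_ex (hp : Par N a s) : ∃ θ γ, Ex N s θ γ := by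
  have hs := hp.hs
  have hs1 := hp.hs1
  have hN : (2 : ℝ) ≤ N := by exact_mod_cast hp.hN
  have h : (N : ℝ) - 2 * s < min (N - s) (2 * (N - 2 * s)) := lt_min (by linarith only [hs, hs1]) (by linarith only [hs1, hN])
  exact ⟨_, (N + (min (N - s) (2 * (N - 2 * s)) + 2 * s)) / 2, h,
    (min_le_left _ _).trans_lt (by linarith), min_le_right _ _, by linarith only [h], by linarith only [h]⟩

end

end Pool.Agent.Work.MP_49e099_an
end

-- merged part: Pool.Agent.Work.MP_49e099_an.CI.A2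
section
/-!
# The gradient-square term at a point
`Dsq_real`: `integrable_toReal_of_lintegral_ne_top` / `ofReal_integral_eq_lintegral_ofReal`. `Dr_cross`: expand the square, Cauchy-Schwarz (`integral_mul_le_Lp_mul_Lq_of_nonneg`, or the discriminant of `t ↦ ∫ (p + t q)² w`).
`Dsq_lip`: split at `‖x - y‖ = R`, `ball_int` with `α = N + 2s - 2`, `tail_int`. `Dsq_small`: choose `R` small, then `δ`.
`poincare_pt`: if `Ω ⊆ ball 0 R`, `x ∈ Ω`, then `u y = 0` for `‖x - y‖ ≥ 2 R`; `tail_int`.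
-/

namespace Pool.Agent.Work.MP_49e099_an

open MeasureTheory Set Filter Topology Metric

noncomputable section

variable {N : ℕ} {a s : ℝ} {Ω : Set (Es N)}

variable {u v : Es N → ℝ} {x : Es N}

theorem cia2_m2 (hu : Measurable u) (hv : Measurable v) (x : Es N) :
    Measurable fun y => (u x - u y) * (v x - v y) / ‖x - y‖ ^ (N + 2 * s) :=
  ((measurable_const.sub hu).mul (measurable_const.sub hv)).div
    ((measurable_const.sub measurable_id).norm.pow_const _)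

theorem cia2_m (hu : Measurable u) (x : Es N) :
    Measurable fun y => (u x - u y) ^ 2 / ‖x - y‖ ^ (N + 2 * s) :=
  ((measurable_const.sub hu).pow_const 2).div
    ((measurable_const.sub measurable_id).norm.pow_const _)

theorem cia2_nn (t : ℝ) (x y : Es N) : 0 ≤ t ^ 2 / ‖x - y‖ ^ (N + 2 * s) :=
  div_nonneg (sq_nonneg _) (Real.rpow_nonneg (norm_nonneg _) _)

theorem measurable_Dsq (hu : Measurable u) : Measurable (Dsq N a s u) := by
  have h : Measurable fun p : Es N × Es N =>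
      ENNReal.ofReal (a / 2 * ((u p.1 - u p.2) ^ 2 / ‖p.1 - p.2‖ ^ (N + 2 * s))) := by
    refine Measurable.ennreal_ofReal (Measurable.const_mul ?_ _)
    exact (((hu.comp measurable_fst).sub (hu.comp measurable_snd)).pow_const 2).div
      ((measurable_fst.sub measurable_snd).norm.pow_const _)
  exact h.lintegral_prod_right'

theorem measurable_Dr (hu : Measurable u) : Measurable (Dr a s u) := by
  exact (measurable_Dsq hu).ennreal_toReal

theorem Dr_nonneg : 0 ≤ Dr a s u x := by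
  exact ENNReal.toReal_nonneg

theorem Dsq_real (ha : 0 < a) (hu : Measurable u) (h : Dsq N a s u x < ⊤) :
    Integrable (fun y => (u x - u y) ^ 2 / ‖x - y‖ ^ (N + 2 * s)) ∧
      Dr a s u x = a / 2 * ∫ y, (u x - u y) ^ 2 / ‖x - y‖ ^ (N + 2 * s) := by
  have hm : Measurable fun y => a / 2 * ((u x - u y) ^ 2 / ‖x - y‖ ^ (N + 2 * s)) :=
    (cia2_m hu x).const_mul _
  have hn : 0 ≤ᵐ[volume] fun y => a / 2 * ((u x - u y) ^ 2 / ‖x - y‖ ^ (N + 2 * s)) :=
    Eventually.of_forall fun y => mul_nonneg (by positivity) (cia2_nn _ x y)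
  have hi : Integrable fun y => a / 2 * ((u x - u y) ^ 2 / ‖x - y‖ ^ (N + 2 * s)) :=
    ⟨hm.aestronglyMeasurable, (hasFiniteIntegral_iff_ofReal hn).2 h⟩
  refine ⟨?_, ?_⟩
  · refine (hi.const_mul (2 / a)).congr (Eventually.of_forall fun y => ?_)
    field_simp
  · rw [← integral_const_mul, integral_eq_lintegral_of_nonneg_ae hn hm.aestronglyMeasurable]
    rfl

theorem Dr_le {K : ℝ} (hK : 0 ≤ K) (h : Dsq N a s u x ≤ ENNReal.ofReal K) :
    Dsq N a s u x < ⊤ ∧ Dr a s u x ≤ K := by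
  exact ⟨h.trans_lt ENNReal.ofReal_lt_top, ENNReal.toReal_le_of_le_ofReal hK h⟩

theorem Dsq_add_le (ha : 0 < a) (hu : Measurable u) (hv : Measurable v) :
    Dsq N a s (fun y => u y + v y) x ≤ 2 * Dsq N a s u x + 2 * Dsq N a s v x := by
  have m1 : Measurable fun y =>
      ENNReal.ofReal (a / 2 * ((u x - u y) ^ 2 / ‖x - y‖ ^ (N + 2 * s))) :=
    ((cia2_m hu x).const_mul _).ennreal_ofReal
  have m2 : Measurable fun y =>
      ENNReal.ofReal (a / 2 * ((v x - v y) ^ 2 / ‖x - y‖ ^ (N + 2 * s))) :=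
    ((cia2_m hv x).const_mul _).ennreal_ofReal
  unfold Dsq
  rw [← lintegral_const_mul _ m1, ← lintegral_const_mul _ m2,
    ← lintegral_add_left (m1.const_mul _)]
  refine lintegral_mono fun y => ?_
  have h1 : 0 ≤ a / 2 * ((u x - u y) ^ 2 / ‖x - y‖ ^ (N + 2 * s)) :=
    mul_nonneg (by positivity) (cia2_nn _ x y)
  have h2 : 0 ≤ a / 2 * ((v x - v y) ^ 2 / ‖x - y‖ ^ (N + 2 * s)) :=
    mul_nonneg (by positivity) (cia2_nn _ x y)
  have e : ∀ t : ℝ, 2 * ENNReal.ofReal t = ENNReal.ofReal (2 * t) := fun t => by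
    rw [ENNReal.ofReal_mul (by norm_num)]
    simp
  rw [e, e, ← ENNReal.ofReal_add (by positivity) (by positivity)]
  refine ENNReal.ofReal_le_ofReal ?_
  have hw : 0 ≤ a / 2 * (‖x - y‖ ^ (N + 2 * s))⁻¹ := by positivity
  have h3 : (u x + v x - (u y + v y)) ^ 2 ≤ 2 * (u x - u y) ^ 2 + 2 * (v x - v y) ^ 2 := by
    linarith only [sq_nonneg (u x - u y - (v x - v y)), sq_nonneg (u x - u y - (v x - v y))]
  have h4 := mul_le_mul_of_nonneg_right h3 hw
  simp only [div_eq_mul_inv] at h4 ⊢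
  linarith only [h4]

theorem Dsq_mono (ha : 0 < a) {L : ℝ} (h : ∀ y, |u x - u y| ≤ L * |v x - v y|) :
    Dsq N a s u x ≤ ENNReal.ofReal (L ^ 2) * Dsq N a s v x := by
  unfold Dsq
  rw [← lintegral_const_mul' _ _ ENNReal.ofReal_ne_top]
  refine lintegral_mono fun y => ?_
  rw [← ENNReal.ofReal_mul (sq_nonneg _)]
  refine ENNReal.ofReal_le_ofReal ?_
  have hw : 0 ≤ a / 2 * (‖x - y‖ ^ (N + 2 * s))⁻¹ := by positivity
  have h3 : (u x - u y) ^ 2 ≤ L ^ 2 * (v x - v y) ^ 2 := by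
    have := pow_le_pow_left₀ (abs_nonneg _) (h y) 2
    rwa [sq_abs, mul_pow, sq_abs] at this
  have h4 := mul_le_mul_of_nonneg_right h3 hw
  simp only [div_eq_mul_inv] at h4 ⊢
  linarith only [h4]

theorem Dr_smul (ha : 0 < a) (t : ℝ) : Dr a s (fun y => t * u y) x = t ^ 2 * Dr a s u x := by
  have h : Dsq N a s (fun y => t * u y) x = ENNReal.ofReal (t ^ 2) * Dsq N a s u x := by
    unfold Dsq
    rw [← lintegral_const_mul' _ _ ENNReal.ofReal_ne_top]
    refine lintegral_congr fun y => ?_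
    rw [← ENNReal.ofReal_mul (sq_nonneg _)]
    congr 1
    ring
  have _ := ha
  unfold Dr
  rw [h, ENNReal.toReal_mul, ENNReal.toReal_ofReal (sq_nonneg _)]

theorem cia2_int2 (hu : Measurable u) (hv : Measurable v)
    (i1 : Integrable fun y => (u x - u y) ^ 2 / ‖x - y‖ ^ (N + 2 * s))
    (i2 : Integrable fun y => (v x - v y) ^ 2 / ‖x - y‖ ^ (N + 2 * s)) :
    Integrable fun y => (u x - u y) * (v x - v y) / ‖x - y‖ ^ (N + 2 * s) := by
  refine (i1.add i2).mono' (cia2_m2 hu hv x).aestronglyMeasurable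
    (Eventually.of_forall fun y => ?_)
  have hw : 0 ≤ ‖x - y‖ ^ ((N : ℝ) + 2 * s) := by positivity
  rw [Real.norm_eq_abs, abs_div, abs_of_nonneg hw, Pi.add_apply, ← add_div]
  refine div_le_div_of_nonneg_right ?_ hw
  rw [abs_le]
  constructor
  · linarith only [sq_nonneg (u x - u y + (v x - v y)), sq_nonneg (u x - u y), sq_nonneg (v x - v y), sq_nonneg (v x - v y), sq_nonneg (u x - u y), sq_nonneg (u x - u y + (v x - v y))]
  · linarith only [sq_nonneg (u x - u y - (v x - v y)), sq_nonneg (u x - u y), sq_nonneg (v x - v y), sq_nonneg (v x - v y), sq_nonneg (u x - u y), sq_nonneg (u x - u y - (v x - v y))]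

theorem cia2_exp (t : ℝ) (hu : Measurable u) (hv : Measurable v)
    (i1 : Integrable fun y => (u x - u y) ^ 2 / ‖x - y‖ ^ (N + 2 * s))
    (i2 : Integrable fun y => (v x - v y) ^ 2 / ‖x - y‖ ^ (N + 2 * s)) :
    ∫ y, (t * (u x - u y) + (v x - v y)) ^ 2 / ‖x - y‖ ^ (N + 2 * s) =
      (∫ y, (u x - u y) ^ 2 / ‖x - y‖ ^ (N + 2 * s)) * (t * t) +
        (2 * ∫ y, (u x - u y) * (v x - v y) / ‖x - y‖ ^ (N + 2 * s)) * t +
          ∫ y, (v x - v y) ^ 2 / ‖x - y‖ ^ (N + 2 * s) := by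
  have i3 := cia2_int2 hu hv i1 i2
  have j1 := i1.mul_const (t * t)
  have j3 := (i3.const_mul 2).mul_const t
  have j4 : Integrable fun y => (u x - u y) ^ 2 / ‖x - y‖ ^ (N + 2 * s) * (t * t) +
      2 * ((u x - u y) * (v x - v y) / ‖x - y‖ ^ (N + 2 * s)) * t := j1.add j3
  rw [← integral_const_mul, ← integral_mul_const, ← integral_mul_const, ← integral_add j1 j3,
    ← integral_add j4 i2]
  refine integral_congr_ae (Eventually.of_forall fun y => ?_)
  ring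

theorem Dr_cross (ha : 0 < a) (hu : Measurable u) (hv : Measurable v) (h1 : Dsq N a s u x < ⊤)
    (h2 : Dsq N a s v x < ⊤) : |Dr a s (fun y => u y + v y) x - Dr a s u x - Dr a s v x| ≤
      2 * √(Dr a s u x) * √(Dr a s v x) := by
  obtain ⟨i1, e1⟩ := Dsq_real ha hu h1
  obtain ⟨i2, e2⟩ := Dsq_real ha hv h2
  have h3 : Dsq N a s (fun y => u y + v y) x < ⊤ :=
    (Dsq_add_le ha hu hv).trans_lt (ENNReal.add_lt_top.2
      ⟨ENNReal.mul_lt_top (by simp) h1, ENNReal.mul_lt_top (by simp) h2⟩)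
  obtain ⟨-, e3⟩ := Dsq_real (u := fun y => u y + v y) ha (hu.add hv) h3
  have e4 := cia2_exp 1 hu hv i1 i2
  have e5 : ∫ y, (u x + v x - (u y + v y)) ^ 2 / ‖x - y‖ ^ (N + 2 * s) =
      ∫ y, (1 * (u x - u y) + (v x - v y)) ^ 2 / ‖x - y‖ ^ (N + 2 * s) := by
    refine integral_congr_ae (Eventually.of_forall fun y => ?_)
    ring
  have hd := discrim_le_zero fun t => (cia2_exp t hu hv i1 i2) ▸
    integral_nonneg fun y => cia2_nn (s := s) (t * (u x - u y) + (v x - v y)) x y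
  have n1 : 0 ≤ Dr a s u x := Dr_nonneg
  have n2 : 0 ≤ Dr a s v x := Dr_nonneg
  rw [mul_assoc, ← Real.sqrt_mul n1, e3, e5, e4]
  rw [discrim] at hd
  generalize ∫ y, (u x - u y) * (v x - v y) / ‖x - y‖ ^ (N + 2 * s) = c at hd ⊢
  have e6 : a / 2 * ((∫ y, (u x - u y) ^ 2 / ‖x - y‖ ^ (N + 2 * s)) * (1 * 1) + 2 * c * 1 +
      ∫ y, (v x - v y) ^ 2 / ‖x - y‖ ^ (N + 2 * s)) - Dr a s u x - Dr a s v x =
        2 * (a / 2 * c) := by
    rw [e1, e2]
    ring
  rw [e6, abs_mul, abs_two]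
  refine mul_le_mul_of_nonneg_left (Real.abs_le_sqrt ?_) (by norm_num)
  rw [e1, e2]
  linarith only [hd, mul_le_mul_of_nonneg_left hd (sq_nonneg (a / 4)), sq_nonneg (a / (4 : ℝ))]

theorem Dr_sqrt_add (ha : 0 < a) (hu : Measurable u) (hv : Measurable v) (h1 : Dsq N a s u x < ⊤)
    (h2 : Dsq N a s v x < ⊤) :
    √(Dr a s (fun y => u y + v y) x) ≤ √(Dr a s u x) + √(Dr a s v x) := by
  have h := (abs_le.1 (Dr_cross ha hu hv h1 h2)).2
  have n1 : 0 ≤ Dr a s u x := Dr_nonneg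
  have n2 : 0 ≤ Dr a s v x := Dr_nonneg
  refine Real.sqrt_le_iff.2 ⟨by positivity, ?_⟩
  linarith only [h, n1, n2, Real.sq_sqrt n1, Real.sq_sqrt n2]

theorem cia2_set {S : Set (Es N)} {α K : ℝ} (hK : 0 ≤ K)
    (hi : IntegrableOn (fun y => ‖x - y‖ ^ (-α)) S) :
    ∫⁻ y in S, ENNReal.ofReal (K * ‖x - y‖ ^ (-α)) =
      ENNReal.ofReal (K * ∫ y in S, ‖x - y‖ ^ (-α)) := by
  rw [← integral_const_mul, ofReal_integral_eq_lintegral_ofReal (hi.const_mul K)
    (Eventually.of_forall fun y => by positivity)]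

theorem Dsq_lip (hp : Par N a s) : ∃ C > 0, ∀ (u : Es N → ℝ) (x : Es N) (L M R : ℝ), 0 < R →
    (∀ y, ‖x - y‖ < R → |u x - u y| ≤ L * ‖x - y‖) → (∀ y, |u x - u y| ≤ M) →
      Dsq N a s u x ≤ ENNReal.ofReal (C * (L ^ 2 * R ^ (2 - 2 * s) + M ^ 2 * R ^ (-(2 * s)))) := by
  have hN : 1 ≤ N := le_trans (by norm_num) hp.hN
  have ha := hp.ha
  have hs := hp.hs
  have hs1 := hp.hs1
  obtain ⟨C1, c1, b1⟩ := ball_int hN (α := N + 2 * s - 2) (by linarith only [hs1])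
  obtain ⟨C2, c2, b2⟩ := tail_int hN (γ := N + 2 * s) (by linarith only [hs, hs1])
  refine ⟨a / 2 * (C1 + C2), by positivity, fun u x L M R hR hL hM => ?_⟩
  obtain ⟨i1, e1⟩ := b1 x R hR
  obtain ⟨i2, e2⟩ := b2 x R hR
  have f1 : (N : ℝ) - (N + 2 * s - 2) = 2 - 2 * s := by ring
  have f2 : (N : ℝ) - (N + 2 * s) = -(2 * s) := by ring
  rw [f1] at e1
  rw [f2] at e2
  unfold Dsq
  rw [← lintegral_add_compl _ (measurableSet_ball (x := x) (ε := R))]
  have k1 : ∫⁻ y in ball x R, ENNReal.ofReal (a / 2 * ((u x - u y) ^ 2 / ‖x - y‖ ^ (N + 2 * s))) ≤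
      ∫⁻ y in ball x R, ENNReal.ofReal (a / 2 * L ^ 2 * ‖x - y‖ ^ (-(N + 2 * s - 2))) := by
    refine setLIntegral_mono' measurableSet_ball fun y hy => ENNReal.ofReal_le_ofReal ?_
    rw [mul_assoc]
    refine mul_le_mul_of_nonneg_left ?_ (by positivity)
    by_cases hxy : y = x
    · rw [hxy, sub_self (u x), zero_pow two_ne_zero, zero_div]
      positivity
    have hn : 0 < ‖x - y‖ := norm_pos_iff.2 (sub_ne_zero.2 (Ne.symm hxy))
    have h3 : (u x - u y) ^ 2 ≤ L ^ 2 * ‖x - y‖ ^ 2 := by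
      have := pow_le_pow_left₀ (abs_nonneg _) (hL y (by rwa [mem_ball', dist_eq_norm] at hy)) 2
      rwa [sq_abs, mul_pow] at this
    rw [neg_sub, Real.rpow_sub hn, Real.rpow_two, ← mul_div_assoc]
    exact div_le_div_of_nonneg_right h3 (by positivity)
  have k2 : ∫⁻ y in (ball x R)ᶜ,
      ENNReal.ofReal (a / 2 * ((u x - u y) ^ 2 / ‖x - y‖ ^ (N + 2 * s))) ≤
      ∫⁻ y in (ball x R)ᶜ, ENNReal.ofReal (a / 2 * M ^ 2 * ‖x - y‖ ^ (-(N + 2 * s))) := by
    refine lintegral_mono fun y => ENNReal.ofReal_le_ofReal ?_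
    rw [mul_assoc]
    refine mul_le_mul_of_nonneg_left ?_ (by positivity)
    have h3 : (u x - u y) ^ 2 ≤ M ^ 2 := by
      have := pow_le_pow_left₀ (abs_nonneg _) (hM y) 2
      rwa [sq_abs] at this
    rw [Real.rpow_neg (norm_nonneg _), ← div_eq_mul_inv]
    exact div_le_div_of_nonneg_right h3 (by positivity)
  rw [cia2_set (by positivity) i1, e1] at k1
  rw [cia2_set (by positivity) i2, e2] at k2
  refine (add_le_add k1 k2).trans ?_
  rw [← ENNReal.ofReal_add (by positivity) (by positivity)]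
  refine ENNReal.ofReal_le_ofReal ?_
  have p1 : 0 ≤ a / 2 * C2 * (L ^ 2 * R ^ (2 - 2 * s)) := by positivity
  have p2 : 0 ≤ a / 2 * C1 * (M ^ 2 * R ^ (-(2 * s))) := by positivity
  linarith only [p1, p2]

theorem Dsq_small (hp : Par N a s) (L : ℝ) {τ : ℝ} (hτ : 0 < τ) : ∃ δ > 0, ∀ u : Es N → ℝ,
    (∀ x y, |u x - u y| ≤ L * ‖x - y‖) → (∀ y, |u y| ≤ δ) →
      ∀ x, Dsq N a s u x ≤ ENNReal.ofReal τ := by
  obtain ⟨C, hC, h⟩ := Dsq_lip hp
  have hs1 := hp.hs1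
  have hη : 0 < τ / (2 * C * (L ^ 2 + 1)) := by positivity
  obtain ⟨R, hR, eR⟩ : ∃ R : ℝ, 0 < R ∧ R ^ (2 - 2 * s) = τ / (2 * C * (L ^ 2 + 1)) :=
    ⟨(τ / (2 * C * (L ^ 2 + 1))) ^ (2 - 2 * s)⁻¹, by positivity,
      Real.rpow_inv_rpow hη.le (by linarith only [hs1])⟩
  have hK : 0 < R ^ (-(2 * s)) := by positivity
  refine ⟨√(τ / (8 * C * R ^ (-(2 * s)))), by positivity, fun u hL hM x => ?_⟩
  refine (h u x L (2 * √(τ / (8 * C * R ^ (-(2 * s))))) R hR (fun y _ => hL x y) fun y => ?_).trans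
    (ENNReal.ofReal_le_ofReal ?_)
  · have := abs_sub (u x) (u y)
    linarith only [this, hM, hM x, hM y]
  · rw [eR, mul_pow, Real.sq_sqrt (by positivity)]
    have q1 : C * (2 ^ 2 * (τ / (8 * C * R ^ (-(2 * s)))) * R ^ (-(2 * s))) = τ / 2 := by
      field_simp
      ring
    have q2 : C * ((L ^ 2 + 1) * (τ / (2 * C * (L ^ 2 + 1)))) = τ / 2 := by
      field_simp
    have q3 : 0 ≤ C * (τ / (2 * C * (L ^ 2 + 1))) := by positivity
    linarith only [q1, q2, q3]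

theorem Dsq_congr (h : ∀ᵐ x, u x = v x) : ∀ᵐ x, Dsq N a s u x = Dsq N a s v x := by
  filter_upwards [h] with x hx
  refine lintegral_congr_ae ?_
  filter_upwards [h] with y hy
  rw [hx, hy]

theorem poincare_pt (hp : Par N a s) (hΩ : Dom Ω) : ∃ C > 0, ∀ u : Es N → ℝ,
    (∀ y, y ∉ Ω → u y = 0) → ∀ x ∈ Ω, ENNReal.ofReal (u x ^ 2) ≤ ENNReal.ofReal C * Dsq N a s u x := by
  have hN : 1 ≤ N := le_trans (by norm_num) hp.hN
  have ha := hp.ha
  have hs := hp.hs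
  obtain ⟨C2, c2, b2⟩ := tail_int hN (γ := N + 2 * s) (by linarith only [hs])
  obtain ⟨R, hR, hb⟩ := hΩ.bd.subset_ball_lt 0 (0 : Es N)
  have hK : 0 < a / 2 * (C2 * (2 * R) ^ ((N : ℝ) - (N + 2 * s))) := by positivity
  refine ⟨(a / 2 * (C2 * (2 * R) ^ ((N : ℝ) - (N + 2 * s))))⁻¹, inv_pos.2 hK, fun u hu x hx => ?_⟩
  obtain ⟨i2, e2⟩ := b2 x (2 * R) (by positivity)
  have k : ∫⁻ y in (ball x (2 * R))ᶜ,
      ENNReal.ofReal (a / 2 * u x ^ 2 * ‖x - y‖ ^ (-(N + 2 * s))) ≤ Dsq N a s u x := by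
    refine le_trans (setLIntegral_mono' measurableSet_ball.compl fun y hy => le_of_eq ?_)
      (setLIntegral_le_lintegral _ _)
    have hy0 : u y = 0 := by
      refine hu y fun hy' => hy ?_
      have d1 := mem_ball.1 (hb hx)
      have d2 := mem_ball.1 (hb hy')
      have d3 := dist_triangle_right y x 0
      rw [mem_ball]
      linarith only [d1, d2, d3]
    rw [hy0, sub_zero, Real.rpow_neg (norm_nonneg _), mul_assoc, ← div_eq_mul_inv]
  rw [cia2_set (by positivity) i2, e2] at k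
  refine le_trans (le_of_eq ?_) (mul_le_mul_right k _)
  rw [← ENNReal.ofReal_mul (inv_pos.2 hK).le]
  congr 1
  field_simp

end

end Pool.Agent.Work.MP_49e099_an
end

-- merged part: Pool.Agent.Work.MP_49e099_an.CI.A3
section
/-!
# The energy form
The quotient `(u x - u y) / ‖x - y‖^((N + 2s)/2)` is in `L²` of the product measure when `FE a s u` (`lintegral_prod`); `FE.prod` by `2 |p q| ≤ p² + q²`. `En_prod`: `integral_prod`. Then bilinearity on the product space, Cauchy-Schwarz by the discriminant (`discrim_le_zero`) or Hölder.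
-/

namespace Pool.Agent.Work.MP_49e099_an

open MeasureTheory Set Filter Topology Metric

noncomputable section

variable {N : ℕ} {a s : ℝ} {Ω : Set (Es N)}

variable {u v w : Es N → ℝ}

theorem FE.ae (h : FE a s u) : ∀ᵐ x, Dsq N a s u x < ⊤ := by
  exact ae_lt_top (measurable_Dsq h.meas) h.fin.ne

theorem FE.intDr (h : FE a s u) : Integrable (Dr a s u) := by
  exact integrable_toReal_of_lintegral_ne_top (measurable_Dsq h.meas).aemeasurable h.fin.ne

theorem cia3_meas (hu : Measurable u) (hv : Measurable v) : Measurable fun p : Es N × Es N =>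
    (u p.1 - u p.2) * (v p.1 - v p.2) / ‖p.1 - p.2‖ ^ (N + 2 * s) :=
  (((hu.comp measurable_fst).sub (hu.comp measurable_snd)).mul
    ((hv.comp measurable_fst).sub (hv.comp measurable_snd))).div
    ((measurable_fst.sub measurable_snd).norm.pow_const _)

theorem cia3_sq (ha : 0 < a) (hu : FE a s u) :
    Integrable (fun p : Es N × Es N => (u p.1 - u p.2) ^ 2 / ‖p.1 - p.2‖ ^ (N + 2 * s))
      (volume.prod volume) := by
  have hm : Measurable fun p : Es N × Es N =>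
      a / 2 * ((u p.1 - u p.2) ^ 2 / ‖p.1 - p.2‖ ^ (N + 2 * s)) := by
    simp only [sq]
    exact (cia3_meas hu.meas hu.meas).const_mul _
  have h : Integrable (fun p : Es N × Es N =>
      a / 2 * ((u p.1 - u p.2) ^ 2 / ‖p.1 - p.2‖ ^ (N + 2 * s))) (volume.prod volume) := by
    refine ⟨hm.aestronglyMeasurable, ?_⟩
    rw [hasFiniteIntegral_iff_ofReal (ae_of_all _ fun p => by positivity),
      lintegral_prod _ hm.ennreal_ofReal.aemeasurable]
    exact hu.fin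
  refine (h.const_mul (2 / a)).congr (ae_of_all _ fun p => ?_)
  have := ha.ne'
  field_simp

theorem FE.prod (ha : 0 < a) (hu : FE a s u) (hv : FE a s v) :
    Integrable (fun p : Es N × Es N => (u p.1 - u p.2) * (v p.1 - v p.2) / ‖p.1 - p.2‖ ^ (N + 2 * s))
      (volume.prod volume) := by
  refine ((cia3_sq ha hu).add (cia3_sq ha hv)).mono'
    (cia3_meas hu.meas hv.meas).aestronglyMeasurable (ae_of_all _ fun p => ?_)
  have hw : 0 ≤ ‖p.1 - p.2‖ ^ (N + 2 * s) := Real.rpow_nonneg (norm_nonneg _) _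
  rw [Pi.add_apply, ← add_div, Real.norm_eq_abs, abs_div, abs_of_nonneg hw]
  refine div_le_div_of_nonneg_right (abs_le.2 ⟨?_, ?_⟩) hw
  · linarith only [sq_nonneg (u p.1 - u p.2 + (v p.1 - v p.2)), sq_nonneg (u p.1 - u p.2),
      sq_nonneg (v p.1 - v p.2), sq_nonneg (v p.1 - v p.2), sq_nonneg (u p.1 - u p.2), sq_nonneg (u p.1 - u p.2 + (v p.1 - v p.2))]
  · linarith only [sq_nonneg (u p.1 - u p.2 - (v p.1 - v p.2)), sq_nonneg (u p.1 - u p.2),
      sq_nonneg (v p.1 - v p.2), sq_nonneg (v p.1 - v p.2), sq_nonneg (u p.1 - u p.2), sq_nonneg (u p.1 - u p.2 - (v p.1 - v p.2))]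

theorem En_prod (ha : 0 < a) (hu : FE a s u) (hv : FE a s v) : En N a s u v = a / 2 *
    ∫ p : Es N × Es N, (u p.1 - u p.2) * (v p.1 - v p.2) / ‖p.1 - p.2‖ ^ (N + 2 * s)
      ∂(volume.prod volume) := by
  rw [En, integral_prod _ (FE.prod ha hu hv)]

theorem En_self (ha : 0 < a) (hu : FE a s u) : En N a s u u = ∫ x, Dr a s u x ∧
    ENNReal.ofReal (En N a s u u) = ∫⁻ x, Dsq N a s u x := by
  have h1 : En N a s u u = ∫ x, Dr a s u x := by
    rw [En, ← integral_const_mul]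
    refine integral_congr_ae (hu.ae.mono fun x hx => ?_)
    simp only [(Dsq_real ha hu.meas hx).2, sq]
  refine ⟨h1, ?_⟩
  rw [h1]
  unfold Dr
  rw [integral_toReal (measurable_Dsq hu.meas).aemeasurable hu.ae, ENNReal.ofReal_toReal hu.fin.ne]

theorem En_nonneg (ha : 0 < a) (u : Es N → ℝ) : 0 ≤ En N a s u u := by
  exact mul_nonneg (by positivity) (integral_nonneg fun x => integral_nonneg fun y =>
    div_nonneg (mul_self_nonneg _) (Real.rpow_nonneg (norm_nonneg _) _))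

theorem En_comm (u v : Es N → ℝ) : En N a s u v = En N a s v u := by
  simp only [En, mul_comm]

theorem FE.add (ha : 0 < a) (hu : FE a s u) (hv : FE a s v) : FE a s fun x => u x + v x := by
  refine ⟨hu.meas.add hv.meas, ?_⟩
  refine (lintegral_mono fun x => Dsq_add_le ha hu.meas hv.meas).trans_lt ?_
  rw [lintegral_add_left ((measurable_Dsq hu.meas).const_mul _),
    lintegral_const_mul _ (measurable_Dsq hu.meas), lintegral_const_mul _ (measurable_Dsq hv.meas)]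
  exact ENNReal.add_lt_top.2 ⟨ENNReal.mul_lt_top (by simp) hu.fin, ENNReal.mul_lt_top (by simp) hv.fin⟩

theorem FE.of_le (ha : 0 < a) (hv : FE a s v) (hu : Measurable u) {L : ℝ}
    (h : ∀ x y, |u x - u y| ≤ L * |v x - v y|) : FE a s u ∧ En N a s u u ≤ L ^ 2 * En N a s v v := by
  have h1 : ∫⁻ x, Dsq N a s u x ≤ ENNReal.ofReal (L ^ 2) * ∫⁻ x, Dsq N a s v x := by
    rw [← lintegral_const_mul _ (measurable_Dsq hv.meas)]
    exact lintegral_mono fun x => Dsq_mono ha (h x)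
  have hU : FE a s u := ⟨hu, h1.trans_lt (ENNReal.mul_lt_top ENNReal.ofReal_lt_top hv.fin)⟩
  refine ⟨hU, ?_⟩
  rw [← (En_self ha hU).2, ← (En_self ha hv).2, ← ENNReal.ofReal_mul (sq_nonneg L)] at h1
  exact (ENNReal.ofReal_le_ofReal_iff (mul_nonneg (sq_nonneg L) (En_nonneg ha v))).1 h1

theorem FE.smul (ha : 0 < a) (hu : FE a s u) (t : ℝ) : FE a s fun x => t * u x := by
  exact (FE.of_le ha hu (hu.meas.const_mul t) (L := |t|) fun x y => by
    rw [← mul_sub, abs_mul]).1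

theorem FE.sub (ha : 0 < a) (hu : FE a s u) (hv : FE a s v) : FE a s fun x => u x - v x := by
  simpa only [neg_one_mul, ← sub_eq_add_neg] using hu.add ha (hv.smul ha (-1))

theorem En_add (ha : 0 < a) (hu : FE a s u) (hv : FE a s v) (hw : FE a s w) :
    En N a s u (fun x => v x + w x) = En N a s u v + En N a s u w := by
  rw [En_prod ha hu (hv.add ha hw), En_prod ha hu hv, En_prod ha hu hw, ← mul_add,
    ← integral_add (hu.prod ha hv) (hu.prod ha hw)]
  congr 2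
  funext p
  ring

theorem En_sub (ha : 0 < a) (hu : FE a s u) (hv : FE a s v) (hw : FE a s w) :
    En N a s u (fun x => v x - w x) = En N a s u v - En N a s u w := by
  rw [En_prod ha hu (hv.sub ha hw), En_prod ha hu hv, En_prod ha hu hw, ← mul_sub,
    ← integral_sub (hu.prod ha hv) (hu.prod ha hw)]
  congr 2
  funext p
  ring

theorem En_smul (u v : Es N → ℝ) (t : ℝ) : En N a s u (fun x => t * v x) = t * En N a s u v := by
  have e : ∀ x y : Es N, (u x - u y) * (t * v x - t * v y) / ‖x - y‖ ^ (N + 2 * s) =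
      t * ((u x - u y) * (v x - v y) / ‖x - y‖ ^ (N + 2 * s)) := fun x y => by ring
  simp only [En, e, integral_const_mul]
  ring

theorem cia3_exp (ha : 0 < a) (hu : FE a s u) (hv : FE a s v) :
    (En N a s (fun x => u x + v x) fun x => u x + v x) =
      En N a s u u + 2 * En N a s u v + En N a s v v := by
  rw [En_add ha (hu.add ha hv) hu hv, En_comm _ u, En_comm _ v, En_add ha hu hu hv,
    En_add ha hv hu hv, En_comm v u]
  ring

theorem En_cs (ha : 0 < a) (hu : FE a s u) (hv : FE a s v) :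
    |En N a s u v| ≤ √(En N a s u u) * √(En N a s v v) := by
  have h : discrim (En N a s v v) (2 * En N a s u v) (En N a s u u) ≤ 0 := by
    refine discrim_le_zero fun t => ?_
    have h1 := En_nonneg (s := s) ha fun x => u x + t * v x
    rw [cia3_exp ha hu (hv.smul ha t), En_smul, En_smul, En_comm (fun x => t * v x) v, En_smul] at h1
    linarith
  rw [← Real.sqrt_mul (En_nonneg ha u)]
  refine Real.abs_le_sqrt ?_
  unfold discrim at h
  linarith

theorem En_tri (ha : 0 < a) (hu : FE a s u) (hv : FE a s v) :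
    √(En N a s (fun x => u x + v x) fun x => u x + v x) ≤ √(En N a s u u) + √(En N a s v v) := by
  rw [cia3_exp ha hu hv]
  refine Real.sqrt_le_iff.2 ⟨by positivity, ?_⟩
  have h1 := (le_abs_self _).trans (En_cs ha hu hv)
  rw [add_sq, Real.sq_sqrt (En_nonneg ha u), Real.sq_sqrt (En_nonneg ha v)]
  linarith only [h1]

theorem En_congr {u' v' : Es N → ℝ} (hu : ∀ᵐ x, u x = u' x) (hv : ∀ᵐ x, v x = v' x) :
    En N a s u v = En N a s u' v' := by
  unfold En
  congr 1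
  refine integral_congr_ae ?_
  filter_upwards [hu, hv] with x hx hx'
  refine integral_congr_ae ?_
  filter_upwards [hu, hv] with y hy hy'
  rw [hx, hx', hy, hy']

/-- if the energy of the difference tends to zero then the forms converge -/
theorem En_tendsto (ha : 0 < a) (hu : FE a s u) {z : ℕ → Es N → ℝ} (hz : ∀ n, FE a s (z n))
    (hv : FE a s v) (h : Tendsto (fun n => En N a s (fun x => z n x - v x) fun x => z n x - v x)
      atTop (𝓝 0)) : Tendsto (fun n => En N a s u (z n)) atTop (𝓝 (En N a s u v)) := by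
  rw [tendsto_iff_norm_sub_tendsto_zero]
  have h1 := (h.sqrt).const_mul (√(En N a s u u))
  rw [Real.sqrt_zero, mul_zero] at h1
  refine squeeze_zero (fun n => norm_nonneg _) (fun n => ?_) h1
  rw [← En_sub ha hu (hz n) hv, Real.norm_eq_abs]
  exact En_cs ha hu ((hz n).sub ha hv)

end

end Pool.Agent.Work.MP_49e099_an
end

-- merged part: Pool.Agent.Work.MP_49e099_an.CI.A4
section
/-!
# The space `W0`
`half`: for `x ∉ Ω` the integrand vanishes unless `y ∈ Ω`; swap the variables (`lintegral_lintegral_swap`). `poincare`: integrate `poincare_pt`; the `L¹` bound by Cauchy-Schwarz on `Ω`. `W0.of_lip`: `Dsq_lip` with `R = 1` (a Lipschitz function vanishing off a bounded set is bounded), `half`.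
`InW0.rep`: `Ω.indicator (hu.1.mk u)`; `lintegral_const_mul'`, `Dsq_congr`.
-/

namespace Pool.Agent.Work.MP_49e099_an

open MeasureTheory Set Filter Topology Metric

noncomputable section

variable {N : ℕ} {a s : ℝ} {Ω : Set (Es N)}

variable {u v : Es N → ℝ}

theorem Dom.fin (hΩ : Dom Ω) : volume Ω < ⊤ := by
  exact hΩ.bd.measure_lt_top

theorem Dom.ball (hΩ : Dom Ω) : ∃ R > 0, ∀ x ∈ Ω, ‖x‖ < R := by
  obtain ⟨R, h1, h2⟩ := hΩ.bd.subset_ball_lt 0 0
  exact ⟨R, h1, fun x hx => mem_ball_zero_iff.1 (h2 hx)⟩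

theorem half (hΩ : MeasurableSet Ω) (hu : Measurable u) (h : ∀ x, x ∉ Ω → u x = 0) :
    ∫⁻ x, Dsq N a s u x ≤ 2 * ∫⁻ x in Ω, Dsq N a s u x := by
  obtain ⟨F, hF⟩ : ∃ F : Es N → Es N → ENNReal, ∀ x y,
      ENNReal.ofReal (a / 2 * ((u x - u y) ^ 2 / ‖x - y‖ ^ (N + 2 * s))) = F x y :=
    ⟨_, fun _ _ => rfl⟩
  have hm : Measurable (Function.uncurry F) := by
    rw [← funext₂ hF]
    unfold Function.uncurry
    fun_prop
  have hs : ∀ x y, F x y = F y x := fun x y => by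
    rw [← hF, ← hF, norm_sub_rev, sub_sq_comm]
  simp only [Dsq, hF]
  rw [← lintegral_add_compl _ hΩ, two_mul]
  refine add_le_add le_rfl ?_
  calc _ = ∫⁻ x in Ωᶜ, ∫⁻ y in Ω, F x y := setLIntegral_congr_fun hΩ.compl fun x hx => by
        refine (setLIntegral_eq_of_support_subset fun y hy => by_contra fun k => hy ?_).symm
        simp [← hF, h x hx, h y k]
    _ ≤ ∫⁻ x, ∫⁻ y in Ω, F x y := setLIntegral_le_lintegral _ _
    _ = ∫⁻ y in Ω, ∫⁻ x, F x y := lintegral_lintegral_swap hm.aemeasurable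
    _ = _ := by simp only [hs _ _]

theorem W0.half (ha : 0 < a) (hΩ : MeasurableSet Ω) (hu : W0 a s Ω u) :
    En N a s u u ≤ 2 * ∫ x in Ω, Dr a s u x := by
  have h1 : ∫⁻ x in Ω, Dsq N a s u x < ⊤ := (setLIntegral_le_lintegral _ _).trans_lt hu.fin
  have h2 : ∫ x in Ω, Dr a s u x = (∫⁻ x in Ω, Dsq N a s u x).toReal :=
    integral_toReal (measurable_Dsq hu.meas).aemeasurable (ae_restrict_of_ae hu.ae)
  have h3 := ENNReal.toReal_mono (ENNReal.mul_ne_top ENNReal.ofNat_ne_top h1.ne)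
    (Pool.Agent.Work.MP_49e099_an.half hΩ hu.meas hu.zero)
  rwa [← (En_self ha hu.toFE).2, ENNReal.toReal_ofReal (En_nonneg ha u), ENNReal.toReal_mul,
    ENNReal.toReal_ofNat, ← h2] at h3

theorem cia4_pt (hp : Par N a s) (hΩ : Dom Ω) : ∃ C > 0, ∀ u : Es N → ℝ, W0 a s Ω u →
    ∀ᵐ x, u x ^ 2 ≤ C * Dr a s u x := by
  obtain ⟨C, h1, h2⟩ := poincare_pt hp hΩ
  refine ⟨C, h1, fun u hu => ?_⟩
  filter_upwards [hu.ae] with x hx
  by_cases k : x ∈ Ω
  · have h3 := ENNReal.toReal_mono (ENNReal.mul_ne_top ENNReal.ofReal_ne_top hx.ne)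
      (h2 u hu.zero x k)
    rwa [ENNReal.toReal_ofReal (sq_nonneg _), ENNReal.toReal_mul,
      ENNReal.toReal_ofReal h1.le] at h3
  · rw [hu.zero x k, sq, mul_zero]
    exact mul_nonneg h1.le Dr_nonneg

theorem W0.memLp (hp : Par N a s) (hΩ : Dom Ω) (hu : W0 a s Ω u) : MemLp u 2 volume := by
  obtain ⟨C, -, h2⟩ := cia4_pt hp hΩ
  refine (memLp_two_iff_integrable_sq hu.meas.aestronglyMeasurable).2
    ((hu.intDr.const_mul C).mono' (hu.meas.pow_const 2).aestronglyMeasurable ?_)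
  filter_upwards [h2 u hu] with x hx
  rwa [Real.norm_of_nonneg (sq_nonneg _)]

theorem W0.int (hp : Par N a s) (hΩ : Dom Ω) (hu : W0 a s Ω u) : Integrable u := by
  have : IsFiniteMeasure (volume.restrict Ω) := isFiniteMeasure_restrict.2 hΩ.fin.ne
  exact (integrableOn_iff_integrable_of_support_subset fun x hx =>
    by_contra fun k => hx (hu.zero x k)).1 (((hu.memLp hp hΩ).restrict Ω).integrable one_le_two)

theorem poincare (hp : Par N a s) (hΩ : Dom Ω) : ∃ C > 0, ∀ u : Es N → ℝ, W0 a s Ω u →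
    ∫ x, u x ^ 2 ≤ C * En N a s u u ∧ ∫ x, |u x| ≤ C * √(En N a s u u) := by
  have : IsFiniteMeasure (volume.restrict Ω) := isFiniteMeasure_restrict.2 hΩ.fin.ne
  obtain ⟨C, h1, h2⟩ := cia4_pt hp hΩ
  obtain ⟨V, hV⟩ : ∃ V, V = volume.real Ω + 1 := ⟨_, rfl⟩
  have hV0 : 0 < V := hV ▸ add_pos_of_nonneg_of_pos measureReal_nonneg one_pos
  refine ⟨C + √(V * C), by positivity, fun u hu => ?_⟩
  have hE := En_nonneg (s := s) hp.ha u
  have hi := (hu.memLp hp hΩ).integrable_sq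
  have h3 : ∫ x, u x ^ 2 ≤ C * En N a s u u := by
    rw [(En_self hp.ha hu.toFE).1, ← integral_const_mul]
    exact integral_mono_ae hi (hu.intDr.const_mul C) (h2 u hu)
  refine ⟨h3.trans (mul_le_mul_of_nonneg_right (le_add_of_nonneg_right (Real.sqrt_nonneg _)) hE),
    le_trans ?_ (mul_le_mul_of_nonneg_right (le_add_of_nonneg_left h1.le) (Real.sqrt_nonneg _))⟩
  obtain ⟨t, ht⟩ : ∃ t, ∫ x, |u x| = t * V := ⟨_, (div_mul_cancel₀ _ hV0.ne').symm⟩
  have h4 : ∫ x in Ω, 2 * t * |u x| ≤ ∫ x in Ω, (u x ^ 2 + t ^ 2) :=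
    integral_mono ((hu.int hp hΩ).abs.const_mul _).integrableOn
      (hi.integrableOn.add (integrable_const _)) fun x => by
        beta_reduce
        linarith only [sq_nonneg (|u x| - t), sq_abs (u x), sq_nonneg (|u x| - t)]
  rw [integral_const_mul, integral_add hi.integrableOn (integrable_const _), setIntegral_const,
    setIntegral_eq_integral_of_forall_compl_eq_zero fun x hx => by rw [hu.zero x hx, abs_zero],
    setIntegral_eq_integral_of_forall_compl_eq_zero fun x hx => by rw [hu.zero x hx, sq, mul_zero],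
    ht, smul_eq_mul, show volume.real Ω = V - 1 by rw [hV]; ring] at h4
  rw [ht, ← Real.sqrt_mul (by positivity)]
  refine Real.le_sqrt_of_sq_le ?_
  have h5 : t ^ 2 * V ≤ C * En N a s u u := by linarith only [h3, h4, sq_nonneg t, sq_nonneg t]
  linarith only [h5, hV0, mul_le_mul_of_nonneg_left h5 hV0.le]

theorem W0.ae_zero (hp : Par N a s) (hΩ : Dom Ω) (hu : W0 a s Ω u) (h : En N a s u u ≤ 0) :
    ∀ᵐ x, u x = 0 := by
  obtain ⟨C, h1, h2⟩ := poincare hp hΩ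
  have h3 := (integral_eq_zero_iff_of_nonneg (fun x => sq_nonneg (u x))
    (hu.memLp hp hΩ).integrable_sq).1 (le_antisymm
      ((h2 u hu).1.trans (mul_nonpos_of_nonneg_of_nonpos h1.le h))
      (integral_nonneg fun x => sq_nonneg (u x)))
  filter_upwards [h3] with x hx using pow_eq_zero_iff two_ne_zero |>.1 hx

theorem W0.zero' : W0 a s Ω fun _ => 0 := by
  exact ⟨⟨measurable_const, by simp [Dsq]⟩, fun _ _ => rfl⟩

theorem W0.add (ha : 0 < a) (hu : W0 a s Ω u) (hv : W0 a s Ω v) : W0 a s Ω fun x => u x + v x := by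
  exact ⟨hu.toFE.add ha hv.toFE, fun x hx => by rw [hu.zero x hx, hv.zero x hx, add_zero]⟩

theorem W0.sub (ha : 0 < a) (hu : W0 a s Ω u) (hv : W0 a s Ω v) : W0 a s Ω fun x => u x - v x := by
  exact ⟨hu.toFE.sub ha hv.toFE, fun x hx => by rw [hu.zero x hx, hv.zero x hx, sub_zero]⟩

theorem W0.smul (ha : 0 < a) (hu : W0 a s Ω u) (t : ℝ) : W0 a s Ω fun x => t * u x := by
  exact ⟨hu.toFE.smul ha t, fun x hx => by rw [hu.zero x hx, mul_zero]⟩

theorem W0.sum (ha : 0 < a) {ι : Type} (T : Finset ι) {z : ι → Es N → ℝ}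
    (h : ∀ i ∈ T, W0 a s Ω (z i)) : W0 a s Ω fun x => ∑ i ∈ T, z i x := by
  induction T using Finset.cons_induction with
  | empty => simpa using W0.zero'
  | cons i T hi ih =>
    simp only [Finset.sum_cons]
    exact (h i (Finset.mem_cons_self _ _)).add ha (ih fun j hj => h j (Finset.mem_cons_of_mem hj))

theorem W0.comp (ha : 0 < a) (hu : W0 a s Ω u) {Φ : ℝ → ℝ} {L : ℝ}
    (h : ∀ p q, |Φ p - Φ q| ≤ L * |p - q|) (h0 : Φ 0 = 0) : W0 a s Ω fun x => Φ (u x) := by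
  have hc : Continuous Φ := (LipschitzWith.of_dist_le' h).continuous
  exact ⟨(hu.toFE.of_le ha (hc.measurable.comp hu.meas) fun x y => h _ _).1,
    fun x hx => by rw [hu.zero x hx, h0]⟩

theorem cia4_sq (ha : 0 < a) (hu : FE a s u) {M : ℝ} (h : ∀ x, |u x| ≤ M) :
    FE a s fun x => u x ^ 2 := by
  refine (hu.of_le ha (hu.meas.pow_const 2) (L := M + M) fun x y => ?_).1
  rw [sq_sub_sq, abs_mul]
  exact mul_le_mul_of_nonneg_right ((abs_add_le _ _).trans (add_le_add (h x) (h y))) (abs_nonneg _)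

theorem W0.mul (ha : 0 < a) (hu : W0 a s Ω u) (hv : FE a s v) (bu : ∃ M, ∀ x, |u x| ≤ M)
    (bv : ∃ M, ∀ x, |v x| ≤ M) : W0 a s Ω fun x => u x * v x := by
  obtain ⟨M, hM⟩ := bu
  obtain ⟨M', hM'⟩ := bv
  have h1 := ((cia4_sq ha (hu.toFE.add ha hv) fun x =>
    (abs_add_le _ _).trans (add_le_add (hM x) (hM' x))).sub ha (cia4_sq ha (hu.toFE.sub ha hv)
      fun x => (abs_sub _ _).trans (add_le_add (hM x) (hM' x)))).smul ha (1 / 4)
  refine ⟨?_, fun x hx => by rw [hu.zero x hx, zero_mul]⟩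
  rwa [show (fun x => u x * v x) = fun x => 1 / 4 * ((u x + v x) ^ 2 - (u x - v x) ^ 2) from
    funext fun x => by ring]

theorem cia4_bdd (hΩ : Dom Ω) (hc : Continuous u) (h0 : ∀ x, x ∉ Ω → u x = 0) :
    ∃ M, ∀ x, |u x| ≤ M :=
  hc.bounded_above_of_compact_support
    (HasCompactSupport.intro hΩ.bd.isCompact_closure fun x hx => h0 x fun k => hx (subset_closure k))

theorem W0.of_lip (hp : Par N a s) (hΩ : Dom Ω) {L : ℝ} (h : ∀ x y, |u x - u y| ≤ L * ‖x - y‖)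
    (h0 : ∀ x, x ∉ Ω → u x = 0) :
    W0 a s Ω u ∧ ∃ K : ℝ, ∀ x, Dsq N a s u x ≤ ENNReal.ofReal K := by
  have hc : Continuous u :=
    (LipschitzWith.of_dist_le' (K := L) fun x y => by simpa [dist_eq_norm] using h x y).continuous
  obtain ⟨M, hM⟩ := cia4_bdd hΩ hc h0
  obtain ⟨C, -, hC⟩ := Dsq_lip hp
  have h1 := fun x => hC u x L (M + M) 1 one_pos (fun y _ => h x y)
    fun y => (abs_sub _ _).trans (add_le_add (hM x) (hM y))
  refine ⟨⟨⟨hc.measurable,
    (Pool.Agent.Work.MP_49e099_an.half hΩ.op.measurableSet hc.measurable h0).trans_lt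
    (ENNReal.mul_lt_top ENNReal.ofNat_lt_top ((lintegral_mono h1).trans_lt ?_))⟩, h0⟩, _, h1⟩
  rw [setLIntegral_const]
  exact ENNReal.mul_lt_top ENNReal.ofReal_lt_top hΩ.fin

theorem Sm.w0 (hp : Par N a s) (hΩ : Dom Ω) (h : Sm Ω u) : W0 a s Ω u := by
  obtain ⟨L, hL⟩ := h.cd.lipschitzWith_of_hasCompactSupport h.cs (by norm_num)
  exact (W0.of_lip hp hΩ (L := L) (fun x y => by simpa [dist_eq_norm] using hL.dist_le_mul x y)
    fun x hx => image_eq_zero_of_notMem_tsupport fun k => hx (h.sub k)).1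

theorem W0.bdd (hΩ : Dom Ω) (hc : Continuous u) (hu : W0 a s Ω u) : ∃ M, ∀ x, |u x| ≤ M := by
  exact cia4_bdd hΩ hc hu.zero

theorem cia4_Dsq (a : ℝ) (u : Es N → ℝ) : ∫⁻ x, Dsq N a s u x = ENNReal.ofReal (a / 2) *
    ∫⁻ x, ∫⁻ y, ENNReal.ofReal ((u x - u y) ^ 2 / ‖x - y‖ ^ (N + 2 * s)) := by
  rw [← lintegral_const_mul' _ _ ENNReal.ofReal_ne_top]
  refine lintegral_congr fun x => ?_
  rw [← lintegral_const_mul' _ _ ENNReal.ofReal_ne_top]
  exact lintegral_congr fun y => ENNReal.ofReal_mul' (by positivity)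

theorem W0.inW0 (hp : Par N a s) (hΩ : Dom Ω) (hu : W0 a s Ω u) : InW0 N s Ω u := by
  refine ⟨Eventually.of_forall hu.zero, hu.memLp hp hΩ, ENNReal.lt_top_of_mul_ne_top_right
    (cia4_Dsq a u ▸ hu.fin.ne) (ENNReal.ofReal_pos.2 (half_pos hp.ha)).ne'⟩

theorem InW0.rep (hΩ : Dom Ω) (hu : InW0 N s Ω u) (a : ℝ) :
    ∃ u', W0 a s Ω u' ∧ ∀ᵐ x, u' x = u x := by
  have h1 : ∀ᵐ x, Ω.indicator (hu.2.1.1.mk u) x = u x := by
    filter_upwards [hu.1, hu.2.1.1.ae_eq_mk] with x h2 h3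
    by_cases k : x ∈ Ω
    · rw [indicator_of_mem k, h3]
    · rw [indicator_of_notMem k, h2 k]
  refine ⟨_, ⟨⟨hu.2.1.1.measurable_mk.indicator hΩ.op.measurableSet, ?_⟩,
    fun x hx => indicator_of_notMem hx _⟩, h1⟩
  rw [lintegral_congr_ae (Dsq_congr h1), cia4_Dsq]
  exact ENNReal.mul_lt_top ENNReal.ofReal_lt_top hu.2.2

end

end Pool.Agent.Work.MP_49e099_an
end

-- merged part: Pool.Agent.Work.MP_49e099_an.CI.S1
section
/-!
# Ingredients of the iteration step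
`low_real`: bound `μ (D' - D) ≤ μ2 (Dw + 2 √D √Dw)`, `|cw| ≤ Cw (τ + τ ρ)`. Three cases. `D0 ≤ K1`: `√D ≤ √K1 + √KW =: Kb`, use `√Dw ≤ τ + τ ρ`. `K1 < D0 ≤ K'`: `2 √D √Dw ≤ D + Dw`, `D ≤ 2 D0 + 2 KW ≤ 4 D0`, the reserve `4 μ2 D0` is spent. `K' < D0` (`K' ≥ K1`): `√D ≤ 2 √D0`, `4 μ2 √D0 √Kw ≤ ε/8 D0` for `K'` large. In all cases the coefficient of `ρ` stays nonnegative and the terms with `τ` are at most `ε/8`.
`choose_g`: `I = ∫ ω ≥ ε vol Ω > 0`. The integral of `D0` over `{K1 < D0}` tends to `0` (dominated convergence), so for the reserve `R` we get `∫ R ≤ I/8 + I/2`, and `0 ≤ R ≤ ω` a.e. when `K1 ≥ K`. With compact sets `S n ↑ Ω` (`{x | 1/(n+1) ≤ infDist x Ωᶜ}` is compact) the functions `g n = (S n).indicator (min (ω - R)₊ n)` tend to `ω - R` a.e. on `Ω`; dominated convergence.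
`gain`: pointwise `√D √Dw ≤ Kb (τ + τ ρ) + (if Kb² < D then D/(2 δ') else 0) + δ' Dw / 2`; choose `δ'`, then `Kb`, then `τ0 ≤ 1`; `integral_mono_of_nonneg`.
-/

namespace Pool.Agent.Work.MP_49e099_an

open MeasureTheory Set Filter Topology Metric

noncomputable section

variable {N : ℕ} {a s : ℝ} {Ω : Set (Es N)}

theorem low_real {μ2 ε K1 KW A Cw : ℝ} (hμ : 0 < μ2) (hε : 0 < ε) (hKW : 0 ≤ KW) (hK : KW ≤ K1)
    (hA : 0 ≤ A) (hA2 : 2 * μ2 * A ≤ 1 / 2) (hC : 0 ≤ Cw) : ∃ τ0 > 0, ∀ τ Kw : ℝ, 0 < τ → τ ≤ τ0 →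
    ∃ K' : ℝ, ∀ μ D0 D D' Dw ρ e cw R : ℝ, 0 ≤ μ → μ ≤ μ2 → 0 ≤ D0 → 0 ≤ D → √D ≤ √D0 + √KW →
      0 ≤ Dw → Dw ≤ Kw → 0 ≤ ρ → Dw ≤ A * ρ + τ → √Dw ≤ τ + τ * ρ → |e| ≤ τ → |cw| ≤ Cw * √Dw →
      |D' - D - Dw| ≤ 2 * √D * √Dw →
      4 * μ2 * (if K1 < D0 then D0 else 0) + ε / 2 * (1 + D0) ≤ R →
      4 * μ2 * (if K' < D0 then D0 else 0) + ε / 4 * (1 + D0) ≤ R + ρ + e - μ * (D' - D) - cw := by
  obtain ⟨Kb, hKb⟩ : ∃ Kb, Kb = √K1 + √KW := ⟨_, rfl⟩
  have Kb0 : 0 ≤ Kb := by rw [hKb]; positivity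
  have hT : 0 < 1 + 2 * μ2 + 2 * μ2 * Kb + Cw := by positivity
  refine ⟨min (1 / 4) (ε / 8) / (1 + 2 * μ2 + 2 * μ2 * Kb + Cw), by positivity,
    fun τ Kw hτ hτ0 => ⟨max K1 ((32 * μ2 / ε) ^ 2 * Kw), ?_⟩⟩
  intro μ D0 D D' Dw ρ e cw R m0 m1 d0 d1 hs w0 w1 r0 w2 w3 he hc hD hR
  rw [le_div_iff₀ hT, le_min_iff] at hτ0
  obtain ⟨t1, t2⟩ := hτ0
  have y0 := Real.sqrt_nonneg D
  have z0 := Real.sqrt_nonneg Dw
  have x0 := Real.sqrt_nonneg D0
  have a1 : μ * (D' - D) ≤ μ2 * Dw + μ2 * (2 * √D * √Dw) := by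
    have h1 := (abs_le.1 hD).2
    calc μ * (D' - D) ≤ μ * (Dw + 2 * √D * √Dw) := mul_le_mul_of_nonneg_left (by linarith only [h1]) m0
      _ ≤ μ2 * (Dw + 2 * √D * √Dw) := mul_le_mul_of_nonneg_right m1 (by positivity)
      _ = _ := by ring
  have a2 : cw ≤ Cw * τ + Cw * τ * ρ := by
    have h1 := (le_abs_self cw).trans (hc.trans (mul_le_mul_of_nonneg_left w3 hC))
    linarith only [h1]
  have a3 := (abs_le.1 he).1
  have a4 : μ2 * Dw ≤ ρ / 4 + μ2 * τ := by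
    have h1 := mul_le_mul_of_nonneg_left w2 hμ.le
    have h2 := mul_le_mul_of_nonneg_right hA2 r0
    linarith only [h1, h2]
  have p1 : 0 ≤ μ2 * τ := by positivity
  have p2 : 0 ≤ Cw * τ := by positivity
  have p3 : 0 ≤ μ2 * Kb * τ := by positivity
  have p4 : 0 ≤ ε * D0 := by positivity
  have a5 : (2 * μ2 * Kb * τ + Cw * τ) * ρ ≤ 1 / 4 * ρ :=
    mul_le_mul_of_nonneg_right (by linarith only [hτ, t1, p1]) r0
  have p5 : 0 ≤ μ2 * Kb * τ * ρ := by positivity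
  rcases le_or_gt D0 K1 with c1 | c1
  · rw [if_neg (not_lt.2 c1)] at hR
    rw [if_neg (not_lt.2 (c1.trans (le_max_left _ _)))]
    have h1 : √D ≤ Kb := by
      rw [hKb]
      exact hs.trans (add_le_add (Real.sqrt_le_sqrt c1) le_rfl)
    have h2 : μ2 * (2 * √D * √Dw) ≤ μ2 * (2 * Kb * (τ + τ * ρ)) := by clear * - μ2 D Dw Kb τ ρ h1 w3 Kb0 hμ; gcongr
    clear * - μ2 ε D0 R ρ e μ D' D cw τ Kb Cw Dw hτ r0 hR t2 a1 a2 a3 a4 p1 p2 p3 p4 a5 h2; linarith only [hτ, r0, hR, t2, a1, a2, a3, a4, p1, p2, p3, p4, a5, h2]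
  rw [if_pos c1] at hR
  have h1 : √D ≤ 2 * √D0 := by
    have := Real.sqrt_le_sqrt (hK.trans c1.le)
    linarith only [hs, this]
  have ex := Real.mul_self_sqrt d0
  split_ifs with c2
  · have h2 : 32 * μ2 / ε * √Dw ≤ √D0 := by
      refine Real.le_sqrt_of_sq_le ?_
      rw [mul_pow, Real.sq_sqrt w0]
      exact (mul_le_mul_of_nonneg_left w1 (sq_nonneg _)).trans ((le_max_right _ _).trans c2.le)
    rw [div_mul_eq_mul_div, div_le_iff₀ hε] at h2
    have h3 := mul_le_mul_of_nonneg_right h2 x0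
    have h4 : μ2 * (2 * √D * √Dw) ≤ μ2 * (2 * (2 * √D0) * √Dw) := by clear * - μ2 D Dw D0 h1 hμ; gcongr
    have h5 : √D0 * ε * √D0 = ε * D0 := by linear_combination ε * ex
    clear * - μ2 D0 ε R ρ e μ D' D cw τ Kb Cw Dw hτ r0 hR t2 a1 a2 a3 a4 p1 p2 p3 p4 a5 p5 h3 h4 h5; linarith only [hτ, r0, hR, t2, a1, a2, a3, a4, p1, p2, p3, p4, a5, p5, h3, h4, h5]
  · have h2 : D ≤ 4 * D0 := by
      have := mul_self_le_mul_self y0 h1
      rw [Real.mul_self_sqrt d1] at this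
      linarith only [ex, this]
    have h3 : 2 * √D * √Dw ≤ 4 * D0 + Dw := by
      have := two_mul_le_add_sq √D √Dw
      rw [Real.sq_sqrt d1, Real.sq_sqrt w0] at this
      linarith only [h2, this]
    have h4 := mul_le_mul_of_nonneg_left h3 hμ.le
    linarith only [hτ, r0, hR, t2, a1, a2, a3, a4, p1, p2, p3, p4, a5, p5, h4]

theorem choose_g (hp : Par N a s) (hΩ : Dom Ω) (hne : Ω.Nonempty) {ω D0 : Es N → ℝ} {μ2 ε K : ℝ}
    (hμ : 0 < μ2) (hε : 0 < ε) (hω : Measurable ω) (iω : IntegrableOn ω Ω) (hD : Measurable D0)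
    (hD0 : ∀ x, 0 ≤ D0 x) (iD : IntegrableOn D0 Ω)
    (h : ∀ᵐ x, x ∈ Ω → 4 * μ2 * (if K < D0 x then D0 x else 0) + ε * (1 + D0 x) ≤ ω x) (KW : ℝ) :
    0 < ∫ x in Ω, ω x ∧ ∃ (K1 M : ℝ) (S : Set (Es N)) (g : Es N → ℝ), KW ≤ K1 ∧ IsCompact S ∧ S ⊆ Ω ∧
      Measurable g ∧ (∀ x, 0 ≤ g x ∧ g x ≤ M) ∧ (∀ x, x ∉ S → g x = 0) ∧
      (∀ᵐ x, x ∈ Ω → 4 * μ2 * (if K1 < D0 x then D0 x else 0) + ε / 2 * (1 + D0 x) ≤ ω x - g x) ∧
      (∫ x in Ω, ω x) / 4 ≤ ∫ x, g x ∧ ∫ x, g x ≤ ∫ x in Ω, ω x := by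
  have mΩ := hΩ.op.measurableSet
  have h' := (ae_restrict_iff' mΩ).2 h
  have hi : ∀ (K : ℝ) x, 0 ≤ 4 * μ2 * (if K < D0 x then D0 x else 0) := fun K x => by
    have := hD0 x
    split_ifs <;> positivity
  have i1 : IntegrableOn (fun x => ε / 2 * (1 + D0 x)) Ω :=
    ((integrableOn_const hΩ.fin.ne).add iD).const_mul _
  have hI : 0 < ∫ x in Ω, ω x := by
    have h1 : ∫ _ in Ω, ε ≤ ∫ x in Ω, ω x := by
      refine integral_mono_ae (integrableOn_const hΩ.fin.ne) iω ?_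
      filter_upwards [h'] with x hx
      have := hi K x
      have := mul_nonneg hε.le (hD0 x)
      linarith
    rw [setIntegral_const, smul_eq_mul] at h1
    exact (mul_pos (ENNReal.toReal_pos (hΩ.op.measure_pos _ hne).ne' hΩ.fin.ne) hε).trans_le h1
  refine ⟨hI, ?_⟩
  obtain ⟨S, s1, s2, s3, s4⟩ := hΩ.op.exists_iUnion_isClosed
  obtain ⟨g, hg⟩ : ∃ g : ℕ → Es N → ℝ, g = fun n => (S n).indicator fun x =>
      min (max (ω x - (4 * μ2 * (if max K KW + n < D0 x then D0 x else 0) +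
        ε / 2 * (1 + D0 x))) 0) n := ⟨_, rfl⟩
  have g1 : ∀ n, Measurable (g n) := fun n => by
    rw [hg]
    exact (((hω.sub ((measurable_const.mul (Measurable.ite (measurableSet_lt measurable_const hD)
      hD measurable_const)).add (measurable_const.mul (measurable_const.add hD)))).max
      measurable_const).min measurable_const).indicator (s1 n).measurableSet
  have g2 : ∀ n x, 0 ≤ g n x ∧ g n x ≤ n := fun n x => by
    rw [hg]
    by_cases hx : x ∈ S n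
    · simp only [indicator_of_mem hx]
      exact ⟨le_min (le_max_right _ _) n.cast_nonneg, min_le_right _ _⟩
    · simp only [indicator_of_notMem hx]
      exact ⟨le_rfl, n.cast_nonneg⟩
  have g3 : ∀ n x, x ∉ S n → g n x = 0 := fun n x hx => by
    rw [hg]
    exact indicator_of_notMem hx _
  have g4 : ∀ (n : ℕ) x,
      4 * μ2 * (if K < D0 x then D0 x else 0) + ε * (1 + D0 x) ≤ ω x →
      4 * μ2 * (if max K KW + n < D0 x then D0 x else 0) + ε / 2 * (1 + D0 x) ≤ ω x - g n x := by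
    intro n x hx
    have h1 : (if max K KW + n < D0 x then D0 x else 0) ≤ if K < D0 x then D0 x else 0 := by
      by_cases c : max K KW + n < D0 x
      · rw [if_pos c, if_pos (((le_max_left K KW).trans
          (le_add_of_nonneg_right n.cast_nonneg)).trans_lt c)]
      · rw [if_neg c]
        split_ifs
        exacts [hD0 x, le_rfl]
    have h2 := mul_le_mul_of_nonneg_left h1 (by positivity : 0 ≤ 4 * μ2)
    have h3 := mul_nonneg hε.le (hD0 x)
    have h4 : 0 ≤ ω x - (4 * μ2 * (if max K KW + n < D0 x then D0 x else 0) +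
        ε / 2 * (1 + D0 x)) := by linarith only [hε, hx, h2, h3]
    rw [hg]
    by_cases c : x ∈ S n
    · simp only [indicator_of_mem c]
      rw [max_eq_left h4]
      have := min_le_left (ω x - (4 * μ2 * (if max K KW + n < D0 x then D0 x else 0) +
        ε / 2 * (1 + D0 x))) n
      linarith only [this]
    · simp only [indicator_of_notMem c]
      linarith only [hε, hx, h2, h3]
  have g5 : ∀ n, ∀ᵐ x ∂volume.restrict Ω, ‖g n x‖ ≤ ω x := fun n => by
    filter_upwards [h'] with x hx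
    have h1 := g4 n x hx
    have h2 := hi (max K KW + n) x
    have h3 := mul_nonneg hε.le (hD0 x)
    rw [Real.norm_of_nonneg (g2 n x).1]
    linarith only [hε, h1, h2, h3]
  have t1 : Tendsto (fun n => ∫ x in Ω, g n x) atTop
      (𝓝 (∫ x in Ω, (ω x - ε / 2 * (1 + D0 x)))) := by
    refine tendsto_integral_of_dominated_convergence _ (fun n => (g1 n).aestronglyMeasurable) iω
      g5 ?_
    filter_upwards [h', ae_restrict_mem mΩ] with x hx hxΩ
    obtain ⟨m, hm⟩ := mem_iUnion.1 (s3 ▸ hxΩ : x ∈ ⋃ n, S n)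
    refine tendsto_const_nhds.congr' ?_
    filter_upwards [eventually_ge_atTop m, tendsto_natCast_atTop_atTop.eventually_ge_atTop
      (D0 x - max K KW), tendsto_natCast_atTop_atTop.eventually_ge_atTop (ω x)] with n n1 n2 n3
    have h2 := hi K x
    have h3 := mul_nonneg hε.le (hD0 x)
    rw [hg]
    simp only [indicator_of_mem (s4 n1 hm)]
    rw [if_neg (by linarith only [n2]), mul_zero, zero_add, max_eq_left (by linarith only [hε, hx, h2, h3]),
      min_eq_left (by linarith only [hε, n3, h3])]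
  have h5 : (∫ x in Ω, ω x) / 4 < ∫ x in Ω, (ω x - ε / 2 * (1 + D0 x)) := by
    have h6 : ∫ x in Ω, ε / 2 * (1 + D0 x) ≤ ∫ x in Ω, ω x / 2 := by
      refine integral_mono_ae i1 (iω.div_const 2) ?_
      filter_upwards [h'] with x hx
      have := hi K x
      linarith only [hx, this]
    rw [integral_div] at h6
    rw [integral_sub iω i1]
    linarith only [hI, h6]
  obtain ⟨n, hn⟩ := (t1.eventually (lt_mem_nhds h5)).exists
  have e : ∫ x in Ω, g n x = ∫ x, g n x :=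
    setIntegral_eq_integral_of_forall_compl_eq_zero fun x hx => g3 n x fun k => hx (s2 n k)
  refine ⟨max K KW + n, n, S n, g n, (le_max_right _ _).trans
    (le_add_of_nonneg_right n.cast_nonneg), isCompact_of_isClosed_isBounded (s1 n)
    (hΩ.bd.subset (s2 n)), s2 n, g1 n, g2 n, g3 n, h.mono fun x hx k => g4 n x (hx k),
    e ▸ hn.le, ?_⟩
  rw [← e]
  exact integral_mono_of_nonneg (ae_of_all _ fun x => (g2 n x).1) iω
    ((g5 n).mono fun x hx => (le_abs_self _).trans hx)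

theorem cis1_tail {D : Es N → ℝ} (hD : Measurable D) (hD0 : ∀ x, 0 ≤ D x)
    (iD : IntegrableOn D Ω) {δ : ℝ} (hδ : 0 < δ) : ∃ K : ℝ,
      IntegrableOn (fun x => if K < D x then D x else 0) Ω ∧
        ∫ x in Ω, (if K < D x then D x else 0) ≤ δ := by
  have m : ∀ K : ℝ, AEStronglyMeasurable (fun x => if K < D x then D x else 0)
      (volume.restrict Ω) := fun K => (Measurable.ite (measurableSet_lt measurable_const hD) hD
        measurable_const).aestronglyMeasurable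
  have b : ∀ K : ℝ, ∀ᵐ x ∂volume.restrict Ω, ‖if K < D x then D x else 0‖ ≤ D x := fun K =>
    ae_of_all _ fun x => by
      split_ifs
      · exact (Real.norm_of_nonneg (hD0 x)).le
      · rw [norm_zero]
        exact hD0 x
  have t : Tendsto (fun n : ℕ => ∫ x in Ω, (if (n : ℝ) < D x then D x else 0)) atTop
      (𝓝 (∫ _ in Ω, (0 : ℝ))) := by
    refine tendsto_integral_of_dominated_convergence _ (fun n => m n) iD (fun n => b n)
      (ae_of_all _ fun x => tendsto_const_nhds.congr' ?_)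
    filter_upwards [tendsto_natCast_atTop_atTop.eventually_ge_atTop (D x)] with n hn
    rw [if_neg (not_lt.2 hn)]
  rw [integral_zero] at t
  obtain ⟨n, hn⟩ := (t.eventually (gt_mem_nhds hδ)).exists
  exact ⟨n, Integrable.mono' iD (m n) (b n), hn.le⟩

theorem cis1_pt {D Dw K η t : ℝ} (d0 : 0 ≤ D) (w0 : 0 ≤ Dw) (hη : 0 < η) (ht : √Dw ≤ t) :
    √D * √Dw ≤ √K * t + (if K < D then D else 0) / η + η * Dw := by
  have t0 : 0 ≤ t := (Real.sqrt_nonneg _).trans ht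
  split_ifs with c
  · have h1 : √D * √Dw ≤ D / η + η * Dw := by
      rw [div_add' _ _ _ hη.ne', le_div_iff₀ hη]
      have h2 := two_mul_le_add_sq √D (η * √Dw)
      rw [mul_pow, Real.sq_sqrt d0, Real.sq_sqrt w0] at h2
      have h3 : 0 ≤ √D * √Dw * η := by positivity
      linarith
    have h2 : 0 ≤ √K * t := by positivity
    linarith only [h1, h2]
  · have h1 : √D * √Dw ≤ √K * t := by
      have := Real.sqrt_le_sqrt (not_lt.1 c)
      gcongr
    have h2 : 0 ≤ η * Dw := by positivity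
    rw [zero_div]
    linarith


theorem gain (hΩ : Dom Ω) {D : Es N → ℝ} (hD : Measurable D) (hD0 : ∀ x, 0 ≤ D x)
    (iD : IntegrableOn D Ω) {A B δ : ℝ} (hA : 0 ≤ A) (hδ : 0 < δ) : ∃ τ0 > 0,
    ∀ (τ : ℝ) (Dw ρ : Es N → ℝ), 0 < τ → τ ≤ τ0 → (∀ x, 0 ≤ Dw x) → (∀ x, 0 ≤ ρ x) →
      IntegrableOn ρ Ω → ∫ x in Ω, ρ x ≤ B → (∀ x, Dw x ≤ A * ρ x + τ) →
      (∀ x, √(Dw x) ≤ τ + τ * ρ x) → ∫ x in Ω, √(D x) * √(Dw x) ≤ δ := by
  obtain ⟨V, hV⟩ : ∃ V, V = volume.real Ω := ⟨_, rfl⟩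
  have V0 : 0 ≤ V := hV ▸ measureReal_nonneg
  obtain ⟨η, hη, e1⟩ : ∃ η > 0, η * (A * |B| + V + 1) = δ / 3 :=
    ⟨δ / 3 / (A * |B| + V + 1), by positivity, div_mul_cancel₀ _ (by positivity)⟩
  obtain ⟨K, iK, hK⟩ := cis1_tail hD hD0 iD (by positivity : 0 < δ / 3 * η)
  obtain ⟨t, ht, e2⟩ : ∃ t > 0, t * (√K * (V + |B|) + 1) = δ / 3 :=
    ⟨δ / 3 / (√K * (V + |B|) + 1), by positivity, div_mul_cancel₀ _ (by positivity)⟩
  refine ⟨min 1 t, by positivity, fun τ Dw ρ hτ hτ0 w0 r0 iρ hB w1 w2 => ?_⟩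
  obtain ⟨t1, t2⟩ := le_min_iff.1 hτ0
  have ic : IntegrableOn (fun _ => τ) Ω := integrableOn_const hΩ.fin.ne
  have i1 : IntegrableOn (fun x => √K * (τ + τ * ρ x)) Ω := (ic.add (iρ.const_mul τ)).const_mul _
  have i2 : IntegrableOn (fun x => (if K < D x then D x else 0) / η) Ω := iK.div_const η
  have i3 : IntegrableOn (fun x => η * (A * ρ x + τ)) Ω := ((iρ.const_mul A).add ic).const_mul _
  have i4 : IntegrableOn (fun x => √K * (τ + τ * ρ x) + (if K < D x then D x else 0) / η) Ω :=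
    i1.add i2
  have hb := hB.trans (le_abs_self B)
  refine (integral_mono_of_nonneg (g := fun x => √K * (τ + τ * ρ x) +
    (if K < D x then D x else 0) / η + η * (A * ρ x + τ))
    (ae_of_all _ fun x => by positivity) (i4.add i3) (ae_of_all _ fun x =>
      (cis1_pt (hD0 x) (w0 x) hη (w2 x)).trans
        (add_le_add le_rfl (mul_le_mul_of_nonneg_left (w1 x) hη.le)))).trans ?_
  rw [integral_add i4 i3, integral_add i1 i2, integral_const_mul, integral_const_mul,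
    integral_add ic (iρ.const_mul τ), integral_add (iρ.const_mul A) ic, integral_const_mul,
    integral_const_mul, integral_div, setIntegral_const, smul_eq_mul, ← hV]
  have h1 : (∫ x in Ω, (if K < D x then D x else 0)) / η ≤ δ / 3 := (div_le_iff₀ hη).2 hK
  have h2 : √K * (V * τ + τ * ∫ x in Ω, ρ x) ≤ √K * (V * t + t * |B|) := by
    clear * - K V τ N Ω ρ t B t2 V0 hb r0 ht
    gcongr
    exact integral_nonneg r0
  have h3 : η * ((A * ∫ x in Ω, ρ x) + V * τ) ≤ η * (A * |B| + V * 1) := by clear * - η A N Ω ρ V τ B hb hA t1 V0 hη; gcongr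
  linarith only [hη, e1, ht, e2, h1, h2, h3]

end

end Pool.Agent.Work.MP_49e099_an
end
end

-- merged part: Pool.Agent.Work.MP_49e099_an.CI.P7
section
-- merged part: Pool.Agent.Work.MP_49e099_an.CI.A6
section
/-!
# Potentials
The kernels are controlled off the origin only, which is a null set (`Measure.ae_ne`-type lemmas, `ae_iff`, `measure_singleton`; `N ≥ 2`). `loc_pot` with `α = N - 2s` and `α = N - 2s + 1 < N`. `gk_rz`, `gk_nr`: `rpow_diff`, `abs_norm_sub_norm_le`, `abs_max_sub_max_le_abs`.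
-/

namespace Pool.Agent.Work.MP_49e099_an

open MeasureTheory Set Filter Topology Metric

noncomputable section

variable {N : ℕ} {a s : ℝ} {Ω : Set (Es N)}

variable {A : ℝ} {G σ : Es N → ℝ}

theorem cia6_ne (hp : Par N a s) (x : Es N) : ∀ᵐ y : Es N, x - y ≠ 0 := by
  have : Nontrivial (Es N) := Module.nontrivial_of_finrank_pos (R := ℝ) (by
    rw [finrank_euclideanSpace_fin]
    have := hp.hN
    omega)
  have h : ∀ᵐ y : Es N, y ∉ ({x} : Set (Es N)) :=
    measure_eq_zero_iff_ae_notMem.1 (measure_singleton x)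
  filter_upwards [h] with y hy e
  exact hy (sub_eq_zero.1 e).symm

theorem cia6_exp (hp : Par N a s) : 0 < (N : ℝ) - 2 * s ∧ (N : ℝ) - 2 * s + 1 < N ∧
    (1 : ℝ) ≤ N := by
  have h : (2 : ℝ) ≤ N := by exact_mod_cast hp.hN
  have h1 := hp.hs
  have h2 := hp.hs1
  exact ⟨by linarith only [h, h2], by linarith, by linarith only [h, h1, h2]⟩

theorem cia6_pot (hp : Par N a s) (hσ : BS σ) {α : ℝ} (h0 : 0 ≤ α) (hα : α < N) :
    ∃ K, ∀ x : Es N, Integrable (fun y => ‖x - y‖ ^ (-α) * |σ y|) ∧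
      ∫ y, ‖x - y‖ ^ (-α) * |σ y| ≤ K := by
  obtain ⟨M, hM⟩ := hσ.bdd
  obtain ⟨R, hR⟩ := hσ.supp
  obtain ⟨C, -, h⟩ := loc_pot (N := N) (by have := hp.hN; omega) h0 hα R
  refine ⟨C * M, fun x => ⟨?_, (h σ M hσ.meas hM hR x).2⟩⟩
  exact (h (fun y => |σ y|) M (continuous_abs.measurable.comp hσ.meas)
    (fun y => by rw [abs_abs]; exact hM y) (fun y hy => by rw [hR y hy, abs_zero]) x).1

theorem cia6_pot0 (hp : Par N a s) (hσ : BS σ) :
    ∃ K, ∀ x : Es N, Integrable (fun y => ‖x - y‖ ^ (-((N : ℝ) - 2 * s)) * |σ y|) ∧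
      ∫ y, ‖x - y‖ ^ (-((N : ℝ) - 2 * s)) * |σ y| ≤ K :=
  have h := cia6_exp hp
  cia6_pot hp hσ h.1.le (by linarith [h.2.1])

theorem cia6_pot1 (hp : Par N a s) (hσ : BS σ) :
    ∃ K, ∀ x : Es N, Integrable (fun y => ‖x - y‖ ^ (-((N : ℝ) - 2 * s) - 1) * |σ y|) ∧
      ∫ y, ‖x - y‖ ^ (-((N : ℝ) - 2 * s) - 1) * |σ y| ≤ K := by
  have h := cia6_exp hp
  rw [show -((N : ℝ) - 2 * s) - 1 = -((N : ℝ) - 2 * s + 1) by ring]
  exact cia6_pot hp hσ (by linarith [h.1]) h.2.1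

theorem cia6_sm (hG : Measurable G) (hσ : Measurable σ) (x : Es N) :
    AEStronglyMeasurable (fun y => G (x - y) * σ y) volume :=
  ((hG.comp (measurable_const.sub measurable_id)).mul hσ).aestronglyMeasurable

theorem cia6_meas (hG : Measurable G) (hσ : Measurable σ) : Measurable (conv G σ) :=
  (StronglyMeasurable.integral_prod_right' (ν := volume)
    (f := fun p : Es N × Es N => G (p.1 - p.2) * σ p.2)
    ((hG.comp (measurable_fst.sub measurable_snd)).mul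
      (hσ.comp measurable_snd)).stronglyMeasurable).measurable

theorem cia6_le (hp : Par N a s) (hG : Gk s A G) (σ : Es N → ℝ) (x : Es N) :
    ∀ᵐ y, ‖G (x - y) * σ y‖ ≤ A * (‖x - y‖ ^ (-((N : ℝ) - 2 * s)) * |σ y|) := by
  filter_upwards [cia6_ne hp x] with y hy
  rw [Real.norm_eq_abs, abs_mul, ← mul_assoc]
  exact mul_le_mul_of_nonneg_right (hG.le _ hy) (abs_nonneg _)

theorem cia6_bm {M : ℝ} (hM : ∀ x, |G x| ≤ M) (σ : Es N → ℝ) (x : Es N) :
    ∀ᵐ y, ‖G (x - y) * σ y‖ ≤ M * ‖σ y‖ :=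
  Eventually.of_forall fun y => by
    rw [norm_mul]
    exact mul_le_mul_of_nonneg_right (hM _) (norm_nonneg _)

theorem cia6_diff (hp : Par N a s) {c0 : ℝ} (h : 0 < c0) {x x' : Es N} (hx : x ≠ 0)
    (hx' : x' ≠ 0) :
    c0 * |‖x‖ ^ (-((N : ℝ) - 2 * s)) - ‖x'‖ ^ (-((N : ℝ) - 2 * s))| ≤ c0 * N * ‖x - x'‖ *
      (‖x‖ ^ (-((N : ℝ) - 2 * s) - 1) + ‖x'‖ ^ (-((N : ℝ) - 2 * s) - 1)) := by
  have h0 := cia6_exp hp
  rw [mul_assoc, mul_assoc, ← mul_assoc (N : ℝ)]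
  refine mul_le_mul_of_nonneg_left ((rpow_diff h0.1.le (norm_pos_iff.2 hx)
    (norm_pos_iff.2 hx')).trans (mul_le_mul_of_nonneg_right ?_ (by positivity))) h.le
  exact mul_le_mul (by linarith [h0.2.1]) (abs_norm_sub_norm_le _ _) (abs_nonneg _)
    (Nat.cast_nonneg _)

theorem BS.int (h : BS σ) : Integrable σ := by
  obtain ⟨M, hM⟩ := h.bdd
  obtain ⟨R, hR⟩ := h.supp
  refine IntegrableOn.integrable_of_forall_notMem_eq_zero (s := ball 0 R)
    (Measure.integrableOn_of_bounded (M := M) measure_ball_lt_top.ne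
      h.meas.aestronglyMeasurable (Eventually.of_forall hM)) fun x hx => hR x ?_
  rwa [mem_ball_zero_iff, not_lt] at hx

theorem BS.add {σ' : Es N → ℝ} (h : BS σ) (h' : BS σ') : BS fun x => σ x + σ' x := by
  obtain ⟨M, hM⟩ := h.bdd
  obtain ⟨R, hR⟩ := h.supp
  obtain ⟨M', hM'⟩ := h'.bdd
  obtain ⟨R', hR'⟩ := h'.supp
  exact ⟨⟨h.meas.add h'.meas, M + M', fun x => (abs_add_le _ _).trans (add_le_add (hM x) (hM' x))⟩,
    max R R', fun x hx => by rw [hR x (max_le_iff.1 hx).1, hR' x (max_le_iff.1 hx).2, add_zero]⟩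

theorem BS.sub {σ' : Es N → ℝ} (h : BS σ) (h' : BS σ') : BS fun x => σ x - σ' x := by
  obtain ⟨M, hM⟩ := h.bdd
  obtain ⟨R, hR⟩ := h.supp
  obtain ⟨M', hM'⟩ := h'.bdd
  obtain ⟨R', hR'⟩ := h'.supp
  exact ⟨⟨h.meas.sub h'.meas, M + M', fun x => (abs_sub _ _).trans (add_le_add (hM x) (hM' x))⟩,
    max R R', fun x hx => by rw [hR x (max_le_iff.1 hx).1, hR' x (max_le_iff.1 hx).2, sub_zero]⟩

theorem BS.sum {ι : Type} (T : Finset ι) {z : ι → Es N → ℝ} (h : ∀ i ∈ T, BS (z i)) :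
    BS fun x => ∑ i ∈ T, z i x := by
  classical
  induction T using Finset.induction_on with
  | empty => exact ⟨⟨measurable_const, 0, fun x => by simp⟩, 0, fun x _ => by simp⟩
  | insert i T hi ih =>
    simp only [Finset.sum_insert hi]
    exact (h i (Finset.mem_insert_self _ _)).add (ih fun j hj => h j (Finset.mem_insert_of_mem hj))

theorem Gk.int (hp : Par N a s) (hG : Gk s A G) (hσ : BS σ) (x : Es N) :
    Integrable fun y => G (x - y) * σ y := by
  obtain ⟨K, hK⟩ := cia6_pot0 hp hσ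
  exact ((hK x).1.const_mul A).mono' (cia6_sm hG.meas hσ.meas x) (cia6_le hp hG σ x)

theorem BM.conv_int (hG : BM G) (hσ : BS σ) (x : Es N) : Integrable fun y => G (x - y) * σ y := by
  obtain ⟨M, hM⟩ := hG.bdd
  exact (hσ.int.norm.const_mul M).mono' (cia6_sm hG.meas hσ.meas x) (cia6_bm hM σ x)

theorem BM.conv (hG : BM G) (hσ : BS σ) : BM (conv G σ) := by
  obtain ⟨M, hM⟩ := hG.bdd
  exact ⟨cia6_meas hG.meas hσ.meas, ∫ y, M * ‖σ y‖, fun x =>
    norm_integral_le_of_norm_le (hσ.int.norm.const_mul M) (cia6_bm hM σ x)⟩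

theorem Gk.conv_le (hp : Par N a s) (hG : Gk s A G) (hσ : BS σ) (x : Es N) :
    |conv G σ x| ≤ A * ∫ y, ‖x - y‖ ^ (-((N : ℝ) - 2 * s)) * |σ y| := by
  obtain ⟨K, hK⟩ := cia6_pot0 hp hσ
  rw [← integral_const_mul]
  exact norm_integral_le_of_norm_le ((hK x).1.const_mul A) (cia6_le hp hG σ x)

theorem Gk.conv_diff (hp : Par N a s) (hG : Gk s A G) (hσ : BS σ) (x x' : Es N) :
    |conv G σ x - conv G σ x'| ≤ A * ‖x - x'‖ * ((∫ y, ‖x - y‖ ^ (-((N : ℝ) - 2 * s) - 1) * |σ y|) +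
      ∫ y, ‖x' - y‖ ^ (-((N : ℝ) - 2 * s) - 1) * |σ y|) := by
  obtain ⟨K, hK⟩ := cia6_pot1 hp hσ
  rw [← integral_add (hK x).1 (hK x').1, ← integral_const_mul, conv, conv,
    ← integral_sub (hG.int hp hσ x) (hG.int hp hσ x')]
  refine (Real.norm_eq_abs _).symm.trans_le
    (norm_integral_le_of_norm_le (((hK x).1.add (hK x').1).const_mul _) ?_)
  filter_upwards [cia6_ne hp x, cia6_ne hp x'] with y h1 h2
  have h := hG.diff _ _ h1 h2
  rw [sub_sub_sub_cancel_right] at h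
  rw [← sub_mul, Real.norm_eq_abs, abs_mul, ← add_mul, ← mul_assoc]
  exact mul_le_mul_of_nonneg_right h (abs_nonneg _)

theorem Gk.conv_lip (hp : Par N a s) (hG : Gk s A G) (hσ : BS σ) :
    BM (conv G σ) ∧ Continuous (conv G σ) ∧
      ∃ L, ∀ x x', |conv G σ x - conv G σ x'| ≤ L * ‖x - x'‖ := by
  obtain ⟨K, hK⟩ := cia6_pot0 hp hσ
  obtain ⟨K', hK'⟩ := cia6_pot1 hp hσ
  have h0 : ∀ (x : Es N) (e : ℝ), 0 ≤ ∫ y, ‖x - y‖ ^ e * |σ y| := fun x e =>
    integral_nonneg fun y => by positivity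
  have hL : ∀ x x', |conv G σ x - conv G σ x'| ≤ |A| * (K' + K') * ‖x - x'‖ := fun x x' => by
    refine (hG.conv_diff hp hσ x x').trans ?_
    rw [mul_right_comm]
    exact mul_le_mul_of_nonneg_right (mul_le_mul (le_abs_self A) (add_le_add (hK' x).2 (hK' x').2)
      (add_nonneg (h0 _ _) (h0 _ _)) (abs_nonneg _)) (norm_nonneg _)
  refine ⟨⟨cia6_meas hG.meas hσ.meas, |A| * K, fun x => (hG.conv_le hp hσ x).trans
    (mul_le_mul (le_abs_self A) (hK x).2 (h0 _ _) (abs_nonneg _))⟩, ?_, _, hL⟩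
  refine (LipschitzWith.of_dist_le' (K := |A| * (K' + K')) fun x x' => ?_).continuous
  rw [Real.dist_eq, dist_eq_norm]
  exact hL x x'

theorem gk_rz (hp : Par N a s) {c0 : ℝ} (h : 0 < c0) : Gk (N := N) s (c0 * N) (rz c0 s) := by
  have h0 := cia6_exp hp
  refine ⟨measurable_const.mul (measurable_norm.pow_const _), fun x _ => ?_,
    fun x x' hx hx' => ?_⟩
  · rw [rz, abs_of_nonneg (by positivity)]
    exact mul_le_mul_of_nonneg_right (le_mul_of_one_le_right h.le h0.2.2) (by positivity)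
  · rw [rz, rz, ← mul_sub, abs_mul, abs_of_pos h]
    exact cia6_diff hp h hx hx'

theorem gk_nr (hp : Par N a s) {c0 l : ℝ} (h : 0 < c0) (hl : 0 < l) :
    Gk (N := N) s (c0 * N) (nr c0 s l) := by
  have h0 := cia6_exp hp
  refine ⟨measurable_const.mul (((measurable_norm.pow_const _).sub measurable_const).max
    measurable_const), fun x _ => ?_, fun x x' hx hx' => ?_⟩
  · rw [nr, abs_of_nonneg (mul_nonneg h.le (le_max_right _ _))]
    exact mul_le_mul (le_mul_of_one_le_right h.le h0.2.2)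
      (max_le (sub_le_self _ (by positivity)) (by positivity)) (le_max_right _ _) (by positivity)
  · rw [nr, nr, ← mul_sub, abs_mul, abs_of_pos h]
    refine le_trans (mul_le_mul_of_nonneg_left ?_ h.le) (cia6_diff hp h hx hx')
    refine (abs_max_sub_max_le_abs _ _ _).trans ?_
    rw [sub_sub_sub_cancel_right]

theorem nr_out (hp : Par N a s) {c0 l : ℝ} (hl : 0 < l) {y : Es N} (h : l ≤ ‖y‖) :
    nr c0 s l y = 0 := by
  rw [nr, max_eq_right, mul_zero]
  exact sub_nonpos.2 (Real.rpow_le_rpow_of_nonpos hl h (by linarith [(cia6_exp hp).1]))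

end

end Pool.Agent.Work.MP_49e099_an
end

-- merged part: Pool.Agent.Work.MP_49e099_an.CI.G1
section
/-!
# Gaussians and subordination integrals
`gp_int`: `GaussianFourier.integral_rexp_neg_mul_sq_norm`, `finrank_euclideanSpace_fin`; integrability from a nonzero integral (`Integrable.of_integral_ne_zero`). `gp_semi`: `‖x - y‖²/τ + ‖y‖²/σ = ‖x‖²/(τ+σ) + (τ+σ)/(τ σ) ‖y - (σ/(τ+σ)) • x‖²`.
`sub_trunc`, `sub_full`: substitute `u = b/τ` (`integral_image_eq_integral_abs_deriv_smul`, or `integral_comp_rpow_Ioi` with `p = -1` and `integral_comp_mul_left_Ioi` applied to an indicator), `Real.Gamma_eq_integral`, `Real.GammaIntegral_convergent`.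
`beta_trunc`: `τ ↦ -(u - τ)^s τ^(-s)/(s u)` is a primitive (`intervalIntegral.integral_eq_sub_of_hasDerivAt_of_le`, `intervalIntegrable_rpow'`).
`hw_int`: `hw s 1 v ≤ v^(s-1)/s` on `(0, 2)`, `≤ C v^(s-2)` beyond (`v^s - (v-1)^s ≤ s (v-1)^(s-1)`); scaling `hw s t (t v) = hw s 1 v / t`.
-/

namespace Pool.Agent.Work.MP_49e099_an

open MeasureTheory Set Filter Topology Metric

noncomputable section

variable {N : ℕ} {a s : ℝ} {Ω : Set (Es N)}

/-- the heat kernel -/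
def gp (τ : ℝ) (h : Es N) : ℝ := (Real.pi * τ) ^ (-((N : ℝ) / 2)) * Real.exp (-(‖h‖ ^ 2 / τ))

/-- the constant of the subordination formula -/
def hA (N : ℕ) (a s : ℝ) : ℝ := a * Real.pi ^ ((N : ℝ) / 2) / Real.Gamma (N / 2 + s)

/-- the truncated kernel -/
def hk (a s t : ℝ) (h : Es N) : ℝ := hA N a s * ∫ τ in Ioi t, gp τ h * τ ^ (-s - 1)

/-- the weight of the approximate identity -/
def hw (s t u : ℝ) : ℝ := t ^ (-s) * (u ^ s - max (u - t) 0 ^ s) / (s * u)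

/-- its mass -/
def hm (s : ℝ) : ℝ := ∫ u in Ioi 0, hw s 1 u

/-- the approximate identity -/
def hi (s t : ℝ) (x : Es N) : ℝ := (∫ u in Ioi 0, gp u x * hw s t u) / hm s

theorem gp_meas : Measurable fun p : ℝ × Es N => gp p.1 p.2 := by
  unfold gp
  fun_prop

theorem gp_pos {τ : ℝ} (hτ : 0 < τ) (h : Es N) : 0 < gp τ h :=
  mul_pos (Real.rpow_pos_of_pos (mul_pos Real.pi_pos hτ) _) (Real.exp_pos _)

theorem gp_int {τ : ℝ} (hτ : 0 < τ) : Integrable (gp (N := N) τ) ∧ ∫ h : Es N, gp τ h = 1 := by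
  have h1 : ∫ h : Es N, gp τ h = 1 := by
    have h2 := GaussianFourier.integral_rexp_neg_mul_sq_norm (V := Es N) (inv_pos.2 hτ)
    have h3 : ∀ h : Es N, -(‖h‖ ^ 2 / τ) = -τ⁻¹ * ‖h‖ ^ 2 := fun h => by ring
    have h4 : 0 < Real.pi * τ := mul_pos Real.pi_pos hτ
    simp only [gp, h3]
    rw [integral_const_mul, h2, finrank_euclideanSpace_fin, div_inv_eq_mul, ← Real.rpow_add h4,
      neg_add_cancel, Real.rpow_zero]
  exact ⟨Integrable.of_integral_ne_zero (by rw [h1]; exact one_ne_zero), h1⟩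

theorem gp_semi {τ σ : ℝ} (hτ : 0 < τ) (hσ : 0 < σ) (x : Es N) :
    Integrable (fun y => gp σ y * gp τ (x - y)) ∧ ∫ y, gp σ y * gp τ (x - y) = gp (τ + σ) x := by
  have hs : 0 < τ + σ := add_pos hτ hσ
  have hρ : 0 < τ * σ / (τ + σ) := by positivity
  have hπ := Real.pi_pos
  have h1 : ∀ y : Es N, gp σ y * gp τ (x - y) =
      gp (τ + σ) x * gp (τ * σ / (τ + σ)) (y - (σ / (τ + σ)) • x) := by
    intro y
    unfold gp
    rw [mul_mul_mul_comm, mul_mul_mul_comm _ (Real.exp _), ← Real.exp_add, ← Real.exp_add,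
      ← Real.mul_rpow (by positivity) (by positivity),
      ← Real.mul_rpow (by positivity) (by positivity)]
    congr 2
    · field_simp
    · rw [norm_sub_sq_real, norm_sub_sq_real, norm_smul, inner_smul_right, mul_pow,
        Real.norm_eq_abs, sq_abs, real_inner_comm]
      field_simp
      ring
  obtain ⟨h2, h3⟩ := gp_int (N := N) hρ
  simp only [h1]
  refine ⟨(h2.comp_sub_right _).const_mul _, ?_⟩
  rw [integral_const_mul, integral_sub_right_eq_self (gp (τ * σ / (τ + σ))), h3, mul_one]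

theorem cig1_sub {α b : ℝ} (hb : 0 < b) {S : Set ℝ} (hS : MeasurableSet S) (h0 : S ⊆ Ioi 0) :
    (IntegrableOn (fun u : ℝ => Real.exp (-u) * u ^ (α - 1)) ((fun τ => b / τ) '' S) →
      IntegrableOn (fun τ : ℝ => τ ^ (-α - 1) * Real.exp (-(b / τ))) S) ∧
    ∫ τ in S, τ ^ (-α - 1) * Real.exp (-(b / τ)) =
      b ^ (-α) * ∫ u in (fun τ => b / τ) '' S, Real.exp (-u) * u ^ (α - 1) := by
  have hd : ∀ τ ∈ S, HasDerivWithinAt (fun τ : ℝ => b / τ) (-(b / τ ^ 2)) S τ := by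
    intro τ hτ
    have h1 := ((hasDerivAt_inv (ne_of_gt (h0 hτ))).const_mul b).hasDerivWithinAt (s := S)
    exact h1.congr_deriv (by ring)
  have hi : InjOn (fun τ : ℝ => b / τ) S := by
    intro x _ y _ h
    exact inv_injective (mul_left_cancel₀ hb.ne' h)
  have he : ∀ τ ∈ S, τ ^ (-α - 1) * Real.exp (-(b / τ)) = b ^ (-α) *
      (|-(b / τ ^ 2)| • (Real.exp (-(b / τ)) * (b / τ) ^ (α - 1))) := by
    intro τ hτ
    have h1 : 0 < τ := h0 hτ
    have h2 := Real.rpow_pos_of_pos hb α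
    have h3 := Real.rpow_pos_of_pos h1 α
    rw [abs_neg, abs_of_pos (by positivity), smul_eq_mul, Real.div_rpow hb.le h1.le,
      Real.rpow_sub_one h1.ne', Real.rpow_sub_one h1.ne', Real.rpow_sub_one hb.ne',
      Real.rpow_neg h1.le, Real.rpow_neg hb.le]
    field_simp
  constructor
  · intro h
    have h1 := (integrableOn_image_iff_integrableOn_abs_deriv_smul hS hd hi _).1 h
    exact (IntegrableOn.congr_fun (h1.const_mul (b ^ (-α))) (fun τ hτ => (he τ hτ).symm) hS)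
  · rw [integral_image_eq_integral_abs_deriv_smul hS hd hi, ← integral_const_mul]
    exact setIntegral_congr_fun hS he

theorem sub_full {α b : ℝ} (hα : 0 < α) (hb : 0 < b) :
    IntegrableOn (fun τ : ℝ => τ ^ (-α - 1) * Real.exp (-(b / τ))) (Ioi 0) ∧
      ∫ τ in Ioi (0 : ℝ), τ ^ (-α - 1) * Real.exp (-(b / τ)) = Real.Gamma α * b ^ (-α) := by
  have h1 : (fun τ => b / τ) '' Ioi (0 : ℝ) = Ioi 0 := by
    ext u
    constructor
    · rintro ⟨τ, hτ, rfl⟩
      exact div_pos hb hτ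
    · intro hu
      exact ⟨b / u, div_pos hb hu, div_div_cancel₀ hb.ne'⟩
  obtain ⟨h2, h3⟩ := cig1_sub (α := α) hb measurableSet_Ioi (subset_refl (Ioi 0))
  rw [h1] at h2 h3
  exact ⟨h2 (Real.GammaIntegral_convergent hα), by rw [h3, Real.Gamma_eq_integral hα, mul_comm]⟩

theorem sub_trunc {α b t : ℝ} (hα : 0 < α) (hb : 0 < b) (ht : 0 < t) :
    ∫ τ in Ioi t, τ ^ (-α - 1) * Real.exp (-(b / τ)) =
      b ^ (-α) * ∫ u in Ioo 0 (b / t), Real.exp (-u) * u ^ (α - 1) := by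
  have h1 : (fun τ => b / τ) '' Ioi t = Ioo 0 (b / t) := by
    ext u
    constructor
    · rintro ⟨τ, hτ, rfl⟩
      exact ⟨div_pos hb (ht.trans hτ), div_lt_div_of_pos_left hb ht hτ⟩
    · rintro ⟨h1, h2⟩
      refine ⟨b / u, ?_, div_div_cancel₀ hb.ne'⟩
      rw [mem_Ioi, lt_div_iff₀ h1, mul_comm, ← lt_div_iff₀ ht]
      exact h2
  have h3 := (cig1_sub (α := α) hb measurableSet_Ioi (Ioi_subset_Ioi ht.le)).2
  rwa [h1] at h3

theorem beta_trunc (hs : 0 < s) {t u : ℝ} (ht : 0 < t) (hu : t < u) :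
    IntegrableOn (fun τ : ℝ => (u - τ) ^ (s - 1) * τ ^ (-s - 1)) (Ioo t u) ∧
      ∫ τ in Ioo t u, (u - τ) ^ (s - 1) * τ ^ (-s - 1) = t ^ (-s) * (u - t) ^ s / (s * u) := by
  have hu0 : 0 < u := ht.trans hu
  have hc : ContinuousOn (fun τ : ℝ => -((u - τ) ^ s * τ ^ (-s) / (s * u))) (Icc t u) := by
    refine (ContinuousOn.div_const (ContinuousOn.mul ?_ ?_) _).neg
    · exact ((Real.continuous_rpow_const hs.le).comp (continuous_sub_left u)).continuousOn
    · exact continuousOn_id.rpow_const fun x hx => Or.inl (ht.trans_le hx.1).ne'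
  have hd : ∀ τ ∈ Ioo t u, HasDerivAt (fun τ : ℝ => -((u - τ) ^ s * τ ^ (-s) / (s * u)))
      ((u - τ) ^ (s - 1) * τ ^ (-s - 1)) τ := by
    intro τ hτ
    have h1 : 0 < τ := ht.trans hτ.1
    have h2 : 0 < u - τ := sub_pos.2 hτ.2
    have h3 := ((hasDerivAt_id τ).const_sub u).rpow_const (p := s) (Or.inl h2.ne')
    have h4 := Real.hasDerivAt_rpow_const (x := τ) (p := -s) (Or.inl h1.ne')
    have h5 := ((h3.mul h4).div_const (s * u)).neg
    refine HasDerivAt.congr_deriv h5 ?_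
    simp only [id]
    rw [Real.rpow_sub_one h1.ne', Real.rpow_sub_one h2.ne']
    field_simp
    ring
  have hi := intervalIntegral.integrableOn_deriv_of_nonneg hc hd fun τ hτ =>
    mul_nonneg (Real.rpow_nonneg (sub_pos.2 hτ.2).le _) (Real.rpow_nonneg (ht.trans hτ.1).le _)
  refine ⟨hi.mono_set Ioo_subset_Ioc_self, ?_⟩
  rw [← integral_Ioc_eq_integral_Ioo, ← intervalIntegral.integral_of_le hu.le,
    intervalIntegral.integral_eq_sub_of_hasDerivAt_of_le hu.le hc hd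
      ((intervalIntegrable_iff_integrableOn_Ioc_of_le hu.le).2 hi), sub_self,
    Real.zero_rpow hs.ne']
  ring

theorem cig1_pos (hs : 0 < s) {t u : ℝ} (ht : 0 < t) (hu : 0 < u) : 0 < hw s t u :=
  div_pos (mul_pos (Real.rpow_pos_of_pos ht _) (sub_pos.2 (Real.rpow_lt_rpow (le_max_right _ _)
    (max_lt (by linarith) hu) hs))) (mul_pos hs hu)

theorem hw_nonneg (hs : 0 < s) {t u : ℝ} (ht : 0 < t) (hu : 0 < u) : 0 ≤ hw s t u :=
  (cig1_pos hs ht hu).le

theorem cig1_int (hs : 0 < s) (hs1 : s < 1) : IntegrableOn (hw s 1) (Ioi 0) := by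
  have hm : Measurable (hw s 1) := by
    unfold hw
    fun_prop
  rw [← Ioc_union_Ioi_eq_Ioi zero_le_one]
  refine IntegrableOn.union ?_ ?_
  · have h1 : IntegrableOn (fun v : ℝ => v ^ (s - 1)) (Ioc 0 1) :=
      (intervalIntegral.intervalIntegrable_rpow' (by linarith)).1
    refine IntegrableOn.congr_fun (h1.div_const s) (fun v hv => ?_) measurableSet_Ioc
    have h2 := hv.1
    simp only [hw]
    rw [max_eq_right (sub_nonpos.2 hv.2), Real.zero_rpow hs.ne', Real.one_rpow,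
      Real.rpow_sub_one h2.ne']
    field_simp
    ring
  · have h1 : IntegrableOn (fun v : ℝ => v ^ (s - 2)) (Ioi 1) :=
      integrableOn_Ioi_rpow_of_lt (by linarith) one_pos
    refine Integrable.mono' (h1.div_const s) hm.aestronglyMeasurable
      ((ae_restrict_mem measurableSet_Ioi).mono fun v hv => ?_)
    have h2 : 1 < v := hv
    have h3 : 0 < v := one_pos.trans h2
    have h4 : 0 < v - 1 := sub_pos.2 h2
    have h5 : (v - 1) / v ≤ ((v - 1) / v) ^ s := by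
      have := Real.rpow_le_rpow_of_exponent_ge (div_pos h4 h3)
        ((div_le_one h3).2 (by linarith)) hs1.le
      rwa [Real.rpow_one] at this
    have h6 := Real.rpow_pos_of_pos h3 s
    rw [Real.div_rpow h4.le h3.le, div_le_div_iff₀ h3 h6] at h5
    rw [Real.norm_of_nonneg (hw_nonneg hs one_pos h3)]
    simp only [hw]
    rw [max_eq_left h4.le, Real.one_rpow, one_mul, Real.rpow_sub h3, Real.rpow_two, div_div,
      div_le_div_iff₀ (by positivity) (by positivity)]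
    have h7 : (v ^ s - (v - 1) ^ s) * v ≤ v ^ s := by linarith
    calc (v ^ s - (v - 1) ^ s) * (v ^ 2 * s) = (v ^ s - (v - 1) ^ s) * v * (s * v) := by ring
      _ ≤ _ := mul_le_mul_of_nonneg_right h7 (by positivity)

theorem hw_int (hs : 0 < s) (hs1 : s < 1) {t : ℝ} (ht : 0 < t) :
    IntegrableOn (hw s t) (Ioi 0) ∧ ∫ u in Ioi 0, hw s t u = hm s ∧ 0 < hm s := by
  have h0 := cig1_int hs hs1
  have ht' : 0 < t⁻¹ := inv_pos.2 ht
  have he : ∀ u ∈ Ioi (0 : ℝ), t⁻¹ * hw s 1 (t⁻¹ * u) = hw s t u := by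
    intro u hu
    have h1 : 0 < u := hu
    have h2 : max (t⁻¹ * u - 1) 0 = t⁻¹ * max (u - t) 0 := by
      rw [mul_max_of_nonneg _ _ ht'.le, mul_zero, mul_sub, inv_mul_cancel₀ ht.ne']
    simp only [hw]
    rw [h2, Real.mul_rpow ht'.le h1.le, Real.mul_rpow ht'.le (le_max_right _ _), Real.one_rpow,
      Real.inv_rpow ht.le, Real.rpow_neg ht.le]
    field_simp
  refine ⟨?_, ?_, ?_⟩
  · have h1 := (integrableOn_Ioi_comp_mul_left_iff (hw s 1) 0 ht').2 (by rwa [mul_zero])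
    exact IntegrableOn.congr_fun (h1.const_mul t⁻¹) he measurableSet_Ioi
  · rw [← setIntegral_congr_fun measurableSet_Ioi he, integral_const_mul,
      integral_comp_mul_left_Ioi (hw s 1) 0 ht', mul_zero, inv_inv, smul_eq_mul,
      inv_mul_cancel_left₀ ht.ne', hm]
  · rw [hm, setIntegral_pos_iff_support_of_nonneg_ae ((ae_restrict_mem measurableSet_Ioi).mono
      fun v hv => hw_nonneg hs one_pos hv) h0]
    have h1 : Ioi 0 ⊆ Function.support (hw s 1) ∩ Ioi 0 :=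
      fun v hv => ⟨(cig1_pos hs one_pos hv).ne', hv⟩
    exact lt_of_lt_of_le (by simp) (measure_mono h1)

end

end Pool.Agent.Work.MP_49e099_an
end

-- merged part: Pool.Agent.Work.MP_49e099_an.CI.P2
section
/-!
# Separated sets
`exists_net`: a maximal `l`-separated subset of the compact set (`Metric.IsSeparated`, `exists_maximal`-type arguments), or directly: the cardinalities of `l`-separated finsets in `S` are bounded (cover `S` by finitely many balls of radius `l/2`, each contains at most one point), take one of maximal cardinality (`Nat.findGreatest`, or `Set.Finite.exists_maximalFor`).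
`exists_cells`: order `T` (`T.equivFin`, or a linear order from `exists_wellOrder`) and put `A p = ball p l \ ⋃ q < p, ball q l`; or use `disjointed`. Another choice: `A p` is the set of `y` for which `p` is the least index with `y ∈ ball p l`.
`pack`: the balls `ball p (l/4)` are disjoint, lie in `(ball x (l/4))ᶜ`, and on them `‖x - y‖ ≤ 2 ‖x - p‖`, so `‖x - p‖^(-γ) ≤ 2^γ ‖x - y‖^(-γ)`; `vol_ball`, `tail_int`, `integral_biUnion_finset`.
-/

namespace Pool.Agent.Work.MP_49e099_an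

open MeasureTheory Set Filter Topology Metric

noncomputable section

variable {N : ℕ} {a s : ℝ} {Ω : Set (Es N)}

theorem cip2_net (S : Set (Es N)) (l : ℝ) (F : Finset (Es N)) :
    ∃ T : Finset (Es N), (∀ p ∈ T, p ∈ S) ∧ (∀ p ∈ T, ∀ p' ∈ T, p ≠ p' → l ≤ ‖p - p'‖) ∧
      ∀ y ∈ S, ∀ c ∈ F, y ∈ ball c (l / 2) → ∃ p ∈ T, ‖y - p‖ < l := by
  classical
  induction F using Finset.induction_on with
  | empty => exact ⟨∅, by simp, by simp, by simp⟩
  | insert c F _ ih =>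
    obtain ⟨T, h1, h2, h3⟩ := ih
    by_cases h : ∀ y ∈ S, y ∈ ball c (l / 2) → ∃ p ∈ T, ‖y - p‖ < l
    · refine ⟨T, h1, h2, fun y hy c' hc hb => ?_⟩
      rcases Finset.mem_insert.1 hc with rfl | hc
      · exact h y hy hb
      · exact h3 y hy c' hc hb
    · push Not at h
      obtain ⟨z, z1, z2, z3⟩ := h
      refine ⟨insert z T, Finset.forall_mem_insert _ _ _ |>.2 ⟨z1, h1⟩, fun p hp p' hp' hne => ?_,
        fun y hy c' hc hb => ?_⟩
      · rcases Finset.mem_insert.1 hp with rfl | hq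
        · exact z3 p' ((Finset.mem_insert.1 hp').resolve_left hne.symm)
        · rcases Finset.mem_insert.1 hp' with rfl | hq'
          · rw [norm_sub_rev]
            exact z3 p hq
          · exact h2 p hq p' hq' hne
      · rcases Finset.mem_insert.1 hc with rfl | hc
        · refine ⟨z, Finset.mem_insert_self _ _, ?_⟩
          have h4 := dist_triangle_right y z c'
          rw [mem_ball] at hb z2
          rw [← dist_eq_norm]
          linarith only [hb, z2, h4]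
        · obtain ⟨p, hp, h4⟩ := h3 y hy c' hc hb
          exact ⟨p, Finset.mem_insert_of_mem hp, h4⟩

theorem exists_net {S : Set (Es N)} (hS : IsCompact S) {l : ℝ} (hl : 0 < l) :
    ∃ T : Finset (Es N), (∀ p ∈ T, p ∈ S) ∧ (∀ p ∈ T, ∀ p' ∈ T, p ≠ p' → l ≤ ‖p - p'‖) ∧
      ∀ y ∈ S, ∃ p ∈ T, ‖y - p‖ < l := by
  obtain ⟨F, -, hF, hc⟩ := finite_cover_balls_of_compact hS (half_pos hl)
  obtain ⟨T, h1, h2, h3⟩ := cip2_net S l hF.toFinset
  refine ⟨T, h1, h2, fun y hy => ?_⟩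
  obtain ⟨c, c1, c2⟩ := mem_iUnion₂.1 (hc hy)
  exact h3 y hy c (hF.mem_toFinset.2 c1) c2

theorem exists_cells (T : Finset (Es N)) (l : ℝ) : ∃ A : Es N → Set (Es N),
    (∀ p, MeasurableSet (A p)) ∧ (∀ p, ∀ y ∈ A p, ‖y - p‖ < l) ∧
    (∀ p ∈ T, ∀ p' ∈ T, p ≠ p' → Disjoint (A p) (A p')) ∧
      ∀ y, (∃ p ∈ T, ‖y - p‖ < l) → ∃ p ∈ T, y ∈ A p := by
  classical
  have hb : ∀ {y p : Es N}, y ∈ ball p l ↔ ‖y - p‖ < l := by
    intro y p
    rw [mem_ball, dist_eq_norm]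
  induction T using Finset.induction_on with
  | empty => exact ⟨fun _ => ∅, by simp, by simp, by simp, by simp⟩
  | insert c T hc ih =>
    obtain ⟨A, h1, h2, h3, h4⟩ := ih
    have hne : ∀ p ∈ T, p ≠ c := fun p hp e => hc (e ▸ hp)
    have hd : ∀ p ∈ T, Disjoint (ball c l \ ⋃ q ∈ T, ball q l) (A p) := fun p hp =>
      disjoint_left.2 fun y hy hy' => hy.2 (mem_iUnion₂.2 ⟨p, hp, hb.2 (h2 p y hy')⟩)
    refine ⟨Function.update A c (ball c l \ ⋃ q ∈ T, ball q l), fun p => ?_, fun p => ?_,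
      fun p hp p' hp' hpp => ?_, fun y hy => ?_⟩
    · rcases eq_or_ne p c with rfl | h
      · rw [Function.update_self]
        exact measurableSet_ball.diff (T.measurableSet_biUnion fun _ _ => measurableSet_ball)
      · rw [Function.update_of_ne h]
        exact h1 p
    · rcases eq_or_ne p c with rfl | h
      · rw [Function.update_self]
        exact fun y hy => hb.1 hy.1
      · rw [Function.update_of_ne h]
        exact h2 p
    · rcases Finset.mem_insert.1 hp with rfl | hq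
      · rw [Function.update_self, Function.update_of_ne hpp.symm]
        exact hd p' ((Finset.mem_insert.1 hp').resolve_left hpp.symm)
      · rcases Finset.mem_insert.1 hp' with rfl | hq'
        · rw [Function.update_self, Function.update_of_ne hpp]
          exact (hd p hq).symm
        · rw [Function.update_of_ne (hne p hq), Function.update_of_ne (hne p' hq')]
          exact h3 p hq p' hq' hpp
    · by_cases h : ∃ p ∈ T, ‖y - p‖ < l
      · obtain ⟨p, hp, h5⟩ := h4 y h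
        exact ⟨p, Finset.mem_insert_of_mem hp, by rwa [Function.update_of_ne (hne p hp)]⟩
      · obtain ⟨p, hp, h5⟩ := hy
        obtain rfl := (Finset.mem_insert.1 hp).resolve_right fun hq => h ⟨p, hq, h5⟩
        refine ⟨p, hp, ?_⟩
        rw [Function.update_self]
        refine ⟨hb.2 h5, fun h6 => ?_⟩
        obtain ⟨q, hq, h7⟩ := mem_iUnion₂.1 h6
        exact h ⟨q, hq, hb.1 h7⟩

theorem pack (hN : 1 ≤ N) {γ : ℝ} (hγ : (N : ℝ) < γ) : ∃ C > 0, ∀ (T : Finset (Es N)) (x : Es N)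
    (l : ℝ), 0 < l → (∀ p ∈ T, ∀ p' ∈ T, p ≠ p' → l ≤ ‖p - p'‖) → (∀ p ∈ T, l / 2 ≤ ‖x - p‖) →
      ∑ p ∈ T, ‖x - p‖ ^ (-γ) ≤ C * l ^ (-γ) := by
  obtain ⟨w, hw, hv⟩ := vol_ball N
  obtain ⟨C, hC, ht⟩ := tail_int hN hγ
  have hγ0 : -γ ≤ 0 := by linarith only [hγ, Nat.cast_nonneg (α := ℝ) N]
  refine ⟨C / (w * 2 ^ (-γ)) / 4 ^ (-γ), by positivity, fun T x l hl hs hx => ?_⟩
  have hl4 : 0 < l / 4 := by positivity
  obtain ⟨hi, he⟩ := ht x (l / 4) hl4
  have h0 : ∀ p ∈ T, ∀ y ∈ ball p (l / 4), l / 4 ≤ ‖x - y‖ ∧ ‖x - y‖ ≤ 2 * ‖x - p‖ := by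
    intro p hp y hy
    have h1 := hx p hp
    have h2 := norm_sub_le_norm_sub_add_norm_sub x y p
    have h3 := norm_sub_le_norm_sub_add_norm_sub x p y
    rw [mem_ball, dist_eq_norm] at hy
    rw [norm_sub_rev p y] at h3
    constructor <;> linarith only [hy, h1, h2, hl, h3]
  have h1 : ∀ p ∈ T, ball p (l / 4) ⊆ (ball x (l / 4))ᶜ := fun p hp y hy h => by
    rw [mem_ball, dist_comm, dist_eq_norm] at h
    linarith only [h, h0, hp, hy, (h0 p hp y hy).1]
  have h2 : ∀ p ∈ T, w * 2 ^ (-γ) * (l / 4) ^ N * ‖x - p‖ ^ (-γ) ≤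
      ∫ y in ball p (l / 4), ‖x - y‖ ^ (-γ) := fun p hp => by
    have h3 := setIntegral_mono_on (f := fun _ => (2 * ‖x - p‖) ^ (-γ))
      (integrableOn_const measure_ball_lt_top.ne) (hi.mono_set (h1 p hp)) measurableSet_ball
      fun y hy => Real.rpow_le_rpow_of_nonpos (hl4.trans_le (h0 p hp y hy).1) (h0 p hp y hy).2 hγ0
    rw [setIntegral_const, (hv p _ hl4).1, smul_eq_mul,
      Real.mul_rpow zero_le_two (norm_nonneg _)] at h3
    exact (le_of_eq (by ring)).trans h3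
  have h3 := Finset.sum_le_sum h2
  rw [← Finset.mul_sum, ← integral_biUnion_finset T (fun _ _ => measurableSet_ball)
    (fun p hp p' hp' hne => ball_disjoint_ball (by
      rw [dist_eq_norm]
      linarith only [hl, hs, hp, hp', hne, hs p hp p' hp' hne])) fun p hp => hi.mono_set (h1 p hp)] at h3
  have h4 := h3.trans (setIntegral_mono_set hi (.of_forall fun y => by positivity)
    (iUnion₂_subset h1).eventuallyLE)
  rw [he, sub_eq_add_neg, Real.rpow_add hl4, Real.rpow_natCast,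
    Real.div_rpow hl.le (by norm_num), ← le_div_iff₀' (by positivity)] at h4
  refine h4.trans_eq ?_
  field_simp

end

end Pool.Agent.Work.MP_49e099_an
end

-- merged part: Pool.Agent.Work.MP_49e099_an.CI.P3
section
/-!
# One peak
`ρ = lam * prof` with `prof y = (r + ‖y - p‖)^(-γ)` on `ball p l`, `lam = α r^β / ∫ prof`, `β = N - 2s`. `prof_int`: upper bound `soft_int`, lower bound from `ball p r` where `prof ≥ (2r)^(-γ)`. Hence `c α r^(γ-2s) ≤ lam ≤ C α r^(γ-2s)`.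
`pot_le`, `pot_diff`: `Gk.conv_le`, `Gk.conv_diff` with `gk_nr`, then `conv_soft` with exponents `β` and `β + 1 < N`. `pot_ge`: for `z ∈ ball p r`, `z ≠ y`: `‖y - z‖ < 2r`, `nr (y - z) ≥ c0 ((2r)^(-β) - (4r)^(-β))`; `Gk.int`, `setIntegral_le_integral`, `vol_ball`. `pout`: `nr_out`.
-/

namespace Pool.Agent.Work.MP_49e099_an

open MeasureTheory Set Filter Topology Metric

noncomputable section

variable {N : ℕ} {a s : ℝ} {Ω : Set (Es N)}

/-- the profile of the source -/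
def prof (γ r l : ℝ) (p y : Es N) : ℝ := (ball p l).indicator (fun y => (r + ‖y - p‖) ^ (-γ)) y

theorem cip3_in {γ r l : ℝ} {p y : Es N} (h : ‖y - p‖ < l) :
    prof γ r l p y = (r + ‖y - p‖) ^ (-γ) :=
  indicator_of_mem (mem_ball_iff_norm.2 h) _

theorem cip3_out {γ r l : ℝ} {p y : Es N} (h : l ≤ ‖y - p‖) : prof γ r l p y = 0 :=
  indicator_of_notMem (fun k => (mem_ball_iff_norm.1 k).not_ge h) _

theorem cip3_low {f : Es N → ℝ} {m r : ℝ} {p : Es N} (hf : Integrable f) (h0 : ∀ y, 0 ≤ f y)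
    (h : ∀ᵐ y, ‖y - p‖ < r → m ≤ f y) : volume.real (ball p r) * m ≤ ∫ y, f y := by
  rw [← smul_eq_mul, ← integral_indicator_const m measurableSet_ball]
  refine integral_mono_ae ((integrableOn_const measure_ball_lt_top.ne).integrable_indicator
    measurableSet_ball) hf (h.mono fun y hy => ?_)
  by_cases k : y ∈ ball p r
  · rw [indicator_of_mem k]
    exact hy (mem_ball_iff_norm.1 k)
  · rw [indicator_of_notMem k]
    exact h0 y

theorem cip3_ge {γ r l : ℝ} (hγ : 0 ≤ γ) (hr : 0 < r) (hl : r ≤ l) {p y : Es N}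
    (h : ‖y - p‖ < r) : 2 ^ (-γ) * r ^ (-γ) ≤ prof γ r l p y := by
  rw [cip3_in (h.trans_le hl), ← Real.mul_rpow zero_le_two hr.le]
  exact Real.rpow_le_rpow_of_nonpos (by positivity) (by linarith) (by linarith)

theorem prof_bs {γ r l : ℝ} (hγ : 0 ≤ γ) (hr : 0 < r) (p : Es N) :
    BS (prof γ r l p) ∧ ∀ y, 0 ≤ prof γ r l p y ∧ prof γ r l p y ≤ (r + ‖y - p‖) ^ (-γ) := by
  have h1 : ∀ y, 0 ≤ prof γ r l p y ∧ prof γ r l p y ≤ (r + ‖y - p‖) ^ (-γ) := fun y => by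
    rcases lt_or_ge ‖y - p‖ l with k | k
    · rw [cip3_in k]
      exact ⟨by positivity, le_rfl⟩
    · rw [cip3_out k]
      exact ⟨le_rfl, by positivity⟩
  refine ⟨⟨⟨((measurable_const.add (measurable_id.sub_const p).norm).pow_const _).indicator
    measurableSet_ball, r ^ (-γ), fun y => ?_⟩, ‖p‖ + l, fun y hy => cip3_out ?_⟩, h1⟩
  · rw [abs_of_nonneg (h1 y).1]
    exact (h1 y).2.trans (Real.rpow_le_rpow_of_nonpos hr (le_add_of_nonneg_right (norm_nonneg _))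
      (by linarith))
  · linarith [norm_sub_norm_le y p]

theorem prof_int (hN : 1 ≤ N) {γ : ℝ} (hγ : (N : ℝ) < γ) : ∃ C > 0, ∃ c > 0, ∀ (r l : ℝ) (p : Es N),
    0 < r → r ≤ l → c * r ^ (N - γ) ≤ ∫ y, prof γ r l p y ∧ ∫ y, prof γ r l p y ≤ C * r ^ (N - γ) := by
  have h0 : 0 ≤ γ := (Nat.cast_nonneg N).trans hγ.le
  obtain ⟨C, hC, h1⟩ := soft_int hN hγ
  obtain ⟨w, hw, h2⟩ := vol_ball N
  refine ⟨C, hC, w * 2 ^ (-γ), by positivity, fun r l p hr hl => ⟨?_, ?_⟩⟩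
  · refine le_trans (le_of_eq ?_) (cip3_low (prof_bs h0 hr p).1.int
      (fun y => ((prof_bs h0 hr p).2 y).1) (.of_forall fun y hy => cip3_ge h0 hr hl hy))
    rw [(h2 p r hr).1, sub_eq_add_neg, Real.rpow_add hr, Real.rpow_natCast]
    ring
  · refine le_trans (integral_mono (prof_bs h0 hr p).1.int (h1 p r hr).1 fun y => ?_)
      (h1 p r hr).2
    simpa only [norm_sub_rev p] using ((prof_bs h0 hr p).2 y).2

theorem cip3_pot (hN : 1 ≤ N) {α γ : ℝ} (h0 : 0 ≤ α) (hα : α < N) (hγ : (N : ℝ) < γ) :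
    ∃ C > 0, ∀ (x p : Es N) (r l : ℝ), 0 < r → ∫ y, ‖x - y‖ ^ (-α) * |prof γ r l p y| ≤
      C * r ^ (N - γ) * (r + ‖x - p‖) ^ (-α) := by
  obtain ⟨C, hC, h1⟩ := conv_soft hN h0 hα hγ
  refine ⟨C, hC, fun x p r l hr => le_trans (integral_mono_of_nonneg
    (.of_forall fun y => by positivity) (h1 x p r hr).1 (.of_forall fun y => ?_)) (h1 x p r hr).2⟩
  have := (prof_bs (l := l) ((Nat.cast_nonneg N).trans hγ.le) hr p).2 y
  dsimp only
  rw [abs_of_nonneg this.1, mul_comm]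
  exact mul_le_mul_of_nonneg_right this.2 (by positivity)

theorem pot_le (hp : Par N a s) {γ c0 : ℝ} (hγ : (N : ℝ) < γ) (h0 : 0 < c0) : ∃ C > 0,
    ∀ (r l : ℝ) (p : Es N), 0 < r → 0 < l → (∀ y, conv (nr c0 s l) (prof γ r l p) y ≤
      C * r ^ (N - γ) * (r + ‖y - p‖) ^ (-((N : ℝ) - 2 * s))) ∧
    ∀ y y', |conv (nr c0 s l) (prof γ r l p) y - conv (nr c0 s l) (prof γ r l p) y'| ≤
      C * r ^ (N - γ) * ‖y - y'‖ * ((r + ‖y - p‖) ^ (-((N : ℝ) - 2 * s) - 1) +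
        (r + ‖y' - p‖) ^ (-((N : ℝ) - 2 * s) - 1)) := by
  have he := cia6_exp hp
  have hN : 1 ≤ N := by exact_mod_cast he.2.2
  have hγ0 : 0 ≤ γ := (Nat.cast_nonneg N).trans hγ.le
  obtain ⟨C1, k1, h1⟩ := cip3_pot hN he.1.le (by linarith only [he, he.2.1]) hγ
  obtain ⟨C2, k2, h2⟩ := cip3_pot hN (by linarith [he.1]) he.2.1 hγ
  have hA : 0 < c0 * N := mul_pos h0 (by linarith [he.2.2])
  refine ⟨c0 * N * (C1 + C2), by positivity, fun r l p hr hl => ⟨fun y => ?_, fun y y' => ?_⟩⟩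
  · refine (le_abs_self _).trans (((gk_nr hp h0 hl).conv_le hp (prof_bs hγ0 hr p).1 y).trans
      ((mul_le_mul_of_nonneg_left (h1 y p r l hr) hA.le).trans ?_))
    have : 0 ≤ c0 * N * C2 * r ^ (N - γ) * (r + ‖y - p‖) ^ (-((N : ℝ) - 2 * s)) := by positivity
    linarith only [this]
  · refine ((gk_nr hp h0 hl).conv_diff hp (prof_bs hγ0 hr p).1 y y').trans ?_
    rw [show -((N : ℝ) - 2 * s) - 1 = -((N : ℝ) - 2 * s + 1) by ring]
    refine (mul_le_mul_of_nonneg_left (add_le_add (h2 y p r l hr) (h2 y' p r l hr))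
      (by positivity)).trans ?_
    have : 0 ≤ c0 * N * C1 * r ^ (N - γ) * ‖y - y'‖ * ((r + ‖y - p‖) ^ (-((N : ℝ) - 2 * s + 1)) +
      (r + ‖y' - p‖) ^ (-((N : ℝ) - 2 * s + 1))) := by positivity
    linarith only [this]

theorem cip3_nr {c0 l : ℝ} (h0 : 0 < c0) (y : Es N) : 0 ≤ nr c0 s l y :=
  mul_nonneg h0.le (le_max_right _ _)

theorem pot_ge (hp : Par N a s) {γ c0 : ℝ} (hγ : (N : ℝ) < γ) (h0 : 0 < c0) : ∃ c > 0,
    ∀ (r l : ℝ) (p y : Es N), 0 < r → 4 * r ≤ l → ‖y - p‖ < r →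
      c * r ^ (2 * s - γ) ≤ conv (nr c0 s l) (prof γ r l p) y := by
  have he := cia6_exp hp
  have hγ0 : 0 ≤ γ := (Nat.cast_nonneg N).trans hγ.le
  obtain ⟨w, hw, h2⟩ := vol_ball N
  have h3 : (0 : ℝ) < 2 ^ (-((N : ℝ) - 2 * s)) - 4 ^ (-((N : ℝ) - 2 * s)) :=
    sub_pos.2 (Real.rpow_lt_rpow_of_neg two_pos (by norm_num) (by linarith [he.1]))
  refine ⟨w * (c0 * (2 ^ (-((N : ℝ) - 2 * s)) - 4 ^ (-((N : ℝ) - 2 * s))) * 2 ^ (-γ)),
    by positivity, fun r l p y hr hl hy => ?_⟩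
  have hb := prof_bs (l := l) hγ0 hr p
  refine le_trans (le_of_eq ?_) (cip3_low (p := p) (r := r)
    (m := c0 * ((2 ^ (-((N : ℝ) - 2 * s)) - 4 ^ (-((N : ℝ) - 2 * s))) * r ^ (-((N : ℝ) - 2 * s))) *
      (2 ^ (-γ) * r ^ (-γ)))
    ((gk_nr hp h0 (by linarith)).int hp hb.1 y)
    (fun z => mul_nonneg (cip3_nr h0 _) (hb.2 z).1) ((cia6_ne hp y).mono fun z hz k => ?_))
  · rw [(h2 p r hr).1, show 2 * s - γ = N + -((N : ℝ) - 2 * s) + -γ by ring, Real.rpow_add hr,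
      Real.rpow_add hr, Real.rpow_natCast]
    ring
  · refine mul_le_mul (mul_le_mul_of_nonneg_left (le_max_of_le_left ?_) h0.le)
      (cip3_ge hγ0 hr (by linarith) k) (by positivity) (cip3_nr h0 _)
    rw [sub_mul, ← Real.mul_rpow zero_le_two hr.le, ← Real.mul_rpow (by norm_num) hr.le]
    have k1 : ‖y - z‖ ≤ 2 * r := by
      have := norm_sub_le_norm_sub_add_norm_sub y p z
      rw [norm_sub_rev p z] at this
      linarith
    exact sub_le_sub (Real.rpow_le_rpow_of_nonpos (norm_pos_iff.2 hz) k1 (by linarith [he.1]))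
      (Real.rpow_le_rpow_of_nonpos (by positivity) hl (by linarith [he.1]))

theorem exists_peak (hp : Par N a s) {γ c0 : ℝ} (hγ : (N : ℝ) < γ) (h0 : 0 < c0) :
    ∃ C > 0, ∃ c > 0, ∀ (α r l : ℝ) (p : Es N), 0 < α → 0 < r → 4 * r ≤ l →
      ∃ ρ : Es N → ℝ, Pk s γ c0 C c α r l p ρ := by
  have he := cia6_exp hp
  have hN : 1 ≤ N := by exact_mod_cast he.2.2
  have hγ0 : 0 ≤ γ := (Nat.cast_nonneg N).trans hγ.le
  obtain ⟨C1, k1, c1, k1', h1⟩ := prof_int hN hγ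
  obtain ⟨C2, k2, h2⟩ := pot_le hp hγ h0
  obtain ⟨c3, k3, h3⟩ := pot_ge hp hγ h0
  have km : 0 < min 1 c3 := lt_min one_pos k3
  refine ⟨C2 / c1, by positivity, min 1 c3 / C1, by positivity, fun α r l p hα hr hl => ?_⟩
  have hl0 : 0 < l := by linarith only [hr, hl]
  have hb := prof_bs (l := l) hγ0 hr p
  obtain ⟨i1, i2⟩ := h1 r l p hr (by linarith only [hr, hl])
  have i0 : 0 < ∫ y, prof γ r l p y := lt_of_lt_of_le (by positivity) i1
  obtain ⟨t, ht⟩ : ∃ t, t = α * r ^ ((N : ℝ) - 2 * s) / ∫ y, prof γ r l p y := ⟨_, rfl⟩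
  have t0 : 0 < t := by rw [ht]; positivity
  have t1 : t * ∫ y, prof γ r l p y = α * r ^ ((N : ℝ) - 2 * s) := by
    rw [ht, div_mul_cancel₀ _ i0.ne']
  have t2 : t * (C2 * r ^ (N - γ)) ≤ C2 / c1 * α * r ^ ((N : ℝ) - 2 * s) := by
    rw [mul_assoc (C2 / c1), ← t1]
    calc t * (C2 * r ^ (N - γ)) = C2 / c1 * (t * (c1 * r ^ (N - γ))) := by field_simp
      _ ≤ _ := by gcongr
  have t3 : α / C1 * r ^ (γ - 2 * s) ≤ t := by
    have k : 0 < C1 * r ^ (N - γ) := by positivity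
    refine le_of_mul_le_mul_right (le_trans (le_of_eq ?_)
      (t1.ge.trans (mul_le_mul_of_nonneg_left i2 t0.le))) k
    rw [show (N : ℝ) - 2 * s = γ - 2 * s + (N - γ) by ring, Real.rpow_add hr]
    field_simp
  have hc : ∀ y, conv (nr c0 s l) (fun y => t * prof γ r l p y) y =
      t * conv (nr c0 s l) (prof γ r l p) y := fun y => by
    rw [conv, conv, ← integral_const_mul]
    exact integral_congr_ae (.of_forall fun z => mul_left_comm _ _ _)
  refine ⟨fun y => t * prof γ r l p y, ⟨hb.1.meas.const_mul t, ?_⟩,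
    fun y => mul_nonneg t0.le (hb.2 y).1, fun y hy => by rw [cip3_out hy, mul_zero],
    by rw [integral_const_mul, t1], fun y hy => ?_,
    fun y => integral_nonneg fun z => mul_nonneg (cip3_nr h0 _) (mul_nonneg t0.le (hb.2 z).1),
    fun y => ?_, fun y hy => ?_, fun y y' => ?_, fun y hy => ?_⟩
  · obtain ⟨M, hM⟩ := hb.1.bdd
    exact ⟨t * M, fun y => by
      rw [abs_mul, abs_of_pos t0]
      exact mul_le_mul_of_nonneg_left (hM y) t0.le⟩
  · rw [cip3_in hy]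
    refine mul_le_mul_of_nonneg_right (le_trans ?_ t3) (by positivity)
    calc min 1 c3 / C1 * α * r ^ (γ - 2 * s) = min 1 c3 * (α / C1 * r ^ (γ - 2 * s)) := by ring
      _ ≤ _ := mul_le_of_le_one_left (by positivity) (min_le_left _ _)
  · rw [hc, Real.div_rpow hr.le (by positivity), div_eq_mul_inv (r ^ _),
      ← Real.rpow_neg (by positivity), ← mul_assoc]
    refine (mul_le_mul_of_nonneg_left ((h2 r l p hr hl0).1 y) t0.le).trans ?_
    rw [← mul_assoc]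
    exact mul_le_mul_of_nonneg_right t2 (by positivity)
  · refine (integral_congr_ae (.of_forall fun z => ?_)).trans (integral_zero _ _)
    rcases lt_or_ge ‖z - p‖ l with k | k
    · have := norm_sub_le_norm_sub_add_norm_sub y z p
      simp only [nr_out hp hl0 (show l ≤ ‖y - z‖ by linarith only [hy, k, this]), zero_mul]
    · simp only [cip3_out k, mul_zero]
  · rw [hc, hc, ← mul_sub, abs_mul, abs_of_pos t0]
    refine (mul_le_mul_of_nonneg_left ((h2 r l p hr hl0).2 y y') t0.le).trans ?_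
    rw [← mul_assoc, ← mul_assoc]
    exact mul_le_mul_of_nonneg_right (mul_le_mul_of_nonneg_right t2 (norm_nonneg _))
      (by positivity)
  · rw [hc]
    refine le_trans ?_ (mul_le_mul t3 (h3 r l p y hr hl hy) (by positivity) t0.le)
    have k : r ^ (γ - 2 * s) * r ^ (2 * s - γ) = 1 := by
      rw [← Real.rpow_add hr, show γ - 2 * s + (2 * s - γ) = 0 by ring, Real.rpow_zero]
    calc min 1 c3 / C1 * α ≤ c3 / C1 * α := by gcongr; exact min_le_right _ _
      _ = c3 / C1 * α * (r ^ (γ - 2 * s) * r ^ (2 * s - γ)) := by rw [k, mul_one]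
      _ = _ := by ring

end

end Pool.Agent.Work.MP_49e099_an
end

-- merged part: Pool.Agent.Work.MP_49e099_an.CI.P5
section
/-!
# Configurations of peaks
`exists_cfg`: `C, c` from `exists_peak`; `T0` from `exists_net`, cells `A p` from `exists_cells`, masses `m p = ∫ y in A p, g y ≤ M w l^N` (`vol_ball`), `T = T0.filter (0 < m ·)`, `r p = (m p / α)^(1/β)`, `B = M w / α`; `scales` (any `θ > β`, `τ = 1/32`) gives `4 r ≤ l/8`; `choose` the sources. `cell`: `G p m p = ∫ y in A p, G p * g y ≤ ∫ y in A p, F y * g y`; for discarded `p`, `g = 0` a.e. on `A p` (`setIntegral_eq_zero_iff_of_nonneg_ae`); `integral_biUnion_finset`, and `g = 0` off the union of the cells.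
`Cfg.transport`: use `cell` with `G p = (∫ H ρ p) / (α r^β)`; `Pk.mass`, `Pk.out`. `Cfg.mass`: `cell` and `transport` with constants `1` and `-1`.
-/

namespace Pool.Agent.Work.MP_49e099_an

open MeasureTheory Set Filter Topology Metric

noncomputable section

variable {N : ℕ} {a s : ℝ} {Ω : Set (Es N)}

/-- the sum of the sources -/
def rs (T : Finset (Es N)) (ρ : Es N → Es N → ℝ) (y : Es N) : ℝ := ∑ p ∈ T, ρ p y

/-- the sum of the peaks -/
def Ps (c0 s l : ℝ) (T : Finset (Es N)) (ρ : Es N → Es N → ℝ) (y : Es N) : ℝ :=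
  ∑ p ∈ T, conv (nr c0 s (l / 8)) (ρ p) y

theorem exists_cfg (hp : Par N a s) {γ c0 : ℝ} (hγ : (N : ℝ) < γ) (h0 : 0 < c0) :
    ∃ C > 0, ∃ c > 0, ∀ α > 0, ∀ M : ℝ, ∃ B : ℝ, ∃ l0 > 0, ∀ (S : Set (Es N)) (g : Es N → ℝ) (l : ℝ),
      IsCompact S → Measurable g → (∀ x, 0 ≤ g x ∧ g x ≤ M) → (∀ x, x ∉ S → g x = 0) → 0 < l →
      l ≤ l0 → ∃ T r ρ, Cfg s γ c0 C c α B l S g T r ρ := by
  classical
  obtain ⟨C, hC, c, hc, hpk⟩ := exists_peak hp hγ h0
  obtain ⟨w, hw, hv⟩ := vol_ball N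
  have hβ := (cia6_exp hp).1
  refine ⟨C, hC, c, hc, fun α hα M => ?_⟩
  obtain ⟨l0, hl0, -, hsc⟩ := scales hp (lt_add_one _) (M * w / α) (τ := 1 / 32) (by norm_num)
  refine ⟨M * w / α, l0, hl0, fun S g l hS hg hb hz hl hll => ?_⟩
  obtain ⟨T0, t1, t2, t3⟩ := exists_net hS hl
  obtain ⟨A, a1, a2, a3, a4⟩ := exists_cells T0 l
  have sub : ∀ p, A p ⊆ ball p l := fun p y hy => mem_ball_iff_norm.2 (a2 p y hy)
  have fin : ∀ p, volume (A p) < ⊤ := fun p => (measure_mono (sub p)).trans_lt measure_ball_lt_top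
  have gb : ∀ y, ‖g y‖ ≤ M := fun y => by
    rw [Real.norm_of_nonneg (hb y).1]
    exact (hb y).2
  have gi : ∀ p, IntegrableOn g (A p) := fun p =>
    Measure.integrableOn_of_bounded (fin p).ne hg.aestronglyMeasurable (Eventually.of_forall gb)
  obtain ⟨m, hm⟩ : ∃ m : Es N → ℝ, ∀ p, m p = ∫ y in A p, g y := ⟨_, fun _ => rfl⟩
  have m0 : ∀ p, 0 ≤ m p := fun p => hm p ▸ integral_nonneg fun y => (hb y).1
  have mle : ∀ p, m p ≤ M * w * l ^ N := fun p => by
    rw [hm, mul_assoc, ← (hv p l hl).1]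
    exact (le_abs_self _).trans ((norm_setIntegral_le_of_norm_le_const (fin p)
      fun y _ => gb y).trans (mul_le_mul_of_nonneg_left
        (measureReal_mono (sub p) measure_ball_lt_top.ne) ((norm_nonneg _).trans (gb p))))
  obtain ⟨r, rβ, r0⟩ : ∃ r : Es N → ℝ, (∀ p, r p ^ ((N : ℝ) - 2 * s) = m p / α) ∧
      ∀ p ∈ T0.filter (0 < m ·), 0 < r p :=
    ⟨fun p => (m p / α) ^ ((N : ℝ) - 2 * s)⁻¹,
      fun p => Real.rpow_inv_rpow (div_nonneg (m0 p) hα.le) hβ.ne',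
      fun p hp => Real.rpow_pos_of_pos (div_pos (Finset.mem_filter.1 hp).2 hα) _⟩
  have rle : ∀ p, r p ^ ((N : ℝ) - 2 * s) ≤ M * w / α * l ^ N := fun p => by
    rw [rβ, div_mul_eq_mul_div]
    exact div_le_div_of_nonneg_right (mle p) hα.le
  choose! ρ hρ using fun p (hp : p ∈ T0.filter (0 < m ·)) => hpk α (r p) (l / 8) p hα (r0 p hp)
    (by linarith only [hsc, hl, hll, r0, hp, rle, (hsc l (r p) hl hll (r0 p hp) (rle p)).1])
  refine ⟨T0.filter (0 < m ·), r, ρ, fun p hp => t1 p (Finset.mem_filter.1 hp).1,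
    fun p hp p' hp' => t2 p (Finset.mem_filter.1 hp).1 p' (Finset.mem_filter.1 hp').1, r0,
    fun p _ => rle p, hρ, fun G F hF hG => ?_⟩
  rw [← setIntegral_eq_integral_of_forall_compl_eq_zero (s := ⋃ p ∈ T0, A p) fun y hy => by
      rw [hz y fun k => hy ?_, mul_zero]
      obtain ⟨p, hp, k'⟩ := a4 y (t3 y k)
      exact mem_biUnion hp k',
    integral_biUnion_finset T0 (fun p _ => a1 p) (fun p hp p' hp' => a3 p hp p' hp')
      fun p _ => hF.integrableOn,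
    ← Finset.sum_filter_of_ne (s := T0) (f := fun p => ∫ y in A p, F y * g y) (p := (0 < m ·))
      fun p _ hne => ?_]
  · refine Finset.sum_le_sum fun p hp => ?_
    rw [rβ, mul_div_cancel₀ _ hα.ne', mul_comm, hm, ← integral_const_mul]
    exact setIntegral_mono_on_ae ((gi p).const_mul _) hF.integrableOn (a1 p)
      (hG.mono fun y hy k => mul_le_mul_of_nonneg_right (hy p hp (a2 p y k).le) (hb y).1)
  · refine (m0 p).lt_of_ne fun e => hne (integral_eq_zero_of_ae ?_)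
    refine ((setIntegral_eq_zero_iff_of_nonneg_ae (Eventually.of_forall fun y => (hb y).1)
      (gi p)).1 ((hm p).symm.trans e.symm)).mono fun y hy => ?_
    exact mul_eq_zero_of_right _ hy

variable {γ c0 C c α B l : ℝ} {S : Set (Es N)} {g : Es N → ℝ} {T : Finset (Es N)} {r : Es N → ℝ}
  {ρ : Es N → Es N → ℝ}

theorem Pk.bs {r : ℝ} {p : Es N} {ρ : Es N → ℝ} (h : Pk s γ c0 C c α r l p ρ) : BS ρ := by
  exact ⟨h.bm, ‖p‖ + l, fun x hx => h.out x (by linarith [norm_sub_norm_le x p])⟩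

theorem Cfg.rs_basic (h : Cfg s γ c0 C c α B l S g T r ρ) : BS (rs T ρ) ∧ (∀ y, 0 ≤ rs T ρ y) ∧
    (∀ p ∈ T, ∀ y, ρ p y ≤ rs T ρ y) ∧ ∀ y, rs T ρ y ≠ 0 → ∃ p ∈ S, ‖y - p‖ < l / 8 := by
  refine ⟨BS.sum T fun p hp => (h.pk p hp).bs,
    fun y => Finset.sum_nonneg fun p hp => (h.pk p hp).nonneg y,
    fun p hp y => Finset.single_le_sum (f := fun p => ρ p y)
      (fun q hq => (h.pk q hq).nonneg y) hp, fun y hy => ?_⟩
  obtain ⟨p, hp, hne⟩ := Finset.exists_ne_zero_of_sum_ne_zero hy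
  exact ⟨p, h.sub p hp, not_le.1 fun k => hne ((h.pk p hp).out y k)⟩

theorem Cfg.ps_basic (hp : Par N a s) (h : Cfg s γ c0 C c α B l S g T r ρ) (h0 : 0 < c0)
    (hl : 0 < l) : (∀ p ∈ T, Continuous (conv (nr c0 s (l / 8)) (ρ p))) ∧
      Continuous (Ps c0 s l T ρ) ∧ ∀ x, conv (nr c0 s (l / 8)) (rs T ρ) x = Ps c0 s l T ρ x := by
  have gk := gk_nr hp h0 (l := l / 8) (by positivity)
  have h1 := fun p hp' => (gk.conv_lip hp (h.pk p hp').bs).2.1
  refine ⟨h1, continuous_finsetSum T h1, fun x => ?_⟩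
  unfold Ps rs conv
  simp only [Finset.mul_sum]
  exact integral_finsetSum T fun p hp' => gk.int hp (h.pk p hp').bs x

theorem Cfg.transport (h : Cfg s γ c0 C c α B l S g T r ρ) (hα : 0 < α) (hl : 0 < l)
    {H F : Es N → ℝ} (hH : BM H) (hF : Integrable fun y => F y * g y)
    (hle : ∀ᵐ y, ∀ y', ‖y - y'‖ ≤ 2 * l → H y' ≤ F y) :
    ∫ y, H y * rs T ρ y ≤ ∫ y, F y * g y := by
  obtain ⟨M, hM⟩ := hH.bdd
  have hi : ∀ p ∈ T, Integrable fun y => H y * ρ p y := fun p hp =>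
    (h.pk p hp).bs.int.bdd_mul hH.meas.aestronglyMeasurable (Eventually.of_forall hM)
  have h0 : ∀ p ∈ T, 0 < α * r p ^ ((N : ℝ) - 2 * s) := fun p hp =>
    mul_pos hα (Real.rpow_pos_of_pos (h.pos p hp) _)
  refine le_trans (le_of_eq ?_) (h.cell
    (fun p => (∫ y, H y * ρ p y) / (α * r p ^ ((N : ℝ) - 2 * s))) F hF
    (hle.mono fun y hy p hp k => ?_))
  · unfold rs
    simp only [Finset.mul_sum]
    rw [integral_finsetSum T hi]
    exact Finset.sum_congr rfl fun p hp => (mul_div_cancel₀ _ (h0 p hp).ne').symm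
  · rw [div_le_iff₀ (h0 p hp), ← (h.pk p hp).mass, ← integral_const_mul]
    refine integral_mono (hi p hp) ((h.pk p hp).bs.int.const_mul _) fun y' => ?_
    rcases le_or_gt (l / 8) ‖y' - p‖ with k' | k'
    · simp only [(h.pk p hp).out y' k', mul_zero, le_refl]
    · refine mul_le_mul_of_nonneg_right (hy y' ?_) ((h.pk p hp).nonneg y')
      have := norm_sub_le_norm_sub_add_norm_sub y p y'
      rw [norm_sub_rev p] at this
      linarith only [hl, k, k', this]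

theorem Cfg.mass (h : Cfg s γ c0 C c α B l S g T r ρ) (hα : 0 < α) (hl : 0 < l)
    (hg : Integrable g) :
    ∫ y, rs T ρ y = ∫ y, g y ∧ ∑ p ∈ T, α * r p ^ ((N : ℝ) - 2 * s) = ∫ y, g y := by
  have h1 := h.cell (fun _ => 1) (fun _ => 1) (hg.const_mul 1)
    (Eventually.of_forall fun _ _ _ _ => le_rfl)
  have h2 := h.cell (fun _ => -1) (fun _ => -1) (hg.const_mul (-1))
    (Eventually.of_forall fun _ _ _ _ => le_rfl)
  simp only [mul_one, one_mul, mul_neg, neg_mul, integral_neg, Finset.sum_neg_distrib,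
    neg_le_neg_iff] at h1 h2
  refine ⟨Eq.trans ?_ (le_antisymm h1 h2), le_antisymm h1 h2⟩
  unfold rs
  rw [integral_finsetSum T fun p hp => (h.pk p hp).bs.int]
  exact Finset.sum_congr rfl fun p hp => (h.pk p hp).mass

end

end Pool.Agent.Work.MP_49e099_an
end

-- merged part: Pool.Agent.Work.MP_49e099_an.CI.P6
section
/-!
# The regular part
`β = N - 2s`. `far_le`: `‖x - y‖ ≤ ‖x - y'‖ + 2 l ≤ 17 max ‖x - y'‖ (l/8)`. `nr_small`: `0 ≤ nr ≤ c0 ‖·‖^(-β)` on the ball of radius `l`, zero outside (`nr_out`), `ball_int`.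
`rest`: take `kf` from `Cut.far` at `l/8 ≤ R/2`, `V = conv kf (rs T ρ) - conv kR g`; the identity holds since `kR = nr + kf` off the origin (`Gk.int`, `BM.conv_int`, `Cfg.ps_basic`). Lipschitz bound: `Gk.conv_diff` and `loc_pot` for `conv kR g`; for `conv kf rs` use `Cfg.transport` with `H y' = max ‖x - y'‖ (l/8)^(-β-1)`, `F y = 17^(β+1) ‖x - y‖^(-β-1)` and `loc_pot`. Smallness: `conv kR g = conv nr g + conv kf g`, `nr_small`, and `Cfg.transport` with `H y' = ± kf (x - y')`, `F y = ± kf (x - y) + 4 A l 17^(β+1) ‖x - y‖^(-β-1)`.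
`rest_q`: `Cfg.transport` with `H y' = ± q (x - y')`, `F y = ± q (x - y) + τ'`, `τ' ∫ g ≤ τ`, `∫ g ≤ M vol(ball 0 R0)`.
-/

namespace Pool.Agent.Work.MP_49e099_an

open MeasureTheory Set Filter Topology Metric

noncomputable section

variable {N : ℕ} {a s : ℝ} {Ω : Set (Es N)}

theorem far_le (hp : Par N a s) {l : ℝ} (hl : 0 < l) {x y y' : Es N} (hy : y ≠ x)
    (h : ‖y - y'‖ ≤ 2 * l) : max ‖x - y'‖ (l / 8) ^ (-((N : ℝ) - 2 * s) - 1) ≤
      17 ^ ((N : ℝ) - 2 * s + 1) * ‖x - y‖ ^ (-((N : ℝ) - 2 * s) - 1) := by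
  have he := cia6_exp hp
  have h1 : 0 < ‖x - y‖ := norm_pos_iff.2 (sub_ne_zero.2 hy.symm)
  have h2 := norm_sub_le_norm_sub_add_norm_sub x y' y
  have h3 := le_max_left ‖x - y'‖ (l / 8)
  have h4 := le_max_right ‖x - y'‖ (l / 8)
  rw [norm_sub_rev y' y] at h2
  generalize max ‖x - y'‖ (l / 8) = m at h3 h4 ⊢
  have h5 := Real.rpow_le_rpow_of_nonpos (z := -((N : ℝ) - 2 * s) - 1) h1
    (show ‖x - y‖ ≤ 17 * m by linarith only [h, h2, h3, h4]) (by linarith only [he, he.1])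
  rw [Real.mul_rpow (by norm_num) (by linarith only [hl, h4])] at h5
  refine le_trans (le_of_eq ?_) (mul_le_mul_of_nonneg_left h5 (by positivity))
  rw [← mul_assoc, ← Real.rpow_add (by norm_num),
    show (N : ℝ) - 2 * s + 1 + (-((N : ℝ) - 2 * s) - 1) = 0 by ring, Real.rpow_zero, one_mul]

theorem nr_small (hp : Par N a s) {c0 : ℝ} (h0 : 0 < c0) : ∃ K > 0, ∀ (l M : ℝ) (g : Es N → ℝ),
    0 < l → BS g → (∀ x, |g x| ≤ M) → ∀ x, |conv (nr c0 s l) g x| ≤ K * M * l ^ (2 * s) := by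
  have he := cia6_exp hp
  obtain ⟨C, hC, h1⟩ := ball_int (N := N) (α := (N : ℝ) - 2 * s) (by exact_mod_cast he.2.2)
    (by linarith [he.2.1])
  refine ⟨c0 * C, by positivity, fun l M g hl _ hM x => ?_⟩
  obtain ⟨h2, h3⟩ := h1 x l hl
  have h4 : ‖conv (nr c0 s l) g x‖ ≤ ∫ y, (ball x l).indicator
      (fun y => c0 * M * ‖x - y‖ ^ (-((N : ℝ) - 2 * s))) y := by
    refine norm_integral_le_of_norm_le
      (IntegrableOn.integrable_indicator (h2.const_mul _) measurableSet_ball)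
      (.of_forall fun y => ?_)
    by_cases k : y ∈ ball x l
    · rw [indicator_of_mem k, Real.norm_eq_abs, abs_mul, abs_of_nonneg (cip3_nr h0 _),
        mul_right_comm]
      exact mul_le_mul (mul_le_mul_of_nonneg_left
        (max_le (sub_le_self _ (by positivity)) (by positivity)) h0.le) (hM y) (abs_nonneg _)
        (by positivity)
    · rw [indicator_of_notMem k, nr_out hp hl (cia1_out k), zero_mul, norm_zero]
  rw [integral_indicator measurableSet_ball, integral_const_mul, h3,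
    show (N : ℝ) - ((N : ℝ) - 2 * s) = 2 * s by ring] at h4
  exact h4.trans_eq (by ring)

theorem cip6_tr {γ c0 C c α B l : ℝ} {S : Set (Es N)} {g : Es N → ℝ} {T : Finset (Es N)}
    {r : Es N → ℝ} {ρ : Es N → Es N → ℝ} (h : Cfg s γ c0 C c α B l S g T r ρ) (hα : 0 < α)
    (hl : 0 < l) (hg : BS g) {G E : Es N → ℝ} (hG : BM G) (x : Es N)
    (hE : Integrable fun y => E y * g y)
    (hle : ∀ᵐ y, ∀ y', ‖y - y'‖ ≤ 2 * l → |G (x - y') - G (x - y)| ≤ E y) :
    |conv G (rs T ρ) x - conv G g x| ≤ ∫ y, E y * g y := by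
  have h1 := hG.conv_int hg x
  obtain ⟨K, hK⟩ := hG.bdd
  have hm : Measurable fun y => G (x - y) := hG.meas.comp (measurable_const.sub measurable_id)
  have h2 := h.transport hα hl (H := fun y => G (x - y)) (F := fun y => G (x - y) + E y)
    ⟨hm, K, fun y => hK _⟩ (by simp only [add_mul]; exact h1.add hE)
    (hle.mono fun y hy y' k => by linarith [(abs_le.1 (hy y' k)).2])
  have h3 := h.transport hα hl (H := fun y => -G (x - y)) (F := fun y => E y - G (x - y))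
    ⟨hm.neg, K, fun y => by rw [abs_neg]; exact hK _⟩ (by simp only [sub_mul]; exact hE.sub h1)
    (hle.mono fun y hy y' k => by linarith [(abs_le.1 (hy y' k)).1])
  simp only [add_mul] at h2
  simp only [sub_mul, neg_mul] at h3
  rw [integral_add h1 hE] at h2
  rw [integral_sub hE h1, integral_neg] at h3
  rw [conv, conv, abs_le]
  constructor <;> linarith only [h3, h2]

theorem cip6_bs {g : Es N → ℝ} {M R0 : ℝ} (hm : Measurable g) (hM : ∀ x, 0 ≤ g x ∧ g x ≤ M)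
    (h0 : ∀ x, R0 ≤ ‖x‖ → g x = 0) : BS g ∧ ∀ x, |g x| ≤ M :=
  have h : ∀ x, |g x| ≤ M := fun x => (abs_of_nonneg (hM x).1).trans_le (hM x).2
  ⟨⟨⟨hm, M, h⟩, R0, h0⟩, h⟩

theorem cip6_split (hp : Par N a s) {c0 l : ℝ} (h0 : 0 < c0) (hl : 0 < l) {kR kf σ : Es N → ℝ}
    (hf : BM kf) (h : ∀ x, x ≠ 0 → kR x = nr c0 s l x + kf x) (hσ : BS σ) (x : Es N) :
    conv kR σ x = conv (nr c0 s l) σ x + conv kf σ x := by
  rw [conv, conv, conv, ← integral_add ((gk_nr hp h0 hl).int hp hσ x) (hf.conv_int hσ x)]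
  refine integral_congr_ae ?_
  filter_upwards [cia6_ne hp x] with y hy
  rw [h _ hy, add_mul]

theorem cip6_max (hp : Par N a s) {l : ℝ} (hl : 0 < l) :
    BM fun y : Es N => max ‖y‖ l ^ (-((N : ℝ) - 2 * s) - 1) := by
  refine ⟨(measurable_norm.max measurable_const).pow_const _, l ^ (-((N : ℝ) - 2 * s) - 1),
    fun y => ?_⟩
  rw [abs_of_nonneg (by positivity)]
  exact Real.rpow_le_rpow_of_nonpos hl (le_max_right _ _) (by linarith [(cia6_exp hp).1])

variable {c0 R ρ0 A : ℝ} {kR q : Es N → ℝ}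

theorem rest (hp : Par N a s) (h0 : 0 < c0) (hR : 0 < R) (hA : 0 < A)
    (hC : Cut a s c0 R ρ0 A kR q) (M R0 : ℝ) : ∃ L : ℝ, ∀ τ > 0, ∃ l0 > 0,
    ∀ (γ C c α B l : ℝ) (S : Set (Es N)) (g : Es N → ℝ) (T : Finset (Es N)) (r : Es N → ℝ)
      (ρ : Es N → Es N → ℝ), Cfg s γ c0 C c α B l S g T r ρ → 0 < α → 0 < l → l ≤ l0 →
      Measurable g → (∀ x, 0 ≤ g x ∧ g x ≤ M) → (∀ x, R0 ≤ ‖x‖ → g x = 0) →
      ∃ V : Es N → ℝ, (∀ x, conv kR (fun y => rs T ρ y - g y) x = Ps c0 s l T ρ x + V x) ∧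
        (∀ x x', |V x - V x'| ≤ L * ‖x - x'‖) ∧ ∀ x, |V x| ≤ τ := by
  have he := cia6_exp hp
  obtain ⟨C1, -, h1⟩ := loc_pot (N := N) (α := (N : ℝ) - 2 * s + 1) (by exact_mod_cast he.2.2)
    (by linarith [he.1]) he.2.1 R0
  rw [show -((N : ℝ) - 2 * s + 1) = -((N : ℝ) - 2 * s) - 1 by ring] at h1
  obtain ⟨K, -, h2⟩ := nr_small hp h0
  obtain ⟨D, hD⟩ : ∃ D : ℝ, D = 17 ^ ((N : ℝ) - 2 * s + 1) := ⟨_, rfl⟩
  have D0 : 0 < D := by rw [hD]; positivity
  refine ⟨A * (D * (C1 * M) + D * (C1 * M)) + A * (C1 * M + C1 * M), fun τ hτ => ?_⟩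
  have h3 : Continuous fun l : ℝ => A * (2 * l) * (D + D) * (C1 * M) + K * M * (l / 8) ^ (2 * s) :=
    Continuous.add (by fun_prop) (continuous_const.mul
      ((continuous_id.div_const 8).rpow_const fun _ => Or.inr (by linarith only [he, hp.hs])))
  obtain ⟨δ, δ0, hδ⟩ := Metric.eventually_nhds_iff.1 ((h3.tendsto' 0 0 (by
    simp [Real.zero_rpow (show 2 * s ≠ 0 by linarith only [he, hp.hs])])).eventually_lt_const hτ)
  refine ⟨min (δ / 2) R, by positivity,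
    fun γ C c α B l S g T r ρ h hα hl l1 gm gM g0 => ?_⟩
  have l8 : 0 < l / 8 := by positivity
  obtain ⟨kf, k1, k2, k3⟩ := hC.far (l / 8) l8 (by linarith only [hR, l1, (le_min_iff.1 l1).2])
  obtain ⟨gs, ga⟩ := cip6_bs gm gM g0
  obtain ⟨rb, r0, -⟩ := h.rs_basic
  have h4 := h1 g M gm ga g0
  have h5 : ∀ x : Es N, ∫ y, ‖x - y‖ ^ (-((N : ℝ) - 2 * s) - 1) * g y ≤ C1 * M := fun x => by
    simpa only [abs_of_nonneg (gM _).1] using (h4 x).2
  have h6 : ∀ x : Es N, ∀ᵐ y, ∀ y', ‖y - y'‖ ≤ 2 * l →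
      max ‖x - y'‖ (l / 8) ^ (-((N : ℝ) - 2 * s) - 1) ≤ D * ‖x - y‖ ^ (-((N : ℝ) - 2 * s) - 1) :=
    fun x => (cia6_ne hp x).mono fun y hy y' k => hD ▸ far_le hp hl (sub_ne_zero.1 hy).symm k
  have h7 : ∀ x : Es N, ∫ y, max ‖x - y‖ (l / 8) ^ (-((N : ℝ) - 2 * s) - 1) * rs T ρ y ≤
      D * (C1 * M) := fun x => by
    obtain ⟨m1, K1, m2⟩ := cip6_max hp l8
    refine (h.transport hα hl ⟨m1.comp (measurable_const.sub measurable_id), K1, fun y => m2 _⟩
      (by simpa only [mul_assoc] using (h4 x).1.const_mul D) (h6 x)).trans ?_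
    simp only [mul_assoc]
    rw [integral_const_mul]
    exact mul_le_mul_of_nonneg_left (h5 x) D0.le
  refine ⟨fun x => conv kf (rs T ρ) x - conv kR g x, fun x => ?_, fun x x' => ?_, fun x => ?_⟩
  · rw [← (h.ps_basic hp h0 hl).2.2, ← add_sub_assoc, ← cip6_split hp h0 l8 k1 k2 rb, conv, conv,
      conv, ← integral_sub (hC.gk.int hp rb x) (hC.gk.int hp gs x)]
    simp only [mul_sub]
  · have i1 := (cip6_max hp l8).conv_int rb x
    have i2 := (cip6_max hp l8).conv_int rb x'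
    have a1 : |conv kf (rs T ρ) x - conv kf (rs T ρ) x'| ≤
        A * ‖x - x'‖ * (D * (C1 * M) + D * (C1 * M)) := by
      refine le_trans ?_ (mul_le_mul_of_nonneg_left (add_le_add (h7 x) (h7 x')) (by positivity))
      rw [← integral_add i1 i2, ← integral_const_mul, conv, conv,
        ← integral_sub (k1.conv_int rb x) (k1.conv_int rb x')]
      refine (Real.norm_eq_abs _).symm.trans_le
        (norm_integral_le_of_norm_le ((i1.add i2).const_mul _) (.of_forall fun y => ?_))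
      have k := k3 (x - y) (x' - y)
      rw [sub_sub_sub_cancel_right] at k
      rw [← sub_mul, Real.norm_eq_abs, abs_mul, abs_of_nonneg (r0 y), ← add_mul, ← mul_assoc]
      exact mul_le_mul_of_nonneg_right k (r0 y)
    have a2 := (hC.gk.conv_diff hp gs x x').trans
      (mul_le_mul_of_nonneg_left (add_le_add (h4 x).2 (h4 x').2) (by positivity))
    rw [sub_sub_sub_comm]
    exact (abs_sub _ _).trans ((add_le_add a1 a2).trans_eq (by ring))
  · have a1 := cip6_tr h hα hl gs k1 x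
      (E := fun y => A * (2 * l) * (D + D) * ‖x - y‖ ^ (-((N : ℝ) - 2 * s) - 1))
      (by simpa only [mul_assoc] using (h4 x).1.const_mul (A * (2 * l) * (D + D)))
      ((h6 x).mono fun y hy y' k => by
        refine (k3 _ _).trans ?_
        rw [sub_sub_sub_cancel_left, mul_assoc (A * (2 * l)), add_mul]
        exact mul_le_mul (mul_le_mul_of_nonneg_left k hA.le)
          (add_le_add (hy y' k) (hy y (by rw [sub_self, norm_zero]; positivity)))
          (by positivity) (by positivity))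
    simp only [mul_assoc (A * (2 * l) * (D + D))] at a1
    rw [integral_const_mul] at a1
    have a2 := a1.trans (mul_le_mul_of_nonneg_left (h5 x) (by positivity))
    have a3 := h2 (l / 8) M g l8 gs ga x
    have a4 := hδ (y := l) (by
      rw [Real.dist_eq, sub_zero, abs_of_pos hl]
      linarith only [hl, l1, (le_min_iff.1 l1).1])
    beta_reduce
    rw [cip6_split hp h0 l8 k1 k2 gs, add_comm, ← sub_sub]
    exact (abs_sub _ _).trans ((add_le_add a2 a3).trans a4.le)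

theorem rest_q (hq : BM q) (hu : UniformContinuous q) (M R0 : ℝ) {τ : ℝ} (hτ : 0 < τ) : ∃ l0 > 0,
    ∀ (γ c0 C c α B l : ℝ) (S : Set (Es N)) (g : Es N → ℝ) (T : Finset (Es N)) (r : Es N → ℝ)
      (ρ : Es N → Es N → ℝ), Cfg s γ c0 C c α B l S g T r ρ → 0 < α → 0 < l → l ≤ l0 →
      Measurable g → (∀ x, 0 ≤ g x ∧ g x ≤ M) → (∀ x, R0 ≤ ‖x‖ → g x = 0) →
      ∀ x, |conv q (fun y => rs T ρ y - g y) x| ≤ τ := by
  obtain ⟨K, hK⟩ : ∃ K : ℝ, K = |M * volume.real (ball (0 : Es N) R0)| + 1 := ⟨_, rfl⟩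
  have K0 : 0 < K := by rw [hK]; positivity
  obtain ⟨δ, δ0, hδ⟩ := Metric.uniformContinuous_iff.1 hu (τ / K) (by positivity)
  refine ⟨δ / 4, by positivity, fun γ c0 C c α B l S g T r ρ h hα hl l1 gm gM g0 x => ?_⟩
  obtain ⟨gs, ga⟩ := cip6_bs gm gM g0
  have a1 := cip6_tr h hα hl gs hq x (E := fun _ => τ / K) (gs.int.const_mul _)
    (.of_forall fun y y' k => (hδ (by
      rw [dist_eq_norm, sub_sub_sub_cancel_left]
      linarith only [hl, l1, k])).le)
  have a2 : ∫ y, g y ≤ K := by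
    rw [← setIntegral_eq_integral_of_forall_compl_eq_zero (s := ball 0 R0)
      fun y hy => g0 y (by rwa [mem_ball_zero_iff, not_lt] at hy)]
    have := norm_setIntegral_le_of_norm_le_const (μ := volume) (s := ball (0 : Es N) R0)
      (f := g) (C := M) measure_ball_lt_top fun y _ => ga y
    linarith only [hK, this, le_abs_self (M * volume.real (ball (0 : Es N) R0)),
      le_abs_self (∫ y in ball (0 : Es N) R0, g y), Real.norm_eq_abs (∫ y in ball (0 : Es N) R0, g y)]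
  rw [integral_const_mul, conv, conv,
    ← integral_sub (hq.conv_int h.rs_basic.1 x) (hq.conv_int gs x)] at a1
  simp only [conv, mul_sub]
  exact a1.trans ((mul_le_mul_of_nonneg_left a2 (by positivity)).trans_eq (div_mul_cancel₀ _ K0.ne'))

end

end Pool.Agent.Work.MP_49e099_an
end

-- merged part: Pool.Agent.Work.MP_49e099_an.CI.P4
section
/-!
# The gradient term of one peak
Put `β = N - 2s`, `t = r + ‖x - p‖`. `pk_Dsq`: on `‖x - y‖ < t/2` we have `r + ‖y - p‖ ≥ t/2`, so `|P x - P y| ≤ C' α r^β t^(-β-1) ‖x - y‖` and `ball_int` (exponent `N + 2s - 2`) gives `C' α² r^(2β) t^(-2β-2s) ≤ C' α² r^θ t^(-θ-2s)` because `r/t ≤ 1`, `θ ≤ 2β`. Outside use `(P x - P y)² ≤ 2 P x² + 2 P y²`, `P y² ≤ C² α² (r/(r + ‖y - p‖))^θ`; for `P x²` use `tail_int`; for `P y²` split at `‖y - p‖ < t`: there `‖x - y‖^(-N-2s) ≤ (t/2)^(-N-2s)` and `ball_int` with exponent `θ < N`; beyond, `(r + ‖y - p‖)^(-θ) ≤ t^(-θ)` and `tail_int`. Work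 with `lintegral` majorants (`lintegral_mono`, `ofReal_integral_eq_lintegral_ofReal`).
`pk_sq`: `P² ≤ C² α² r^θ ‖y - p‖^(-θ)` on `ball p (2 l)`, `y ≠ p`; zero outside.
`pk_real`: `X = r^(γ-2s) t^(-γ)`, `r^θ t^(-θ-2s) = (r/t)^ε X` with `ε = θ + 2s - γ > 0`. If `X ≥ X0 = K/(c τ)²` the root is at most `√(K X) ≤ τ c X`. Otherwise `(r/t)^γ ≤ X0 r^(2s)`, so `K (r/t)^ε X ≤ K X0 (X0 r^(2s))^(ε/γ) ≤ τ²` for small `r`.
-/

namespace Pool.Agent.Work.MP_49e099_an

open MeasureTheory Set Filter Topology Metric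

noncomputable section

variable {N : ℕ} {a s : ℝ} {Ω : Set (Es N)}

theorem cip4_half {t : ℝ} (ht : 0 < t) (e : ℝ) : (t / 2) ^ e = (2 : ℝ) ^ (-e) * t ^ e := by
  rw [Real.div_rpow ht.le (by norm_num), Real.rpow_neg (by norm_num), div_eq_inv_mul]

theorem cip4_div {r t : ℝ} (hr : 0 < r) (ht : 0 < t) (e : ℝ) : (r / t) ^ e = r ^ e * t ^ (-e) := by
  rw [Real.div_rpow hr.le ht.le, Real.rpow_neg ht.le, div_eq_mul_inv]

theorem cip4_q {r t β θ : ℝ} (hr : 0 < r) (hrt : r ≤ t) (h : θ ≤ 2 * β) :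
    ((r / t) ^ β) ^ 2 ≤ r ^ θ * t ^ (-θ) := by
  have ht : 0 < t := hr.trans_le hrt
  have hq : 0 < r / t := div_pos hr ht
  rw [← cip4_div hr ht, ← Real.rpow_two, ← Real.rpow_mul hq.le]
  exact Real.rpow_le_rpow_of_exponent_ge hq ((div_le_one ht).2 hrt) (by linarith)

theorem cip4_sq {P : Es N → ℝ} {C α r β θ : ℝ} {p : Es N} (hr : 0 < r) (h : θ ≤ 2 * β)
    (hθ : 0 ≤ θ) (h0 : ∀ y, 0 ≤ P y) (h1 : ∀ y, P y ≤ C * α * (r / (r + ‖y - p‖)) ^ β) (y : Es N)
    {t : ℝ} (ht : 0 < t) (hty : t ≤ r + ‖y - p‖) :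
    P y ^ 2 ≤ C ^ 2 * α ^ 2 * r ^ θ * t ^ (-θ) := by
  have a1 := pow_le_pow_left₀ (h0 y) (h1 y) 2
  have a2 := cip4_q (β := β) hr (le_add_of_nonneg_right (norm_nonneg (y - p))) h
  have a3 : (r + ‖y - p‖) ^ (-θ) ≤ t ^ (-θ) :=
    Real.rpow_le_rpow_of_nonpos ht hty (by linarith only [hθ])
  have a4 : 0 ≤ r ^ θ := by positivity
  calc P y ^ 2 ≤ _ := a1
    _ = C ^ 2 * α ^ 2 * ((r / (r + ‖y - p‖)) ^ β) ^ 2 := by ring
    _ ≤ C ^ 2 * α ^ 2 * (r ^ θ * t ^ (-θ)) :=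
      mul_le_mul_of_nonneg_left (a2.trans (mul_le_mul_of_nonneg_left a3 a4)) (by positivity)
    _ = _ := by ring

theorem pk_Dsq (hp : Par N a s) {θ γ0 : ℝ} (hx : Ex N s θ γ0) (C : ℝ) : ∃ K > 0,
    ∀ (P : Es N → ℝ) (α r : ℝ) (p : Es N), 0 < α → 0 < r → (∀ y, 0 ≤ P y) →
      (∀ y, P y ≤ C * α * (r / (r + ‖y - p‖)) ^ ((N : ℝ) - 2 * s)) →
      (∀ y y', |P y - P y'| ≤ C * α * r ^ ((N : ℝ) - 2 * s) * ‖y - y'‖ *
        ((r + ‖y - p‖) ^ (-((N : ℝ) - 2 * s) - 1) + (r + ‖y' - p‖) ^ (-((N : ℝ) - 2 * s) - 1))) →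
      ∀ x, Dsq N a s P x ≤
        ENNReal.ofReal (K * α ^ 2 * (r ^ θ * (r + ‖x - p‖) ^ (-(θ + 2 * s)))) := by
  have hN : 1 ≤ N := le_trans (by norm_num) hp.hN
  have ha := hp.ha
  have hs := hp.hs
  have hs1 := hp.hs1
  have hβ := (cia6_exp hp).1
  have hθ : 0 ≤ θ := (hβ.trans hx.t1).le
  obtain ⟨C1, c1, b1⟩ := ball_int hN (α := N + 2 * s - 2) (by linarith only [hs1])
  obtain ⟨C2, c2, b2⟩ := tail_int hN (γ := N + 2 * s) (by linarith only [hs, hs1])
  obtain ⟨C3, c3, b3⟩ := ball_int hN hx.t2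
  have ht3 := hx.t3
  generalize (N : ℝ) - 2 * s = β at hβ ht3 ⊢
  refine ⟨a / 2 * C ^ 2 * (4 * C1 * ((2 : ℝ) ^ (β + 1)) ^ 2 * (2 : ℝ) ^ (-(2 - 2 * s)) +
    2 * C2 * (2 : ℝ) ^ (2 * s) + C3 * (2 : ℝ) ^ (N + 2 * s)) + 1, by positivity,
    fun P α r p hα hr h0 h1 h2 x => ?_⟩
  have hsq := cip4_sq hr ht3 hθ h0 h1
  have hC : 0 ≤ C := by
    have := (h0 p).trans (h1 p)
    rw [mul_assoc] at this
    exact nonneg_of_mul_nonneg_left this (by positivity)
  set t := r + ‖x - p‖ with htdef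
  have hrt : r ≤ t := le_add_of_nonneg_right (norm_nonneg _)
  have ht : 0 < t := hr.trans_le hrt
  have hu : 0 < t / 2 := half_pos ht
  obtain ⟨i1, e1⟩ := b1 x (t / 2) hu
  obtain ⟨i2, e2⟩ := b2 x (t / 2) hu
  obtain ⟨i3, e3⟩ := b3 p t ht
  have f1 : (N : ℝ) - (N + 2 * s - 2) = 2 - 2 * s := by ring
  have f2 : (N : ℝ) - (N + 2 * s) = -(2 * s) := by ring
  rw [f1] at e1
  rw [f2] at e2
  set L := C * α * r ^ β * (2 * (t / 2) ^ (-β - 1)) with hL
  set M := C ^ 2 * α ^ 2 * r ^ θ with hM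
  have hM0 : 0 ≤ M := by positivity
  unfold Dsq
  rw [← lintegral_add_compl _ (measurableSet_ball (x := x) (ε := t / 2))]
  have k1 : ∫⁻ y in ball x (t / 2),
      ENNReal.ofReal (a / 2 * ((P x - P y) ^ 2 / ‖x - y‖ ^ (N + 2 * s))) ≤
      ∫⁻ y in ball x (t / 2), ENNReal.ofReal (a / 2 * L ^ 2 * ‖x - y‖ ^ (-(N + 2 * s - 2))) := by
    clear * - N x t a P s L β hu r p hs hs1 hβ C α h2 hC hα hr ha
    refine setLIntegral_mono' measurableSet_ball fun y hy => ENNReal.ofReal_le_ofReal ?_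
    rw [mul_assoc]
    refine mul_le_mul_of_nonneg_left ?_ (by positivity)
    by_cases hxy : y = x
    · rw [hxy, sub_self (P x), zero_pow two_ne_zero, zero_div]
      positivity
    have hn : 0 < ‖x - y‖ := norm_pos_iff.2 (sub_ne_zero.2 (Ne.symm hxy))
    rw [mem_ball', dist_eq_norm] at hy
    have g1 : t ^ (-β - 1) ≤ (t / 2) ^ (-β - 1) :=
      Real.rpow_le_rpow_of_nonpos hu (by linarith only [hy, hn]) (by linarith only [hs, hs1, hβ])
    have g2 : (r + ‖y - p‖) ^ (-β - 1) ≤ (t / 2) ^ (-β - 1) := by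
      refine Real.rpow_le_rpow_of_nonpos hu ?_ (by linarith only [hs, hs1, hβ])
      have := norm_sub_le_norm_sub_add_norm_sub x y p
      linarith only [hy, this]
    have g3 : |P x - P y| ≤ L * ‖x - y‖ := by
      refine (h2 x y).trans ?_
      calc _ ≤ C * α * r ^ β * ‖x - y‖ * (2 * (t / 2) ^ (-β - 1)) :=
            mul_le_mul_of_nonneg_left (by linarith only [g1, g2]) (by positivity)
        _ = _ := by ring
    have h3 : (P x - P y) ^ 2 ≤ L ^ 2 * ‖x - y‖ ^ 2 := by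
      have := pow_le_pow_left₀ (abs_nonneg _) g3 2
      rwa [sq_abs, mul_pow] at this
    rw [neg_sub, Real.rpow_sub hn, Real.rpow_two, ← mul_div_assoc]
    exact div_le_div_of_nonneg_right h3 (by positivity)
  have k2 : ∫⁻ y in (ball x (t / 2))ᶜ,
      ENNReal.ofReal (a / 2 * ((P x - P y) ^ 2 / ‖x - y‖ ^ (N + 2 * s))) ≤
      ∫⁻ y in (ball x (t / 2))ᶜ,
        (ENNReal.ofReal (a / 2 * (2 * (M * t ^ (-θ))) * ‖x - y‖ ^ (-(N + 2 * s))) +
        (ball p t).indicator (fun y => ENNReal.ofReal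
          (a / 2 * (M * (t / 2) ^ (-(N + 2 * s))) * ‖p - y‖ ^ (-θ))) y) := by
    clear * - N x t a P s M θ p hp hu h0 hsq ht C α r hα hr ha hs hs1
    refine lintegral_mono_ae ?_
    filter_upwards [ae_restrict_of_ae (cia6_ne hp p), ae_restrict_mem measurableSet_ball.compl]
      with y hy hy'
    have hd := cia1_out hy'
    have hn : 0 < ‖x - y‖ := hu.trans_le hd
    have hw : 0 < ‖x - y‖ ^ (-((N : ℝ) + 2 * s)) := by positivity
    have g0 : (P x - P y) ^ 2 ≤ P x ^ 2 + P y ^ 2 := by linarith only [h0, mul_nonneg (h0 x) (h0 y)]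
    have g1 : P x ^ 2 ≤ M * t ^ (-θ) := hsq x ht le_rfl
    have g4 : 0 ≤ M * t ^ (-θ) := by clear * - M t θ C α r hα hr N x p; positivity
    rw [div_eq_mul_inv _ (‖x - y‖ ^ _), ← Real.rpow_neg hn.le]
    by_cases hb : y ∈ ball p t
    · rw [indicator_of_mem hb, ← ENNReal.ofReal_add (by positivity) (by positivity)]
      refine ENNReal.ofReal_le_ofReal ?_
      rw [mul_assoc (a / 2), mul_assoc (a / 2), ← mul_add]
      refine mul_le_mul_of_nonneg_left ?_ (by positivity)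
      have hpy : 0 < ‖p - y‖ := norm_pos_iff.2 hy
      have g2 : P y ^ 2 ≤ M * ‖p - y‖ ^ (-θ) :=
        hsq y hpy (by rw [norm_sub_rev]; linarith only [hr])
      have g3 : ‖x - y‖ ^ (-((N : ℝ) + 2 * s)) ≤ (t / 2) ^ (-((N : ℝ) + 2 * s)) :=
        Real.rpow_le_rpow_of_nonpos hu hd (by linarith only [hs, hs1, Nat.cast_nonneg (α := ℝ) N])
      have g5 := mul_le_mul g2 g3 hw.le (by positivity)
      have g6 := mul_le_mul_of_nonneg_right (g0.trans (add_le_add_left g1 _)) hw.le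
      have g7 := mul_nonneg g4 hw.le
      linarith only [g5, g6, g7]
    · rw [indicator_of_notMem hb, add_zero]
      refine ENNReal.ofReal_le_ofReal ?_
      rw [mul_assoc (a / 2)]
      refine mul_le_mul_of_nonneg_left (mul_le_mul_of_nonneg_right ?_ hw.le) (by positivity)
      have g2 : P y ^ 2 ≤ M * t ^ (-θ) :=
        hsq y ht (by have := cia1_out hb; rw [norm_sub_rev] at this; linarith only [hr, this])
      linarith only [g0, g1, g2]
  rw [cia2_set (by clear * - a L ha e1 i1 k1; positivity) i1, e1] at k1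
  rw [lintegral_add_left (by fun_prop), cia2_set (by clear * - a M t θ ha C α r hα hr N x p e2 i2 k2; positivity) i2, e2] at k2
  have k3 := setLIntegral_le_lintegral (μ := volume) (ball x (t / 2))ᶜ ((ball p t).indicator
    (fun y => ENNReal.ofReal (a / 2 * (M * (t / 2) ^ (-(N + 2 * s))) * ‖p - y‖ ^ (-θ))))
  rw [lintegral_indicator measurableSet_ball (μ := volume), cia2_set (by clear * - a M t N s ha C α r θ hα hr x p e3 i3 k3; positivity) i3, e3] at k3
  refine (add_le_add k1 (k2.trans (add_le_add_right k3 _))).trans ?_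
  rw [← ENNReal.ofReal_add (by clear * - a M t θ C2 s ha C α r hα hr N x p c2; positivity) (by clear * - a M t N s C3 θ ha C α r hα hr x p c3; positivity),
    ← ENNReal.ofReal_add (by clear * - a L C1 t s ha c1 r N x p hr; positivity) (by clear * - a M t θ C2 s N C3 ha C α r hα hr x p c2 c3; positivity)]
  refine ENNReal.ofReal_le_ofReal ?_
  have q1 : t ^ (-(θ + 2 * s)) = t ^ (-θ) * t ^ (-(2 * s)) := by
    rw [← Real.rpow_add ht]; congr 1; ring
  have q2 : t ^ (-((N : ℝ) + 2 * s)) * t ^ ((N : ℝ) - θ) = t ^ (-θ) * t ^ (-(2 * s)) := by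
    rw [← Real.rpow_add ht, ← Real.rpow_add ht]; congr 1; ring
  have q3 : (t ^ (-β - 1)) ^ 2 * t ^ (2 - 2 * s) = (t ^ (-β)) ^ 2 * t ^ (-(2 * s)) := by
    rw [← Real.rpow_two, ← Real.rpow_two, ← Real.rpow_mul ht.le, ← Real.rpow_mul ht.le,
      ← Real.rpow_add ht, ← Real.rpow_add ht]
    congr 1; ring
  have q4 := cip4_q (β := β) hr hrt ht3
  rw [cip4_div hr ht] at q4
  have w1 : a / 2 * L ^ 2 * (C1 * (t / 2) ^ (2 - 2 * s)) ≤
      a / 2 * C ^ 2 * (4 * C1 * ((2 : ℝ) ^ (β + 1)) ^ 2 * (2 : ℝ) ^ (-(2 - 2 * s))) * α ^ 2 *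
        (r ^ θ * t ^ (-θ) * t ^ (-(2 * s))) := by
    clear * - a L C1 t s C β α r θ hL ht q3 q4 N x p hr ha c1 hα
    rw [hL, cip4_half ht, cip4_half ht, show -(-β - 1) = β + 1 by ring]
    calc _ = a / 2 * C ^ 2 * (4 * C1 * ((2 : ℝ) ^ (β + 1)) ^ 2 * (2 : ℝ) ^ (-(2 - 2 * s))) * α ^ 2 *
          ((r ^ β) ^ 2 * ((t ^ (-β - 1)) ^ 2 * t ^ (2 - 2 * s))) := by ring
      _ = a / 2 * C ^ 2 * (4 * C1 * ((2 : ℝ) ^ (β + 1)) ^ 2 * (2 : ℝ) ^ (-(2 - 2 * s))) * α ^ 2 *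
          ((r ^ β * t ^ (-β)) ^ 2 * t ^ (-(2 * s))) := by rw [q3]; ring
      _ ≤ _ := mul_le_mul_of_nonneg_left (mul_le_mul_of_nonneg_right q4 (by positivity))
          (by positivity)
  have w2 : a / 2 * (2 * (M * t ^ (-θ))) * (C2 * (t / 2) ^ (-(2 * s))) =
      a / 2 * C ^ 2 * (2 * C2 * (2 : ℝ) ^ (2 * s)) * α ^ 2 *
        (r ^ θ * t ^ (-θ) * t ^ (-(2 * s))) := by
    rw [hM, cip4_half ht, neg_neg]; ring
  have w3 : a / 2 * (M * (t / 2) ^ (-((N : ℝ) + 2 * s))) * (C3 * t ^ ((N : ℝ) - θ)) =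
      a / 2 * C ^ 2 * (C3 * (2 : ℝ) ^ (N + 2 * s)) * α ^ 2 *
        (r ^ θ * t ^ (-θ) * t ^ (-(2 * s))) := by
    rw [hM, cip4_half ht, neg_neg, mul_assoc (r ^ θ), ← q2]; ring
  have w4 : 0 ≤ α ^ 2 * (r ^ θ * t ^ (-θ) * t ^ (-(2 * s))) := by positivity
  rw [w2, w3, q1, ← mul_assoc (r ^ θ)]
  clear * - a L C1 t s C C2 α r θ C3 N β w1 w4; linarith only [w1, w4]

theorem pk_sq (hp : Par N a s) {θ γ0 : ℝ} (hx : Ex N s θ γ0) (C : ℝ) : ∃ K > 0,
    ∀ (P : Es N → ℝ) (α r l : ℝ) (p : Es N), 0 < α → 0 < r → 0 < l → (∀ y, 0 ≤ P y) →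
      (∀ y, P y ≤ C * α * (r / (r + ‖y - p‖)) ^ ((N : ℝ) - 2 * s)) →
      (∀ y, 2 * l ≤ ‖y - p‖ → P y = 0) →
      ∫⁻ y, ENNReal.ofReal (P y ^ 2) ≤ ENNReal.ofReal (K * α ^ 2 * (r ^ θ * l ^ (N - θ))) := by
  have hN : 1 ≤ N := le_trans (by norm_num) hp.hN
  have hθ : 0 ≤ θ := ((cia6_exp hp).1.trans hx.t1).le
  obtain ⟨C3, c3, b3⟩ := ball_int hN hx.t2
  refine ⟨C ^ 2 * C3 * (2 : ℝ) ^ (N - θ) + 1, by positivity,
    fun P α r l p hα hr hl h0 h1 h2 => ?_⟩
  obtain ⟨i3, e3⟩ := b3 p (2 * l) (by positivity)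
  have k : ∫⁻ y, ENNReal.ofReal (P y ^ 2) ≤ ∫⁻ y, (ball p (2 * l)).indicator
      (fun y => ENNReal.ofReal (C ^ 2 * α ^ 2 * r ^ θ * ‖p - y‖ ^ (-θ))) y := by
    refine lintegral_mono_ae ?_
    filter_upwards [cia6_ne hp p] with y hy
    by_cases hb : y ∈ ball p (2 * l)
    · rw [indicator_of_mem hb]
      exact ENNReal.ofReal_le_ofReal (cip4_sq hr hx.t3 hθ h0 h1 y (norm_pos_iff.2 hy)
        (by rw [norm_sub_rev]; linarith only [hr]))
    · rw [h2 y (by rw [norm_sub_rev]; exact cia1_out hb)]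
      simp
  rw [lintegral_indicator measurableSet_ball, cia2_set (by positivity) i3, e3] at k
  refine k.trans (ENNReal.ofReal_le_ofReal ?_)
  rw [Real.mul_rpow (by norm_num) hl.le]
  have : 0 ≤ α ^ 2 * (r ^ θ * l ^ ((N : ℝ) - θ)) := by positivity
  linarith only [this]

theorem pk_real (hp : Par N a s) {θ γ : ℝ} (hx : Ex N s θ γ) {K c τ : ℝ} (hK : 0 < K) (hc : 0 < c)
    (hτ : 0 < τ) : ∃ r0 > 0, ∀ r t : ℝ, 0 < r → r ≤ r0 → r ≤ t →
      r ^ θ * t ^ (-(θ + 2 * s)) ≤ r ^ (γ - 2 * s) * t ^ (-γ) ∧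
      √(K * (r ^ θ * t ^ (-(θ + 2 * s)))) ≤ τ + τ * (c * (r ^ (γ - 2 * s) * t ^ (-γ))) := by
  have hs := hp.hs
  have hγ : 0 < γ := (Nat.cast_nonneg (α := ℝ) N).trans_lt hx.g1
  obtain ⟨ε, hε, hεe⟩ : ∃ ε > 0, ε = θ + 2 * s - γ := ⟨_, sub_pos.2 hx.g2, rfl⟩
  obtain ⟨X0, hX0, hX0e⟩ : ∃ X0 > 0, X0 * (τ * c) ^ 2 = K :=
    ⟨K / (τ * c) ^ 2, by positivity, div_mul_cancel₀ _ (by positivity)⟩
  have he : 0 < 2 * s * (ε / γ) := by positivity
  refine ⟨(τ ^ 2 / (K * X0 * X0 ^ (ε / γ))) ^ (2 * s * (ε / γ))⁻¹, by positivity,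
    fun r t hr hr0 hrt => ?_⟩
  have hsm := cia1_small (by positivity) he (by positivity) hr hr0
  have ht : 0 < t := hr.trans_le hrt
  have hq : 0 < r / t := div_pos hr ht
  have e1 : r ^ θ * t ^ (-(θ + 2 * s)) = (r / t) ^ ε * (r ^ (γ - 2 * s) * t ^ (-γ)) := by
    rw [cip4_div hr ht, mul_mul_mul_comm, ← Real.rpow_add hr, ← Real.rpow_add ht, hεe]
    congr 2 <;> ring
  have e2 : (r / t) ^ γ = r ^ (γ - 2 * s) * t ^ (-γ) * r ^ (2 * s) := by
    rw [cip4_div hr ht, mul_right_comm, ← Real.rpow_add hr, sub_add_cancel]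
  have hX : 0 < r ^ (γ - 2 * s) * t ^ (-γ) := by positivity
  rw [e1]
  generalize r ^ (γ - 2 * s) * t ^ (-γ) = X at hX e2 ⊢
  have q1 : (r / t) ^ ε ≤ 1 := Real.rpow_le_one hq.le ((div_le_one ht).2 hrt) hε.le
  have q2 : (r / t) ^ ε * X ≤ X := mul_le_of_le_one_left hX.le q1
  refine ⟨q2, ?_⟩
  have q3 : 0 ≤ τ * (c * X) := by positivity
  rcases le_total X0 X with h | h
  · refine (Real.sqrt_le_iff.2 ⟨q3, ?_⟩).trans (le_add_of_nonneg_left hτ.le)
    calc K * ((r / t) ^ ε * X) ≤ K * X := mul_le_mul_of_nonneg_left q2 hK.le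
      _ = X0 * ((τ * c) ^ 2 * X) := by rw [← hX0e]; ring
      _ ≤ X * ((τ * c) ^ 2 * X) := mul_le_mul_of_nonneg_right h (by positivity)
      _ = _ := by ring
  · refine (Real.sqrt_le_iff.2 ⟨hτ.le, ?_⟩).trans (le_add_of_nonneg_right q3)
    have q4 : (r / t) ^ ε ≤ X0 ^ (ε / γ) * r ^ (2 * s * (ε / γ)) := by
      rw [Real.rpow_mul hr.le, ← Real.mul_rpow hX0.le (by positivity)]
      calc (r / t) ^ ε = ((r / t) ^ γ) ^ (ε / γ) := by
            rw [← Real.rpow_mul hq.le, mul_div_cancel₀ _ hγ.ne']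
        _ ≤ _ := by
            refine Real.rpow_le_rpow (by positivity) ?_ (by positivity)
            rw [e2]
            exact mul_le_mul_of_nonneg_right h (by positivity)
    calc K * ((r / t) ^ ε * X) ≤ K * (X0 ^ (ε / γ) * r ^ (2 * s * (ε / γ)) * X0) :=
          mul_le_mul_of_nonneg_left (mul_le_mul q4 h hX.le (by positivity)) hK.le
      _ = K * X0 * X0 ^ (ε / γ) * r ^ (2 * s * (ε / γ)) := by ring
      _ ≤ _ := hsm

end

end Pool.Agent.Work.MP_49e099_an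
end

-- merged part: Pool.Agent.Work.MP_49e099_an.CI.P7
section
/-!
# The gradient term of the sum of the peaks
`others`: the sum vanishes at `x`; the supports are disjoint, so `(∑ P p y)² = ∑ (P p y)²`; if `P p y ≠ 0` then `‖x - y‖ ≥ ‖x - p‖/2`; `lintegral_finset_sum`, `pack` with `γ = N + 2s`.
`own`: `pk_Dsq` gives `D ≤ K α² r^θ t^(-θ-2s)`, `t = r + ‖x - p‖`. If `‖x - p‖ < l` use `Pk.low` and `pk_real` (constants `K α²` and `c α`), so `C1 = K / c`; otherwise `t ≥ l` and `D ≤ K α² τ'`.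
`peaks_Dsq`: at most one `p0 ∈ T` has `‖x - p0‖ < l/2`. Split `Ps` into this peak (if any) and the others (`Finset.sum_erase`, `Finset.add_sum_erase`); `others` with `E = K' α² τ' l^(θ+2s) (l/8)^(N-θ)` from `pk_sq` and `scales`; `Dsq_add_le`, `Dr_sqrt_add`, `Dr_le`.
-/

namespace Pool.Agent.Work.MP_49e099_an

open MeasureTheory Set Filter Topology Metric

noncomputable section

variable {N : ℕ} {a s : ℝ} {Ω : Set (Es N)}

theorem cip7_tri (x y p : Es N) : ‖x - p‖ ≤ ‖x - y‖ + ‖y - p‖ := norm_sub_le_norm_sub_add_norm_sub x y p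

theorem cip7_pt (ha : 0 < a) {e : ℝ} (he : 0 ≤ e) {T : Finset (Es N)} {P : Es N → Es N → ℝ}
    {x : Es N} {l : ℝ} (hl : 0 < l) (h1 : ∀ p ∈ T, ∀ p' ∈ T, p ≠ p' → l ≤ ‖p - p'‖)
    (h2 : ∀ p ∈ T, l / 2 ≤ ‖x - p‖) (h3 : ∀ p ∈ T, ∀ y, l / 4 ≤ ‖y - p‖ → P p y = 0) (y : Es N) :
    ENNReal.ofReal (a / 2 * ((∑ p ∈ T, P p x - ∑ p ∈ T, P p y) ^ 2 / ‖x - y‖ ^ e)) ≤
      ∑ p ∈ T, ENNReal.ofReal (a / 2 * 2 ^ e * ‖x - p‖ ^ (-e)) * ENNReal.ofReal (P p y ^ 2) := by
  rw [Finset.sum_eq_zero fun p hp => h3 p hp x (by linarith only [hl, h2, hp, h2 p hp]), zero_sub, neg_sq]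
  by_cases h : ∃ p ∈ T, P p y ≠ 0
  swap
  · rw [Finset.sum_eq_zero fun p hp => by_contra fun k => h ⟨p, hp, k⟩]
    simp
  obtain ⟨p, hp, h⟩ := h
  have hy : ‖y - p‖ < l / 4 := lt_of_not_ge fun k => h (h3 p hp y k)
  rw [Finset.sum_eq_single_of_mem p hp fun q hq hqp => h3 q hq y (by
    have := h1 q hq p hp hqp
    have := cip7_tri q y p
    rw [norm_sub_rev q y] at this
    linarith)]
  refine le_trans ?_ (Finset.single_le_sum (f := fun p => ENNReal.ofReal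
    (a / 2 * 2 ^ e * ‖x - p‖ ^ (-e)) * ENNReal.ofReal (P p y ^ 2)) (fun _ _ => zero_le) hp)
  have h0 : 0 < ‖x - p‖ := by linarith only [hl, h2, hp, h2 p hp]
  rw [← ENNReal.ofReal_mul (by positivity)]
  refine ENNReal.ofReal_le_ofReal ?_
  have h4 : ‖x - y‖ ^ (-e) ≤ (‖x - p‖ / 2) ^ (-e) :=
    Real.rpow_le_rpow_of_nonpos (half_pos h0) (by linarith only [hy, h2, hp, cip7_tri x y p, h2 p hp])
      (neg_nonpos.2 he)
  rw [cip4_half h0, neg_neg, Real.rpow_neg (norm_nonneg (x - y))] at h4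
  rw [div_eq_mul_inv (P p y ^ 2)]
  have := mul_le_mul_of_nonneg_left h4 (show 0 ≤ a / 2 * P p y ^ 2 by positivity)
  linarith only [this]

theorem others (hp : Par N a s) : ∃ K > 0, ∀ (T : Finset (Es N)) (P : Es N → Es N → ℝ) (x : Es N)
    (l E : ℝ), 0 < l → 0 ≤ E → (∀ p ∈ T, ∀ p' ∈ T, p ≠ p' → l ≤ ‖p - p'‖) →
    (∀ p ∈ T, l / 2 ≤ ‖x - p‖) → (∀ p ∈ T, Measurable (P p)) →
    (∀ p ∈ T, ∀ y, l / 4 ≤ ‖y - p‖ → P p y = 0) →
    (∀ p ∈ T, ∫⁻ y, ENNReal.ofReal (P p y ^ 2) ≤ ENNReal.ofReal E) →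
      Dsq N a s (fun y => ∑ p ∈ T, P p y) x ≤ ENNReal.ofReal (K * E * l ^ (-(N + 2 * s))) := by
  have hN : 1 ≤ N := le_trans (by norm_num) hp.hN
  have hs : 0 < s := lt_trans (by norm_num) hp.hs
  have ha := hp.ha
  obtain ⟨C, hC, h⟩ := pack hN (γ := N + 2 * s) (by linarith only [hs])
  refine ⟨a / 2 * 2 ^ (N + 2 * s) * C, by positivity, fun T P x l E hl hE h1 h2 h3 h4 h5 => ?_⟩
  refine le_trans (lintegral_mono fun y => cip7_pt ha (by positivity) hl h1 h2 h4 y) ?_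
  have m : ∀ p ∈ T, Measurable fun y => ENNReal.ofReal (P p y ^ 2) := fun p hp =>
    ((h3 p hp).pow_const 2).ennreal_ofReal
  rw [lintegral_finsetSum _ fun p hp => (m p hp).const_mul _]
  refine le_trans (Finset.sum_le_sum (g := fun p => ENNReal.ofReal
    (a / 2 * 2 ^ (N + 2 * s) * E * ‖x - p‖ ^ (-(N + 2 * s)))) fun p hp => ?_) ?_
  · rw [lintegral_const_mul _ (m p hp), mul_right_comm _ E,
      ENNReal.ofReal_mul (q := E) (by positivity)]
    exact mul_le_mul_right (h5 p hp) _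
  · rw [← ENNReal.ofReal_sum_of_nonneg fun p _ => by positivity, ← Finset.mul_sum]
    refine ENNReal.ofReal_le_ofReal ?_
    have := mul_le_mul_of_nonneg_left (h T x l hl h1 h2)
      (show 0 ≤ a / 2 * 2 ^ (N + 2 * s) * E by positivity)
    linarith only [this]

theorem own (hp : Par N a s) {θ γ C c : ℝ} (hx : Ex N s θ γ) (hc : 0 < c) : ∃ C1 > 0,
    ∀ α > 0, ∀ τ > 0, ∃ τ' > 0, ∀ (c0 r l : ℝ) (p : Es N) (ρ : Es N → ℝ),
      Pk s γ c0 C c α r l p ρ → 0 < r → 0 < l → r ≤ τ' → r ^ θ ≤ τ' * l ^ (θ + 2 * s) → ∀ x,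
        Dsq N a s (conv (nr c0 s l) ρ) x < ⊤ ∧
        Dr a s (conv (nr c0 s l) ρ) x ≤ C1 * α * ρ x + τ ∧
        √(Dr a s (conv (nr c0 s l) ρ) x) ≤ τ + τ * ρ x := by
  obtain ⟨K, hK, h⟩ := pk_Dsq hp hx C
  refine ⟨K / c, div_pos hK hc, fun α hα τ hτ => ?_⟩
  have hK' : 0 < K * α ^ 2 := by positivity
  obtain ⟨r0, hr0, h'⟩ := pk_real hp hx hK' (mul_pos hc hα) hτ
  refine ⟨min r0 (min τ (τ ^ 2) / (K * α ^ 2)), by positivity,
    fun c0 r l p ρ hP hr hl h1 h2 x => ?_⟩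
  have ht : r ≤ r + ‖x - p‖ := le_add_of_nonneg_right (norm_nonneg _)
  have ht0 : 0 < r + ‖x - p‖ := hr.trans_le ht
  obtain ⟨d1, d2⟩ := Dr_le (by positivity) (h _ α r p hα hr hP.p0 hP.ple hP.pdiff x)
  refine ⟨d1, ?_⟩
  have hρ := hP.nonneg x
  rcases lt_or_ge ‖x - p‖ l with hx | hx'
  · obtain ⟨a1, a2⟩ := h' r _ hr (h1.trans (min_le_left _ _)) ht
    have a3 := hP.low x hx
    rw [mul_assoc (c * α)] at a3
    constructor
    · have a4 := mul_le_mul_of_nonneg_left a1 hK'.le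
      have a5 := mul_le_mul_of_nonneg_left a3 (show 0 ≤ K / c * α by positivity)
      rw [← mul_assoc, show K / c * α * (c * α) = K * α ^ 2 by field_simp] at a5
      linarith only [hτ, d2, a4, a5]
    · have a4 := mul_le_mul_of_nonneg_left a3 hτ.le
      linarith only [a2, a4, d2, Real.sqrt_le_sqrt d2]
  · have e0 : 0 ≤ θ + 2 * s := by linarith only [hx, hx.t1, (Nat.cast_nonneg N : (0 : ℝ) ≤ N)]
    have a1 : (r + ‖x - p‖) ^ (-(θ + 2 * s)) ≤ l ^ (-(θ + 2 * s)) :=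
      Real.rpow_le_rpow_of_nonpos hl (by linarith only [hr, hx']) (neg_nonpos.2 e0)
    have a2 := mul_le_mul h2 a1 (by positivity) (by positivity)
    rw [mul_assoc, ← Real.rpow_add hl, add_neg_cancel, Real.rpow_zero, mul_one] at a2
    have a3 := mul_le_mul_of_nonneg_left (a2.trans (min_le_right _ _)) hK'.le
    rw [mul_div_cancel₀ _ hK'.ne'] at a3
    have a4 := d2.trans a3
    have a5 : 0 ≤ K / c * α * ρ x := by positivity
    have a6 : 0 ≤ τ * ρ x := by positivity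
    exact ⟨by linarith only [d2, a3, a5, min_le_left τ (τ ^ 2)],
      by linarith only [a6, hτ, a4, Real.sqrt_le_iff.2 ⟨hτ.le, a4.trans (min_le_right _ _)⟩]⟩

theorem peaks_Dsq (hp : Par N a s) {θ γ C c c0 : ℝ} (hx : Ex N s θ γ) (hc : 0 < c) (h0 : 0 < c0) :
    ∃ C1 > 0, ∀ α > 0, ∀ B : ℝ, ∀ τ > 0, ∃ l0 > 0, ∀ (l : ℝ) (S : Set (Es N)) (g : Es N → ℝ)
      (T : Finset (Es N)) (r : Es N → ℝ) (ρ : Es N → Es N → ℝ), Cfg s γ c0 C c α B l S g T r ρ →
      0 < l → l ≤ l0 → ∀ x, Dsq N a s (Ps c0 s l T ρ) x < ⊤ ∧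
        Dr a s (Ps c0 s l T ρ) x ≤ C1 * α * rs T ρ x + τ ∧
        √(Dr a s (Ps c0 s l T ρ) x) ≤ τ + τ * rs T ρ x := by
  classical
  obtain ⟨C0, hC0, h1⟩ := own (C := C) hp hx hc
  obtain ⟨K1, hK1, h2⟩ := others hp
  obtain ⟨K2, hK2, h3⟩ := pk_sq hp hx C
  refine ⟨2 * C0, by positivity, fun α hα B τ hτ => ?_⟩
  obtain ⟨τ', hτ', h1⟩ := h1 α hα (τ / 4) (by positivity)
  have hK : 0 < K1 * K2 * α ^ 2 := by positivity
  obtain ⟨σ, hσ, s1, s2, s3⟩ : ∃ σ > 0, σ ≤ τ' ∧ σ ≤ τ' * (8 ^ (θ + 2 * s))⁻¹ ∧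
      σ ≤ min (τ / 4) ((τ / 2) ^ 2) / (K1 * K2 * α ^ 2) :=
    ⟨min τ' (min (τ' * (8 ^ (θ + 2 * s))⁻¹) (min (τ / 4) ((τ / 2) ^ 2) / (K1 * K2 * α ^ 2))),
      by positivity, min_le_left _ _, (min_le_right _ _).trans (min_le_left _ _),
      (min_le_right _ _).trans (min_le_right _ _)⟩
  obtain ⟨l0, hl0, hl1, h4⟩ := scales hp hx.t1 B hσ
  refine ⟨l0, hl0, fun l S g T r ρ h hl hll x => ?_⟩
  have hl8 : 0 < l / 8 := by positivity
  have mP := fun p hp' => ((h.ps_basic hp h0 hl).1 p hp').measurable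
  obtain ⟨-, r0, r1, -⟩ := h.rs_basic
  have hr := fun p hp' => h4 l (r p) hl hll (h.pos p hp') (h.le p hp')
  have oth : ∀ T' ⊆ T, (∀ p ∈ T', l / 2 ≤ ‖x - p‖) →
      Dsq N a s (Ps c0 s l T' ρ) x < ⊤ ∧ Dr a s (Ps c0 s l T' ρ) x ≤ τ / 4 ∧
        √(Dr a s (Ps c0 s l T' ρ) x) ≤ τ / 2 := by
    intro T' hT hx'
    have a1 := h2 T' (fun p => conv (nr c0 s (l / 8)) (ρ p)) x l
      (K2 * α ^ 2 * (σ * l ^ (N + 2 * s))) hl (by positivity)
      (fun p hp p' hp' => h.sep p (hT hp) p' (hT hp')) hx' (fun p hp => mP p (hT hp))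
      (fun p hp y hy => (h.pk p (hT hp)).pout y (by linarith only [hy])) fun p hp => by
        have k := h.pk p (hT hp)
        refine (h3 _ α _ _ p hα (h.pos p (hT hp)) hl8 k.p0 k.ple k.pout).trans
          (ENNReal.ofReal_le_ofReal (mul_le_mul_of_nonneg_left ?_ (by positivity)))
        have b1 : (l / 8) ^ (N - θ) ≤ l ^ (N - θ) :=
          Real.rpow_le_rpow hl8.le (by linarith only [hl]) (by linarith only [hx, hx.t2])
        refine (mul_le_mul (hr p (hT hp)).2 b1 (by positivity) (by positivity)).trans_eq ?_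
        rw [mul_assoc, ← Real.rpow_add hl]
        congr 2
        ring
    have e : K1 * (K2 * α ^ 2 * (σ * l ^ (N + 2 * s))) * l ^ (-(N + 2 * s)) =
        K1 * K2 * α ^ 2 * σ := by
      rw [Real.rpow_neg hl.le]
      field_simp
    rw [e] at a1
    obtain ⟨d1, d2⟩ := Dr_le (by positivity) a1
    have a2 := mul_le_mul_of_nonneg_left s3 hK.le
    rw [mul_div_cancel₀ _ hK.ne'] at a2
    have a3 := d2.trans a2
    exact ⟨d1, a3.trans (min_le_left _ _),
      Real.sqrt_le_iff.2 ⟨by positivity, a3.trans (min_le_right _ _)⟩⟩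
  have q1 : 0 ≤ 2 * C0 * α * rs T ρ x := by have := r0 x; positivity
  have q2 : 0 ≤ τ * rs T ρ x := by have := r0 x; positivity
  by_cases hx' : ∃ p ∈ T, ‖x - p‖ < l / 2
  swap
  · obtain ⟨a1, a2, a3⟩ := oth T Finset.Subset.rfl fun p hp =>
      le_of_not_gt fun k => hx' ⟨p, hp, k⟩
    exact ⟨a1, by linarith only [hτ, q1, a2], by linarith only [hτ, q2, a3]⟩
  obtain ⟨p, hp', hx'⟩ := hx'
  obtain ⟨a1, a2, a3⟩ := oth (T.erase p) (Finset.erase_subset _ _) fun q hq => by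
    have b1 := h.sep q (Finset.mem_of_mem_erase hq) p hp' (Finset.ne_of_mem_erase hq)
    have b2 := cip7_tri q x p
    rw [norm_sub_rev q x] at b2
    linarith only [hx', b1, b2]
  obtain ⟨b1, b2, b3⟩ := h1 c0 (r p) (l / 8) p (ρ p) (h.pk p hp') (h.pos p hp') hl8
    ((hr p hp').1.trans ((mul_le_of_le_one_right hσ.le (hll.trans hl1)).trans s1)) (by
      refine (hr p hp').2.trans ?_
      rw [Real.div_rpow hl.le (by norm_num), div_eq_mul_inv, mul_comm (l ^ _), ← mul_assoc]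
      exact mul_le_mul_of_nonneg_right s2 (by positivity)) x
  have e : Ps c0 s l T ρ = fun y => conv (nr c0 s (l / 8)) (ρ p) y + Ps c0 s l (T.erase p) ρ y :=
    funext fun y => (Finset.add_sum_erase T (fun q => conv (nr c0 s (l / 8)) (ρ q) y) hp').symm
  have m2 : Measurable (Ps c0 s l (T.erase p) ρ) :=
    Finset.measurable_sum _ fun q hq => mP q (Finset.mem_of_mem_erase hq)
  have c1 := Dsq_add_le (s := s) (x := x) hp.ha (mP p hp') m2
  have c2 := Dr_sqrt_add hp.ha (mP p hp') m2 b1 a1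
  rw [← e] at c1 c2
  have c3 := mul_le_mul_of_nonneg_left (r1 p hp' x) (show 0 ≤ C0 * α by positivity)
  have c4 := mul_le_mul_of_nonneg_left (r1 p hp' x) (show 0 ≤ τ / 4 by positivity)
  refine ⟨c1.trans_lt (ENNReal.add_lt_top.2 ⟨ENNReal.mul_lt_top (by simp) b1,
    ENNReal.mul_lt_top (by simp) a1⟩), ?_, by linarith only [hτ, q2, a3, b3, c2, c4]⟩
  have c5 := pow_le_pow_left₀ (Real.sqrt_nonneg _) c2 2
  have c6 := sq_nonneg (√(Dr a s (conv (nr c0 s (l / 8)) (ρ p)) x) -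
    √(Dr a s (Ps c0 s l (T.erase p) ρ) x))
  rw [add_sq] at c5
  rw [sub_sq] at c6
  simp only [Real.sq_sqrt Dr_nonneg] at c5 c6
  linarith only [a2, b2, c3, c5, c6]

end

end Pool.Agent.Work.MP_49e099_an
end
end
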