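import Pool.Agent.Work.MP_49e099_an.CI.Stmt
import Pool.Agent.Work.MP_49e099_an.CI.P7

-- merged part: Pool.Agent.Work.MP_49e099_an.CI.H1
section
/-!
# The Fredholm alternative for forms
`small_compact`: `Y = ⨅ ker (ℓ i)` is closed and `Yᗮ` is spanned by the Riesz vectors of the `ℓ i`; concretely let `U` be the span of these vectors (finite-dimensional), `P` the orthogonal projection on `U`; `T ∘ P` is compact (`isCompactOperator_of_locallyCompactSpace_dom` or `_rng` composed with continuous linear maps), `x - P x ∈ Uᗮ` is killed by all `ℓ i`, so `‖T - T ∘ P‖ ≤ ε`. `isCompactOperator_of_tendsto` (or `isClosed_setOf_isCompactOperator`).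
`fred_hilbert`: `V = eigenspace T 1` is finite-dimensional (`ContinuousLinearMap.finite_dimensional_eigenspace`), `P` the orthogonal projection on `V`; `T' = T - P` is compact and `1` is not an eigenvalue (if `T x - P x = x` pair with `P x`: `⟪T x, P x⟫ = ⟪x, P x⟫`, so `‖P x‖² = 0`, then `x ∈ V`, `x = P x = 0`). `IsCompactOperator.hasEigenvalue_or_mem_resolventSet` gives `z` with `z - T z + P z = b`; pairing with `P z` gives `P z = 0`.
`fred_semi`: pass to `H = SeparationQuotient X` (an inner product space, complete); `Q` and the functionals descend because they are bounded (`SeparationQuotient.liftCLM`, or define `T` by `InnerProductSpace.toDual` and a chosen section `SeparationQuotient.outCLM`); lift a basis of `V` (`Module.finBasis`).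
`fred_form`: `PreInnerProductSpace.Core ℝ X` from `B`, `InnerProductSpace.Core.toSeminormedAddCommGroup`, `InnerProductSpace.ofCore`, `Metric.complete_of_cauchySeq_tendsto` (for pseudometric spaces); then `fred_semi`.
-/

namespace Pool.Agent.Work.MP_49e099_an

open MeasureTheory Set Filter Topology Metric

noncomputable section

theorem cih1_proj {H : Type} [NormedAddCommGroup H] [InnerProductSpace ℝ H] (U : Submodule ℝ H)
    [FiniteDimensional ℝ U] : IsCompactOperator U.starProjection :=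
  (isCompactOperator_of_locallyCompactSpace_dom U.orthogonalProjectionOnto).clm_comp U.subtypeL

theorem small_compact {H : Type} [NormedAddCommGroup H] [InnerProductSpace ℝ H] [CompleteSpace H]
    (T : H →L[ℝ] H) (h : ∀ ε > 0, ∃ (n : ℕ) (ℓ : Fin n → H →L[ℝ] ℝ),
      ∀ x, (∀ i, ℓ i x = 0) → ‖T x‖ ≤ ε * ‖x‖) : IsCompactOperator T := by
  refine isClosed_setOfPred_isCompactOperator.closure_subset
    (Metric.mem_closure_iff.2 fun ε hε => ?_)
  obtain ⟨n, ℓ, hℓ⟩ := h (ε / 2) (half_pos hε)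
  let U := Submodule.span ℝ (range fun i => (InnerProductSpace.toDual ℝ H).symm (ℓ i))
  have : FiniteDimensional ℝ U := FiniteDimensional.span_of_finite ℝ (finite_range _)
  refine ⟨T ∘L U.starProjection, (cih1_proj U).clm_comp T, ?_⟩
  rw [dist_eq_norm]
  refine (ContinuousLinearMap.opNorm_le_bound _ (half_pos hε).le fun x => ?_).trans_lt
    (half_lt_self hε)
  have h1 := hℓ (Uᗮ.starProjection x) fun i => by
    rw [← InnerProductSpace.toDual_symm_apply]
    exact Submodule.inner_right_of_mem_orthogonal (Submodule.subset_span (mem_range_self i))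
      (Uᗮ.starProjection_apply_mem x)
  refine le_trans ?_ (h1.trans (mul_le_mul_of_nonneg_left (Uᗮ.norm_starProjection_apply_le x)
    (half_pos hε).le))
  rw [Submodule.starProjection_orthogonal_val, map_sub]
  rfl

theorem fred_hilbert {H : Type} [NormedAddCommGroup H] [InnerProductSpace ℝ H] [CompleteSpace H]
    (T : H →L[ℝ] H) (hc : IsCompactOperator T) (hs : ∀ x y, inner ℝ (T x) y = inner ℝ x (T y)) :
    ∃ (n : ℕ) (φ : Fin n → H), LinearIndependent ℝ φ ∧ (∀ i, T (φ i) = φ i) ∧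
      ∀ b, (∀ i, inner ℝ b (φ i) = 0) → ∃ z, z = T z + b := by
  let V := Module.End.eigenspace T.toLinearMap 1
  have : FiniteDimensional ℝ V :=
    ContinuousLinearMap.finite_dimensional_eigenspace hc 1 one_ne_zero
  have hV : ∀ x, x ∈ V ↔ T x = x := fun x => by simp [V]
  have key : ∀ z, inner ℝ (z - T z) (V.starProjection z) = 0 := fun z => by
    rw [inner_sub_left, hs, (hV _).1 (V.starProjection_apply_mem z), sub_self]
  let e := Module.finBasis ℝ V
  refine ⟨_, fun i => (e i : H), e.linearIndependent.map' V.subtype V.ker_subtype,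
    fun i => (hV _).1 (e i).2, fun b hb => ?_⟩
  rcases IsCompactOperator.hasEigenvalue_or_mem_resolventSet (T := T - V.starProjection)
    (hc.sub (cih1_proj V)) one_ne_zero with h | h
  · obtain ⟨x, h1, h2⟩ := h.exists_hasEigenvector
    have h3 : T x - V.starProjection x = x := by simpa using h1
    have h4 := key x
    rw [sub_eq_iff_eq_add.1 h3, sub_add_cancel_left, inner_neg_left, neg_eq_zero,
      inner_self_eq_zero] at h4
    rw [h4, sub_zero, ← hV, ← Submodule.starProjection_eq_self_iff, h4] at h3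
    exact absurd h3.symm h2
  · obtain ⟨z, hz⟩ := (ContinuousLinearMap.isUnit_iff_bijective.1 h).2 b
    have h3 : z - T z + V.starProjection z = b := by
      rw [← hz]
      simp [sub_add]
    have h4 : inner ℝ b (V.starProjection z) = 0 := by
      have h5 := congrArg V.subtype (e.sum_repr (V.orthogonalProjectionOnto z))
      rw [map_sum] at h5
      rw [show V.starProjection z = _ from h5.symm, inner_sum]
      exact Finset.sum_eq_zero fun i _ => by
        rw [map_smul, inner_smul_right, Submodule.subtype_apply, hb, mul_zero]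
    rw [← h3, inner_add_left, key, zero_add, inner_self_eq_zero] at h4
    exact ⟨z, by rw [← h3, h4, add_zero, add_sub_cancel]⟩

theorem cih1_lift {X : Type} [SeminormedAddCommGroup X] [NormedSpace ℝ X] (ℓ : X →ₗ[ℝ] ℝ)
    (h : ∃ C, ∀ x, |ℓ x| ≤ C * ‖x‖) :
    ∃ L : SeparationQuotient X →L[ℝ] ℝ, ∀ x, L (SeparationQuotient.mk x) = ℓ x := by
  obtain ⟨C, hC⟩ := h
  exact ⟨SeparationQuotient.liftCLM (ℓ.mkContinuous C hC)
    fun x y k => (k.map (ℓ.mkContinuous C hC).continuous).eq, fun _ => rfl⟩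

theorem fred_semi {X : Type} [SeminormedAddCommGroup X] [InnerProductSpace ℝ X] [CompleteSpace X]
    (Q : X →ₗ[ℝ] X →ₗ[ℝ] ℝ) (hs : ∀ x y, Q x y = Q y x) (hb : ∃ C, ∀ x y, |Q x y| ≤ C * ‖x‖ * ‖y‖)
    (h : ∀ ε > 0, ∃ (n : ℕ) (ℓ : Fin n → X →ₗ[ℝ] ℝ), (∀ i, ∃ C, ∀ x, |ℓ i x| ≤ C * ‖x‖) ∧
      ∀ x y, (∀ i, ℓ i x = 0) → |Q x y| ≤ ε * ‖x‖ * ‖y‖) :
    ∃ (n : ℕ) (φ : Fin n → X), (∀ t : Fin n → ℝ, ‖∑ i, t i • φ i‖ = 0 → t = 0) ∧
      (∀ i y, inner ℝ (φ i) y = Q (φ i) y) ∧
      ∀ ℓ : X →ₗ[ℝ] ℝ, (∃ C, ∀ x, |ℓ x| ≤ C * ‖x‖) → (∀ i, ℓ (φ i) = 0) →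
        ∃ z, ∀ y, inner ℝ z y = Q z y + ℓ y := by
  obtain ⟨C, hC⟩ := hb
  let o := SeparationQuotient.outCLM ℝ X
  have ho : ∀ x, SeparationQuotient.mk (o x) = x := SeparationQuotient.mk_outCLM ℝ
  have hn : ∀ x, ‖o x‖ = ‖x‖ := fun x => by rw [← SeparationQuotient.norm_mk, ho]
  have hQ : ∀ x y, Q x (o (SeparationQuotient.mk y)) = Q x y := fun x y => by
    obtain ⟨L, hL⟩ := cih1_lift (Q x) ⟨_, hC x⟩
    rw [← hL, ho, hL]
  obtain ⟨T, hT⟩ : ∃ T : SeparationQuotient X →L[ℝ] SeparationQuotient X, ∀ x y,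
      inner ℝ (T (SeparationQuotient.mk x)) (SeparationQuotient.mk y) = Q x y :=
    ⟨InnerProductSpace.continuousLinearMapOfBilin (𝕜 := ℝ)
      ((Q.compl₁₂ o.toLinearMap o.toLinearMap).mkContinuous₂ C fun x y => by
        rw [← hn x, ← hn y]; exact hC _ _), fun x y => by
      rw [InnerProductSpace.continuousLinearMapOfBilin_apply]
      exact (hQ _ y).trans ((hs _ _).trans ((hQ y x).trans (hs _ _)))⟩
  obtain ⟨n, φ, h1, h2, h3⟩ := fred_hilbert T (small_compact T fun ε hε => by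
    obtain ⟨n, ℓ, a1, a2⟩ := h ε hε
    choose L hL using fun i => cih1_lift (ℓ i) (a1 i)
    refine ⟨n, L, fun x hx => ?_⟩
    have a3 := a2 (o x) (o (T x)) fun i => by rw [← hL, ho, hx]
    rw [← hT, ho, ho, hn, hn, real_inner_self_eq_norm_mul_norm, abs_mul_self] at a3
    rcases (norm_nonneg (T x)).eq_or_lt with a4 | a4
    exacts [a4 ▸ by positivity, le_of_mul_le_mul_right a3 a4]) fun x y => by
      rw [real_inner_comm (T y), ← ho x, ← ho y, hT, hT, hs]
  refine ⟨n, fun i => o (φ i), fun t ht => ?_, fun i y => ?_, fun ℓ a1 a2 => ?_⟩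
  · simp only [← map_smul, ← map_sum, hn, norm_eq_zero] at ht
    exact funext (Fintype.linearIndependent_iff.1 h1 t ht)
  · rw [← hT, ← SeparationQuotient.inner_mk_mk, ho, h2]
  · obtain ⟨L, hL⟩ := cih1_lift ℓ a1
    obtain ⟨z, hz⟩ := h3 ((InnerProductSpace.toDual ℝ _).symm L) fun i => by
      rw [InnerProductSpace.toDual_symm_apply, ← a2 i, ← hL, ho]
    refine ⟨o z, fun y => ?_⟩
    rw [← hT, ← hL, ← SeparationQuotient.inner_mk_mk, ho, ← InnerProductSpace.toDual_symm_apply,
      ← inner_add_left, ← hz]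

theorem fred_form {X : Type} [AddCommGroup X] [Module ℝ X] (B Q : X →ₗ[ℝ] X →ₗ[ℝ] ℝ)
    (Bs : ∀ x y, B x y = B y x) (B0 : ∀ x, 0 ≤ B x x)
    (Bc : ∀ z : ℕ → X, (∀ ε > 0, ∃ n0, ∀ n ≥ n0, ∀ k ≥ n0, B (z n - z k) (z n - z k) ≤ ε) →
      ∃ v, Tendsto (fun n => B (z n - v) (z n - v)) atTop (𝓝 0))
    (hs : ∀ x y, Q x y = Q y x) (hb : ∃ C, ∀ x y, |Q x y| ≤ C * √(B x x) * √(B y y))
    (h : ∀ ε > 0, ∃ (n : ℕ) (ℓ : Fin n → X →ₗ[ℝ] ℝ), (∀ i, ∃ C, ∀ x, |ℓ i x| ≤ C * √(B x x)) ∧
      ∀ x y, (∀ i, ℓ i x = 0) → |Q x y| ≤ ε * √(B x x) * √(B y y)) :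
    ∃ (n : ℕ) (φ : Fin n → X),
      (∀ t : Fin n → ℝ, B (∑ i, t i • φ i) (∑ i, t i • φ i) = 0 → t = 0) ∧
      (∀ i y, B (φ i) y = Q (φ i) y) ∧
      ∀ ℓ : X →ₗ[ℝ] ℝ, (∃ C, ∀ x, |ℓ x| ≤ C * √(B x x)) → (∀ i, ℓ (φ i) = 0) →
        ∃ z, ∀ y, B z y = Q z y + ℓ y := by
  let c : PreInnerProductSpace.Core ℝ X :=
    { inner := fun x y => B x y
      conj_inner_symm := fun x y => Bs y x
      re_inner_nonneg := B0
      add_left := fun x y z => by simp
      smul_left := fun x y r => by simp }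
  let _ : SeminormedAddCommGroup X := InnerProductSpace.Core.toSeminormedAddCommGroup (c := c)
  let _ : InnerProductSpace ℝ X := InnerProductSpace.ofCore c
  have hn : ∀ x : X, ‖x‖ = √(B x x) := fun _ => rfl
  have : CompleteSpace X := Metric.complete_of_cauchySeq_tendsto fun z hz => by
    obtain ⟨v, hv⟩ := Bc z fun ε hε => by
      obtain ⟨n0, h0⟩ := Metric.cauchySeq_iff.1 hz _ (Real.sqrt_pos.2 hε)
      refine ⟨n0, fun n a1 k a2 => ?_⟩
      have a3 := h0 n a1 k a2
      rw [dist_eq_norm, hn, Real.sqrt_lt_sqrt_iff (B0 _)] at a3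
      exact a3.le
    refine ⟨v, tendsto_iff_norm_sub_tendsto_zero.2 ?_⟩
    simpa only [hn, Real.sqrt_zero] using hv.sqrt
  obtain ⟨n, φ, h1, h2⟩ := fred_semi Q hs hb h
  exact ⟨n, φ, fun t ht => h1 t (by rw [hn, ht, Real.sqrt_zero]), h2⟩

end

end Pool.Agent.Work.MP_49e099_an
end

-- merged part: Pool.Agent.Work.MP_49e099_an.CI.A5
section
/-!
# Chain rule, continuity of the gradient term, limits
`En_sq`: the pointwise identity `(φ x - φ y)(z x² - z y²) = 2 (z x - z y)(z x φ x - z y φ y) - (φ x + φ y)(z x - z y)²`; on the product space swap the variables in the term with `φ y` (`integral_prod_swap`). `En_mono`: `(Φ p - Φ q)² ≤ (p - q)(Φ p - Φ q)`.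
`Dr_L1`: `Dr_sqrt_add` twice gives `|√D u - √D v| ≤ √D (u - v)` a.e.; Cauchy-Schwarz. `en_lim`: Fatou (`lintegral_liminf_le`) on the product space for `2 F_n² + 2 F² - (F_n - F)² = (F_n + F)²`; the pairs `(x, y)` with both points good have full measure.
`w0_complete`: `poincare` gives a Cauchy sequence in `L²` (or `L¹`), a subsequence converges a.e. (`tendstoInMeasure_of_tendsto_Lp`, `TendstoInMeasure.exists_seq_tendsto_ae`) to a measurable `v` that vanishes off `Ω`; Fatou bounds the energy of `u n - v`.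
-/

namespace Pool.Agent.Work.MP_49e099_an

open MeasureTheory Set Filter Topology Metric

noncomputable section

variable {N : ℕ} {a s : ℝ} {Ω : Set (Es N)}

variable {u v : Es N → ℝ}

theorem cia5_mul (ha : 0 < a) (hu : FE a s u) (hv : FE a s v) (bu : ∃ M, ∀ x, |u x| ≤ M)
    (bv : ∃ M, ∀ x, |v x| ≤ M) : FE a s fun x => u x * v x :=
  (W0.mul (Ω := univ) ha ⟨hu, fun x hx => absurd (mem_univ x) hx⟩ hv bu bv).toFE

theorem cia5_cs {A B : Es N → ℝ} (hA : Integrable A) (hB : Integrable B) (h1 : ∀ x, 0 ≤ A x)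
    (h2 : ∀ x, 0 ≤ B x) : Integrable (fun x => √(A x) * √(B x)) ∧
      ∫ x, √(A x) * √(B x) ≤ √(∫ x, A x) * √(∫ x, B x) := by
  have hi : Integrable fun x => √(A x) * √(B x) := by
    refine (hA.add hB).mono' ((Real.continuous_sqrt.comp_aestronglyMeasurable hA.1).mul
      (Real.continuous_sqrt.comp_aestronglyMeasurable hB.1)) (Eventually.of_forall fun x => ?_)
    rw [Real.norm_of_nonneg (by positivity), Pi.add_apply]
    linarith only [h1, h2, Real.mul_self_sqrt (h1 x), Real.mul_self_sqrt (h2 x), sq_nonneg (√(A x) - √(B x)),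
      Real.sqrt_nonneg (A x), Real.sqrt_nonneg (B x), sq_nonneg (√(A x) - √(B x)), mul_self_nonneg √(B x), mul_self_nonneg √(A x)]
  refine ⟨hi, ?_⟩
  have h := discrim_le_zero (a := ∫ x, A x) (b := 2 * ∫ x, √(A x) * √(B x)) (c := ∫ x, B x)
    fun t => by
      have i1 : Integrable fun x => A x * (t * t) := hA.mul_const _
      have i2 : Integrable fun x => √(A x) * √(B x) * (2 * t) := hi.mul_const _
      have i3 : Integrable fun x => A x * (t * t) + √(A x) * √(B x) * (2 * t) := i1.add i2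
      have h3 : 0 ≤ ∫ x, (A x * (t * t) + √(A x) * √(B x) * (2 * t) + B x) :=
        integral_nonneg fun x => by
          have := sq_nonneg (√(A x) * t + √(B x))
          rw [add_sq, mul_pow, Real.sq_sqrt (h1 x), Real.sq_sqrt (h2 x)] at this
          simp only [Pi.zero_apply]
          linarith
      rw [integral_add i3 hB, integral_add i1 i2, integral_mul_const, integral_mul_const] at h3
      linarith
  rw [← Real.sqrt_mul (integral_nonneg h1)]
  refine Real.le_sqrt_of_sq_le ?_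
  rw [discrim] at h
  linarith

theorem cia5_par (ha : 0 < a) (hv : FE a s v) (hu : FE a s u) :
    En N a s (fun x => v x - u x) (fun x => v x - u x) +
      En N a s (fun x => v x + u x) (fun x => v x + u x) =
        2 * En N a s v v + 2 * En N a s u u := by
  rw [En_sub ha (hv.sub ha hu) hv hu, En_add ha (hv.add ha hu) hv hu,
    En_comm (fun x => v x - u x) v, En_comm (fun x => v x - u x) u,
    En_comm (fun x => v x + u x) v, En_comm (fun x => v x + u x) u, En_sub ha hv hv hu,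
    En_sub ha hu hv hu, En_add ha hv hv hu, En_add ha hu hv hu]
  ring

theorem En_sq (ha : 0 < a) {φ z : Es N → ℝ} (hφ : FE a s φ) (hz : FE a s z)
    (bφ : ∃ M, ∀ x, |φ x| ≤ M) (bz : ∃ M, ∀ x, |z x| ≤ M) :
    En N a s φ (fun x => z x * z x) =
      2 * En N a s z (fun x => z x * φ x) - 2 * ∫ x, Dr a s z x * φ x := by
  obtain ⟨M, hM⟩ := id bφ
  have iG := hz.prod ha hz
  have m1 : AEStronglyMeasurable (fun p : Es N × Es N => φ p.1) (volume.prod volume) :=
    (hφ.meas.comp measurable_fst).aestronglyMeasurable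
  have m2 : AEStronglyMeasurable (fun p : Es N × Es N => φ p.2) (volume.prod volume) :=
    (hφ.meas.comp measurable_snd).aestronglyMeasurable
  have i1 := iG.mul_bdd m1 (Eventually.of_forall fun p => hM p.1)
  have i2 := iG.mul_bdd m2 (Eventually.of_forall fun p => hM p.2)
  have i3 := (hz.prod ha (cia5_mul ha hz hφ bz bφ)).const_mul 2
  have e1 : ∫ p : Es N × Es N, (z p.1 - z p.2) * (z p.1 - z p.2) / ‖p.1 - p.2‖ ^ (N + 2 * s) * φ p.2
      ∂(volume.prod volume) = ∫ p : Es N × Es N,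
        (z p.1 - z p.2) * (z p.1 - z p.2) / ‖p.1 - p.2‖ ^ (N + 2 * s) * φ p.1
          ∂(volume.prod volume) := by
    rw [← integral_prod_swap]
    refine integral_congr_ae (Eventually.of_forall fun p => ?_)
    simp only [Prod.fst_swap, Prod.snd_swap, norm_sub_rev p.2 p.1]
    ring
  have e2 : ∫ x, Dr a s z x * φ x = a / 2 * ∫ p : Es N × Es N,
      (z p.1 - z p.2) * (z p.1 - z p.2) / ‖p.1 - p.2‖ ^ (N + 2 * s) * φ p.1
        ∂(volume.prod volume) := by
    rw [integral_prod _ i1, ← integral_const_mul]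
    refine integral_congr_ae (hz.ae.mono fun x hx => ?_)
    simp only [(Dsq_real ha hz.meas hx).2, integral_mul_const, sq, mul_assoc (a / 2)]
  have e3 : ∫ p : Es N × Es N, (φ p.1 - φ p.2) * (z p.1 * z p.1 - z p.2 * z p.2) /
      ‖p.1 - p.2‖ ^ (N + 2 * s) ∂(volume.prod volume) = ∫ p : Es N × Es N,
      (2 * ((z p.1 - z p.2) * (z p.1 * φ p.1 - z p.2 * φ p.2) / ‖p.1 - p.2‖ ^ (N + 2 * s)) -
        (z p.1 - z p.2) * (z p.1 - z p.2) / ‖p.1 - p.2‖ ^ (N + 2 * s) * φ p.1 -
        (z p.1 - z p.2) * (z p.1 - z p.2) / ‖p.1 - p.2‖ ^ (N + 2 * s) * φ p.2)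
          ∂(volume.prod volume) :=
    integral_congr_ae (Eventually.of_forall fun p => by ring)
  have i4 : Integrable (fun p : Es N × Es N =>
      2 * ((z p.1 - z p.2) * (z p.1 * φ p.1 - z p.2 * φ p.2) / ‖p.1 - p.2‖ ^ (N + 2 * s)) -
        (z p.1 - z p.2) * (z p.1 - z p.2) / ‖p.1 - p.2‖ ^ (N + 2 * s) * φ p.1)
      (volume.prod volume) := i3.sub i1
  rw [En_prod ha hφ (cia5_mul ha hz hz bz bz), En_prod ha hz (cia5_mul ha hz hφ bz bφ), e2, e3,
    integral_sub i4 i2, integral_sub i3 i1, e1, integral_const_mul]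
  ring

theorem En_mono (ha : 0 < a) (hu : FE a s u) {Φ : ℝ → ℝ} (hm : Monotone Φ)
    (h : ∀ p q, |Φ p - Φ q| ≤ |p - q|) :
    En N a s (fun x => Φ (u x)) (fun x => Φ (u x)) ≤ En N a s u fun x => Φ (u x) := by
  have hv : FE a s fun x => Φ (u x) := (hu.of_le ha (hm.measurable.comp hu.meas) (L := 1)
    fun x y => by rw [one_mul]; exact h _ _).1
  rw [En_prod ha hv hv, En_prod ha hu hv]
  refine mul_le_mul_of_nonneg_left (integral_mono (hv.prod ha hv) (hu.prod ha hv) fun p => ?_)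
    (by positivity)
  refine div_le_div_of_nonneg_right ?_ (by positivity)
  have h1 := h (u p.1) (u p.2)
  rcases le_total (u p.1) (u p.2) with h2 | h2
  · have h3 := hm h2
    rw [abs_of_nonpos (by linarith), abs_of_nonpos (by linarith)] at h1
    exact mul_le_mul_of_nonpos_right (by linarith) (by linarith)
  · have h3 := hm h2
    rw [abs_of_nonneg (by linarith), abs_of_nonneg (by linarith)] at h1
    exact mul_le_mul_of_nonneg_right h1 (by linarith)

theorem Dr_L1 (ha : 0 < a) (hu : FE a s u) (hv : FE a s v) : ∫ x, |Dr a s u x - Dr a s v x| ≤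
    √(En N a s (fun x => u x - v x) fun x => u x - v x) * (√(En N a s u u) + √(En N a s v v)) := by
  have hw := hu.sub ha hv
  obtain ⟨i1, c1⟩ := cia5_cs hw.intDr hu.intDr (fun _ => Dr_nonneg) fun _ => Dr_nonneg
  obtain ⟨i2, c2⟩ := cia5_cs hw.intDr hv.intDr (fun _ => Dr_nonneg) fun _ => Dr_nonneg
  rw [(En_self ha hw).1, (En_self ha hu).1, (En_self ha hv).1, mul_add]
  refine le_trans ?_ (add_le_add c1 c2)
  rw [← integral_add i1 i2]
  refine integral_mono_ae (hu.intDr.sub hv.intDr).abs (i1.add i2) ?_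
  filter_upwards [hu.ae, hv.ae, hw.ae, (hw.smul ha (-1)).ae] with x h1 h2 h3 h4
  have h5 := Dr_sqrt_add ha hw.meas hv.meas h3 h2
  have h6 := Dr_sqrt_add ha (hw.smul ha (-1)).meas hu.meas h4 h1
  rw [Dr_smul ha] at h6
  simp only [sub_add_cancel, neg_mul, one_mul, neg_sub, even_two, Even.neg_pow, one_pow] at h5 h6
  have e : Dr a s u x - Dr a s v x =
      (√(Dr a s u x) - √(Dr a s v x)) * (√(Dr a s u x) + √(Dr a s v x)) := by
    rw [mul_comm, ← sq_sub_sq, Real.sq_sqrt Dr_nonneg, Real.sq_sqrt Dr_nonneg]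
  rw [e, abs_mul, abs_of_nonneg (a := _ + _) (by positivity), ← mul_add]
  exact mul_le_mul_of_nonneg_right (abs_le.2 ⟨by linarith, by linarith⟩) (by positivity)

theorem Dsq_fatou {z : ℕ → Es N → ℝ} (hz : ∀ n, Measurable (z n))
    (h : ∀ᵐ x, Tendsto (fun n => z n x) atTop (𝓝 (u x))) :
    ∫⁻ x, Dsq N a s u x ≤ liminf (fun n => ∫⁻ x, Dsq N a s (z n) x) atTop := by
  refine le_trans (lintegral_mono_ae (h.mono fun x hx => ?_))
    (lintegral_liminf_le fun n => measurable_Dsq (hz n))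
  refine le_trans (lintegral_mono_ae (h.mono fun y hy => ?_))
    (lintegral_liminf_le (f := fun n y =>
      ENNReal.ofReal (a / 2 * ((z n x - z n y) ^ 2 / ‖x - y‖ ^ (N + 2 * s)))) fun n => ?_)
  · exact (ENNReal.tendsto_ofReal ((((hx.sub hy).pow 2).div_const _).const_mul _)).liminf_eq.ge
  · have := hz n
    fun_prop

theorem en_lim (ha : 0 < a) (hu : FE a s u) {z : ℕ → Es N → ℝ} (hz : ∀ n, Measurable (z n))
    (h : ∀ᵐ x, Tendsto (fun n => z n x) atTop (𝓝 (u x)))
    (hle : ∀ n, ∫⁻ x, Dsq N a s (z n) x ≤ ∫⁻ x, Dsq N a s u x) :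
    Tendsto (fun n => En N a s (fun x => z n x - u x) fun x => z n x - u x) atTop (𝓝 0) := by
  have hf : ∀ n, FE a s (z n) := fun n => ⟨hz n, (hle n).trans_lt hu.fin⟩
  have h1 : ∀ n, En N a s (z n) (z n) ≤ En N a s u u := fun n => by
    rw [← ENNReal.ofReal_le_ofReal_iff (En_nonneg ha u), (En_self ha hu).2, (En_self ha (hf n)).2]
    exact hle n
  have h2 := Dsq_fatou (a := a) (s := s) (u := fun x => u x + u x) (z := fun n x => z n x + u x)
    (fun n => (hz n).add hu.meas) (h.mono fun x hx => hx.add_const _)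
  have h3 : En N a s (fun x => u x + u x) (fun x => u x + u x) = 4 * En N a s u u := by
    rw [En_add ha (hu.add ha hu) hu hu, En_comm (fun x => u x + u x) u, En_add ha hu hu hu]
    ring
  rw [← (En_self ha (hu.add ha hu)).2, h3] at h2
  refine tendsto_order.2 ⟨fun ε hε => Eventually.of_forall fun n => hε.trans_le (En_nonneg ha _),
    fun ε hε => ?_⟩
  rcases lt_or_ge (4 * En N a s u u) ε with h4 | h4
  · refine Eventually.of_forall fun n => ?_
    have := cia5_par ha (hf n) hu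
    have := En_nonneg (N := N) (s := s) ha fun x => z n x + u x
    have := h1 n
    linarith
  · have h5 : ENNReal.ofReal (4 * En N a s u u - ε) < ENNReal.ofReal (4 * En N a s u u) :=
      (ENNReal.ofReal_lt_ofReal_iff (by linarith)).2 (by linarith)
    filter_upwards [eventually_lt_of_lt_liminf (h5.trans_le h2)] with n hn
    rw [← (En_self ha ((hf n).add ha hu)).2,
      ENNReal.ofReal_lt_ofReal_iff_of_nonneg (by linarith)] at hn
    have := cia5_par ha (hf n) hu
    have := h1 n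
    linarith

theorem w0_complete (hp : Par N a s) (hΩ : Dom Ω) {z : ℕ → Es N → ℝ} (hz : ∀ n, W0 a s Ω (z n))
    (h : ∀ ε > 0, ∃ n0, ∀ n ≥ n0, ∀ k ≥ n0,
      En N a s (fun x => z n x - z k x) (fun x => z n x - z k x) ≤ ε) :
    ∃ v, W0 a s Ω v ∧
      Tendsto (fun n => En N a s (fun x => z n x - v x) fun x => z n x - v x) atTop (𝓝 0) := by
  have ha := hp.ha
  obtain ⟨C, hC, hP⟩ := poincare hp hΩ
  have hi : ∀ n, Integrable (z n) := fun n => (hz n).int hp hΩ
  have hc : CauchySeq fun n => (hi n).toL1 (z n) := by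
    refine Metric.cauchySeq_iff.2 fun ε hε => ?_
    obtain ⟨n0, h0⟩ := h ((ε / (2 * C)) ^ 2) (by positivity)
    refine ⟨n0, fun n hn k hk => ?_⟩
    rw [dist_eq_norm, ← Integrable.toL1_sub, L1.norm_of_fun_eq_integral_norm]
    refine ((hP _ ((hz n).sub ha (hz k))).2.trans (mul_le_mul_of_nonneg_left
      (Real.sqrt_le_iff.2 ⟨by positivity, h0 n hn k hk⟩) hC.le)).trans_lt ?_
    rw [show C * (ε / (2 * C)) = ε / 2 by field_simp]
    exact half_lt_self hε
  obtain ⟨f, hf⟩ := cauchySeq_tendsto_of_complete hc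
  obtain ⟨ns, hns, hae⟩ := (tendstoInMeasure_of_tendsto_Lp hf).exists_seq_tendsto_ae
  have hm : Measurable (Ω.indicator f) :=
    (Lp.stronglyMeasurable f).measurable.indicator hΩ.op.measurableSet
  have h1 : ∀ᵐ x, Tendsto (fun i => z (ns i) x) atTop (𝓝 (Ω.indicator f x)) := by
    filter_upwards [hae, ae_all_iff.2 fun n => (hi n).coeFn_toL1] with x h1 h2
    by_cases hx : x ∈ Ω
    · rw [indicator_of_mem hx]
      simpa only [h2] using h1
    · simp only [indicator_of_notMem hx, (hz _).zero x hx, tendsto_const_nhds]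
  have h2 : ∀ ε > 0, ∃ n0, ∀ n ≥ n0,
      ∫⁻ x, Dsq N a s (fun x => z n x - Ω.indicator f x) x ≤ ENNReal.ofReal ε := fun ε hε => by
    obtain ⟨n0, h0⟩ := h ε hε
    refine ⟨n0, fun n hn => (Dsq_fatou (z := fun i x => z n x - z (ns i) x)
      (fun i => (hz n).meas.sub (hz _).meas) (h1.mono fun x hx => hx.const_sub _)).trans
        (liminf_le_of_frequently_le' (Eventually.frequently ?_))⟩
    filter_upwards [hns.tendsto_atTop.eventually_ge_atTop n0] with i hi
    rw [← (En_self ha ((hz n).sub ha (hz _)).toFE).2]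
    exact ENNReal.ofReal_le_ofReal (h0 n hn _ hi)
  have hv : FE a s (Ω.indicator f) := by
    obtain ⟨n, h0⟩ := h2 1 one_pos
    have h3 := (hz n).toFE.sub ha
      ⟨(hz n).meas.sub hm, (h0 n le_rfl).trans_lt ENNReal.ofReal_lt_top⟩
    simpa only [Pi.sub_apply, sub_sub_cancel] using h3
  refine ⟨Ω.indicator f, ⟨hv, fun x hx => indicator_of_notMem hx _⟩, tendsto_order.2
    ⟨fun ε hε => Eventually.of_forall fun n => hε.trans_le (En_nonneg ha _), fun ε hε => ?_⟩⟩
  obtain ⟨n0, h0⟩ := h2 (ε / 2) (half_pos hε)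
  filter_upwards [eventually_ge_atTop n0] with n hn
  have h3 := h0 n hn
  rw [← (En_self ha ((hz n).toFE.sub ha hv)).2,
    ENNReal.ofReal_le_ofReal_iff (half_pos hε).le] at h3
  exact h3.trans_lt (half_lt_self hε)

end

end Pool.Agent.Work.MP_49e099_an
end

-- merged part: Pool.Agent.Work.MP_49e099_an.CI.B1
section
/-!
# The Sobolev inequality (proof of Brezis), `p = 2N/(N - 2s)`
`sob_real`: take `r = (K/d)^(2/n)`; if `d = 0` let `r → ∞`.
`sob_pt`: average `|η x| ≤ |η x - η y| + |η y|` over `y ∈ ball x r`. First term by Cauchy-Schwarz, `(η x - η y)² ≤ r^(N+2s) (η x - η y)²/‖x - y‖^(N+2s)`; second term by Hölder (`eLpNorm_le_eLpNorm_mul_rpow_measure_univ` on `volume.restrict (ball x r)`), `vol_ball`.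
`sobolev`: for bounded `η` let `K^p = ∫ |η|^p < ∞`; if `K > 0` integrate `|η|^p ≤ C' Dr η K^(p-2)` (`FE.ae`, `En_self`) and divide. For general `η` truncate (`W0.comp`, `FE.of_le` with `Φ t = max (-k) (min k t)`) and use Fatou (`Lp.eLpNorm_lim_le_liminf_eLpNorm`).
`sob_one`, `sob_two`, `dual`: Hölder on `volume.restrict A`; `1/p = 1/2 - s/N`. In `dual` put `m' = m/(m-1)`; `1 < m`, `m' ≤ p`; first Hölder `∫ |h η| ≤ ‖h‖_m ‖η‖_m'`, then compare the exponents `m' ≤ p` on `A`.
-/

namespace Pool.Agent.Work.MP_49e099_an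

open MeasureTheory Set Filter Topology Metric

noncomputable section

variable {N : ℕ} {a s : ℝ} {Ω : Set (Es N)}

theorem sob_real {n A d K C : ℝ} (hs : 0 < s) (hn : 2 * s < n) (hA : 0 ≤ A) (hd : 0 ≤ d)
    (hK : 0 < K) (hC : 0 < C)
    (h : ∀ r > 0, A ≤ C * (r ^ s * d + r ^ (-((n - 2 * s) / 2)) * K)) :
    A ^ (2 * n / (n - 2 * s)) ≤
      (2 * C) ^ (2 * n / (n - 2 * s)) * d ^ 2 * K ^ (2 * n / (n - 2 * s) - 2) := by
  have hn0 : 0 < n := by linarith
  have hb : 0 < n - 2 * s := by linarith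
  have hp0 : 0 < 2 * n / (n - 2 * s) := by positivity
  rcases hd.eq_or_lt with rfl | hd
  · have hA0 : A = 0 := by
      by_contra h0
      have h1 : 0 < A := lt_of_le_of_ne hA (Ne.symm h0)
      have h2 := h ((A / (2 * C * K)) ^ (-((n - 2 * s) / 2))⁻¹) (by positivity)
      rw [Real.rpow_inv_rpow (by positivity) (by linarith only [hn])] at h2
      have h3 : C * (A / (2 * C * K) * K) = A / 2 := by field_simp
      rw [mul_zero, zero_add, h3] at h2
      linarith only [h1, h2]
    rw [hA0, Real.zero_rpow hp0.ne']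
    positivity
  obtain ⟨t, rfl⟩ : ∃ t, K = t * d := ⟨K / d, by field_simp⟩
  have ht : 0 < t := (mul_pos_iff_of_pos_right hd).1 hK
  have h1 := h (t ^ (2 / n)) (by positivity)
  have e1 : 2 / n * -((n - 2 * s) / 2) = 2 / n * s - 1 := by
    field_simp
    ring
  have e2 : 2 / n * s * (2 * n / (n - 2 * s)) = 2 * n / (n - 2 * s) - 2 := by
    field_simp
    ring
  rw [← Real.rpow_mul ht.le, ← Real.rpow_mul ht.le, e1, Real.rpow_sub_one ht.ne'] at h1
  have h2 : A ≤ 2 * C * (t ^ (2 / n * s) * d) := h1.trans (le_of_eq (by field_simp; ring))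
  refine (Real.rpow_le_rpow hA h2 hp0.le).trans (le_of_eq ?_)
  rw [Real.mul_rpow (by positivity) (by positivity), Real.mul_rpow (by positivity) hd.le,
    ← Real.rpow_mul ht.le, e2, Real.mul_rpow ht.le hd.le, Real.rpow_sub hd, Real.rpow_two]
  field_simp

theorem cib1_lt (hp : Par N a s) : 2 * s < N := by
  have h1 : (2 : ℝ) ≤ N := by exact_mod_cast hp.hN
  linarith [hp.hs1]

theorem cib1_inv (hp : Par N a s) : 1 / (2 * N / ((N : ℝ) - 2 * s)) = 1 / 2 - s / N := by
  have h1 := cib1_lt hp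
  have h2 : (N : ℝ) ≠ 0 := by linarith only [h1, hp, hp.hs]
  have h3 : (N : ℝ) - 2 * s ≠ 0 := by linarith
  field_simp

theorem cib1_two (hp : Par N a s) : 2 ≤ 2 * N / ((N : ℝ) - 2 * s) := by
  rw [le_div_iff₀ (by linarith [cib1_lt hp])]
  linarith only [hp, hp.hs]

theorem cib1_cmp {f : Es N → ℝ} {A : Set (Es N)} (hf : Measurable f) (hA : volume A < ⊤)
    {p q : ℝ} (hq : 0 < q) (hqp : q ≤ p) :
    eLpNorm f (ENNReal.ofReal q) (volume.restrict A) ≤
      eLpNorm f (ENNReal.ofReal p) volume * ENNReal.ofReal (volume.real A ^ (1 / q - 1 / p)) := by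
  refine (eLpNorm_le_eLpNorm_mul_rpow_measure_univ (ENNReal.ofReal_le_ofReal hqp)
    hf.aestronglyMeasurable).trans (mul_le_mul' (eLpNorm_restrict_le _ _ _ _) (le_of_eq ?_))
  rw [Measure.restrict_apply_univ, ENNReal.toReal_ofReal hq.le,
    ENNReal.toReal_ofReal (hq.le.trans hqp), ← ENNReal.ofReal_rpow_of_nonneg measureReal_nonneg
      (sub_nonneg.2 (one_div_le_one_div_of_le hq hqp)), ofReal_measureReal hA.ne]

theorem cib1_one {f : Es N → ℝ} {μ : Measure (Es N)} (hf : AEStronglyMeasurable f μ) {B : ℝ}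
    (hB : 0 ≤ B) (h : eLpNorm f 1 μ ≤ ENNReal.ofReal B) :
    Integrable f μ ∧ ∫ x, |f x| ∂μ ≤ B := by
  refine ⟨memLp_one_iff_integrable.1 ⟨hf, h.trans_lt ENNReal.ofReal_lt_top⟩, ?_⟩
  have := integral_norm_eq_lintegral_enorm hf
  simp only [Real.norm_eq_abs] at this
  rw [this, ← eLpNorm_one_eq_lintegral_enorm]
  exact ENNReal.toReal_le_of_le_ofReal hB h

theorem cib1_pow {f : Es N → ℝ} {p : ℝ} (hp : 0 < p) (hf : MemLp f (ENNReal.ofReal p) volume) :
    ∫ x, |f x| ^ p = (eLpNorm f (ENNReal.ofReal p) volume).toReal ^ p := by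
  have h0 : 0 ≤ ∫ x, |f x| ^ p := integral_nonneg fun x => by positivity
  rw [hf.eLpNorm_eq_integral_rpow_norm (by simpa using hp) ENNReal.ofReal_ne_top,
    ENNReal.toReal_ofReal hp.le]
  simp only [Real.norm_eq_abs]
  rw [ENNReal.toReal_ofReal (by positivity), Real.rpow_inv_rpow h0 hp.ne']

theorem cib1_cs (ha : 0 < a) (hs : 0 < s) {η : Es N → ℝ} {x : Es N} (hm : Measurable η)
    (hD : Dsq N a s η x < ⊤) {r : ℝ} :
    ∫ y in ball x r, |η x - η y| ≤
      √(2 / a * Dr a s η x) * √(volume.real (ball x r) * r ^ (N + 2 * s)) := by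
  obtain ⟨i1, e1⟩ := Dsq_real ha hm hD
  have i2 : Integrable ((ball x r).indicator fun _ : Es N => r ^ (N + 2 * s)) :=
    (integrable_indicator_iff measurableSet_ball).2 (integrableOn_const measure_ball_lt_top.ne)
  obtain ⟨i3, h3⟩ := cia5_cs i1 i2 (fun y => by positivity) fun y =>
    indicator_nonneg (fun z hz => Real.rpow_nonneg (pos_of_mem_ball hz).le _) y
  rw [integral_indicator_const _ measurableSet_ball, smul_eq_mul] at h3
  have e2 : 2 / a * Dr a s η x = ∫ y, (η x - η y) ^ 2 / ‖x - y‖ ^ (N + 2 * s) := by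
    rw [e1]
    field_simp
  rw [e2, ← integral_indicator measurableSet_ball]
  refine le_trans (integral_mono_of_nonneg (Eventually.of_forall fun y =>
    indicator_nonneg (fun _ _ => abs_nonneg _) y) i3 (Eventually.of_forall fun y => ?_)) h3
  by_cases hy : y ∈ ball x r
  · simp only [indicator_of_mem hy]
    rcases eq_or_ne x y with rfl | hxy
    · rw [sub_self, abs_zero]
      positivity
    have h1 : 0 < ‖x - y‖ := norm_pos_iff.2 (sub_ne_zero.2 hxy)
    have h2 : ‖x - y‖ ≤ r := by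
      rw [← dist_eq_norm, dist_comm]
      exact (mem_ball.1 hy).le
    rw [← Real.sqrt_mul (by positivity)]
    refine Real.abs_le_sqrt ?_
    rw [div_mul_eq_mul_div, le_div_iff₀ (by positivity)]
    exact mul_le_mul_of_nonneg_left (Real.rpow_le_rpow h1.le h2 (by positivity)) (sq_nonneg _)
  · simp only [indicator_of_notMem hy]
    positivity

theorem sob_pt (hp : Par N a s) : ∃ C > 0, ∀ (η : Es N → ℝ) (x : Es N), Measurable η →
    Dsq N a s η x < ⊤ → MemLp η (ENNReal.ofReal (2 * N / (N - 2 * s))) volume → ∀ r > 0,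
      |η x| ≤ C * (r ^ s * √(Dr a s η x) + r ^ (-(((N : ℝ) - 2 * s) / 2)) *
        (eLpNorm η (ENNReal.ofReal (2 * N / (N - 2 * s))) volume).toReal) := by
  obtain ⟨w, hw, hV⟩ := vol_ball N
  have ha := hp.ha
  have hs : 0 < s := by linarith only [hp, hp.hs]
  have h2 := cib1_two hp
  have eβ : (N : ℝ) * -(1 / (2 * N / ((N : ℝ) - 2 * s))) = -(((N : ℝ) - 2 * s) / 2) := by
    have : (N : ℝ) ≠ 0 := by linarith only [hs, hp, cib1_lt hp]
    rw [cib1_inv hp]
    field_simp
  generalize 2 * N / ((N : ℝ) - 2 * s) = p at *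
  refine ⟨√(2 / a) / √w + w ^ (-(1 / p)), by positivity, fun η x hm hD hη r hr => ?_⟩
  have hB : volume (ball x r) < ⊤ := measure_ball_lt_top
  have h3 := cib1_cmp hm hB one_pos (show 1 ≤ p by linarith only [h2])
  rw [← ENNReal.ofReal_toReal hη.2.ne, ← ENNReal.ofReal_mul ENNReal.toReal_nonneg,
    ENNReal.ofReal_one] at h3
  obtain ⟨i1, h4⟩ := cib1_one hm.aestronglyMeasurable (by positivity) h3
  have h5 := cib1_cs ha hs hm hD (r := r)
  have i2 : IntegrableOn (fun _ => η x) (ball x r) := integrableOn_const hB.ne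
  have h6 : ∫ _ in ball x r, |η x| ≤ ∫ y in ball x r, (|η x - η y| + |η y|) :=
    integral_mono i2.abs ((i2.sub i1).abs.add i1.abs) fun y => by
      simpa using abs_add_le (η x - η y) (η y)
  have i3 : IntegrableOn (fun y => |η x - η y|) (ball x r) := (i2.sub i1).abs
  rw [integral_add i3 i1.abs, setIntegral_const, smul_eq_mul] at h6
  rw [(hV x r hr).1] at h4 h5 h6
  have hK0 : 0 ≤ (eLpNorm η (ENNReal.ofReal p) volume).toReal := ENNReal.toReal_nonneg
  generalize (eLpNorm η (ENNReal.ofReal p) volume).toReal = K at *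
  have e1 : √(w * r ^ N * r ^ (N + 2 * s)) = √w * (r ^ N * r ^ s) := by
    rw [mul_assoc, Real.sqrt_mul hw.le, ← Real.sqrt_sq (show 0 ≤ r ^ N * r ^ s by positivity),
      Real.rpow_add hr, Real.rpow_natCast, two_mul, Real.rpow_add hr]
    congr 2
    ring
  have e2 : (w * r ^ N) ^ (1 / 1 - 1 / p) =
      w * r ^ N * (w ^ (-(1 / p)) * r ^ (-(((N : ℝ) - 2 * s) / 2))) := by
    rw [sub_eq_add_neg, Real.rpow_add (by positivity), div_one, Real.rpow_one,
      Real.mul_rpow hw.le (by positivity), ← Real.rpow_natCast r N, ← Real.rpow_mul hr.le, eβ]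
  rw [e1, Real.sqrt_mul (by positivity)] at h5
  rw [e2] at h4
  have e3 : √(2 / a) * √(Dr a s η x) * (√w * (r ^ N * r ^ s)) =
      w * r ^ N * (√(2 / a) / √w * (r ^ s * √(Dr a s η x))) := by
    have := Real.sqrt_pos.2 hw
    nth_rewrite 2 [← Real.mul_self_sqrt hw.le]
    field_simp
  have h7 : |η x| ≤ √(2 / a) / √w * (r ^ s * √(Dr a s η x)) +
      w ^ (-(1 / p)) * (r ^ (-(((N : ℝ) - 2 * s) / 2)) * K) := by
    refine le_of_mul_le_mul_left ?_ (show 0 < w * r ^ N by positivity)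
    rw [mul_add, ← e3]
    linarith only [h5, h6, h4]
  have p1 : 0 ≤ √(2 / a) / √w * (r ^ (-(((N : ℝ) - 2 * s) / 2)) * K) := by positivity
  have p2 : 0 ≤ w ^ (-(1 / p)) * (r ^ s * √(Dr a s η x)) := by positivity
  linarith only [h7, p1, p2]

theorem cib1_bdd (hp : Par N a s) (hΩ : Dom Ω) : ∃ C > 0, ∀ η : Es N → ℝ, W0 a s Ω η →
    (∃ M, ∀ x, |η x| ≤ M) → eLpNorm η (ENNReal.ofReal (2 * N / (N - 2 * s))) volume ≤
      ENNReal.ofReal (C * √(En N a s η η)) := by
  obtain ⟨C, hC, h⟩ := sob_pt hp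
  have h2 := cib1_two hp
  have hr := fun A d K hA hd hK => sob_real (A := A) (d := d) (K := K) (C := C)
    (by linarith only [hp, hp.hs]) (cib1_lt hp) hA hd hK hC
  generalize 2 * N / ((N : ℝ) - 2 * s) = p at *
  refine ⟨√((2 * C) ^ p), by positivity, fun η hη ⟨M, hM⟩ => ?_⟩
  have hm : MemLp η (ENNReal.ofReal p) volume := by
    refine (memLp_indicator_const _ hΩ.op.measurableSet M (Or.inr hΩ.fin.ne)).mono'
      hη.meas.aestronglyMeasurable (Eventually.of_forall fun x => ?_)
    by_cases hx : x ∈ Ω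
    · rw [indicator_of_mem hx]
      exact hM x
    · rw [indicator_of_notMem hx, hη.zero x hx, norm_zero]
  have e1 := cib1_pow (by linarith) hm
  rw [← ENNReal.ofReal_toReal hm.2.ne]
  refine ENNReal.ofReal_le_ofReal ?_
  have h' := fun x hx => h η x hη.meas hx hm
  have hK0 : 0 ≤ (eLpNorm η (ENNReal.ofReal p) volume).toReal := ENNReal.toReal_nonneg
  generalize (eLpNorm η (ENNReal.ofReal p) volume).toReal = K at *
  rcases hK0.eq_or_lt with rfl | hK
  · positivity
  have h3 : ∫ x, |η x| ^ p ≤ ∫ x, (2 * C) ^ p * K ^ (p - 2) * Dr a s η x := by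
    refine integral_mono_of_nonneg (Eventually.of_forall fun x => by positivity)
      (hη.intDr.const_mul _) ?_
    filter_upwards [hη.ae] with x hx
    have := hr _ _ _ (abs_nonneg _) (Real.sqrt_nonneg _) hK (h' x hx)
    rw [Real.sq_sqrt Dr_nonneg] at this
    linarith
  rw [integral_const_mul, ← (En_self hp.ha hη.toFE).1, e1] at h3
  rw [← Real.sqrt_mul (by positivity)]
  refine Real.le_sqrt_of_sq_le (le_of_mul_le_mul_left ?_ (Real.rpow_pos_of_pos hK (p - 2)))
  rw [← Real.rpow_two, ← Real.rpow_add hK, sub_add_cancel]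
  linarith

theorem sobolev (hp : Par N a s) (hΩ : Dom Ω) : ∃ C > 0, ∀ η : Es N → ℝ, W0 a s Ω η →
    eLpNorm η (ENNReal.ofReal (2 * N / (N - 2 * s))) volume ≤
      ENNReal.ofReal (C * √(En N a s η η)) := by
  obtain ⟨C, hC, h⟩ := cib1_bdd hp hΩ
  refine ⟨C, hC, fun η hη => ?_⟩
  have hl : ∀ k p q : ℝ, |max (-k) (min k p) - max (-k) (min k q)| ≤ 1 * |p - q| := fun k p q => by
    rw [one_mul, max_comm (-k), max_comm (-k)]
    refine (abs_max_sub_max_le_abs _ _ _).trans ?_
    simpa using abs_min_sub_min_le_max k p k q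
  have hw : ∀ k : ℕ, W0 a s Ω fun x => max (-(k : ℝ)) (min (k : ℝ) (η x)) := fun k =>
    hη.comp hp.ha (Φ := fun t => max (-(k : ℝ)) (min (k : ℝ) t)) (hl k) (by simp)
  refine Lp.eLpNorm_le_of_ae_tendsto (u := atTop) (Eventually.of_forall fun k => ?_)
    (fun k => (hw k).meas.aestronglyMeasurable) (Eventually.of_forall fun x => ?_)
  · refine (h _ (hw k) ⟨k, fun x => abs_le.2 ⟨le_max_left _ _,
      max_le (neg_le_self k.cast_nonneg) (min_le_left _ _)⟩⟩).trans (ENNReal.ofReal_le_ofReal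
        (mul_le_mul_of_nonneg_left (Real.sqrt_le_sqrt ?_) hC.le))
    simpa using (FE.of_le hp.ha hη.toFE (hw k).meas fun x y => hl k _ _).2
  · refine tendsto_const_nhds.congr' ?_
    filter_upwards [tendsto_natCast_atTop_atTop.eventually_ge_atTop |η x|] with k hk
    rw [min_eq_right (le_of_abs_le hk), max_eq_right (neg_le_of_abs_le hk)]

theorem cib1_q (hp : Par N a s) (hΩ : Dom Ω) : ∃ C > 0, ∀ (η : Es N → ℝ) (A : Set (Es N)),
    W0 a s Ω η → MeasurableSet A → volume A < ⊤ → (∀ x, x ∉ A → η x = 0) → ∀ q > 0,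
      1 / 2 - s / N ≤ 1 / q → eLpNorm η (ENNReal.ofReal q) volume ≤
        ENNReal.ofReal (C * √(En N a s η η) * volume.real A ^ (1 / q - (1 / 2 - s / N))) := by
  obtain ⟨C, hC, h⟩ := sobolev hp hΩ
  refine ⟨C, hC, fun η A hη hA hA' h0 q hq hq' => ?_⟩
  have e : A.indicator η = η := indicator_eq_self.2 fun x hx => not_not.1 fun h1 => hx (h0 x h1)
  rw [← cib1_inv hp] at hq' ⊢
  have h1 := cib1_cmp hη.meas hA' hq
    (le_of_one_div_le_one_div (by linarith only [hp, cib1_two hp]) hq')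
  rw [← eLpNorm_indicator_eq_eLpNorm_restrict hA, e] at h1
  rw [ENNReal.ofReal_mul (by positivity)]
  exact h1.trans (mul_le_mul' (h η hη) le_rfl)

theorem sob_one (hp : Par N a s) (hΩ : Dom Ω) : ∃ C > 0, ∀ (η : Es N → ℝ) (A : Set (Es N)),
    W0 a s Ω η → MeasurableSet A → volume A < ⊤ → (∀ x, x ∉ A → η x = 0) →
      ∫ x, |η x| ≤ C * √(En N a s η η) * volume.real A ^ (1 / 2 + s / N) := by
  obtain ⟨C, hC, h⟩ := cib1_q hp hΩ
  refine ⟨C, hC, fun η A hη hA hA' h0 => ?_⟩
  have h1 : 0 ≤ s / N := div_nonneg (by linarith only [hp, hp.hs]) N.cast_nonneg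
  have h2 := h η A hη hA hA' h0 1 one_pos (by linarith only [h1])
  rw [ENNReal.ofReal_one, show 1 / 1 - (1 / 2 - s / N) = 1 / 2 + s / N by ring] at h2
  exact (cib1_one hη.meas.aestronglyMeasurable (by positivity) h2).2

theorem sob_two (hp : Par N a s) (hΩ : Dom Ω) : ∃ C > 0, ∀ (η : Es N → ℝ) (A : Set (Es N)),
    W0 a s Ω η → MeasurableSet A → volume A < ⊤ → (∀ x, x ∉ A → η x = 0) →
      ∫ x, η x ^ 2 ≤ C * En N a s η η * volume.real A ^ (2 * s / N) := by
  obtain ⟨C, hC, h⟩ := cib1_q hp hΩ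
  refine ⟨C ^ 2, by positivity, fun η A hη hA hA' h0 => ?_⟩
  have h1 : 0 ≤ s / N := div_nonneg (by linarith only [hp, hp.hs]) N.cast_nonneg
  have h2 := h η A hη hA hA' h0 2 two_pos (by linarith only [h1])
  have h3 := cib1_pow two_pos ⟨hη.meas.aestronglyMeasurable, h2.trans_lt ENNReal.ofReal_lt_top⟩
  simp only [Real.rpow_two, sq_abs] at h3
  rw [h3]
  refine (pow_le_pow_left₀ ENNReal.toReal_nonneg
    (ENNReal.toReal_le_of_le_ofReal (by positivity) h2) 2).trans (le_of_eq ?_)
  rw [mul_pow, mul_pow, Real.sq_sqrt (En_nonneg hp.ha η), ← Real.rpow_two (_ ^ _),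
    ← Real.rpow_mul measureReal_nonneg]
  congr 2
  ring

theorem dual (hp : Par N a s) (hΩ : Dom Ω) {m : ℝ} (hm : N / (2 * s) < m) {h : Es N → ℝ}
    (hh : MemLp h (ENNReal.ofReal m) (volume.restrict Ω)) : ∃ C > 0,
    ∀ (η : Es N → ℝ) (A : Set (Es N)), W0 a s Ω η → MeasurableSet A → volume A < ⊤ →
      (∀ x, x ∉ A → η x = 0) → IntegrableOn (fun x => h x * η x) Ω ∧
      ∫ x in Ω, |h x * η x| ≤ C * √(En N a s η η) * volume.real A ^ (1 / 2 + s / N - 1 / m) := by
  obtain ⟨C, hC, hq⟩ := cib1_q hp hΩ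
  have hs : 0 < s := by linarith only [hp, hp.hs]
  have hN := cib1_lt hp
  have hN0 : (0 : ℝ) < N := by linarith
  have hm1 : 1 < m := lt_trans ((one_lt_div (by linarith)).2 hN) hm
  have hc := (Real.holderConjugate_iff_eq_conjExponent hm1).2 rfl
  generalize m / (m - 1) = q at hc
  have e1 : 1 / q = 1 - 1 / m := by rw [one_div, one_div, hc.one_sub_inv]
  have h1 : 1 / m ≤ 2 * (s / N) := by
    have := one_div_le_one_div_of_le (by positivity) hm.le
    rwa [one_div_div, mul_div_assoc] at this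
  have h2 : s / N ≤ 1 / 2 := by
    rw [div_le_iff₀ hN0]
    linarith only [hN]
  refine ⟨((eLpNorm h (ENNReal.ofReal m) (volume.restrict Ω)).toReal + 1) * C, by positivity,
    fun η A hη hA hA' h0 => ?_⟩
  have h3 := hq η A hη hA hA' h0 q hc.symm.pos (by linarith only [e1, h1, h2])
  rw [e1, show 1 - 1 / m - (1 / 2 - s / N) = 1 / 2 + s / N - 1 / m by ring] at h3
  have := hc.ennrealOfReal
  have h4 := eLpNorm_smul_le_mul_eLpNorm (p := ENNReal.ofReal m) (q := ENNReal.ofReal q) (r := 1)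
    (hη.meas.aestronglyMeasurable (μ := volume.restrict Ω)) hh.1
  refine cib1_one (hh.1.mul hη.meas.aestronglyMeasurable) (by positivity) (h4.trans ?_)
  rw [mul_assoc, mul_assoc, ENNReal.ofReal_mul (by positivity), ← mul_assoc]
  refine mul_le_mul' ?_ ((eLpNorm_restrict_le _ _ _ _).trans h3)
  conv_lhs => rw [← ENNReal.ofReal_toReal hh.2.ne]
  exact ENNReal.ofReal_le_ofReal (by linarith only [])

end

end Pool.Agent.Work.MP_49e099_an
end

-- merged part: Pool.Agent.Work.MP_49e099_an.CI.H2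
section
/-!
# The Fredholm alternative in `W0`
`fin_codim`: cover the closure of `Ω` by finitely many balls `ball p l` (`IsCompact.finite_cover_balls`, `finite_cover_balls_of_compact`). If `∫ y in ball p l, z y = 0` and `x ∈ ball p l` then `z x * vol = ∫ y in ball p l, (z x - z y)`, so by Cauchy-Schwarz `z x² w l^N ≤ (2l)^(N+2s) (2/a) Dr z x` when `Dsq z x < ⊤` (`Dsq_real`). Integrate (`FE.ae`, `En_self`) and take `l` small.
`fredholm`: `X` is the submodule of `Es N → ℝ` with carrier `{u | W0 a s Ω u}`; `B = En`, `Q u v = ∫ x in Ω, c x * u x * v x` through `LinearMap.mk₂`; `w0_complete`, `poincare` and Cauchy-Schwarz (`L2_cs`); the functionals `z ↦ ∫ y in ball p l, z y` and `η ↦ ∫ x in Ω, h x * η x` (`dual` with `A = Ω`); index the finset by `T.equivFin`. Independence: `En_congr`.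
-/

namespace Pool.Agent.Work.MP_49e099_an

open MeasureTheory Set Filter Topology Metric

noncomputable section

variable {N : ℕ} {a s : ℝ} {Ω : Set (Es N)}

theorem L2_cs {u v : Es N → ℝ} (hu : MemLp u 2 volume) (hv : MemLp v 2 volume) :
    Integrable (fun x => u x * v x) ∧ ∫ x, |u x * v x| ≤ √(∫ x, u x ^ 2) * √(∫ x, v x ^ 2) := by
  obtain ⟨i1, h1⟩ := cia5_cs hu.integrable_sq hv.integrable_sq (fun x => sq_nonneg _)
    fun x => sq_nonneg _
  simp only [Real.sqrt_sq_eq_abs, ← abs_mul] at i1 h1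
  exact ⟨i1.mono' (hu.1.mul hv.1) (Eventually.of_forall fun x => le_of_eq (Real.norm_eq_abs _)),
    h1⟩

theorem cih2_pt (hp : Par N a s) {z : Es N → ℝ} (hm : Measurable z) (hz : Integrable z)
    {w l : ℝ} (hw : 0 < w) (hl : 0 < l) (hV : ∀ (x : Es N) (r : ℝ), 0 < r →
      volume.real (ball x r) = w * r ^ N) {x p : Es N} (hx : x ∈ ball p l)
    (h0 : ∫ y in ball p l, z y = 0) (hD : Dsq N a s z x < ⊤) :
    z x ^ 2 ≤ 2 / a / w * (2 ^ N * 2 ^ N * 2 ^ (2 * s)) * l ^ (2 * s) * Dr a s z x := by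
  have ha := hp.ha
  have hs : 0 < s := by linarith only [hp, hp.hs]
  have h5 := cib1_cs ha hs hm hD (r := 2 * l)
  have i2 : ∀ (q : Es N) (r : ℝ), IntegrableOn (fun _ : Es N => z x) (ball q r) := fun q r =>
    integrableOn_const measure_ball_lt_top.ne
  have i3 : IntegrableOn (fun y => |z x - z y|) (ball x (2 * l)) :=
    ((i2 x _).sub hz.integrableOn).abs
  have hsub : ball p l ⊆ ball x (2 * l) := fun y hy => by
    have d1 := mem_ball.1 hx
    have d2 := mem_ball.1 hy
    have d3 := dist_triangle_right y x p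
    rw [mem_ball]
    linarith only [d1, d2, d3]
  have h1 : ∫ y in ball p l, (z x - z y) = w * l ^ N * z x := by
    rw [integral_sub (i2 p l) hz.integrableOn, h0, setIntegral_const, hV p l hl, smul_eq_mul,
      sub_zero]
  have h2 : |w * l ^ N * z x| ≤ ∫ y in ball x (2 * l), |z x - z y| := by
    rw [← h1]
    exact abs_integral_le_integral_abs.trans (setIntegral_mono_set i3
      (Eventually.of_forall fun y => abs_nonneg _) hsub.eventuallyLE)
  have n1 : 0 ≤ Dr a s z x := Dr_nonneg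
  have h3 := pow_le_pow_left₀ (abs_nonneg _) (h2.trans h5) 2
  rw [sq_abs, mul_pow _ _ 2, mul_pow _ _ 2, mul_pow _ _ 2, Real.sq_sqrt (by positivity),
    Real.sq_sqrt (by positivity), hV x _ (by positivity), Real.rpow_add (by positivity),
    Real.rpow_natCast, Real.mul_rpow (by norm_num) hl.le, mul_pow] at h3
  refine le_of_mul_le_mul_left (h3.trans (le_of_eq ?_)) (by positivity)
  field_simp

theorem fin_codim (hp : Par N a s) (hΩ : Dom Ω) {ε : ℝ} (hε : 0 < ε) :
    ∃ (T : Finset (Es N)) (l : ℝ), ∀ z, W0 a s Ω z → (∀ p ∈ T, ∫ y in ball p l, z y = 0) →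
      ∫ x, z x ^ 2 ≤ ε * En N a s z z := by
  obtain ⟨w, hw, hV⟩ := vol_ball N
  have ha := hp.ha
  have hs : 0 < s := by linarith only [hp, hp.hs]
  obtain ⟨K, hK⟩ : ∃ K : ℝ, K = 2 / a / w * (2 ^ N * 2 ^ N * 2 ^ (2 * s)) := ⟨_, rfl⟩
  have hK0 : 0 < K := by rw [hK]; positivity
  have hl : 0 < (ε / K) ^ (2 * s)⁻¹ := by positivity
  have hsm := cia1_small hK0 (by positivity : 0 < 2 * s) hε hl le_rfl
  generalize (ε / K) ^ (2 * s)⁻¹ = l at hl hsm
  obtain ⟨t, -, hfin, hcov⟩ := hΩ.bd.isCompact_closure.finite_cover_balls hl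
  refine ⟨hfin.toFinset, l, fun z hz h0 => ?_⟩
  rw [(En_self ha hz.toFE).1, ← integral_const_mul]
  refine integral_mono_of_nonneg (Eventually.of_forall fun x => sq_nonneg _)
    (hz.intDr.const_mul _) ?_
  filter_upwards [hz.ae] with x hx
  have n1 : 0 ≤ Dr a s z x := Dr_nonneg
  by_cases hxΩ : x ∈ Ω
  · obtain ⟨p, hpt, hxp⟩ := mem_iUnion₂.1 (hcov (subset_closure hxΩ))
    have := cih2_pt hp hz.meas (hz.int hp hΩ) hw hl (fun x r hr => (hV x r hr).1) hxp
      (h0 p (hfin.mem_toFinset.2 hpt)) hx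
    rw [← hK] at this
    exact this.trans (mul_le_mul_of_nonneg_right hsm n1)
  · rw [hz.zero x hxΩ, zero_pow two_ne_zero]
    positivity

/-- the space `W0` as a submodule -/
def cih2_X (a s : ℝ) (Ω : Set (Es N)) (ha : 0 < a) : Submodule ℝ (Es N → ℝ) where
  carrier := {u | W0 a s Ω u}
  add_mem' hu hv := W0.add ha hu hv
  zero_mem' := W0.zero'
  smul_mem' t _ hu := W0.smul ha hu t

theorem cih2_int (hp : Par N a s) (hΩ : Dom Ω) {C : ℝ} {c u v : Es N → ℝ} (cm : Measurable c)
    (cb : ∀ x, |c x| ≤ C) (hu : W0 a s Ω u) (hv : W0 a s Ω v) :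
    IntegrableOn (fun x => c x * u x * v x) Ω ∧
      |∫ x in Ω, c x * u x * v x| ≤ C * (√(∫ x, u x ^ 2) * √(∫ x, v x ^ 2)) := by
  obtain ⟨i1, h1⟩ := L2_cs (hu.memLp hp hΩ) (hv.memLp hp hΩ)
  have hC : 0 ≤ C := (abs_nonneg _).trans (cb 0)
  have hb : ∀ x, |c x * u x * v x| ≤ C * |u x * v x| := fun x => by
    rw [mul_assoc, abs_mul]
    exact mul_le_mul_of_nonneg_right (cb x) (abs_nonneg _)
  have i2 : Integrable fun x => c x * u x * v x :=
    (i1.abs.const_mul C).mono' ((cm.mul hu.meas).mul hv.meas).aestronglyMeasurable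
      (Eventually.of_forall hb)
  refine ⟨i2.integrableOn, abs_integral_le_integral_abs.trans ?_⟩
  refine (setIntegral_le_integral i2.abs (Eventually.of_forall fun x => abs_nonneg _)).trans ?_
  refine (integral_mono i2.abs (i1.abs.const_mul C) hb).trans ?_
  rw [integral_const_mul]
  exact mul_le_mul_of_nonneg_left h1 hC

/-- the energy form on `W0` -/
def cih2_B (a s : ℝ) (Ω : Set (Es N)) (ha : 0 < a) :
    cih2_X a s Ω ha →ₗ[ℝ] cih2_X a s Ω ha →ₗ[ℝ] ℝ :=
  LinearMap.mk₂ ℝ (fun u v => En N a s u.1 v.1)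
    (fun u u' v => by
      rw [En_comm u.1, En_comm u'.1, En_comm]
      exact En_add ha (W0.toFE v.2) (W0.toFE u.2) (W0.toFE u'.2))
    (fun t u v => by
      rw [En_comm u.1, En_comm]
      exact En_smul v.1 u.1 t)
    (fun u v v' => En_add ha (W0.toFE u.2) (W0.toFE v.2) (W0.toFE v'.2))
    (fun t u v => En_smul u.1 v.1 t)

/-- the potential form on `W0` -/
def cih2_Q (hp : Par N a s) (hΩ : Dom Ω) {C : ℝ} {c : Es N → ℝ} (cm : Measurable c)
    (cb : ∀ x, |c x| ≤ C) : cih2_X a s Ω hp.ha →ₗ[ℝ] cih2_X a s Ω hp.ha →ₗ[ℝ] ℝ :=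
  LinearMap.mk₂ ℝ (fun u v => ∫ x in Ω, c x * u.1 x * v.1 x)
    (fun u u' v => by
      rw [← integral_add (cih2_int hp hΩ cm cb u.2 v.2).1 (cih2_int hp hΩ cm cb u'.2 v.2).1]
      refine integral_congr_ae (Eventually.of_forall fun x => ?_)
      simp only [Submodule.coe_add, Pi.add_apply]
      ring)
    (fun t u v => by
      rw [smul_eq_mul, ← integral_const_mul]
      refine integral_congr_ae (Eventually.of_forall fun x => ?_)
      simp only [Submodule.coe_smul, Pi.smul_apply, smul_eq_mul]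
      ring)
    (fun u v v' => by
      rw [← integral_add (cih2_int hp hΩ cm cb u.2 v.2).1 (cih2_int hp hΩ cm cb u.2 v'.2).1]
      refine integral_congr_ae (Eventually.of_forall fun x => ?_)
      simp only [Submodule.coe_add, Pi.add_apply]
      ring)
    (fun t u v => by
      rw [smul_eq_mul, ← integral_const_mul]
      refine integral_congr_ae (Eventually.of_forall fun x => ?_)
      simp only [Submodule.coe_smul, Pi.smul_apply, smul_eq_mul]
      ring)

/-- integration against a weight on a set -/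
def cih2_L (ha : 0 < a) (h : Es N → ℝ) (A : Set (Es N))
    (hi : ∀ η, W0 a s Ω η → IntegrableOn (fun x => h x * η x) A) : cih2_X a s Ω ha →ₗ[ℝ] ℝ where
  toFun u := ∫ x in A, h x * u.1 x
  map_add' u v := by
    rw [← integral_add (hi _ u.2) (hi _ v.2)]
    refine integral_congr_ae (Eventually.of_forall fun x => ?_)
    simp only [Submodule.coe_add, Pi.add_apply]
    ring
  map_smul' t u := by
    rw [RingHom.id_apply, smul_eq_mul, ← integral_const_mul]
    refine integral_congr_ae (Eventually.of_forall fun x => ?_)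
    simp only [Submodule.coe_smul, Pi.smul_apply, smul_eq_mul]
    ring

theorem fredholm (hp : Par N a s) (hΩ : Dom Ω) {m C : ℝ} (hm : N / (2 * s) < m) {c : Es N → ℝ}
    (cm : Measurable c) (cb : ∀ x, |c x| ≤ C) : ∃ (n : ℕ) (φ : Fin n → Es N → ℝ),
      (∀ i, W0 a s Ω (φ i) ∧ VSol a s Ω (φ i) fun x => c x * φ i x) ∧
      (∀ t : Fin n → ℝ, (∀ᵐ x, ∑ i, t i * φ i x = 0) → t = 0) ∧
      ∀ h : Es N → ℝ, MemLp h (ENNReal.ofReal m) (volume.restrict Ω) →
        (∀ i, ∫ x in Ω, h x * φ i x = 0) →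
        ∃ z, W0 a s Ω z ∧ VSol a s Ω z fun x => c x * z x + h x := by
  have ha := hp.ha
  have hC : 0 ≤ C := (abs_nonneg _).trans (cb 0)
  obtain ⟨P, hP, hPo⟩ := poincare hp hΩ
  have hsq : ∀ (e : ℝ) (u : Es N → ℝ), 0 ≤ e → ∫ x, u x ^ 2 ≤ e * En N a s u u →
      √(∫ x, u x ^ 2) ≤ √e * √(En N a s u u) := fun e u he h => by
    rw [← Real.sqrt_mul he]
    exact Real.sqrt_le_sqrt h
  have hQ : ∀ (e : ℝ) (u v : cih2_X a s Ω ha), 0 ≤ e → ∫ x, u.1 x ^ 2 ≤ e * En N a s u.1 u.1 →
      |cih2_Q hp hΩ cm cb u v| ≤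
        C * (√e * √P) * √(cih2_B a s Ω ha u u) * √(cih2_B a s Ω ha v v) := fun e u v he h => by
    refine (cih2_int hp hΩ cm cb u.2 v.2).2.trans ?_
    have h1 := mul_le_mul (hsq e u.1 he h) (hsq P v.1 hP.le (hPo v.1 v.2).1) (by positivity)
      (by positivity)
    refine (mul_le_mul_of_nonneg_left h1 hC).trans (le_of_eq ?_)
    change _ = C * (√e * √P) * √(En N a s u.1 u.1) * √(En N a s v.1 v.1)
    ring
  obtain ⟨n, φ, h1, h2, h3⟩ := fred_form (cih2_B a s Ω ha) (cih2_Q hp hΩ cm cb)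
    (fun x y => En_comm x.1 y.1) (fun x => En_nonneg ha x.1)
    (fun z hz => by
      obtain ⟨v, hv, hl⟩ := w0_complete hp hΩ (z := fun n => (z n).1) (fun n => (z n).2) hz
      exact ⟨⟨v, hv⟩, hl⟩)
    (fun x y => integral_congr_ae (Eventually.of_forall fun t => mul_right_comm _ _ _))
    ⟨C * (√P * √P), fun x y => hQ P x y hP.le (hPo x.1 x.2).1⟩
    (fun ε hε => by
      have hP' := Real.sqrt_pos.2 hP
      obtain ⟨T, l, hT⟩ := fin_codim hp hΩ (ε := (ε / ((C + 1) * √P)) ^ 2) (by positivity)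
      have hi : ∀ p : Es N, ∀ η, W0 a s Ω η →
          IntegrableOn (fun x => (fun _ => (1 : ℝ)) x * η x) (ball p l) := fun p η hη => by
        simpa using (hη.int hp hΩ).integrableOn
      refine ⟨T.card, fun i => cih2_L ha (fun _ => 1) (ball (T.equivFin.symm i).1 l) (hi _),
        fun i => ⟨P, fun x => ?_⟩, fun x y h0 => ?_⟩
      · refine le_trans ?_ (hPo x.1 x.2).2
        refine abs_integral_le_integral_abs.trans ?_
        simp only [one_mul]
        exact setIntegral_le_integral (W0.int hp hΩ x.2).abs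
          (Eventually.of_forall fun x => abs_nonneg _)
      · refine (hQ _ x y (sq_nonneg _) (hT x.1 x.2 fun p hpT => ?_)).trans ?_
        · have := h0 (T.equivFin ⟨p, hpT⟩)
          simpa [cih2_L] using this
        · refine mul_le_mul_of_nonneg_right (mul_le_mul_of_nonneg_right ?_ (by positivity))
            (by positivity)
          rw [Real.sqrt_sq (by positivity)]
          have e : C * (ε / ((C + 1) * √P) * √P) = ε * (C / (C + 1)) := by field_simp
          rw [e]
          exact mul_le_of_le_one_right hε.le ((div_le_one (by positivity)).2 (by linarith only [])))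
  refine ⟨n, fun i => (φ i).1, fun i => ⟨(φ i).2, fun η hη => h2 i ⟨η, hη⟩⟩, fun t ht => h1 t ?_,
    fun h hh h0 => ?_⟩
  · have e : ∀ᵐ x, (∑ i, t i • φ i).1 x = (fun _ => (0 : ℝ)) x := by
      filter_upwards [ht] with x hx
      simpa using hx
    refine (En_congr e e).trans ?_
    simp [En]
  · obtain ⟨D, hD, hd⟩ := dual hp hΩ hm hh
    have hd' := fun η (hη : W0 a s Ω η) => hd η Ω hη hΩ.op.measurableSet hΩ.fin hη.zero
    obtain ⟨z, hz⟩ := h3 (cih2_L ha h Ω fun η hη => (hd' η hη).1)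
      ⟨D * volume.real Ω ^ (1 / 2 + s / N - 1 / m), fun x => by
        refine abs_integral_le_integral_abs.trans ((hd' x.1 x.2).2.trans (le_of_eq ?_))
        exact mul_right_comm _ _ _⟩ h0
    refine ⟨z.1, z.2, fun η hη => (hz ⟨η, hη⟩).trans ?_⟩
    change (∫ x in Ω, c x * z.1 x * η x) + ∫ x in Ω, h x * η x = _
    rw [← integral_add (cih2_int hp hΩ cm cb z.2 hη).1 (hd' η hη).1]
    refine integral_congr_ae (Eventually.of_forall fun x => ?_)
    ring

end

end Pool.Agent.Work.MP_49e099_an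
end

-- merged part: Pool.Agent.Work.MP_49e099_an.CI.C1
section
/-!
# Truncated operators and their energy forms
`Lk_sym`: substitute `y = x + h` and `y = x - h` (`integral_add_left_eq_self`, `integral_sub_left_eq_self`, `Kn.even`). `Lk_bm`: `StronglyMeasurable.integral_prod_right`, bound `2 M ∫ k`.
`Lk_dual`: the functions `η x * F x y * k (x - y)` with `F` bounded measurable are integrable on the product space (`Integrable.convolution_integrand`, or `integrable_prod_iff` / `lintegral_prod`); expand and swap the variables (`integral_integral_swap`).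
`Ek_lim`: dominated convergence on the product space with majorant from `FE.prod` (for `|u x - u y| |v x - v y|` use `2 |p q| ≤ p² + q²`); on the diagonal the integrands vanish. `Ek_fatou`: `lintegral_liminf_le` on the product space (or twice), `ofReal_integral_eq_lintegral_ofReal`. `Ek_mono`: `(p₊ - q₊)² ≤ (p - q)(p₊ - q₊)`.
-/

namespace Pool.Agent.Work.MP_49e099_an

open MeasureTheory Set Filter Topology Metric

noncomputable section

variable {N : ℕ} {a s : ℝ} {Ω : Set (Es N)}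

variable {k u v η : Es N → ℝ}

theorem cic1_shift (k u : Es N → ℝ) (x : Es N) : Lk k u x = ∫ h, (u x - u (x - h)) * k h := by
  rw [Lk, ← integral_sub_left_eq_self (fun y => (u x - u y) * k (x - y)) volume x]
  simp only [sub_sub_cancel]

theorem cic1_bd {M : ℝ} (hM : ∀ x, |u x| ≤ M) (x y : Es N) : ‖u x - u y‖ ≤ M + M :=
  (abs_sub _ _).trans (add_le_add (hM x) (hM y))

theorem cic1_one (hk : Kn k) (hu : BM u) (x : Es N) {τ : Es N → Es N} (hτ : Measurable τ) :
    Integrable fun h => (u x - u (τ h)) * k h := by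
  obtain ⟨M, hM⟩ := hu.bdd
  exact hk.int.bdd_mul (measurable_const.sub (hu.meas.comp hτ)).aestronglyMeasurable
    (Eventually.of_forall fun h => cic1_bd hM _ _)

theorem Lk_sym (hk : Kn k) (hu : BM u) (x : Es N) :
    Lk k u x = -(1 / 2) * ∫ h, (u (x + h) + u (x - h) - 2 * u x) * k h := by
  have h1 := cic1_shift k u x
  have h2 : Lk k u x = ∫ h, (u x - u (x + h)) * k h := by
    rw [h1, ← integral_neg_eq_self (fun h => (u x - u (x - h)) * k h) volume]
    simp only [sub_neg_eq_add, hk.even]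
  have i1 : Integrable fun h => (u x - u (x - h)) * k h :=
    cic1_one hk hu x (measurable_const.sub measurable_id)
  have i2 : Integrable fun h => (u x - u (x + h)) * k h :=
    cic1_one hk hu x (measurable_const.add measurable_id)
  have h3 : ∫ h, (u (x + h) + u (x - h) - 2 * u x) * k h =
      -((∫ h, (u x - u (x - h)) * k h) + ∫ h, (u x - u (x + h)) * k h) := by
    rw [← integral_add i1 i2, ← integral_neg]
    refine integral_congr_ae (Eventually.of_forall fun h => ?_)
    ring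
  rw [h3, ← h1, ← h2]
  ring

theorem Lk_shift (x : Es N) : Lk k u x = ∫ h, (u x - u (x - h)) * k h := by
  exact cic1_shift k u x

theorem Lk_bm (hk : Kn k) (hu : BM u) : BM (Lk k u) := by
  obtain ⟨M, hM⟩ := hu.bdd
  refine ⟨(StronglyMeasurable.integral_prod_right' (ν := volume)
    (f := fun p : Es N × Es N => (u p.1 - u p.2) * k (p.1 - p.2))
    (((hu.meas.comp measurable_fst).sub (hu.meas.comp measurable_snd)).mul
      (hk.meas.comp (measurable_fst.sub measurable_snd))).stronglyMeasurable).measurable,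
    ∫ h, (M + M) * ‖k h‖, fun x => ?_⟩
  rw [Lk_shift]
  rw [← Real.norm_eq_abs]
  refine norm_integral_le_of_norm_le (hk.int.norm.const_mul _) (Eventually.of_forall fun h => ?_)
  rw [norm_mul]
  exact mul_le_mul_of_nonneg_right (cic1_bd hM _ _) (norm_nonneg _)

theorem Lk_split (hk : Kn k) {x : Es N} (hu : Integrable fun y => u y * k (x - y)) :
    Lk k u x = u x * (∫ h, k h) - ∫ y, u y * k (x - y) := by
  rw [← integral_sub_left_eq_self k volume x, ← integral_const_mul,
    ← integral_sub ((hk.int.comp_sub_left x).const_mul _) hu, Lk]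
  simp only [sub_mul]

theorem Lk_sub (hk : Kn k) {x : Es N} (hu : Integrable fun y => u y * k (x - y))
    (hv : Integrable fun y => v y * k (x - y)) :
    Lk k (fun y => u y - v y) x = Lk k u x - Lk k v x := by
  have hw : Integrable fun y => (u y - v y) * k (x - y) := by
    simp only [sub_mul]
    exact hu.sub hv
  rw [Lk_split hk hw, Lk_split hk hu, Lk_split hk hv]
  simp only [sub_mul]
  rw [integral_sub hu hv]
  ring

theorem BM.int_k (hu : BM u) (hk : Kn k) (x : Es N) : Integrable fun y => u y * k (x - y) := by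
  obtain ⟨M, hM⟩ := hu.bdd
  exact (hk.int.comp_sub_left x).bdd_mul hu.meas.aestronglyMeasurable (Eventually.of_forall hM)

theorem cic1_P (hk : Kn k) (hη : BS η) :
    Integrable (fun p : Es N × Es N => η p.1 * k (p.1 - p.2)) (volume.prod volume) := by
  have h := (measurePreserving_prod_sub (volume : Measure (Es N)) volume).integrable_comp_of_integrable
    (hη.int.mul_prod hk.int)
  refine h.congr (Eventually.of_forall fun p => ?_)
  change η p.1 * k (p.2 - p.1) = η p.1 * k (p.1 - p.2)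
  rw [← hk.even, neg_sub]

theorem cic1_F (hk : Kn k) (hη : BS η) {F : Es N × Es N → ℝ} (hF : Measurable F) {M : ℝ}
    (hM : ∀ p, ‖F p‖ ≤ M) :
    Integrable (fun p : Es N × Es N => F p * (η p.1 * k (p.1 - p.2))) (volume.prod volume) :=
  (cic1_P hk hη).bdd_mul hF.aestronglyMeasurable (Eventually.of_forall hM)

theorem cic1_half {B G : Es N × Es N → ℝ} (hB : Integrable B (volume.prod volume))
    (h : ∀ x y, G (x, y) = B (x, y) + B (y, x)) : Integrable G (volume.prod volume) ∧
      ∫ x, ∫ y, B (x, y) = 1 / 2 * ∫ x, ∫ y, G (x, y) := by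
  have e : G = fun p => B p + B p.swap := funext fun p => h p.1 p.2
  have hs : Integrable (fun p : Es N × Es N => B p.swap) (volume.prod volume) := hB.swap
  have hG : Integrable G (volume.prod volume) := by
    rw [e]
    exact hB.add hs
  refine ⟨hG, ?_⟩
  rw [← integral_prod _ hG, ← integral_prod _ hB, e, integral_add hB hs, integral_prod_swap]
  ring

theorem cic1_A (hk : Kn k) (hu : BM u) (hη : BS η) : Integrable (fun p : Es N × Es N =>
    (u p.1 - u p.2) * (η p.1 - η p.2) * k (p.1 - p.2)) (volume.prod volume) ∧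
      ∫ x, ∫ y, (u x - u y) * (η x * k (x - y)) = Ek k u η := by
  obtain ⟨M, hM⟩ := hu.bdd
  refine cic1_half (cic1_F hk hη (F := fun p => u p.1 - u p.2)
    ((hu.meas.comp measurable_fst).sub (hu.meas.comp measurable_snd))
    fun p => cic1_bd hM _ _) fun x y => ?_
  rw [← hk.even (y - x), neg_sub]
  ring

theorem cic1_Ek (hi : Integrable (fun p : Es N × Es N =>
    (u p.1 - u p.2) * (v p.1 - v p.2) * k (p.1 - p.2)) (volume.prod volume)) :
    Ek k u v = 1 / 2 * ∫ p : Es N × Es N, (u p.1 - u p.2) * (v p.1 - v p.2) * k (p.1 - p.2)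
      ∂(volume.prod volume) := by
  rw [Ek, integral_prod _ hi]

theorem cic1_lim {k : ℕ → Es N → ℝ} (hk : KF a s k) (u v : Es N → ℝ) (x y : Es N) :
    Tendsto (fun n => (u x - u y) * (v x - v y) * k n (x - y)) atTop
      (𝓝 (a * ((u x - u y) * (v x - v y) / ‖x - y‖ ^ (N + 2 * s)))) := by
  by_cases h : x = y
  · simp only [h, sub_self, zero_mul, zero_div, mul_zero]
    exact tendsto_const_nhds
  · have h1 := (hk.lim _ (sub_ne_zero.2 h)).const_mul ((u x - u y) * (v x - v y))
    convert h1 using 2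
    ring

theorem Lk_dual (hk : Kn k) (hu : BM u) (hη : BS η) :
    ∫ x, η x * Lk k u x = Ek k u η ∧ ∫ x, u x * Lk k η x = Ek k u η := by
  refine ⟨?_, ?_⟩
  · rw [← (cic1_A hk hu hη).2]
    refine integral_congr_ae (Eventually.of_forall fun x => ?_)
    simp only [Lk]
    rw [← integral_const_mul]
    refine integral_congr_ae (Eventually.of_forall fun y => ?_)
    ring
  · obtain ⟨M, hM⟩ := hu.bdd
    have i1 := cic1_F hk hη (F := fun p => u p.1) (hu.meas.comp measurable_fst) fun p => hM _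
    have i2 := (cic1_F hk hη (F := fun p => u p.2) (hu.meas.comp measurable_snd) fun p => hM _).swap
    have i3 : Integrable (fun p : Es N × Es N => u p.1 * ((η p.1 - η p.2) * k (p.1 - p.2)))
        (volume.prod volume) := by
      refine (i1.sub i2).congr (Eventually.of_forall fun p => ?_)
      change u p.1 * (η p.1 * k (p.1 - p.2)) - u p.1 * (η p.2 * k (p.2 - p.1)) = _
      rw [← hk.even (p.2 - p.1), neg_sub]
      ring
    have h := (cic1_half (G := fun p => (u p.1 - u p.2) * (η p.1 - η p.2) * k (p.1 - p.2)) i3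
      fun x y => by
        rw [← hk.even (y - x), neg_sub]
        ring).2
    refine Eq.trans ?_ h
    refine integral_congr_ae (Eventually.of_forall fun x => ?_)
    simp only [Lk]
    rw [← integral_const_mul]

theorem Ek_lim (ha : 0 < a) {k : ℕ → Es N → ℝ} (hk : KF a s k) (hu : FE a s u) (hv : FE a s v) :
    Tendsto (fun n => Ek (k n) u v) atTop (𝓝 (En N a s u v)) := by
  have hG := FE.prod ha hu hv
  have hm : ∀ n, AEStronglyMeasurable (fun p : Es N × Es N =>
      (u p.1 - u p.2) * (v p.1 - v p.2) * k n (p.1 - p.2)) (volume.prod volume) := fun n =>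
    ((((hu.meas.comp measurable_fst).sub (hu.meas.comp measurable_snd)).mul
      ((hv.meas.comp measurable_fst).sub (hv.meas.comp measurable_snd))).mul
        ((hk.kn n).meas.comp (measurable_fst.sub measurable_snd))).aestronglyMeasurable
  have hb : ∀ n, ∀ᵐ p : Es N × Es N ∂(volume.prod volume),
      ‖(u p.1 - u p.2) * (v p.1 - v p.2) * k n (p.1 - p.2)‖ ≤
        a * ‖(u p.1 - u p.2) * (v p.1 - v p.2) / ‖p.1 - p.2‖ ^ (N + 2 * s)‖ := fun n =>
    Eventually.of_forall fun p => by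
      by_cases h : p.1 = p.2
      · simp only [h, sub_self, zero_mul, zero_div, norm_zero, mul_zero, le_refl]
      · rw [norm_mul, norm_div, Real.norm_of_nonneg ((hk.kn n).nonneg _),
          Real.norm_of_nonneg (Real.rpow_nonneg (norm_nonneg _) _)]
        refine (mul_le_mul_of_nonneg_left (hk.le n _ (sub_ne_zero.2 h)) (norm_nonneg _)).trans
          (le_of_eq ?_)
        ring
  have h1 := (tendsto_integral_of_dominated_convergence _ hm (hG.norm.const_mul a) hb
    (Eventually.of_forall fun p => cic1_lim hk u v p.1 p.2)).const_mul (1 / 2)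
  rw [integral_const_mul] at h1
  rw [En_prod ha hu hv]
  convert h1 using 2
  · exact cic1_Ek ((hG.norm.const_mul a).mono' (hm _) (hb _))
  · ring

theorem Ek_fatou (ha : 0 < a) {k : ℕ → Es N → ℝ} (hk : KF a s k) (hη : BS η) {B : ℝ}
    (h : ∀ ε > 0, ∀ᶠ n in atTop, Ek (k n) η η ≤ B + ε) :
    ∫⁻ x, Dsq N a s η x ≤ ENNReal.ofReal B := by
  have _ := ha
  have hm : ∀ n, Measurable fun p : Es N × Es N =>
      ENNReal.ofReal (1 / 2 * ((η p.1 - η p.2) * (η p.1 - η p.2) * k n (p.1 - p.2))) := fun n =>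
    (((((hη.meas.comp measurable_fst).sub (hη.meas.comp measurable_snd)).mul
      ((hη.meas.comp measurable_fst).sub (hη.meas.comp measurable_snd))).mul
        ((hk.kn n).meas.comp (measurable_fst.sub measurable_snd))).const_mul _).ennreal_ofReal
  have hD : Measurable fun p : Es N × Es N =>
      ENNReal.ofReal (a / 2 * ((η p.1 - η p.2) ^ 2 / ‖p.1 - p.2‖ ^ (N + 2 * s))) :=
    (((((hη.meas.comp measurable_fst).sub (hη.meas.comp measurable_snd)).pow_const 2).div
      ((measurable_fst.sub measurable_snd).norm.pow_const _)).const_mul _).ennreal_ofReal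
  have h1 : ∫⁻ x, Dsq N a s η x = ∫⁻ p : Es N × Es N, liminf (fun n => ENNReal.ofReal
      (1 / 2 * ((η p.1 - η p.2) * (η p.1 - η p.2) * k n (p.1 - p.2)))) atTop
        ∂(volume.prod volume) := by
    refine (lintegral_prod _ hD.aemeasurable).symm.trans (lintegral_congr fun p => ?_)
    rw [(ENNReal.tendsto_ofReal ((cic1_lim hk η η p.1 p.2).const_mul (1 / 2))).liminf_eq]
    congr 1
    ring
  have h2 : ∀ n, ∫⁻ p : Es N × Es N, ENNReal.ofReal
      (1 / 2 * ((η p.1 - η p.2) * (η p.1 - η p.2) * k n (p.1 - p.2))) ∂(volume.prod volume) =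
        ENNReal.ofReal (Ek (k n) η η) := fun n => by
    have hi := (cic1_A (hk.kn n) hη.toBM hη).1
    rw [cic1_Ek hi, ← integral_const_mul, ofReal_integral_eq_lintegral_ofReal (hi.const_mul _)
      (Eventually.of_forall fun p => mul_nonneg (by norm_num)
        (mul_nonneg (mul_self_nonneg _) ((hk.kn n).nonneg _)))]
  rw [h1]
  refine (lintegral_liminf_le hm).trans (ENNReal.le_of_forall_pos_le_add fun ε hε _ => ?_)
  refine liminf_le_of_frequently_le' ((h ε hε).mono fun n hn => ?_).frequently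
  rw [h2, ← ENNReal.ofReal_coe_nnreal]
  exact (ENNReal.ofReal_le_ofReal hn).trans ENNReal.ofReal_add_le

theorem Ek_mono (hk : Kn k) (hu : BM u) (hη : BS fun x => max (u x) 0) :
    Ek k (fun x => max (u x) 0) (fun x => max (u x) 0) ≤ Ek k u fun x => max (u x) 0 := by
  have i1 := (cic1_A hk hη.toBM hη).1
  have i2 := (cic1_A hk hu hη).1
  rw [cic1_Ek i1, cic1_Ek i2]
  refine mul_le_mul_of_nonneg_left (integral_mono i1 i2 fun p => ?_) (by norm_num)
  refine mul_le_mul_of_nonneg_right ?_ (hk.nonneg _)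
  rcases le_total (u p.1) 0 with h1 | h1 <;> rcases le_total (u p.2) 0 with h2 | h2 <;>
    simp only [max_eq_left, max_eq_right, h1, h2] <;> linarith only [h1, h2, mul_nonneg_of_nonpos_of_nonpos (Mathlib.Tactic.Linarith.sub_nonpos_of_le h1) (Mathlib.Tactic.Linarith.sub_nonpos_of_le h2)]

end

end Pool.Agent.Work.MP_49e099_an
end

-- merged part: Pool.Agent.Work.MP_49e099_an.CI.G5
section
/-!
# Potentials and approximate identities
`Gk.int_k`: on `ball 0 1` use `k ≤ M` and `ball_int`, outside `|G| ≤ A`. More precisely `∫ |G w| k (z - w) ≤ C` uniformly in `z`. `Lk_conv`: `Lk_split` on both sides, Fubini for `(z, y) ↦ G (z - y) σ y k (x - z)` and the translation `w = z - y`. `fund_conv`: `Lk_conv`, `gk_rz`, `Heat.fund` for `y ≠ x`.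
`conv_dual`: Fubini, `Kn.even`. `ai_lsc`: `conv κ G x - G x = ∫ κ (x - y) (G y - G x)`; split at `‖x - y‖ < δ`. `ai_cont`: `ai_lsc` for `φ` and `-φ`. `ai_weak`: `conv_dual`, `ai_cont`, dominated convergence.
-/

namespace Pool.Agent.Work.MP_49e099_an

open MeasureTheory Set Filter Topology Metric

noncomputable section

variable {N : ℕ} {a s : ℝ} {Ω : Set (Es N)}

variable {A : ℝ} {G k σ φ : Es N → ℝ} {κ : ℕ → Es N → ℝ}

theorem cig5_prod {H : Es N → Es N → ℝ} {C : ℝ} (hφ : Integrable φ) (mφ : Measurable φ)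
    (mH : Measurable fun p : Es N × Es N => H p.1 p.2)
    (hH : ∀ x, Integrable (H x) ∧ ∫ y, |H x y| ≤ C) :
    Integrable (Function.uncurry fun x y => φ x * H x y) (volume.prod volume) := by
  have m : Measurable (Function.uncurry fun x y => φ x * H x y) :=
    (mφ.comp measurable_fst).mul mH
  refine (integrable_prod_iff m.aestronglyMeasurable).2
    ⟨Eventually.of_forall fun x => (hH x).1.const_mul (φ x), ?_⟩
  refine (hφ.norm.mul_const C).mono' m.aestronglyMeasurable.norm.integral_prod_right'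
    (Eventually.of_forall fun x => ?_)
  rw [Real.norm_of_nonneg (integral_nonneg fun _ => norm_nonneg _)]
  simp only [Function.uncurry, norm_mul, integral_const_mul]
  exact mul_le_mul_of_nonneg_left (hH x).2 (norm_nonneg _)

theorem cig5_abs (hk : Kn k) (mσ : Measurable σ) {M : ℝ} (hM : ∀ x, |σ x| ≤ M) (x : Es N) :
    Integrable (fun y => k (x - y) * σ y) ∧ ∫ y, |k (x - y) * σ y| ≤ M * ∫ h, k h := by
  have h1 : Integrable fun y => k (x - y) * σ y := by
    simpa only [mul_comm] using BM.int_k ⟨mσ, M, hM⟩ hk x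
  refine ⟨h1, ?_⟩
  rw [← integral_sub_left_eq_self k volume x, ← integral_const_mul]
  refine integral_mono h1.abs ((hk.int.comp_sub_left x).const_mul M) fun y => ?_
  beta_reduce
  rw [abs_mul, abs_of_nonneg (hk.nonneg _), mul_comm]
  exact mul_le_mul_of_nonneg_right (hM y) (hk.nonneg _)

theorem cig5_le (hk : Kn k) (mσ : Measurable σ) {M : ℝ} (hM : ∀ x, |σ x| ≤ M) (x : Es N) :
    |conv k σ x| ≤ M * ∫ h, k h :=
  abs_integral_le_integral_abs.trans (cig5_abs hk mσ hM x).2

theorem Gk.int_k (hp : Par N a s) (hG : Gk s A G) (hk : Kn k) (hb : ∃ M, ∀ h, k h ≤ M) :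
    ∃ C, ∀ z : Es N, Integrable (fun w => G w * k (z - w)) ∧ ∫ w, |G w| * k (z - w) ≤ C := by
  obtain ⟨M, hM⟩ := hb
  have h0 := cia6_exp hp
  have M0 : 0 ≤ M := (hk.nonneg 0).trans (hM 0)
  obtain ⟨C, -, hC⟩ := ball_int (N := N) (by have := hp.hN; omega) (α := (N : ℝ) - 2 * s)
    (by linarith [h0.2.1])
  obtain ⟨c1, c2⟩ := hC 0 1 one_pos
  have i1 : Integrable ((ball (0 : Es N) 1).indicator
      fun y => ‖0 - y‖ ^ (-((N : ℝ) - 2 * s))) := (integrable_indicator_iff measurableSet_ball).2 c1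
  refine ⟨|A| * M * (C * 1 ^ ((N : ℝ) - (N - 2 * s))) + |A| * ∫ h, k h, fun z => ?_⟩
  have i2 := (i1.const_mul (|A| * M)).add ((hk.int.comp_sub_left z).const_mul |A|)
  have hle : ∀ᵐ w : Es N, |G w| * k (z - w) ≤ |A| * M * (ball (0 : Es N) 1).indicator
      (fun y => ‖0 - y‖ ^ (-((N : ℝ) - 2 * s))) w + |A| * k (z - w) := by
    filter_upwards [cia6_ne hp 0] with w hw
    have hw' : w ≠ 0 := fun e => hw (by simp [e])
    have a1 : |G w| ≤ |A| * ‖w‖ ^ (-((N : ℝ) - 2 * s)) := (hG.le w hw').trans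
      (mul_le_mul_of_nonneg_right (le_abs_self A) (by positivity))
    have k0 := hk.nonneg (z - w)
    by_cases hb : w ∈ ball (0 : Es N) 1
    · rw [indicator_of_mem hb, zero_sub, norm_neg]
      have a2 : |G w| * k (z - w) ≤ |A| * ‖w‖ ^ (-((N : ℝ) - 2 * s)) * M :=
        mul_le_mul a1 (hM _) k0 (by positivity)
      have a3 : 0 ≤ |A| * k (z - w) := by positivity
      linarith only [a2, a3]
    · rw [indicator_of_notMem hb, mul_zero, zero_add]
      have a2 : ‖w‖ ^ (-((N : ℝ) - 2 * s)) ≤ 1 :=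
        Real.rpow_le_one_of_one_le_of_nonpos (by simpa using hb) (by linarith [h0.1])
      refine mul_le_mul_of_nonneg_right (a1.trans ?_) k0
      exact mul_le_of_le_one_right (abs_nonneg A) a2
  have i3 : Integrable fun w => G w * k (z - w) := by
    refine i2.mono' (hG.meas.mul (hk.meas.comp (measurable_const.sub measurable_id))).aestronglyMeasurable
      (hle.mono fun w hw => ?_)
    rw [norm_mul, Real.norm_of_nonneg (hk.nonneg _)]
    exact hw
  refine ⟨i3, (integral_mono_of_nonneg (Eventually.of_forall fun w =>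
    mul_nonneg (abs_nonneg _) (hk.nonneg _)) i2 hle).trans_eq ?_⟩
  simp only [Pi.add_apply]
  rw [integral_add (i1.const_mul _) ((hk.int.comp_sub_left z).const_mul _), integral_const_mul,
    integral_const_mul, integral_indicator measurableSet_ball, c2,
    integral_sub_left_eq_self k volume z]

theorem Lk_conv (hp : Par N a s) (hG : Gk s A G) (hk : Kn k) (hb : ∃ M, ∀ h, k h ≤ M) (hσ : BS σ)
    (x : Es N) : Lk k (conv G σ) x = conv (Lk k G) σ x := by
  obtain ⟨C, hC⟩ := hG.int_k hp hk hb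
  have e1 : ∀ y z : Es N, x - y - (z - y) = x - z := fun y z => by abel
  have hH : ∀ y, Integrable (fun z => G (z - y) * k (x - z)) ∧
      ∫ z, |G (z - y) * k (x - z)| ≤ C := fun y => by
    constructor
    · simpa only [e1] using (hC (x - y)).1.comp_sub_right y
    · have := integral_sub_right_eq_self (μ := volume) (fun w => |G w| * k (x - y - w)) y
      simp only [e1] at this
      simp only [abs_mul, abs_of_nonneg (hk.nonneg _)]
      rw [this]
      exact (hC (x - y)).2
  have hI := cig5_prod (H := fun y z => G (z - y) * k (x - z)) hσ.int hσ.meas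
    ((hG.meas.comp (measurable_snd.sub measurable_fst)).mul
      (hk.meas.comp (measurable_const.sub measurable_snd))) hH
  rw [Lk_split hk ((hG.conv_lip hp hσ).1.int_k hk x)]
  have e2 : ∀ y, Lk k G (x - y) * σ y =
      G (x - y) * σ y * (∫ h, k h) - ∫ z, σ y * (G (z - y) * k (x - z)) := fun y => by
    have := integral_sub_right_eq_self (μ := volume) (fun w => G w * k (x - y - w)) y
    simp only [e1] at this
    rw [Lk_split hk (hC (x - y)).1, integral_const_mul, this]
    ring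
  unfold conv
  simp only [e2]
  have hJ : Integrable fun y => ∫ z, σ y * (G (z - y) * k (x - z)) := hI.integral_prod_left
  rw [integral_sub ((hG.int hp hσ x).mul_const _) hJ, integral_mul_const,
    integral_integral_swap hI]
  congr 1
  refine integral_congr_ae (Eventually.of_forall fun z => ?_)
  beta_reduce
  rw [← integral_mul_const]
  exact integral_congr_ae (Eventually.of_forall fun y => by ring)

theorem fund_conv (hp : Par N a s) {c0 : ℝ} {k : ℕ → Es N → ℝ} (h : Heat a s c0 k κ) (hσ : BS σ)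
    (n : ℕ) (x : Es N) : Lk (k n) (conv (rz c0 s) σ) x = conv (κ n) σ x := by
  rw [Lk_conv hp (gk_rz hp h.pos) (h.kf.kn n) (h.bdd n) hσ]
  refine integral_congr_ae ((cia6_ne hp x).mono fun y hy => ?_)
  beta_reduce
  rw [h.fund n _ hy]

theorem Kn.conv_bm (hk : Kn k) (hσ : BM σ) : BM (conv k σ) := by
  obtain ⟨M, hM⟩ := hσ.bdd
  exact ⟨cia6_meas hk.meas hσ.meas, _, cig5_le hk hσ.meas hM⟩

theorem conv_dual (hk : Kn k) (hφ : BS φ) (hσ : BM σ) :
    ∫ x, φ x * conv k σ x = ∫ x, σ x * conv k φ x := by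
  obtain ⟨M, hM⟩ := hσ.bdd
  have hI := cig5_prod (H := fun x y => k (x - y) * σ y) hφ.int hφ.meas
    ((hk.meas.comp (measurable_fst.sub measurable_snd)).mul (hσ.meas.comp measurable_snd))
    (cig5_abs hk hσ.meas hM)
  unfold conv
  simp only [← integral_const_mul]
  rw [integral_integral_swap hI]
  refine integral_congr_ae (Eventually.of_forall fun y => integral_congr_ae
    (Eventually.of_forall fun x => ?_))
  beta_reduce
  rw [← hk.even (x - y), neg_sub]
  ring

theorem ai_lsc (h : AI κ) (hG : BM G) {x : Es N} (hx : LowerSemicontinuousAt G x) {ε : ℝ}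
    (hε : 0 < ε) : ∀ᶠ n in atTop, G x - ε ≤ conv (κ n) G x := by
  obtain ⟨M, hM⟩ := hG.bdd
  have M0 : 0 ≤ M := (abs_nonneg _).trans (hM x)
  obtain ⟨δ, δ0, hδ⟩ := Metric.eventually_nhds_iff_ball.1 (hx (G x - ε / 2) (by linarith only [hε]))
  have h1 : Tendsto (fun n => 2 * M * ∫ y in (ball (0 : Es N) δ)ᶜ, κ n y) atTop (𝓝 0) := by
    simpa using (h.conc δ δ0).const_mul (2 * M)
  filter_upwards [h1.eventually (eventually_le_nhds (half_pos hε))] with n hn
  have hk := h.kn n
  have i1 := (hk.int.comp_sub_left x).const_mul (G x - ε / 2)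
  have i2 := ((hk.int.indicator (measurableSet_ball (x := (0 : Es N)) (ε := δ)).compl).comp_sub_left
    x).const_mul (2 * M)
  have h2 := integral_mono (i1.sub i2) (cig5_abs hk hG.meas hM x).1 fun y => by
    have k0 := hk.nonneg (x - y)
    simp only [Pi.sub_apply]
    by_cases hb : x - y ∈ ball (0 : Es N) δ
    · rw [indicator_of_notMem (by simpa using hb), mul_zero, sub_zero, mul_comm]
      refine mul_le_mul_of_nonneg_left (hδ y ?_).le k0
      rw [mem_ball_iff_norm']
      simpa using hb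
    · rw [indicator_of_mem hb]
      have a := abs_le.1 (hM x)
      have b := abs_le.1 (hM y)
      linarith only [k0, hε, a, b, mul_nonneg k0 (show 0 ≤ G y - (G x - ε / 2 - 2 * M) by linarith)]
  simp only [Pi.sub_apply] at h2
  rw [integral_sub i1 i2, integral_const_mul, integral_const_mul,
    integral_sub_left_eq_self (κ n) volume x, h.one,
    integral_sub_left_eq_self ((ball (0 : Es N) δ)ᶜ.indicator (κ n)) volume x,
    integral_indicator measurableSet_ball.compl] at h2
  unfold conv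
  linarith only [hn, h2]

theorem ai_cont (h : AI κ) (hφ : BM φ) {x : Es N} (hx : ContinuousAt φ x) :
    Tendsto (fun n => conv (κ n) φ x) atTop (𝓝 (φ x)) := by
  refine Metric.tendsto_nhds.2 fun ε hε => ?_
  have hn : BM fun y => -φ y := ⟨hφ.meas.neg, hφ.bdd.imp fun M hM y => by simpa using hM y⟩
  filter_upwards [ai_lsc h hφ hx.lowerSemicontinuousAt (half_pos hε),
    ai_lsc h hn hx.neg.lowerSemicontinuousAt (half_pos hε)] with n h1 h2
  have e : conv (κ n) (fun y => -φ y) x = -conv (κ n) φ x := by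
    simp only [conv, mul_neg, integral_neg]
  rw [e] at h2
  rw [Real.dist_eq, abs_lt]
  constructor <;> linarith only [hε, h1, h2]

theorem ai_weak (h : AI κ) (hφ : BS φ) (hc : Continuous φ) (hσ : BS σ) :
    Tendsto (fun n => ∫ x, φ x * conv (κ n) σ x) atTop (𝓝 (∫ x, φ x * σ x)) := by
  obtain ⟨M, hM⟩ := hφ.bdd
  simp only [fun n => conv_dual (h.kn n) hφ hσ.toBM]
  simp only [mul_comm (φ _)]
  refine tendsto_integral_of_dominated_convergence (fun x => ‖σ x‖ * M)
    (fun n => (hσ.meas.mul ((h.kn n).conv_bm hφ.toBM).meas).aestronglyMeasurable)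
    (hσ.int.norm.mul_const M) (fun n => Eventually.of_forall fun x => ?_)
    (Eventually.of_forall fun x => (ai_cont h hφ.toBM hc.continuousAt).const_mul _)
  rw [norm_mul]
  refine mul_le_mul_of_nonneg_left ?_ (norm_nonneg _)
  simpa only [h.one, mul_one, Real.norm_eq_abs] using cig5_le (h.kn n) hφ.meas hM x

end

end Pool.Agent.Work.MP_49e099_an
end

-- merged part: Pool.Agent.Work.MP_49e099_an.CI.G2
section
/-!
# The truncated kernel
`hk_eq`: `gp τ h τ^(-s-1) = π^(-N/2) τ^(-α-1) exp (-b/τ)` with `α = N/2 + s`, `b = ‖h‖²`; `sub_trunc`. `hk_mass`: Fubini (`integrable_prod_iff`, `integral_integral_swap`), `gp_int`, `integral_Ioi_rpow_of_lt`. `hk_bdd`: `exp ≤ 1`.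
`hk_kf`: the truncated Gamma integral is at most `Γ α` and tends to it (`tendsto_setIntegral_of_monotone`, or `intervalIntegral_tendsto_integral_Ioi`); here `b / t = b (n + 1)`.
`hk_pv`: put `I ε = a ∫ y in {ε < ‖x - y‖}, (ξ x - ξ y)/‖x - y‖^(N+2s)`. By `hk_eq` and Fubini, `Lk (hk t) ξ x = (1/Γ α) ∫ u in Ioi 0, exp (-u) u^(α-1) I (√(u t))`, since `u < ‖x - y‖²/t ↔ √(u t) < ‖x - y‖`; the double integral converges absolutely because `|ξ x - ξ y| hk t (x - y)` is integrable. `I` is bounded on `(0, ∞)` (near `0` it converges, beyond use `tail_int`). Dominated convergence in `u`.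
-/

namespace Pool.Agent.Work.MP_49e099_an

open MeasureTheory Set Filter Topology Metric

noncomputable section

variable {N : ℕ} {a s : ℝ} {Ω : Set (Es N)}

theorem cig2_al (hp : Par N a s) : 0 < (N : ℝ) / 2 + s := by
  have : 0 < s := by linarith only [hp, hp.hs]
  positivity
theorem hA_pos (hp : Par N a s) : 0 < hA N a s := by
  have := Real.Gamma_pos_of_pos (cig2_al hp)
  have := hp.ha
  have := Real.pi_pos
  unfold hA
  positivity

theorem cig2_hk {t : ℝ} (ht : 0 < t) (h : Es N) : hk a s t h = a / Real.Gamma (N / 2 + s) *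
    ∫ τ in Ioi t, τ ^ (-((N : ℝ) / 2 + s) - 1) * Real.exp (-(‖h‖ ^ 2 / τ)) := by
  have e : ∫ τ in Ioi t, gp τ h * τ ^ (-s - 1) = ∫ τ in Ioi t, Real.pi ^ (-((N : ℝ) / 2)) *
      (τ ^ (-((N : ℝ) / 2 + s) - 1) * Real.exp (-(‖h‖ ^ 2 / τ))) := by
    refine setIntegral_congr_fun measurableSet_Ioi fun τ hτ => ?_
    have h0 : 0 < τ := ht.trans hτ
    simp only [gp]
    rw [Real.mul_rpow Real.pi_pos.le h0.le,
      show -((N : ℝ) / 2 + s) - 1 = -((N : ℝ) / 2) + (-s - 1) by ring, Real.rpow_add h0]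
    ring
  rw [hk, e, integral_const_mul, hA, Real.rpow_neg Real.pi_pos.le]
  have := Real.rpow_pos_of_pos Real.pi_pos ((N : ℝ) / 2)
  field_simp
theorem hk_eq (hp : Par N a s) {t : ℝ} (ht : 0 < t) {h : Es N} (hh : h ≠ 0) :
    hk a s t h = a / ‖h‖ ^ (N + 2 * s) *
      ((∫ u in Ioo 0 (‖h‖ ^ 2 / t), Real.exp (-u) * u ^ ((N : ℝ) / 2 + s - 1)) /
        Real.Gamma (N / 2 + s)) := by
  have h0 : 0 < ‖h‖ := norm_pos_iff.2 hh
  rw [cig2_hk ht, sub_trunc (cig2_al hp) (by positivity) ht, ← Real.rpow_natCast ‖h‖ 2,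
    ← Real.rpow_mul h0.le, show ((2 : ℕ) : ℝ) * -((N : ℝ) / 2 + s) = -(N + 2 * s) by
      push_cast; ring, Real.rpow_neg h0.le]
  ring

theorem hk_mass (hp : Par N a s) {t : ℝ} (ht : 0 < t) :
    Kn (hk (N := N) a s t) ∧ ∫ h : Es N, hk a s t h = hA N a s * (t ^ (-s) / s) := by
  have hs : 0 < s := by linarith only [hp, hp.hs]
  have hm : Measurable fun p : ℝ × Es N => gp p.1 p.2 * p.1 ^ (-s - 1) :=
    gp_meas.mul (measurable_fst.pow_const _)
  have hi := integrableOn_Ioi_rpow_of_lt (a := -s - 1) (by linarith) ht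
  have hpos : ∀ τ ∈ Ioi t, ∀ h : Es N, 0 ≤ gp τ h * τ ^ (-s - 1) := fun τ hτ h =>
    mul_nonneg (gp_pos (ht.trans hτ) h).le (Real.rpow_nonneg (ht.trans hτ).le _)
  have he : ∀ τ ∈ Ioi t, ∫ h : Es N, gp τ h * τ ^ (-s - 1) = τ ^ (-s - 1) := fun τ hτ => by
    rw [integral_mul_const, (gp_int (ht.trans hτ)).2, one_mul]
  have hI : Integrable (fun p : ℝ × Es N => gp p.1 p.2 * p.1 ^ (-s - 1))
      ((volume.restrict (Ioi t)).prod volume) := by
    refine (integrable_prod_iff hm.aestronglyMeasurable).2 ⟨?_, ?_⟩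
    · filter_upwards [ae_restrict_mem measurableSet_Ioi] with τ hτ
      exact (gp_int (ht.trans hτ)).1.mul_const _
    · refine hi.congr ?_
      filter_upwards [ae_restrict_mem measurableSet_Ioi] with τ hτ
      exact (he τ hτ).symm.trans (integral_congr_ae
        (Eventually.of_forall fun h => (Real.norm_of_nonneg (hpos τ hτ h)).symm))
  refine ⟨⟨?_, hI.integral_prod_right.const_mul _, fun h => ?_, fun h => ?_⟩, ?_⟩
  · exact (hm.stronglyMeasurable.integral_prod_left'
      (μ := volume.restrict (Ioi t))).measurable.const_mul _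
  · simp only [hk, gp, norm_neg]
  · exact mul_nonneg (hA_pos hp).le (setIntegral_nonneg measurableSet_Ioi fun τ hτ => hpos τ hτ h)
  · simp only [hk]
    rw [integral_const_mul, ← integral_integral_swap (f := fun τ (h : Es N) => gp τ h * τ ^ (-s - 1)) hI,
      setIntegral_congr_fun measurableSet_Ioi he, integral_Ioi_rpow_of_lt (by linarith) ht,
      show -s - 1 + 1 = -s by ring, neg_div_neg_eq]

theorem hk_bdd (hp : Par N a s) {t : ℝ} (ht : 0 < t) : ∃ M, ∀ h : Es N, hk a s t h ≤ M := by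
  have hα := cig2_al hp
  refine ⟨a / Real.Gamma (N / 2 + s) * ∫ τ in Ioi t, τ ^ (-((N : ℝ) / 2 + s) - 1), fun h => ?_⟩
  rw [cig2_hk ht]
  refine mul_le_mul_of_nonneg_left ?_ (div_pos hp.ha (Real.Gamma_pos_of_pos hα)).le
  refine integral_mono_of_nonneg ?_ (integrableOn_Ioi_rpow_of_lt (by linarith only [hα]) ht) ?_
  · filter_upwards [ae_restrict_mem measurableSet_Ioi] with τ hτ
    exact mul_nonneg (Real.rpow_nonneg (ht.trans hτ).le _) (Real.exp_pos _).le
  · filter_upwards [ae_restrict_mem measurableSet_Ioi] with τ hτ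
    have h0 : 0 < τ := ht.trans hτ
    refine mul_le_of_le_one_right (Real.rpow_nonneg h0.le _) (Real.exp_le_one_iff.2 ?_)
    exact neg_nonpos.2 (by positivity)

theorem cig2_w (β : ℝ) {u : ℝ} (hu : 0 < u) : 0 ≤ Real.exp (-u) * u ^ β :=
  mul_nonneg (Real.exp_pos _).le (Real.rpow_nonneg hu.le _)
theorem hk_kf (hp : Par N a s) : KF (N := N) a s fun n => hk a s (1 / ((n : ℝ) + 1)) := by
  have hα := cig2_al hp
  have hΓ := Real.Gamma_pos_of_pos hα
  have ha := hp.ha
  have ht : ∀ n : ℕ, 0 < 1 / ((n : ℝ) + 1) := fun n => by positivity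
  refine ⟨fun n => (hk_mass hp (ht n)).1, fun n h hh => ?_, fun h hh => ?_⟩
  · rw [hk_eq hp (ht n) hh]
    refine mul_le_of_le_one_right (by positivity) ((div_le_one hΓ).2 ?_)
    rw [Real.Gamma_eq_integral hα]
    refine setIntegral_mono_set (Real.GammaIntegral_convergent hα) ?_
      (Ioo_subset_Ioi_self).eventuallyLE
    filter_upwards [ae_restrict_mem measurableSet_Ioi] with u hu
    exact cig2_w _ hu
  · have h0 : 0 < ‖h‖ ^ 2 := pow_pos (norm_pos_iff.2 hh) 2
    have h1 : Tendsto (fun n : ℕ => ‖h‖ ^ 2 / (1 / ((n : ℝ) + 1))) atTop atTop := by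
      simp only [div_div_eq_mul_div, div_one]
      exact (tendsto_natCast_atTop_atTop.atTop_add tendsto_const_nhds).const_mul_atTop h0
    have h2 := intervalIntegral_tendsto_integral_Ioi 0 (Real.GammaIntegral_convergent hα) h1
    rw [← Real.Gamma_eq_integral hα] at h2
    have h3 := (h2.div_const (Real.Gamma (N / 2 + s))).const_mul (a / ‖h‖ ^ (N + 2 * s))
    rw [div_self hΓ.ne', mul_one] at h3
    refine h3.congr fun n => ?_
    rw [hk_eq hp (ht n) hh, intervalIntegral.integral_of_le (div_pos h0 (ht n)).le,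
      integral_Ioc_eq_integral_Ioo]

theorem cig2_cut (w : ℝ → ℝ) {t r : ℝ} (c : ℝ) (ht : 0 < t) (hr : 0 ≤ r) :
    ∫ u in Ioi 0, (if √(u * t) < r then w u * c else 0) = c * ∫ u in Ioo 0 (r ^ 2 / t), w u := by
  rw [← Ioi_inter_Iio, mul_comm c, ← integral_mul_const, ← setIntegral_indicator measurableSet_Iio]
  refine setIntegral_congr_fun measurableSet_Ioi fun u hu => ?_
  simp only [indicator_apply, mem_Iio, Real.sqrt_lt (mul_pos hu ht).le hr, lt_div_iff₀ ht]

theorem cig2_fub {w : ℝ → ℝ} {D : Es N → ℝ} {x : Es N} {t : ℝ} (ht : 0 < t) (hw : Measurable w)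
    (hwi : IntegrableOn w (Ioi 0)) (hw0 : ∀ u, 0 < u → 0 ≤ w u) (hD : Measurable D)
    (hi : Integrable fun y => D y * ∫ u in Ioo 0 (‖x - y‖ ^ 2 / t), w u) :
    IntegrableOn (fun u => w u * ∫ y in {y | √(u * t) < ‖x - y‖}, D y) (Ioi 0) ∧
      ∫ y, D y * ∫ u in Ioo 0 (‖x - y‖ ^ 2 / t), w u =
        ∫ u in Ioi 0, w u * ∫ y in {y | √(u * t) < ‖x - y‖}, D y := by
  have hm : Measurable fun p : ℝ × Es N =>
      if √(p.1 * t) < ‖x - p.2‖ then w p.1 * D p.2 else 0 :=
    Measurable.ite (measurableSet_lt (by fun_prop) (by fun_prop))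
      ((hw.comp measurable_fst).mul (hD.comp measurable_snd)) measurable_const
  have e2 : ∀ u, ∫ y, (if √(u * t) < ‖x - y‖ then w u * D y else 0) =
      w u * ∫ y in {y | √(u * t) < ‖x - y‖}, D y := fun u => by
    rw [← integral_const_mul, ← integral_indicator (measurableSet_lt (by fun_prop) (by fun_prop))]
    simp only [indicator_apply, mem_ofPred_eq]
  have hI : Integrable (fun p : ℝ × Es N => if √(p.1 * t) < ‖x - p.2‖ then w p.1 * D p.2 else 0)
      ((volume.restrict (Ioi 0)).prod volume) := by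
    refine (integrable_prod_iff' hm.aestronglyMeasurable).2 ⟨Eventually.of_forall fun y => ?_, ?_⟩
    · have := (hwi.mul_const (D y)).indicator (s := {u | √(u * t) < ‖x - y‖})
        (measurableSet_lt (by fun_prop) (by fun_prop))
      refine this.congr (Eventually.of_forall fun u => ?_)
      simp only [indicator_apply, mem_ofPred_eq]
    · refine hi.norm.congr (Eventually.of_forall fun y => ?_)
      have a1 : 0 ≤ ∫ u in Ioo 0 (‖x - y‖ ^ 2 / t), w u :=
        setIntegral_nonneg measurableSet_Ioo fun u hu => hw0 u hu.1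
      simp only
      rw [norm_mul, Real.norm_of_nonneg a1, ← cig2_cut w _ ht (norm_nonneg _)]
      refine setIntegral_congr_fun measurableSet_Ioi fun u hu => ?_
      split_ifs
      · rw [norm_mul, Real.norm_of_nonneg (hw0 u hu)]
      · exact norm_zero.symm
  refine ⟨hI.integral_prod_left.congr (Eventually.of_forall e2), ?_⟩
  simp only [← e2, ← cig2_cut w _ ht (norm_nonneg _)]
  exact (integral_integral_swap
    (f := fun u y => if √(u * t) < ‖x - y‖ then w u * D y else 0) hI).symm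

theorem cig2_Lk (hp : Par N a s) {ξ : Es N → ℝ} (hξ : BM ξ) (x : Es N) {t : ℝ} (ht : 0 < t) :
    IntegrableOn (fun u => Real.exp (-u) * u ^ ((N : ℝ) / 2 + s - 1) *
      (a * ∫ y in {y | √(u * t) < ‖x - y‖}, (ξ x - ξ y) / ‖x - y‖ ^ (N + 2 * s))) (Ioi 0) ∧
    Lk (hk a s t) ξ x = (∫ u in Ioi 0, Real.exp (-u) * u ^ ((N : ℝ) / 2 + s - 1) *
      (a * ∫ y in {y | √(u * t) < ‖x - y‖}, (ξ x - ξ y) / ‖x - y‖ ^ (N + 2 * s))) /
        Real.Gamma (N / 2 + s) := by
  have hα := cig2_al hp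
  have hΓ := Real.Gamma_pos_of_pos hα
  have hm := hξ.meas
  obtain ⟨M, hM⟩ := hξ.bdd
  have e : ∀ y, a * ((ξ x - ξ y) / ‖x - y‖ ^ (N + 2 * s)) *
      ∫ u in Ioo 0 (‖x - y‖ ^ 2 / t), Real.exp (-u) * u ^ ((N : ℝ) / 2 + s - 1) =
      (ξ x - ξ y) * hk a s t (x - y) * Real.Gamma (N / 2 + s) := fun y => by
    by_cases hy : x - y = 0
    · rw [sub_eq_zero.1 hy]
      simp
    · rw [hk_eq hp ht hy, mul_assoc (ξ x - ξ y), mul_assoc (a / _), div_mul_cancel₀ _ hΓ.ne']
      ring
  have hi : Integrable fun y => (ξ x - ξ y) * hk a s t (x - y) := by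
    refine ((hk_mass hp ht).1.int.comp_sub_left x).bdd_mul (c := M + M)
      (measurable_const.sub hm).aestronglyMeasurable (Eventually.of_forall fun y => ?_)
    exact (norm_sub_le _ _).trans (add_le_add (hM x) (hM y))
  have key := cig2_fub (x := x) (w := fun u => Real.exp (-u) * u ^ ((N : ℝ) / 2 + s - 1))
    (D := fun y => a * ((ξ x - ξ y) / ‖x - y‖ ^ (N + 2 * s))) ht (by fun_prop)
    (Real.GammaIntegral_convergent hα) (fun u hu => cig2_w _ hu) (by fun_prop)
    ((hi.mul_const _).congr (Eventually.of_forall fun y => (e y).symm))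
  simp only [e, integral_const_mul] at key
  refine ⟨key.1, ?_⟩
  rw [← key.2, integral_mul_const, mul_div_cancel_right₀ _ hΓ.ne', Lk]

theorem cig2_bd {ξ : Es N → ℝ} {x : Es N} {v : ℝ} (h : HasFracLap N a s ξ x v) :
    ∃ B, ∀ ε, 0 < ε →
      ‖a * ∫ y in {y | ε < ‖x - y‖}, (ξ x - ξ y) / ‖x - y‖ ^ (N + 2 * s)‖ ≤ B := by
  have h1 := h.2.norm.eventually (gt_mem_nhds (lt_add_one ‖v‖))
  obtain ⟨δ, hδ, h2⟩ := (nhdsGT_basis (0 : ℝ)).eventually_iff.1 h1
  refine ⟨max (‖v‖ + 1) (‖a‖ * ∫ y in {y | δ / 2 < ‖x - y‖},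
    ‖(ξ x - ξ y) / ‖x - y‖ ^ (N + 2 * s)‖), fun ε hε => ?_⟩
  rcases lt_or_ge ε δ with e | e
  · exact le_max_of_le_left (h2 ⟨hε, e⟩).le
  · refine le_max_of_le_right ?_
    rw [norm_mul]
    refine mul_le_mul_of_nonneg_left ((norm_integral_le_integral_norm _).trans ?_) (norm_nonneg _)
    refine setIntegral_mono_set (h.1 _ (half_pos hδ)).norm
      (Eventually.of_forall fun y => norm_nonneg _) (LE.le.eventuallyLE fun y hy => ?_)
    have : ε < ‖x - y‖ := hy
    show δ / 2 < ‖x - y‖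
    linarith only [hε, e, this]
theorem hk_pv (hp : Par N a s) {ξ : Es N → ℝ} {x : Es N} {v : ℝ} (hξ : BM ξ)
    (h : HasFracLap N a s ξ x v) :
    Tendsto (fun n : ℕ => Lk (hk a s (1 / ((n : ℝ) + 1))) ξ x) atTop (𝓝 v) := by
  have hα := cig2_al hp
  have hΓ := Real.Gamma_pos_of_pos hα
  have hwi := Real.GammaIntegral_convergent hα
  have ht : ∀ n : ℕ, 0 < 1 / ((n : ℝ) + 1) := fun n => by positivity
  obtain ⟨B, hB⟩ := cig2_bd h
  have hF := fun n => cig2_Lk hp hξ x (ht n)
  have key := tendsto_integral_of_dominated_convergence (μ := volume.restrict (Ioi (0 : ℝ)))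
    (F := fun (n : ℕ) (u : ℝ) => Real.exp (-u) * u ^ ((N : ℝ) / 2 + s - 1) *
      (a * ∫ y in {y | √(u * (1 / ((n : ℝ) + 1))) < ‖x - y‖}, (ξ x - ξ y) / ‖x - y‖ ^ (N + 2 * s)))
    (f := fun u => Real.exp (-u) * u ^ ((N : ℝ) / 2 + s - 1) * v)
    (fun u => Real.exp (-u) * u ^ ((N : ℝ) / 2 + s - 1) * B)
    (fun n => (hF n).1.aestronglyMeasurable) (hwi.mul_const B) (fun n => ?_) ?_
  · rw [integral_mul_const, ← Real.Gamma_eq_integral hα] at key
    have k2 := key.div_const (Real.Gamma (N / 2 + s))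
    rw [mul_div_cancel_left₀ _ hΓ.ne'] at k2
    exact k2.congr fun n => (hF n).2.symm
  · filter_upwards [ae_restrict_mem measurableSet_Ioi] with u hu
    rw [norm_mul, Real.norm_of_nonneg (cig2_w _ hu)]
    exact mul_le_mul_of_nonneg_left (hB _ (Real.sqrt_pos.2 (mul_pos hu (ht n)))) (cig2_w _ hu)
  · filter_upwards [ae_restrict_mem measurableSet_Ioi] with u hu
    refine (h.2.comp (tendsto_nhdsWithin_iff.2 ⟨?_, Eventually.of_forall fun n =>
      Real.sqrt_pos.2 (mul_pos hu (ht n))⟩)).const_mul _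
    simpa using (tendsto_one_div_add_atTop_nhds_zero_nat.const_mul u).sqrt

end

end Pool.Agent.Work.MP_49e099_an
end

-- merged part: Pool.Agent.Work.MP_49e099_an.CI.G3
section
/-!
# The fundamental solution
`rz_sub`: `sub_full` with `α = N/2 - s`. `rz_hk`: write both factors as integrals, use Tonelli (all is nonnegative; work with `lintegral`, `ofReal_integral_eq_lintegral_ofReal`), `gp_semi` for the integral in `y`, translate `σ = u - τ` in the inner integral (`lintegral_sub_right_eq_self`), swap, `beta_trunc`. The result is at most `t^(-s)/s ∫ gp u x u^(s-1)`, finite by `rz_sub`.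
`hk_fund`: `Lk_split`, `hk_mass`, `rz_sub`, `rz_hk`; `t^(-s)/s u^(s-1) - t^(-s) (u - t)₊^s/(s u) = hw s t u`.
-/

namespace Pool.Agent.Work.MP_49e099_an

open MeasureTheory Set Filter Topology Metric

noncomputable section

variable {N : ℕ} {a s : ℝ} {Ω : Set (Es N)}

theorem cig3_gp_nonneg {τ : ℝ} (hτ : 0 < τ) (h : Es N) : 0 ≤ gp τ h := (gp_pos hτ h).le

theorem cig3_meas1 (y : Es N) : Measurable fun σ : ℝ => gp σ y :=
  gp_meas.comp (measurable_id.prodMk measurable_const)

theorem cig3_meas2 (τ : ℝ) : Measurable fun y : Es N => gp τ y :=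
  gp_meas.comp (measurable_const.prodMk measurable_id)

/-- the first factor as a lower integral -/
def cig3_LA (s : ℝ) (y : Es N) : ENNReal := ∫⁻ σ in Ioi 0, ENNReal.ofReal (gp σ y * σ ^ (s - 1))

/-- the second factor as a lower integral -/
def cig3_LB (s t : ℝ) (y : Es N) : ENNReal :=
  ∫⁻ τ in Ioi t, ENNReal.ofReal (gp τ y * τ ^ (-s - 1))

theorem cig3_LA_meas (s : ℝ) : Measurable (cig3_LA (N := N) s) := by
  unfold cig3_LA
  refine Measurable.lintegral_prod_left' (f := fun p : ℝ × Es N =>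
    ENNReal.ofReal (gp p.1 p.2 * p.1 ^ (s - 1))) ?_
  exact (gp_meas.mul (measurable_fst.pow_const _)).ennreal_ofReal

theorem cig3_LB_meas (s t : ℝ) : Measurable (cig3_LB (N := N) s t) := by
  unfold cig3_LB
  refine Measurable.lintegral_prod_left' (f := fun p : ℝ × Es N =>
    ENNReal.ofReal (gp p.1 p.2 * p.1 ^ (-s - 1))) ?_
  exact (gp_meas.mul (measurable_fst.pow_const _)).ennreal_ofReal

theorem cig3_LA_eq (s : ℝ) (y : Es N) :
    ∫ σ in Ioi 0, gp σ y * σ ^ (s - 1) = (cig3_LA s y).toReal := by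
  unfold cig3_LA
  refine integral_eq_lintegral_of_nonneg_ae ?_ ?_
  · filter_upwards [ae_restrict_mem measurableSet_Ioi] with σ hσ
    exact mul_nonneg (cig3_gp_nonneg hσ y) (Real.rpow_nonneg (le_of_lt hσ) _)
  · exact ((cig3_meas1 y).mul (measurable_id.pow_const _)).aestronglyMeasurable

theorem cig3_LB_eq (s : ℝ) {t : ℝ} (ht : 0 < t) (y : Es N) :
    ∫ τ in Ioi t, gp τ y * τ ^ (-s - 1) = (cig3_LB s t y).toReal := by
  unfold cig3_LB
  refine integral_eq_lintegral_of_nonneg_ae ?_ ?_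
  · filter_upwards [ae_restrict_mem measurableSet_Ioi] with σ hσ
    have h0 : 0 < σ := ht.trans hσ
    exact mul_nonneg (cig3_gp_nonneg h0 y) (Real.rpow_nonneg h0.le _)
  · exact ((cig3_meas1 y).mul (measurable_id.pow_const _)).aestronglyMeasurable

theorem cig3_step1 (s : ℝ) {τ : ℝ} (hτ : 0 < τ) (x : Es N) :
    ∫⁻ y, cig3_LA s y * ENNReal.ofReal (gp τ (x - y)) =
      ∫⁻ σ in Ioi 0, ENNReal.ofReal (gp (τ + σ) x * σ ^ (s - 1)) := by
  have m1 : Measurable fun p : Es N × ℝ => ENNReal.ofReal (gp p.2 p.1 * p.2 ^ (s - 1)) :=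
    ((gp_meas.comp measurable_swap).mul (measurable_snd.pow_const _)).ennreal_ofReal
  have m2 : Measurable fun y : Es N => ENNReal.ofReal (gp τ (x - y)) :=
    ((cig3_meas2 τ).comp (measurable_const.sub measurable_id)).ennreal_ofReal
  have e1 : ∀ y : Es N, cig3_LA s y * ENNReal.ofReal (gp τ (x - y)) =
      ∫⁻ σ in Ioi 0, ENNReal.ofReal (gp σ y * σ ^ (s - 1)) * ENNReal.ofReal (gp τ (x - y)) := by
    intro y
    unfold cig3_LA
    rw [lintegral_mul_const' _ _ ENNReal.ofReal_ne_top]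
  simp_rw [e1]
  rw [lintegral_lintegral_swap (m1.mul (m2.comp measurable_fst)).aemeasurable]
  refine setLIntegral_congr_fun measurableSet_Ioi fun σ hσ => ?_
  have hσ0 : 0 < σ := hσ
  have hr : 0 ≤ σ ^ (s - 1) := Real.rpow_nonneg hσ0.le _
  obtain ⟨hi, he⟩ := gp_semi hτ hσ0 x
  have e2 : ∀ y : Es N, ENNReal.ofReal (gp σ y * σ ^ (s - 1)) * ENNReal.ofReal (gp τ (x - y)) =
      ENNReal.ofReal (gp σ y * gp τ (x - y)) * ENNReal.ofReal (σ ^ (s - 1)) := by
    intro y
    rw [← ENNReal.ofReal_mul (mul_nonneg (cig3_gp_nonneg hσ0 y) hr),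
      ← ENNReal.ofReal_mul (mul_nonneg (cig3_gp_nonneg hσ0 y) (cig3_gp_nonneg hτ _))]
    congr 1
    ring
  simp only [e2]
  rw [lintegral_mul_const' _ _ ENNReal.ofReal_ne_top, ← ofReal_integral_eq_lintegral_ofReal hi
    (Eventually.of_forall fun y => mul_nonneg (cig3_gp_nonneg hσ0 y) (cig3_gp_nonneg hτ _)), he,
    ← ENNReal.ofReal_mul (cig3_gp_nonneg (by linarith) x)]

theorem cig3_step2 (s : ℝ) {t : ℝ} (ht : 0 < t) (x : Es N) :
    ∫⁻ y, cig3_LA s y * cig3_LB s t (x - y) = ∫⁻ τ in Ioi t,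
      (∫⁻ σ in Ioi 0, ENNReal.ofReal (gp (τ + σ) x * σ ^ (s - 1))) *
        ENNReal.ofReal (τ ^ (-s - 1)) := by
  have m1 : Measurable fun p : Es N × ℝ =>
      ENNReal.ofReal (gp p.2 (x - p.1) * p.2 ^ (-s - 1)) :=
    ((gp_meas.comp (measurable_snd.prodMk (measurable_const.sub measurable_fst))).mul
      (measurable_snd.pow_const _)).ennreal_ofReal
  have e1 : ∀ y : Es N, cig3_LA s y * cig3_LB s t (x - y) =
      ∫⁻ τ in Ioi t, cig3_LA s y * ENNReal.ofReal (gp τ (x - y) * τ ^ (-s - 1)) := by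
    intro y
    unfold cig3_LB
    exact (lintegral_const_mul _ (((cig3_meas1 (x - y)).mul
      (measurable_id.pow_const _)).ennreal_ofReal)).symm
  simp_rw [e1]
  rw [lintegral_lintegral_swap (((cig3_LA_meas s).comp measurable_fst).mul m1).aemeasurable]
  refine setLIntegral_congr_fun measurableSet_Ioi fun τ hτ => ?_
  have hτ0 : 0 < τ := ht.trans hτ
  have e2 : ∀ y : Es N, cig3_LA s y * ENNReal.ofReal (gp τ (x - y) * τ ^ (-s - 1)) =
      cig3_LA s y * ENNReal.ofReal (gp τ (x - y)) * ENNReal.ofReal (τ ^ (-s - 1)) := by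
    intro y
    rw [ENNReal.ofReal_mul (cig3_gp_nonneg hτ0 _), mul_assoc]
  simp only [e2]
  rw [lintegral_mul_const' _ _ ENNReal.ofReal_ne_top, cig3_step1 s hτ0 x]

/-- the integrand after the translation -/
def cig3_K (s : ℝ) (x : Es N) (τ u : ℝ) : ENNReal :=
  if τ < u then ENNReal.ofReal (gp u x) * ENNReal.ofReal ((u - τ) ^ (s - 1) * τ ^ (-s - 1)) else 0

theorem cig3_K_meas (s : ℝ) (x : Es N) : Measurable (Function.uncurry (cig3_K s x)) := by
  unfold cig3_K Function.uncurry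
  refine Measurable.ite (measurableSet_lt measurable_fst measurable_snd) ?_ measurable_const
  exact ((cig3_meas1 x).comp measurable_snd).ennreal_ofReal.mul
    (((measurable_snd.sub measurable_fst).pow_const _).mul
      (measurable_fst.pow_const _)).ennreal_ofReal

theorem cig3_step3 (s : ℝ) {τ : ℝ} (hτ : 0 < τ) (x : Es N) :
    (∫⁻ σ in Ioi 0, ENNReal.ofReal (gp (τ + σ) x * σ ^ (s - 1))) *
        ENNReal.ofReal (τ ^ (-s - 1)) = ∫⁻ u, cig3_K s x τ u := by
  rw [← lintegral_mul_const' _ _ ENNReal.ofReal_ne_top, ← lintegral_add_left_eq_self (cig3_K s x τ) τ,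
    ← lintegral_indicator measurableSet_Ioi]
  refine lintegral_congr fun σ => ?_
  unfold cig3_K
  by_cases hσ : 0 < σ
  · rw [indicator_of_mem (show σ ∈ Ioi (0 : ℝ) from hσ), if_pos (by linarith), add_sub_cancel_left,
      ENNReal.ofReal_mul (cig3_gp_nonneg (by linarith) x),
      ENNReal.ofReal_mul (Real.rpow_nonneg hσ.le _), mul_assoc]
  · rw [indicator_of_notMem (show σ ∉ Ioi (0 : ℝ) from hσ), if_neg (by linarith)]

theorem cig3_step4 (hs : 0 < s) {t : ℝ} (ht : 0 < t) (x : Es N) (u : ℝ) :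
    ∫⁻ τ in Ioi t, cig3_K s x τ u = (Ioi (0 : ℝ)).indicator (fun u =>
      ENNReal.ofReal (gp u x * (t ^ (-s) * max (u - t) 0 ^ s / (s * u)))) u := by
  have e1 : ∀ τ, cig3_K s x τ u = (Iio u).indicator (fun τ => ENNReal.ofReal (gp u x) *
      ENNReal.ofReal ((u - τ) ^ (s - 1) * τ ^ (-s - 1))) τ := by
    intro τ
    unfold cig3_K
    by_cases h : τ < u
    · rw [if_pos h, indicator_of_mem (show τ ∈ Iio u from h)]
    · rw [if_neg h, indicator_of_notMem (show τ ∉ Iio u from h)]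
  simp only [e1]
  rw [lintegral_indicator measurableSet_Iio, Measure.restrict_restrict measurableSet_Iio,
    inter_comm, Ioi_inter_Iio, lintegral_const_mul' _ _ ENNReal.ofReal_ne_top]
  by_cases hu : t < u
  · obtain ⟨hi, he⟩ := beta_trunc hs ht hu
    have hu0 : 0 < u := ht.trans hu
    rw [← ofReal_integral_eq_lintegral_ofReal hi, he,
      indicator_of_mem (show u ∈ Ioi (0 : ℝ) from hu0),
      ENNReal.ofReal_mul (cig3_gp_nonneg hu0 x), max_eq_left (by linarith only [hu])]
    filter_upwards [ae_restrict_mem measurableSet_Ioo] with τ hτ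
    exact mul_nonneg (Real.rpow_nonneg (by linarith [hτ.2]) _)
      (Real.rpow_nonneg (by linarith [hτ.1]) _)
  · rw [Ioo_eq_empty hu, Measure.restrict_empty, lintegral_zero_measure, mul_zero]
    by_cases hu0 : 0 < u
    · rw [indicator_of_mem (show u ∈ Ioi (0 : ℝ) from hu0), max_eq_right (by linarith),
        Real.zero_rpow hs.ne']
      simp
    · rw [indicator_of_notMem (show u ∉ Ioi (0 : ℝ) from hu0)]

theorem cig3_main (hs : 0 < s) {t : ℝ} (ht : 0 < t) (x : Es N) :
    ∫⁻ y, cig3_LA s y * cig3_LB s t (x - y) = ∫⁻ u in Ioi 0,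
      ENNReal.ofReal (gp u x * (t ^ (-s) * max (u - t) 0 ^ s / (s * u))) := by
  rw [cig3_step2 s ht x, setLIntegral_congr_fun measurableSet_Ioi
    (fun τ hτ => cig3_step3 s (ht.trans hτ) x),
    lintegral_lintegral_swap (cig3_K_meas s x).aemeasurable, ← lintegral_indicator measurableSet_Ioi]
  exact lintegral_congr fun u => cig3_step4 hs ht x u

theorem cig3_w_nonneg (hs : 0 < s) {t u : ℝ} (ht : 0 < t) (hu : 0 < u) :
    0 ≤ t ^ (-s) * max (u - t) 0 ^ s / (s * u) :=
  div_nonneg (mul_nonneg (Real.rpow_nonneg ht.le _) (Real.rpow_nonneg (le_max_right _ _) _))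
    (mul_pos hs hu).le

theorem cig3_hw (hs : 0 < s) (t : ℝ) {u : ℝ} (hu : 0 < u) :
    hw s t u = t ^ (-s) / s * u ^ (s - 1) - t ^ (-s) * max (u - t) 0 ^ s / (s * u) := by
  unfold hw
  rw [Real.rpow_sub_one hu.ne']
  field_simp

theorem rz_sub (hp : Par N a s) {y : Es N} (hy : y ≠ 0) :
    IntegrableOn (fun σ => gp σ y * σ ^ (s - 1)) (Ioi 0) ∧ ∫ σ in Ioi 0, gp σ y * σ ^ (s - 1) =
      Real.pi ^ (-((N : ℝ) / 2)) * Real.Gamma (N / 2 - s) * ‖y‖ ^ (-((N : ℝ) - 2 * s)) := by
  have hN : (2 : ℝ) ≤ N := by exact_mod_cast hp.hN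
  have hα : 0 < (N : ℝ) / 2 - s := by linarith only [hN, hp, hp.hs1]
  have hy0 : 0 < ‖y‖ := norm_pos_iff.2 hy
  obtain ⟨hi, he⟩ := sub_full hα (pow_pos hy0 2)
  have e : ∀ σ ∈ Ioi (0 : ℝ), gp σ y * σ ^ (s - 1) = Real.pi ^ (-((N : ℝ) / 2)) *
      (σ ^ (-((N : ℝ) / 2 - s) - 1) * Real.exp (-(‖y‖ ^ 2 / σ))) := by
    intro σ hσ
    have hσ0 : 0 < σ := hσ
    unfold gp
    rw [Real.mul_rpow Real.pi_pos.le hσ0.le,
      show -((N : ℝ) / 2 - s) - 1 = -((N : ℝ) / 2) + (s - 1) by ring, Real.rpow_add hσ0]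
    ring
  refine ⟨IntegrableOn.congr_fun (hi.const_mul _) (fun σ hσ => (e σ hσ).symm) measurableSet_Ioi, ?_⟩
  rw [setIntegral_congr_fun measurableSet_Ioi e, integral_const_mul, he, mul_assoc]
  congr 2
  rw [← Real.rpow_natCast, ← Real.rpow_mul hy0.le]
  congr 1
  push_cast
  ring

theorem rz_hk (hp : Par N a s) {t : ℝ} (ht : 0 < t) {x : Es N} (hx : x ≠ 0) :
    Integrable (fun y => (∫ σ in Ioi 0, gp σ y * σ ^ (s - 1)) * hk a s t (x - y)) ∧
    IntegrableOn (fun u => gp u x * (t ^ (-s) * max (u - t) 0 ^ s / (s * u))) (Ioi 0) ∧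
      ∫ y, (∫ σ in Ioi 0, gp σ y * σ ^ (s - 1)) * hk a s t (x - y) =
        hA N a s * ∫ u in Ioi 0, gp u x * (t ^ (-s) * max (u - t) 0 ^ s / (s * u)) := by
  have hs : 0 < s := by linarith only [hp, hp.hs]
  have hi2 : IntegrableOn (fun u => gp u x * (t ^ (-s) * max (u - t) 0 ^ s / (s * u))) (Ioi 0) := by
    refine Integrable.mono' ((rz_sub hp hx).1.const_mul (t ^ (-s) / s)) ?_ ?_
    · refine ((cig3_meas1 x).mul (Measurable.div (measurable_const.mul ?_)
        (measurable_const.mul measurable_id))).aestronglyMeasurable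
      exact ((measurable_id.sub measurable_const).max measurable_const).pow_const _
    · filter_upwards [ae_restrict_mem measurableSet_Ioi] with u hu
      have hu0 : 0 < u := hu
      have h1 := hw_nonneg hs ht hu0
      rw [cig3_hw hs t hu0] at h1
      rw [Real.norm_of_nonneg (mul_nonneg (cig3_gp_nonneg hu0 x) (cig3_w_nonneg hs ht hu0))]
      have := mul_le_mul_of_nonneg_left (sub_nonneg.1 h1) (cig3_gp_nonneg hu0 x)
      linarith only [this]
  have hnn : 0 ≤ᵐ[volume.restrict (Ioi (0 : ℝ))]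
      fun u => gp u x * (t ^ (-s) * max (u - t) 0 ^ s / (s * u)) := by
    filter_upwards [ae_restrict_mem measurableSet_Ioi] with u hu
    exact mul_nonneg (cig3_gp_nonneg hu x) (cig3_w_nonneg hs ht hu)
  have hm := cig3_main hs ht x
  rw [← ofReal_integral_eq_lintegral_ofReal hi2 hnn] at hm
  have mΦ : Measurable fun y => cig3_LA s y * cig3_LB s t (x - y) :=
    (cig3_LA_meas s).mul ((cig3_LB_meas s t).comp (measurable_const.sub measurable_id))
  have hfin : ∫⁻ y, cig3_LA s y * cig3_LB s t (x - y) ≠ ⊤ := by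
    rw [hm]
    exact ENNReal.ofReal_ne_top
  have e : (fun y => (∫ σ in Ioi 0, gp σ y * σ ^ (s - 1)) * hk a s t (x - y)) =
      fun y => hA N a s * (cig3_LA s y * cig3_LB s t (x - y)).toReal := by
    funext y
    unfold hk
    rw [cig3_LA_eq, cig3_LB_eq s ht, ENNReal.toReal_mul]
    ring
  rw [e]
  refine ⟨(integrable_toReal_of_lintegral_ne_top mΦ.aemeasurable hfin).const_mul _, hi2, ?_⟩
  rw [integral_const_mul, integral_toReal mΦ.aemeasurable (ae_lt_top mΦ hfin), hm,
    ENNReal.toReal_ofReal (integral_nonneg_of_ae hnn)]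

theorem hk_fund (hp : Par N a s) {t : ℝ} (ht : 0 < t) {x : Es N} (hx : x ≠ 0) :
    Lk (hk a s t) (rz (Real.pi ^ (-((N : ℝ) / 2)) * Real.Gamma (N / 2 - s) / (hA N a s * hm s)) s) x =
      hi s t x := by
  have hs : 0 < s := by linarith only [hp, hp.hs]
  have hA0 := hA_pos hp
  have hm0 := (hw_int hs hp.hs1 ht).2.2
  have : Nonempty (Fin N) := ⟨⟨0, by have := hp.hN; omega⟩⟩
  have : Nontrivial (Es N) := ⟨⟨x, 0, hx⟩⟩
  obtain ⟨h1, h2, h3⟩ := rz_hk hp ht hx
  obtain ⟨hk1, hk2⟩ := hk_mass hp ht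
  have er : ∀ y : Es N, y ≠ 0 → rz (Real.pi ^ (-((N : ℝ) / 2)) * Real.Gamma (N / 2 - s) /
      (hA N a s * hm s)) s y = (hA N a s * hm s)⁻¹ * ∫ σ in Ioi 0, gp σ y * σ ^ (s - 1) := by
    intro y hy
    rw [(rz_sub hp hy).2]
    unfold rz
    ring
  have eae : (fun y => rz (Real.pi ^ (-((N : ℝ) / 2)) * Real.Gamma (N / 2 - s) /
      (hA N a s * hm s)) s y * hk a s t (x - y)) =ᵐ[volume] fun y => (hA N a s * hm s)⁻¹ *
        ((∫ σ in Ioi 0, gp σ y * σ ^ (s - 1)) * hk a s t (x - y)) := by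
    have : ∀ᵐ y : Es N, y ≠ 0 := by
      rw [ae_iff]
      simp
    filter_upwards [this] with y hy
    rw [er y hy, mul_assoc]
  rw [Lk_split hk1 ((h1.const_mul _).congr eae.symm), integral_congr_ae eae, integral_const_mul, h3,
    hk2, er x hx]
  unfold hi
  have e : ∫ u in Ioi 0, gp u x * hw s t u = t ^ (-s) / s * (∫ σ in Ioi 0, gp σ x * σ ^ (s - 1)) -
      ∫ u in Ioi 0, gp u x * (t ^ (-s) * max (u - t) 0 ^ s / (s * u)) := by
    rw [← integral_const_mul, ← integral_sub ((rz_sub hp hx).1.const_mul _) h2]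
    refine setIntegral_congr_fun measurableSet_Ioi fun u hu => ?_
    have hu0 : 0 < u := hu
    simp only [cig3_hw hs t hu0]
    ring
  rw [e]
  field_simp

end

end Pool.Agent.Work.MP_49e099_an
end
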