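import Pool.Agent.Work.MP_49e099_an.CI.Stmt
import Pool.Agent.Work.MP_49e099_an.CI.G3
import Pool.Agent.Work.MP_49e099_an.CI.P7

-- merged part: Pool.Agent.Work.MP_49e099_an.CI.H3
section
/-!
# A separation lemma
`Λ b = (∫ b ψ i)_i ∈ Fin n → ℝ` for bounded measurable `b`. `sep_onto`: the range of `Λ` is a submodule; if it is not everything, a nonzero functional kills it (`Submodule.exists_le_ker_of_lt_top`, `LinearMap.pi_apply_eq_sum_univ`), so `∫ b ∑ t i ψ i = 0` for all indicators `b`, `∑ t i ψ i = 0` a.e. (`Integrable.ae_eq_zero_of_forall_setIntegral_eq_zero`).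
`separate`: `U = {Λ b | b bounded measurable, ∃ θ > 0, f0 + θ ≤ b}` is convex, nonempty and open (perturb by small multiples of preimages of the basis vectors). If `0 ∉ U`, `geometric_hahn_banach_open_point` gives `t` with `∫ b ∑ t i ψ i < 0` on `U`. With `b = f0 + 1 + K 1_A`, `K → ∞`: `∫_A ∑ t ψ ≤ 0`, so `0 ≤ ∑ (-t) ψ` a.e. (`ae_nonneg_of_forall_setIntegral_nonneg`); with `b = f0 + θ`, `θ → 0`: `0 ≤ ∫ f0 ∑ (-t) ψ`. Hence `t = 0`, against the strict inequality.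
-/

namespace Pool.Agent.Work.MP_49e099_an

open MeasureTheory Set Filter Topology Metric

noncomputable section

variable {X : Type} [MeasurableSpace X] {ν : Measure X} {n : ℕ} {ψ : Fin n → X → ℝ}

/-- bounded measurable functions -/
def cih3_B (b : X → ℝ) : Prop := Measurable b ∧ ∃ M, ∀ x, |b x| ≤ M

theorem cih3_const (c : ℝ) : cih3_B fun _ : X => c := ⟨measurable_const, |c|, fun _ => le_rfl⟩

theorem cih3_add {b b' : X → ℝ} (h : cih3_B b) (h' : cih3_B b') : cih3_B fun x => b x + b' x := by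
  obtain ⟨m, M, hM⟩ := h
  obtain ⟨m', M', hM'⟩ := h'
  exact ⟨m.add m', M + M', fun x => (abs_add_le _ _).trans (add_le_add (hM x) (hM' x))⟩

theorem cih3_mul (c : ℝ) {b : X → ℝ} (h : cih3_B b) : cih3_B fun x => c * b x := by
  obtain ⟨m, M, hM⟩ := h
  refine ⟨m.const_mul c, |c| * M, fun x => ?_⟩
  rw [abs_mul]
  exact mul_le_mul_of_nonneg_left (hM x) (abs_nonneg _)

theorem cih3_ind {S : Set X} (hS : MeasurableSet S) : cih3_B (S.indicator fun _ => (1 : ℝ)) := by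
  refine ⟨measurable_const.indicator hS, 1, fun x => ?_⟩
  by_cases h : x ∈ S <;> simp [h]

theorem cih3_int {b g : X → ℝ} (h : cih3_B b) (hg : Integrable g ν) :
    Integrable (fun x => b x * g x) ν := by
  obtain ⟨m, M, hM⟩ := h
  exact hg.bdd_mul m.aestronglyMeasurable (Eventually.of_forall hM)

theorem cih3_Iadd {b b' g : X → ℝ} (h : cih3_B b) (h' : cih3_B b') (hg : Integrable g ν) :
    ∫ x, (b x + b' x) * g x ∂ν = ∫ x, b x * g x ∂ν + ∫ x, b' x * g x ∂ν := by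
  rw [← integral_add (cih3_int h hg) (cih3_int h' hg)]
  simp only [add_mul]

theorem cih3_Imul (c : ℝ) (b g : X → ℝ) : ∫ x, c * b x * g x ∂ν = c * ∫ x, b x * g x ∂ν := by
  rw [← integral_const_mul]
  simp only [mul_assoc]

theorem cih3_Iind {S : Set X} (hS : MeasurableSet S) (g : X → ℝ) :
    ∫ x, S.indicator (fun _ => (1 : ℝ)) x * g x ∂ν = ∫ x in S, g x ∂ν := by
  rw [← integral_indicator hS]
  refine integral_congr_ae (Eventually.of_forall fun x => ?_)
  by_cases h : x ∈ S <;> simp [h]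

theorem cih3_g (hψ : ∀ i, Integrable (ψ i) ν) (t : Fin n → ℝ) :
    Integrable (fun x => ∑ i, t i * ψ i x) ν :=
  integrable_finsetSum _ fun i _ => (hψ i).const_mul _

theorem cih3_pair (hψ : ∀ i, Integrable (ψ i) ν) (φ : (Fin n → ℝ) →ₗ[ℝ] ℝ) :
    ∃ t : Fin n → ℝ, (t = 0 → φ = 0) ∧ ∀ b, cih3_B b →
      φ (fun i => ∫ x, b x * ψ i x ∂ν) = ∫ x, b x * ∑ i, t i * ψ i x ∂ν := by
  refine ⟨fun i => φ fun j => if i = j then 1 else 0, fun h => LinearMap.ext fun v => ?_,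
    fun b hb => ?_⟩
  · rw [LinearMap.pi_apply_eq_sum_univ]
    exact Finset.sum_eq_zero fun i _ => by rw [congrFun h i, Pi.zero_apply, smul_zero]
  · rw [LinearMap.pi_apply_eq_sum_univ]
    simp only [Finset.mul_sum]
    rw [integral_finsetSum _ fun i _ => cih3_int hb ((hψ i).const_mul _)]
    refine Finset.sum_congr rfl fun i _ => ?_
    rw [smul_eq_mul, ← integral_mul_const]
    refine integral_congr_ae (Eventually.of_forall fun x => ?_)
    ring

theorem sep_onto (hψ : ∀ i, Integrable (ψ i) ν)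
    (h : ∀ t : Fin n → ℝ, (∀ᵐ x ∂ν, ∑ i, t i * ψ i x = 0) → t = 0) (v : Fin n → ℝ) :
    ∃ b : X → ℝ, Measurable b ∧ (∃ M, ∀ x, |b x| ≤ M) ∧ ∀ i, ∫ x, b x * ψ i x ∂ν = v i := by
  let W : Submodule ℝ (Fin n → ℝ) :=
    { carrier := {v | ∃ b, cih3_B b ∧ ∀ i, ∫ x, b x * ψ i x ∂ν = v i}
      zero_mem' := ⟨_, cih3_const 0, fun i => by simp⟩
      add_mem' := by
        rintro v w ⟨b, hb, e⟩ ⟨b', hb', e'⟩
        exact ⟨_, cih3_add hb hb', fun i => by rw [cih3_Iadd hb hb' (hψ i), e, e', Pi.add_apply]⟩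
      smul_mem' := by
        rintro c v ⟨b, hb, e⟩
        exact ⟨_, cih3_mul c hb, fun i => by rw [cih3_Imul, e, Pi.smul_apply, smul_eq_mul]⟩ }
  have hW : W = ⊤ := by
    by_contra k
    obtain ⟨φ, h0, hφ⟩ := W.exists_le_ker_of_lt_top (lt_top_iff_ne_top.2 k)
    obtain ⟨t, ht, e⟩ := cih3_pair hψ φ
    refine h0 (ht (h t ((cih3_g hψ t).ae_eq_zero_of_forall_setIntegral_eq_zero fun S hS _ => ?_)))
    rw [← cih3_Iind hS, ← e _ (cih3_ind hS)]
    exact hφ ⟨_, cih3_ind hS, fun _ => rfl⟩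
  have hv : v ∈ W := by
    rw [hW]
    trivial
  obtain ⟨b, hb, e⟩ := hv
  exact ⟨b, hb.1, hb.2, e⟩

theorem cih3_right (hψ : ∀ i, Integrable (ψ i) ν)
    (h : ∀ t : Fin n → ℝ, (∀ᵐ x ∂ν, ∑ i, t i * ψ i x = 0) → t = 0) :
    ∃ M > 0, ∀ z : Fin n → ℝ, ∃ b : X → ℝ, Measurable b ∧ (∀ x, |b x| ≤ ‖z‖ * M) ∧
      ∀ i, ∫ x, b x * ψ i x ∂ν = z i := by
  choose e m hM he using fun j : Fin n => sep_onto hψ h (Pi.single j 1)
  choose M hM using hM
  refine ⟨∑ j, |M j| + 1, by positivity, fun z => ⟨fun x => ∑ j, z j * e j x,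
    Finset.measurable_sum _ fun j _ => (m j).const_mul _, fun x => ?_, fun i => ?_⟩⟩
  · refine (Finset.abs_sum_le_sum_abs _ _).trans (le_trans ?_
      (mul_le_mul_of_nonneg_left (le_add_of_nonneg_right zero_le_one) (norm_nonneg z)))
    rw [Finset.mul_sum]
    refine Finset.sum_le_sum fun j _ => ?_
    rw [abs_mul]
    exact mul_le_mul (norm_le_pi_norm z j) ((hM j x).trans (le_abs_self _)) (abs_nonneg _)
      (norm_nonneg _)
  · simp only [Finset.sum_mul]
    rw [integral_finsetSum _ fun j _ => cih3_int (cih3_mul (z j) ⟨m j, M j, hM j⟩) (hψ i)]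
    simp only [cih3_Imul, he]
    simp [Pi.single_apply]

theorem separate (hψ : ∀ i, Integrable (ψ i) ν) {f0 : X → ℝ} (hf : Measurable f0)
    (hb : ∃ M, ∀ x, |f0 x| ≤ M)
    (h : ∀ t : Fin n → ℝ, (∀ᵐ x ∂ν, 0 ≤ ∑ i, t i * ψ i x) →
      0 ≤ ∫ x, f0 x * ∑ i, t i * ψ i x ∂ν → t = 0) :
    ∃ θ > 0, ∃ b : X → ℝ, Measurable b ∧ (∃ M, ∀ x, |b x| ≤ M) ∧ (∀ x, f0 x + θ ≤ b x) ∧
      ∀ i, ∫ x, b x * ψ i x ∂ν = 0 := by
  have hB : cih3_B f0 := ⟨hf, hb⟩
  obtain ⟨M, hM, hR⟩ := cih3_right hψ fun t ht => h t (ht.mono fun x hx => hx.ge)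
    (integral_nonneg_of_ae (ht.mono fun x hx => by simp only [hx, mul_zero, Pi.zero_apply, le_refl]))
  set U : Set (Fin n → ℝ) := {v | ∃ θ > 0, ∃ b, cih3_B b ∧ (∀ x, f0 x + θ ≤ b x) ∧
    ∀ i, ∫ x, b x * ψ i x ∂ν = v i} with hU
  have hc : Convex ℝ U := by
    rintro v ⟨θ, hθ, b, hb, l, e⟩ w ⟨θ', hθ', b', hb', l', e'⟩ p q hp hq hpq
    refine ⟨min θ θ', lt_min hθ hθ', _, cih3_add (cih3_mul p hb) (cih3_mul q hb'), fun x => ?_,
      fun i => ?_⟩
    · have k1 := mul_le_mul_of_nonneg_left ((add_le_add_right (min_le_left θ θ') _).trans (l x)) hp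
      have k2 :=
        mul_le_mul_of_nonneg_left ((add_le_add_right (min_le_right θ θ') _).trans (l' x)) hq
      have k3 : (p + q) * (f0 x + min θ θ') = f0 x + min θ θ' := by rw [hpq, one_mul]
      linarith only [k1, k2, k3]
    · rw [cih3_Iadd (cih3_mul p hb) (cih3_mul q hb') (hψ i), cih3_Imul, cih3_Imul, e, e']
      rfl
  have ho : IsOpen U := by
    refine Metric.isOpen_iff.2 ?_
    rintro v ⟨θ, hθ, b, hb, l, e⟩
    refine ⟨θ / 2 / M, by positivity, fun w hw => ?_⟩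
    obtain ⟨c, m, hc, ec⟩ := hR (w - v)
    have hcB : cih3_B c := ⟨m, _, hc⟩
    refine ⟨θ / 2, by positivity, _, cih3_add hb hcB, fun x => ?_, fun i => ?_⟩
    · rw [mem_ball, dist_eq_norm, lt_div_iff₀ hM] at hw
      have := (abs_le.1 (hc x)).1
      linarith only [hw, this, l, l x]
    · rw [cih3_Iadd hb hcB (hψ i), e, ec, Pi.sub_apply, add_sub_cancel]
  have h0 : (0 : Fin n → ℝ) ∈ U := by
    by_contra k
    obtain ⟨φ, hφ⟩ := geometric_hahn_banach_open_point hc ho k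
    obtain ⟨t, ht, e⟩ := cih3_pair hψ φ.toLinearMap
    have hg := cih3_g hψ t
    have neg : ∀ θ > 0, ∀ b, cih3_B b → (∀ x, f0 x + θ ≤ b x) →
        ∫ x, b x * ∑ i, t i * ψ i x ∂ν < 0 := fun θ hθ b hb l => by
      have := hφ _ ⟨θ, hθ, b, hb, l, fun _ => rfl⟩
      rwa [map_zero, ← ContinuousLinearMap.coe_coe, e b hb] at this
    have en : ∀ x, ∑ i, (-t) i * ψ i x = -∑ i, t i * ψ i x := fun x => by
      simp only [Pi.neg_apply, neg_mul, Finset.sum_neg_distrib]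
    have t0 : -t = 0 := by
      refine h (-t) (ae_nonneg_of_forall_setIntegral_nonneg (cih3_g hψ (-t)) fun S hS _ => ?_) ?_
      · simp only [en]
        rw [integral_neg, neg_nonneg]
        by_contra k'
        have k1 := not_le.1 k'
        have b1 := cih3_add hB (cih3_const 1)
        have k2 := neg 1 one_pos _ (cih3_add b1 (cih3_mul
          (|∫ x, (f0 x + 1) * ∑ i, t i * ψ i x ∂ν| / ∫ x in S, ∑ i, t i * ψ i x ∂ν) (cih3_ind hS)))
          fun x => le_add_of_nonneg_right (mul_nonneg (by positivity)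
            (indicator_nonneg (fun _ _ => zero_le_one) x))
        rw [cih3_Iadd b1 (cih3_mul _ (cih3_ind hS)) hg, cih3_Imul, cih3_Iind hS,
          div_mul_cancel₀ _ k1.ne'] at k2
        linarith only [k2, neg_abs_le (∫ x, (f0 x + 1) * ∑ i, t i * ψ i x ∂ν)]
      · simp only [en, mul_neg]
        rw [integral_neg, neg_nonneg]
        refine le_of_forall_pos_le_add fun ε hε => ?_
        have k2 := neg (ε / (|∫ x, ∑ i, t i * ψ i x ∂ν| + 1)) (by positivity) _
          (cih3_add hB (cih3_const _)) fun x => le_rfl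
        rw [cih3_Iadd hB (cih3_const _) hg, integral_const_mul] at k2
        have k3 : ε / (|∫ x, ∑ i, t i * ψ i x ∂ν| + 1) * (|∫ x, ∑ i, t i * ψ i x ∂ν| + 1) = ε :=
          div_mul_cancel₀ _ (by positivity)
        have k4 : 0 < ε / (|∫ x, ∑ i, t i * ψ i x ∂ν| + 1) := by positivity
        linarith only [k2, k3, k4, neg_abs_le (∫ x, ∑ i, t i * ψ i x ∂ν), mul_nonneg_of_nonpos_of_nonpos (le_of_lt (Mathlib.Tactic.Linarith.sub_neg_of_lt k4)) (Mathlib.Tactic.Linarith.sub_nonpos_of_le (neg_abs_le (∫ (x : X), ∑ i, t i * ψ i x ∂ν)))]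
    have k2 := neg 1 one_pos _ (cih3_add hB (cih3_const 1)) fun x => le_rfl
    rw [neg_eq_zero.1 t0] at k2
    simp at k2
  obtain ⟨θ, hθ, b, hb, l, e⟩ := h0
  exact ⟨θ, hθ, b, hb.1, hb.2, l, e⟩

end

end Pool.Agent.Work.MP_49e099_an
end

-- merged part: Pool.Agent.Work.MP_49e099_an.CI.B2
section
/-!
# Boundedness of variational solutions (Stampacchia)
`level`: test with `η = (z - k)₊` (`W0.comp`; it vanishes off `A = {z > k} ⊆ Ω`). `En_mono` gives `En η η ≤ En z η = ∫ (c z + h) η`, and `z = η + k` where `η ≠ 0`. So `En η η ≤ C ∫ η² + C k ∫ η + ∫ |h η|`. With `y = vol A ≤ y0 ≤ 1` small, `sob_two` absorbs the first term; `sob_one`, `dual` and `y^(1/2 + s/N) ≤ y^(1/2 + s/N - 1/m)` give `√(En η η) ≤ C' (k + 1) y^(1/2 + s/N - 1/m)`; `sob_one` once more. (`m > 1`.)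
`stamp_up`: levels `k j = l (2 - 2^(-j))`, `y j = vol {z > k j}`; Chebyshev `(k (j+1) - k j) y (j+1) ≤ ∫ (z - k j)₊`, so `y (j+1) ≤ 6 C 2^j (y j)^(1+δ)` for `l ≥ 1`; `vol {z > l} ≤ ∫ |z| / l` is small for large `l`; `fast_geom`; then `vol {z > 2 l} = 0`.
`fast_geom`: induction `y j ≤ ε b^(-j/δ)` with `C ε^δ b^(1/δ) ≤ 1`. `stamp`: apply `stamp_up` to `z` and `-z` (`En_comm`, `En_smul`).
-/

namespace Pool.Agent.Work.MP_49e099_an

open MeasureTheory Set Filter Topology Metric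

noncomputable section

variable {N : ℕ} {a s : ℝ} {Ω : Set (Es N)}

theorem fast_geom {C b δ : ℝ} (hC : 0 < C) (hb : 1 < b) (hδ : 0 < δ) : ∃ ε > 0, ∀ y : ℕ → ℝ,
    (∀ j, 0 ≤ y j) → y 0 ≤ ε → (∀ j, y j ≤ ε → y (j + 1) ≤ C * b ^ j * y j ^ (1 + δ)) →
      Tendsto y atTop (𝓝 0) := by
  have hb0 := zero_lt_one.trans hb
  obtain ⟨q, hq⟩ : ∃ q : ℝ, q = b⁻¹ ^ δ⁻¹ := ⟨_, rfl⟩
  have q0 : 0 < q := by rw [hq]; positivity
  have q1 : q < 1 := hq ▸ Real.rpow_lt_one (by positivity) (inv_lt_one_of_one_lt₀ hb) (by positivity)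
  have q2 : q ^ δ = b⁻¹ := by rw [hq, Real.rpow_inv_rpow (by positivity) hδ.ne']
  obtain ⟨ε, hε⟩ : ∃ ε : ℝ, ε = (q / C) ^ δ⁻¹ := ⟨_, rfl⟩
  have e0 : 0 < ε := by rw [hε]; positivity
  have e2 : ε ^ δ = q / C := by rw [hε, Real.rpow_inv_rpow (by positivity) hδ.ne']
  refine ⟨ε, e0, fun y h0 h1 h2 => ?_⟩
  have h3 : ∀ j, y j ≤ ε * q ^ j := by
    intro j
    induction j with
    | zero => simpa using h1
    | succ j ih =>
      refine (h2 j (ih.trans (mul_le_of_le_one_right e0.le (pow_le_one₀ q0.le q1.le)))).trans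
        ((mul_le_mul_of_nonneg_left (Real.rpow_le_rpow (h0 j) ih (by positivity))
          (by positivity)).trans_eq ?_)
      rw [Real.rpow_add (by positivity), Real.rpow_one, Real.mul_rpow e0.le (by positivity),
        ← Real.rpow_pow_comm q0.le, q2, e2, inv_pow]
      field_simp
      ring
  refine squeeze_zero h0 h3 ?_
  simpa using (tendsto_pow_atTop_nhds_zero_of_lt_one q0.le q1).const_mul ε

variable {m C : ℝ} {c h z : Es N → ℝ}

theorem cib2_lip (k p q : ℝ) : |max (p - k) 0 - max (q - k) 0| ≤ |p - q| := by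
  simpa using abs_max_sub_max_le_abs (p - k) (q - k) 0

theorem cib2_w0 (hp : Par N a s) (hz : W0 a s Ω z) {k : ℝ} (hk : 0 ≤ k) :
    W0 a s Ω fun x => max (z x - k) 0 :=
  hz.comp hp.ha (Φ := fun t => max (t - k) 0) (L := 1) (fun p q => by
    rw [one_mul]; exact cib2_lip k p q) (by simpa using hk)

theorem cib2_fin (hΩ : Dom Ω) (hz : W0 a s Ω z) {k : ℝ} (hk : 0 ≤ k) :
    volume {x | k < z x} < ⊤ :=
  (measure_mono fun x hx => by_contra fun h => (hk.trans_lt hx).ne' (hz.zero x h)).trans_lt hΩ.fin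

theorem cib2_exp (hp : Par N a s) (hm : N / (2 * s) < m) :
    0 < 1 / m ∧ 1 / m < 2 * s / N ∧ 0 < s / N ∧ s / N < 1 / 2 := by
  have hs := hp.hs
  have hN : (2 : ℝ) ≤ N := by exact_mod_cast hp.hN
  have h : 0 < N / (2 * s) := by positivity
  refine ⟨one_div_pos.2 (h.trans hm), ?_, by positivity, ?_⟩
  · simpa using one_div_lt_one_div_of_lt h hm
  · rw [div_lt_iff₀ (by positivity)]
    linarith only [hN, hp, hp.hs1]

theorem level (hp : Par N a s) (hΩ : Dom Ω) (hm : N / (2 * s) < m) (_cm : Measurable c)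
    (cb : ∀ x, |c x| ≤ C) (hh : MemLp h (ENNReal.ofReal m) (volume.restrict Ω)) (hz : W0 a s Ω z)
    (hs : VSol a s Ω z fun x => c x * z x + h x) : ∃ K > 0, ∃ y0 > 0, ∀ k : ℝ, 0 ≤ k →
      volume.real {x | k < z x} ≤ y0 → ∫ x, max (z x - k) 0 ≤
        K * (k + 1) * volume.real {x | k < z x} ^ (1 + (2 * s / N - 1 / m)) := by
  obtain ⟨C1, c1, s1⟩ := sob_one hp hΩ
  obtain ⟨C2, c2, s2⟩ := sob_two hp hΩ
  obtain ⟨C3, c3, s3⟩ := dual hp hΩ hm hh
  obtain ⟨m0, m1, m2, m3⟩ := cib2_exp hp hm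
  have hC := (abs_nonneg _).trans (cb 0)
  have m4 : 2 * s / N = s / N + s / N := by ring
  obtain ⟨y1, hy1⟩ : ∃ y : ℝ, y = (1 / 2 / ((C + 1) * C2)) ^ (2 * s / N)⁻¹ := ⟨_, rfl⟩
  have p1 : 0 < y1 := by rw [hy1]; positivity
  have p2 := cia1_small (by positivity) (m0.trans m1) one_half_pos p1 hy1.le
  refine ⟨C1 * (2 * (C * C1 + C3)), by positivity, min 1 y1, by positivity, fun k hk hy => ?_⟩
  have hη := cib2_w0 hp hz hk
  have hA : MeasurableSet {x | k < z x} := measurableSet_lt measurable_const hz.meas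
  have h0 : ∀ x, x ∉ {x | k < z x} → max (z x - k) 0 = 0 := fun x hx =>
    max_eq_right (sub_nonpos.2 (not_lt.1 hx))
  have h1 := s1 _ _ hη hA (cib2_fin hΩ hz hk) h0
  have h2 := s2 _ _ hη hA (cib2_fin hΩ hz hk) h0
  obtain ⟨i3, h3⟩ := s3 _ _ hη hA (cib2_fin hΩ hz hk) h0
  have h4 := (En_mono hp.ha hz.toFE (Φ := fun t => max (t - k) 0)
    (fun p q h => max_le_max_right _ (sub_le_sub_right h k)) (cib2_lip k)).trans_eq (hs _ hη)
  have h5 : ∀ x, z x * max (z x - k) 0 = max (z x - k) 0 ^ 2 + k * |max (z x - k) 0| := fun x => by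
    rw [abs_of_nonneg (le_max_right _ _)]
    rcases le_total (z x - k) 0 with h | h
    · simp [max_eq_right h]
    · rw [max_eq_left h]
      ring
  have h6 : ∫ x, max (z x - k) 0 = ∫ x, |max (z x - k) 0| := by
    simp only [abs_of_nonneg (le_max_right (z _ - k) 0)]
  have hE := En_nonneg (s := s) hp.ha fun x => max (z x - k) 0
  rw [h6]
  rw [le_min_iff] at hy
  have y0 : 0 ≤ volume.real {x | k < z x} := measureReal_nonneg
  generalize volume.real {x | k < z x} = y at *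
  obtain ⟨η, hη0⟩ : ∃ η : Es N → ℝ, ∀ x, max (z x - k) 0 = η x := ⟨_, fun _ => rfl⟩
  simp only [hη0] at *
  have i1 := (hη.int hp hΩ).abs
  have i2 := (hη.memLp hp hΩ).integrable_sq
  have i4 : Integrable fun x => C * (η x ^ 2 + k * |η x|) := (i2.add (i1.const_mul k)).const_mul C
  have h7 : ∫ x in Ω, (c x * z x + h x) * η x ≤
      ∫ x in Ω, C * (η x ^ 2 + k * |η x|) + |h x * η x| := by
    refine (Real.le_norm_self _).trans (norm_integral_le_of_norm_le (i4.integrableOn.add i3.abs)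
      (.of_forall fun x => ?_))
    rw [add_mul, mul_assoc, h5, Real.norm_eq_abs]
    refine (abs_add_le _ _).trans (add_le_add_left ?_ _)
    rw [abs_mul, abs_of_nonneg (a := _ + _) (by positivity)]
    exact mul_le_mul_of_nonneg_right (cb x) (by positivity)
  have h8 := (setIntegral_le_integral (s := Ω) i4 (.of_forall fun x => by positivity)).trans_eq
    ((integral_const_mul _ _).trans (congrArg _ (integral_add i2 (i1.const_mul k))))
  rw [integral_add i4.integrableOn i3.abs] at h7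
  rw [integral_const_mul k] at h8
  have r1 := Real.rpow_le_rpow y0 hy.2 (m0.trans m1).le
  have r2 : y ^ (1 / 2 + s / N) ≤ y ^ (1 / 2 + s / N - 1 / m) :=
    Real.rpow_le_rpow_of_exponent_ge' y0 hy.1 (by linarith only [m1, m3, m4]) (by linarith only [m0])
  have r3 : y ^ (1 + (2 * s / N - 1 / m)) = y ^ (1 / 2 + s / N - 1 / m) * y ^ (1 / 2 + s / N) := by
    rw [← Real.rpow_add_of_nonneg y0 (by linarith only [m1, m3, m4]) (by linarith only [m2, m3])]
    congr 1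
    linarith only [m4]
  have r4 := Real.rpow_nonneg y0 (1 / 2 + s / N)
  have r5 := Real.rpow_nonneg y0 (2 * s / N)
  have r6 := Real.sqrt_nonneg (En N a s η η)
  have r7 := Real.mul_self_sqrt hE
  rw [r3]
  change En N a s η η ≤ _ at h4
  change _ = En N a s η η at r7
  change _ ≤ _ * √(En N a s η η) * _ at h1 h3
  change _ ≤ _ * En N a s η η * _ at h2
  generalize y ^ (1 / 2 + s / N - 1 / m) = w at *
  generalize y ^ (1 / 2 + s / N) = v at *
  generalize √(En N a s η η) = e at *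
  have w0 := r4.trans r2
  have t1 : C * ∫ x, η x ^ 2 ≤ 1 / 2 * (e * e) := by
    calc _ ≤ (C + 1) * (C2 * (e * e) * y1 ^ (2 * s / N)) := by
          rw [r7]
          exact mul_le_mul (by linarith only [m2, m3]) (h2.trans (by gcongr))
            (integral_nonneg fun x => sq_nonneg _) (by positivity)
      _ = (C + 1) * C2 * y1 ^ (2 * s / N) * (e * e) := by ring
      _ ≤ _ := by gcongr
  have t2 : C * (k * ∫ x, |η x|) ≤ C * ((k + 1) * (C1 * e * w)) := by
    have : ∫ x, |η x| ≤ C1 * e * w := h1.trans (by gcongr)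
    gcongr
    linarith only [m2, m3]
  have t3 : C3 * e * w ≤ (k + 1) * (C3 * e * w) :=
    le_mul_of_one_le_left (by positivity) (by linarith only [hk])
  have t4 : e ≤ 2 * (C * C1 + C3) * (k + 1) * w := by
    rcases r6.eq_or_lt with rfl | he
    · positivity
    · refine le_of_mul_le_mul_left ?_ he
      rw [mul_add] at h8
      linarith only [h7, h8, h4, r7, h3, t1, t2, t3]
  calc _ ≤ C1 * (2 * (C * C1 + C3) * (k + 1) * w) * v := h1.trans (by gcongr)
    _ = _ := by ring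

theorem cib2_cheb (hp : Par N a s) (hΩ : Dom Ω) (hz : W0 a s Ω z) {k t : ℝ} (hk : 0 ≤ k)
    (ht : 0 < t) : t * volume.real {x | k + t < z x} ≤ ∫ x, max (z x - k) 0 := by
  refine le_trans (mul_le_mul_of_nonneg_left (measureReal_mono (fun x hx => ?_) ?_) ht.le)
    (mul_meas_ge_le_integral_of_nonneg (.of_forall fun x => le_max_right _ _)
      ((cib2_w0 hp hz hk).int hp hΩ) t)
  · exact le_max_of_le_left (le_sub_iff_add_le'.2 (mem_ofPred_eq ▸ hx).le)
  · exact ((measure_mono fun x hx => ht.trans_le hx).trans_lt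
      (cib2_fin hΩ (cib2_w0 hp hz hk) le_rfl)).ne

theorem stamp_up (hp : Par N a s) (hΩ : Dom Ω) (hm : N / (2 * s) < m) (cm : Measurable c)
    (cb : ∀ x, |c x| ≤ C) (hh : MemLp h (ENNReal.ofReal m) (volume.restrict Ω)) (hz : W0 a s Ω z)
    (hs : VSol a s Ω z fun x => c x * z x + h x) : ∃ M, ∀ᵐ x, z x ≤ M := by
  obtain ⟨K, k0, y0, p0, hl⟩ := level hp hΩ hm cm cb hh hz hs
  obtain ⟨ε, e0, hf⟩ := fast_geom (C := 6 * K) (by positivity) one_lt_two
    (sub_pos.2 (cib2_exp hp hm).2.1)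
  obtain ⟨l, l1, l2⟩ : ∃ l : ℝ, 1 ≤ l ∧ volume.real {x | l < z x} ≤ min ε y0 := by
    have h0 := lt_min e0 p0
    refine ⟨max 1 ((∫ x, max (z x - 0) 0) / min ε y0), le_max_left _ _, ?_⟩
    have h1 := one_pos.trans_le (le_max_left 1 ((∫ x, max (z x - 0) 0) / min ε y0))
    have h2 := cib2_cheb hp hΩ hz le_rfl h1
    rw [zero_add] at h2
    exact le_of_mul_le_mul_left (h2.trans ((div_le_iff₀ h0).1 (le_max_right _ _))) h1
  rw [le_min_iff] at l2
  have hm : ∀ {p q : ℝ}, 0 ≤ p → p ≤ q → volume.real {x | q < z x} ≤ volume.real {x | p < z x} :=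
    fun h1 h2 => measureReal_mono (fun x hx => h2.trans_lt hx) (cib2_fin hΩ hz h1).ne
  have h1 : ∀ j : ℕ, 0 < l / 2 ^ j ∧ l / 2 ^ j ≤ l := fun j =>
    ⟨by positivity, div_le_self (by linarith only [l1]) (one_le_pow₀ one_le_two)⟩
  have h2 := hf (fun j => volume.real {x | 2 * l - l / 2 ^ j < z x}) (fun _ => measureReal_nonneg)
    ((hm (by linarith only [l1]) (by simp [two_mul])).trans l2.1) fun j _ => by
      obtain ⟨h3, h4⟩ := h1 j
      have h5 := (cib2_cheb hp hΩ hz (k := 2 * l - l / 2 ^ j) (by linarith only [l1, h4]) (h1 (j + 1)).1).trans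
        (hl _ (by linarith only [l1, h4]) ((hm (by linarith only [l1]) (by linarith only [h4])).trans l2.2))
      rw [show 2 * l - l / 2 ^ j + l / 2 ^ (j + 1) = 2 * l - l / 2 ^ (j + 1) by ring] at h5
      refine le_of_mul_le_mul_left (h5.trans ?_) (h1 (j + 1)).1
      rw [← mul_assoc, show l / 2 ^ (j + 1) * (6 * K * 2 ^ j) = K * (3 * l) by field_simp; ring]
      gcongr
      linarith only [l1, h3]
  have h3 := ge_of_tendsto' h2 fun j => hm (q := 2 * l) (by linarith only [l1, h1, h1 j]) (by linarith only [h1, h1 j])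
  refine ⟨2 * l, ?_⟩
  simpa only [ae_iff, not_le] using (measureReal_eq_zero_iff
    (cib2_fin hΩ hz (by linarith only [l1])).ne).1 (h3.antisymm measureReal_nonneg)

theorem stamp (hp : Par N a s) (hΩ : Dom Ω) (hm : N / (2 * s) < m) (cm : Measurable c)
    (cb : ∀ x, |c x| ≤ C) (hh : MemLp h (ENNReal.ofReal m) (volume.restrict Ω)) (hz : W0 a s Ω z)
    (hs : VSol a s Ω z fun x => c x * z x + h x) : ∃ M, ∀ᵐ x, |z x| ≤ M := by
  obtain ⟨M, h1⟩ := stamp_up hp hΩ hm cm cb hh hz hs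
  obtain ⟨M', h2⟩ := stamp_up hp hΩ hm cm cb hh.neg (hz.smul hp.ha (-1)) fun η hη => by
    rw [En_comm, En_smul, En_comm, hs η hη, ← integral_const_mul]
    simp only [Pi.neg_apply]
    congr 1
    funext x
    ring
  refine ⟨max M M', ?_⟩
  filter_upwards [h1, h2] with x p q
  exact abs_le'.2 ⟨le_max_of_le_left p, le_max_of_le_right (by linarith only [q])⟩

end

end Pool.Agent.Work.MP_49e099_an
end

-- merged part: Pool.Agent.Work.MP_49e099_an.CI.H4
section
/-!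
# A strict linear supersolution outside resonance
`res_of`: `W0.inW0`; a general `η ∈ InW0` is replaced by its representative (`InW0.rep`, `En_congr`, `integral_congr_ae`).
`lin_super`: `φ i` from `fredholm`; `F = 1 + |f|`, `ψ i = F φ i` is integrable on `Ω` (`dual`, `W0.int`), `f0 = f / F`. If `∑ t ψ ≥ 0` a.e. on `Ω` and `∫ f0 ∑ t ψ ≥ 0` then `φ = ∑ t φ` is nonnegative a.e., solves `VSol φ (c φ)` (`W0.sum`, `En_add`, `En_smul`, `En_comm`), `∫ f φ ≥ 0`; `res_of` and `¬ Res` force `φ = 0` a.e., so `t = 0`. `separate` gives `θ, b`; `h = b F ∈ L^m(Ω)`; `fredholm` gives `z`, `stamp` bounds it a.e.; replace `z` by `max (-M) (min M z)` (`W0.comp`, `En_congr`).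
-/

namespace Pool.Agent.Work.MP_49e099_an

open MeasureTheory Set Filter Topology Metric

noncomputable section

variable {N : ℕ} {a s : ℝ} {Ω : Set (Es N)}

variable {m μ1 μ2 C : ℝ} {c μ f : Es N → ℝ}

theorem res_of (hp : Par N a s) (hΩ : Dom Ω) {φ : Es N → ℝ} (hφ : W0 a s Ω φ)
    (hs : VSol a s Ω φ fun x => c x * φ x) (h0 : ∀ᵐ x, 0 ≤ φ x) (hne : ¬ ∀ᵐ x, φ x = 0)
    (hf : 0 ≤ ∫ x in Ω, f x * φ x) : Res N a s Ω c f := by
  refine ⟨φ, hφ.inW0 hp hΩ, h0, hne, fun η hη => ?_, hf⟩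
  obtain ⟨η', h1, h2⟩ := hη.rep hΩ a
  rw [← En_congr (Eventually.of_forall fun _ => rfl) h2, hs η' h1]
  exact integral_congr_ae (ae_restrict_of_ae (h2.mono fun x hx => by simp only [hx]))

theorem Res.rep (hΩ : Dom Ω) (hp : Par N a s) (h : Res N a s Ω c f) : ∃ φ : Es N → ℝ,
    W0 a s Ω φ ∧ (VSol a s Ω φ fun x => c x * φ x) ∧ (∀ᵐ x, 0 ≤ φ x) ∧ (¬ ∀ᵐ x, φ x = 0) ∧
      0 ≤ ∫ x in Ω, f x * φ x := by
  obtain ⟨φ, h1, h2, h3, h4, h5⟩ := h
  obtain ⟨φ', k1, k2⟩ := h1.rep hΩ a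
  refine ⟨φ', k1, fun η hη => ?_, ?_, fun e => h3 ?_, ?_⟩
  · rw [En_congr k2 (Eventually.of_forall fun _ => rfl), h4 η (hη.inW0 hp hΩ)]
    exact integral_congr_ae (ae_restrict_of_ae (k2.mono fun x hx => by simp only [hx]))
  · filter_upwards [h2, k2] with x hx hx'
    rwa [hx']
  · filter_upwards [e, k2] with x hx hx'
    rw [← hx', hx]
  · refine h5.trans_eq ?_
    exact integral_congr_ae (ae_restrict_of_ae (k2.mono fun x hx => by simp only [hx]))

theorem cih4_int (hp : Par N a s) (hΩ : Dom Ω) (cm : Measurable c) (cb : ∀ x, |c x| ≤ C)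
    {u η : Es N → ℝ} (hu : W0 a s Ω u) (hη : W0 a s Ω η) :
    IntegrableOn (fun x => c x * u x * η x) Ω := by
  have h1 := (L2_cs (hu.memLp hp hΩ) (hη.memLp hp hΩ)).1
  have h2 := h1.bdd_mul (c := C) cm.aestronglyMeasurable (Eventually.of_forall cb)
  refine Integrable.integrableOn ?_
  simpa only [mul_assoc] using h2

theorem cih4_sum (hp : Par N a s) (hΩ : Dom Ω) (cm : Measurable c) (cb : ∀ x, |c x| ≤ C)
    {ι : Type} (T : Finset ι) (t : ι → ℝ) {φ : ι → Es N → ℝ}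
    (h : ∀ i, W0 a s Ω (φ i) ∧ VSol a s Ω (φ i) fun x => c x * φ i x) :
    VSol a s Ω (fun x => ∑ i ∈ T, t i * φ i x) fun x => c x * ∑ i ∈ T, t i * φ i x := by
  classical
  intro η hη
  induction T using Finset.induction_on with
  | empty => simp [En]
  | insert i T hi ih =>
    have w1 := (h i).1.smul hp.ha (t i)
    have w2 := W0.sum hp.ha T fun j _ => (h j).1.smul hp.ha (t j)
    simp only [Finset.sum_insert hi]
    rw [En_comm, En_add hp.ha hη.toFE w1.toFE w2.toFE, En_smul, En_comm η, En_comm η, ih,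
      (h i).2 η hη, ← integral_const_mul, ← integral_add
        ((cih4_int hp hΩ cm cb (h i).1 hη).const_mul _) (cih4_int hp hΩ cm cb w2 hη)]
    refine integral_congr_ae (Eventually.of_forall fun x => ?_)
    ring

theorem cih4_sep (hp : Par N a s) (hΩ : Dom Ω) (hm : N / (2 * s) < m)
    (hd : Dat Ω m μ1 μ2 C c μ f) (hR : ¬ Res N a s Ω c f) {n : ℕ} {φ : Fin n → Es N → ℝ}
    (h1 : ∀ i, W0 a s Ω (φ i) ∧ VSol a s Ω (φ i) fun x => c x * φ i x)
    (h2 : ∀ t : Fin n → ℝ, (∀ᵐ x, ∑ i, t i * φ i x = 0) → t = 0)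
    (hF : MemLp (fun x => 1 + |f x|) (ENNReal.ofReal m) (volume.restrict Ω)) :
    ∃ θ > 0, ∃ b : Es N → ℝ, Measurable b ∧ (∃ M, ∀ x, |b x| ≤ M) ∧
      (∀ x, f x / (1 + |f x|) + θ ≤ b x) ∧
      ∀ i, ∫ x in Ω, b x * ((1 + |f x|) * φ i x) = 0 := by
  have F0 : ∀ x, 0 < 1 + |f x| := fun x => by positivity
  have Fm : Measurable fun x => 1 + |f x| := measurable_const.add hd.fm.abs
  obtain ⟨C1, -, h4⟩ := dual hp hΩ hm hF
  refine separate (ν := volume.restrict Ω) (ψ := fun i x => (1 + |f x|) * φ i x)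
    (f0 := fun x => f x / (1 + |f x|)) (fun i => ?_) (hd.fm.div Fm) ⟨1, fun x => ?_⟩
    fun t k1 k2 => ?_
  · exact (h4 (φ i) Ω (h1 i).1 hΩ.op.measurableSet hΩ.fin (h1 i).1.zero).1
  · rw [abs_div, abs_of_pos (F0 x), div_le_one (F0 x)]
    linarith
  · have e : ∀ x, ∑ i, t i * ((1 + |f x|) * φ i x) = (1 + |f x|) * ∑ i, t i * φ i x :=
      fun x => by
        rw [Finset.mul_sum]
        exact Finset.sum_congr rfl fun i _ => by ring
    have w := W0.sum hp.ha Finset.univ fun j _ => (h1 j).1.smul hp.ha (t j)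
    refine h2 t (by_contra fun k3 => hR (res_of hp hΩ w
      (cih4_sum hp hΩ hd.cm hd.cb Finset.univ t h1) ?_ k3 (k2.trans_eq ?_)))
    · filter_upwards [(ae_restrict_iff' hΩ.op.measurableSet).1 k1] with x hx
      by_cases hx' : x ∈ Ω
      · have := hx hx'
        rw [e] at this
        exact (mul_nonneg_iff_of_pos_left (F0 x)).1 this
      · exact (w.zero x hx').ge
    · refine integral_congr_ae (Eventually.of_forall fun x => ?_)
      simp only [e]
      rw [← mul_assoc, div_mul_cancel₀ _ (F0 x).ne']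

theorem lin_super (hp : Par N a s) (hΩ : Dom Ω) (hm : N / (2 * s) < m)
    (hd : Dat Ω m μ1 μ2 C c μ f) (hR : ¬ Res N a s Ω c f) : ∃ θ > 0, ∃ (K M : ℝ) (z h : Es N → ℝ),
      W0 a s Ω z ∧ (∀ x, |z x| ≤ M) ∧ Measurable h ∧ (∀ x, |h x| ≤ K * (1 + |f x|)) ∧
      (∀ x, f x + θ * (1 + |f x|) ≤ h x) ∧ VSol a s Ω z fun x => c x * z x + h x := by
  obtain ⟨n, φ, h1, h2, h3⟩ := fredholm hp hΩ hm hd.cm hd.cb
  have : IsFiniteMeasure (volume.restrict Ω) := isFiniteMeasure_restrict.2 hΩ.fin.ne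
  have hF : MemLp (fun x => 1 + |f x|) (ENNReal.ofReal m) (volume.restrict Ω) := by
    have k1 : MemLp (fun _ : Es N => (1 : ℝ)) (ENNReal.ofReal m) (volume.restrict Ω) :=
      memLp_const 1
    have k2 : MemLp (fun x => ‖f x‖) (ENNReal.ofReal m) (volume.restrict Ω) := hd.fp.norm
    exact k1.add k2
  have F0 : ∀ x, 0 < 1 + |f x| := fun x => by positivity
  have Fm : Measurable fun x => 1 + |f x| := measurable_const.add hd.fm.abs
  obtain ⟨θ, hθ, b, bm, ⟨K, hK⟩, hb, h5⟩ := cih4_sep hp hΩ hm hd hR h1 h2 hF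
  have hm' : Measurable fun x => b x * (1 + |f x|) := bm.mul Fm
  have hle : ∀ x, |b x * (1 + |f x|)| ≤ K * (1 + |f x|) := fun x => by
    rw [abs_mul, abs_of_pos (F0 x)]
    exact mul_le_mul_of_nonneg_right (hK x) (F0 x).le
  have hh : MemLp (fun x => b x * (1 + |f x|)) (ENNReal.ofReal m) (volume.restrict Ω) :=
    hF.of_le_mul (c := K) hm'.aestronglyMeasurable (Eventually.of_forall fun x => by
      rw [Real.norm_eq_abs, Real.norm_eq_abs, abs_of_pos (F0 x)]
      exact hle x)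
  obtain ⟨z, z1, z2⟩ := h3 _ hh fun i => by simpa only [mul_assoc] using h5 i
  obtain ⟨M, hM⟩ := stamp hp hΩ hm hd.cm hd.cb hh z1 z2
  have hz : ∀ᵐ x, max (-|M|) (min |M| (z x)) = z x := hM.mono fun x hx => by
    obtain ⟨k1, k2⟩ := abs_le.1 (hx.trans (le_abs_self M))
    rw [min_eq_right k2, max_eq_right k1]
  have w : W0 a s Ω fun x => max (-|M|) (min |M| (z x)) := by
    refine z1.comp hp.ha (Φ := fun p => max (-|M|) (min |M| p)) (L := 1) (fun p q => ?_) ?_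
    · rw [one_mul]
      exact (abs_max_sub_max_le_max _ _ _ _).trans (max_le (by simp)
        ((abs_min_sub_min_le_max _ _ _ _).trans (max_le (by simp) le_rfl)))
    · simp
  have w1 : ∀ x, |max (-|M|) (min |M| (z x))| ≤ |M| := fun x =>
    abs_le.2 ⟨le_max_left _ _, max_le (by linarith only [abs_nonneg M]) (min_le_left _ _)⟩
  have w2 : ∀ x, f x + θ * (1 + |f x|) ≤ b x * (1 + |f x|) := fun x => by
    have := mul_le_mul_of_nonneg_right (hb x) (F0 x).le
    rwa [add_mul, div_mul_cancel₀ _ (F0 x).ne'] at this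
  refine ⟨θ, hθ, K, |M|, _, _, w, w1, hm', hle, w2, fun η hη => ?_⟩
  refine (En_congr hz (Eventually.of_forall fun _ => rfl)).trans ((z2 η hη).trans ?_)
  exact integral_congr_ae (ae_restrict_of_ae (hz.mono fun x hx => by simp only [hx]))

end

end Pool.Agent.Work.MP_49e099_an
end

-- merged part: Pool.Agent.Work.MP_49e099_an.CI.C2
section
/-!
# The fractional Laplacian of a bounded `C²` function
`sec_diff`: `fderiv F` is `C¹`, hence Lipschitz on the compact convex set `closedBall 0 (R + 1)` (`ContDiffOn.exists_lipschitzOnWith`, or a bound of the second derivative and the mean value inequality); apply the mean value inequality to `h ↦ F (x + h) + F (x - h)`, whose derivative `DF (x + h) - DF (x - h)` has norm at most `2 L ‖h‖`.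
`sec_maj`: the majorant is `C ‖h‖^(2 - N - 2s)` on the unit ball and `4 M ‖h‖^(-N-2s)` outside (`ball_int`, `tail_int` at `x = 0`). `Lf_cont`: `continuousAt_of_dominated`. `Lf_has`: symmetrise the integral over `{ε < ‖x - y‖}` as in `Lk_sym`, then dominated convergence along `𝓝[>] 0` (`tendsto_integral_filter_of_dominated_convergence`). `Lk_Lf`, `Lk_loc`: `Lk_sym`, `KF.le`, `KF.lim`.
`Lk_maj`: if the support lies in `ball 0 R`, use `Lk_loc` for `‖x‖ < 2R`; otherwise `η x = 0`, `‖x - y‖ ≥ ‖x‖/2` on the support, so `|Lk η x| ≤ a (‖x‖/2)^(-N-2s) ∫ |η|`.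
-/

namespace Pool.Agent.Work.MP_49e099_an

open MeasureTheory Set Filter Topology Metric

noncomputable section

variable {N : ℕ} {a s : ℝ} {Ω : Set (Es N)}

variable {F : Es N → ℝ}

theorem sec_diff (hF : ContDiff ℝ 2 F) (R : ℝ) : ∃ C, ∀ x h : Es N, ‖x‖ ≤ R → ‖h‖ ≤ 1 →
    |F (x + h) + F (x - h) - 2 * F x| ≤ C * ‖h‖ ^ 2 := by
  obtain ⟨K, hK⟩ := (hF.fderiv_right (m := 1) (by norm_num)).contDiffOn.exists_lipschitzOnWith
    one_ne_zero (convex_closedBall 0 (R + 1)) (isCompact_closedBall _ _)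
  refine ⟨K * 2, fun x h hx hh => ?_⟩
  have hd := hF.differentiable two_ne_zero
  have h1 := (convex_closedBall (0 : Es N) ‖h‖).norm_image_sub_le_of_norm_hasFDerivWithin_le
    (f := fun y => F (x + y) + F (x - y)) (f' := fun y => fderiv ℝ F (x + y) - fderiv ℝ F (x - y))
    (C := K * (2 * ‖h‖)) (fun y _ => by
      have h2 := ((hd (x + y)).hasFDerivAt.comp y ((hasFDerivAt_id y).const_add x)).add
        ((hd (x - y)).hasFDerivAt.comp y ((hasFDerivAt_id y).const_sub x))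
      refine (h2.congr_fderiv ?_).hasFDerivWithinAt
      simp [sub_eq_add_neg])
    (fun y hy => by
      rw [mem_closedBall_zero_iff] at hy
      refine (hK.norm_sub_le (mem_closedBall_zero_iff.2 ((norm_add_le _ _).trans (by linarith only [hx, hh, hy])))
        (mem_closedBall_zero_iff.2 ((norm_sub_le _ _).trans (by linarith)))).trans ?_
      rw [add_sub_sub_cancel]
      gcongr
      linarith only [hy, norm_add_le y y])
    (mem_closedBall_self (norm_nonneg h)) (mem_closedBall_zero_iff.2 le_rfl)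
  simp only [add_zero, sub_zero, Real.norm_eq_abs, ← two_mul] at h1
  exact h1.trans_eq (by ring)

theorem cic2_N (hp : Par N a s) : 1 ≤ N ∧ (N : ℝ) < N + 2 * s :=
  ⟨one_le_two.trans hp.hN, by linarith only [hp, hp.hs]⟩

theorem sec_maj (hp : Par N a s) (hF : ContDiff ℝ 2 F) (hb : ∃ M, ∀ x, |F x| ≤ M) (R : ℝ) :
    ∃ Λ : Es N → ℝ, Integrable Λ ∧ ∀ x h : Es N, ‖x‖ ≤ R →
      |F (x + h) + F (x - h) - 2 * F x| / ‖h‖ ^ (N + 2 * s) ≤ Λ h := by
  obtain ⟨M, hM⟩ := hb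
  obtain ⟨C, hC⟩ := sec_diff hF R
  obtain ⟨_, -, h1⟩ := ball_int (cic2_N hp).1 (α := N + 2 * s - 2) (by linarith [hp.hs1])
  obtain ⟨_, -, h2⟩ := tail_int (cic2_N hp).1 (cic2_N hp).2
  refine ⟨_, ((IntegrableOn.integrable_indicator ((h1 0 1 one_pos).1.const_mul |C|)
    measurableSet_ball).add (IntegrableOn.integrable_indicator
      ((h2 0 1 one_pos).1.const_mul (4 * M)) measurableSet_ball.compl)), fun x h hx => ?_⟩
  rw [Pi.add_apply]
  by_cases k : h ∈ ball (0 : Es N) 1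
  · rw [indicator_of_mem k, indicator_of_notMem (notMem_compl_iff.2 k), add_zero, zero_sub,
      norm_neg]
    rcases eq_or_ne h 0 with rfl | h0
    · rw [add_zero, sub_zero, two_mul, sub_self, abs_zero, zero_div]
      positivity
    · rw [neg_sub, Real.rpow_sub (norm_pos_iff.2 h0), Real.rpow_two, ← mul_div_assoc]
      gcongr
      exact (hC x h hx (mem_ball_zero_iff.1 k).le).trans
        (mul_le_mul_of_nonneg_right (le_abs_self C) (sq_nonneg _))
  · rw [indicator_of_notMem k, indicator_of_mem (mem_compl k), zero_add, zero_sub, norm_neg,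
      Real.rpow_neg (norm_nonneg _), ← div_eq_mul_inv]
    gcongr
    have h3 := abs_le.1 (hM (x + h))
    have h4 := abs_le.1 (hM (x - h))
    have h5 := abs_le.1 (hM x)
    exact abs_le.2 ⟨by linarith only [h3, h4, h5], by linarith only [h3, h4, h5]⟩

theorem cic2_meas (hF : Continuous F) (x : Es N) :
    Measurable fun h : Es N => (F (x + h) + F (x - h) - 2 * F x) / ‖h‖ ^ (N + 2 * s) := by
  fun_prop

theorem Lf_cont (hp : Par N a s) (hF : ContDiff ℝ 2 F) (hb : ∃ M, ∀ x, |F x| ≤ M) :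
    Continuous (Lf a s F) := by
  refine continuous_const.mul (continuous_iff_continuousAt.2 fun x => ?_)
  obtain ⟨Λ, h1, h2⟩ := sec_maj hp hF hb (‖x‖ + 1)
  have hc := hF.continuous
  refine continuousAt_of_dominated
    (Eventually.of_forall fun y => (cic2_meas hc y).aestronglyMeasurable) ?_ h1
    (Eventually.of_forall fun h => by fun_prop)
  filter_upwards [continuous_norm.continuousAt.eventually_lt_const (lt_add_one ‖x‖)] with y hy
  refine Eventually.of_forall fun h => ?_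
  rw [Real.norm_eq_abs, abs_div, abs_of_nonneg (a := _ ^ _) (by positivity)]
  exact h2 y h hy.le

theorem cic2_bd {k : Es N → ℝ} (hk : Kn k)
    (hl : ∀ h, h ≠ 0 → k h ≤ a / ‖h‖ ^ (N + 2 * s)) (x h : Es N) :
    ‖(F (x + h) + F (x - h) - 2 * F x) * k h‖ ≤
      a * (|F (x + h) + F (x - h) - 2 * F x| / ‖h‖ ^ (N + 2 * s)) := by
  rcases eq_or_ne h 0 with rfl | h0
  · simp [two_mul]
  · rw [Real.norm_eq_abs, abs_mul, abs_of_nonneg (hk.nonneg h)]
    exact (mul_le_mul_of_nonneg_left (hl h h0) (abs_nonneg _)).trans_eq (by ring)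

theorem cic2_lim (hp : Par N a s) {ι : Type} {l : Filter ι} [l.IsCountablyGenerated]
    {k : ι → Es N → ℝ} (h1 : ∀ᶠ i in l, Kn (k i))
    (h2 : ∀ i h, h ≠ 0 → k i h ≤ a / ‖h‖ ^ (N + 2 * s))
    (h3 : ∀ h, h ≠ 0 → Tendsto (fun i => k i h) l (𝓝 (a / ‖h‖ ^ (N + 2 * s))))
    (hF : ContDiff ℝ 2 F) (hb : ∃ M, ∀ x, |F x| ≤ M) (x : Es N) :
    Tendsto (fun i => Lk (k i) F x) l (𝓝 (Lf a s F x)) := by
  obtain ⟨Λ, h4, h5⟩ := sec_maj hp hF hb ‖x‖
  have hc := hF.continuous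
  have h6 := (tendsto_integral_filter_of_dominated_convergence (l := l)
    (F := fun i h => (F (x + h) + F (x - h) - 2 * F x) * k i h)
    (f := fun h => a * ((F (x + h) + F (x - h) - 2 * F x) / ‖h‖ ^ (N + 2 * s))) _
    (h1.mono fun i hi => (Measurable.mul (by fun_prop) hi.meas).aestronglyMeasurable)
    (h1.mono fun i hi => Eventually.of_forall fun h => (cic2_bd hi (h2 i) x h).trans
      (mul_le_mul_of_nonneg_left (h5 x h le_rfl) hp.ha.le)) (h4.const_mul a)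
    (Eventually.of_forall fun h => by
      rcases eq_or_ne h 0 with rfl | h0
      · simpa [two_mul] using tendsto_const_nhds
      · rw [mul_div_left_comm]
        exact (h3 h h0).const_mul _)).const_mul (-(1 / 2))
  rw [integral_const_mul, ← mul_assoc, show -(1 / 2) * a = -(a / 2) by ring] at h6
  exact h6.congr' (h1.mono fun i hi => (Lk_sym hi ⟨hc.measurable, hb⟩ x).symm)

theorem cic2_tail (hp : Par N a s) (x : Es N) {ε : ℝ} (hε : 0 < ε) :
    IntegrableOn (fun y => (‖x - y‖ ^ (N + 2 * s))⁻¹) {y | ε < ‖x - y‖} := by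
  obtain ⟨_, -, h2⟩ := tail_int (cic2_N hp).1 (cic2_N hp).2
  simp only [← Real.rpow_neg (norm_nonneg _)]
  exact (h2 x ε hε).1.mono_set fun y hy k => by
    rw [mem_ball, dist_comm, dist_eq_norm] at k
    exact lt_asymm k hy

theorem Lf_has (hp : Par N a s) (hF : ContDiff ℝ 2 F) (hb : ∃ M, ∀ x, |F x| ≤ M) (x : Es N) :
    HasFracLap N a s F x (Lf a s F x) := by
  have hc := hF.continuous
  have hm : ∀ (x : Es N) (ε : ℝ), MeasurableSet {y | ε < ‖x - y‖} := fun x ε =>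
    measurableSet_lt measurable_const (by fun_prop)
  refine ⟨fun ε hε => ?_, ?_⟩
  · obtain ⟨M, hM⟩ := hb
    simp only [div_eq_mul_inv]
    exact Integrable.bdd_mul (c := M + M) (cic2_tail hp x hε)
      (by fun_prop : Continuous fun y => F x - F y).aestronglyMeasurable
      (Eventually.of_forall fun y => (abs_sub _ _).trans (add_le_add (hM x) (hM y)))
  · have h0 : ∀ h : Es N, 0 ≤ a / ‖h‖ ^ (N + 2 * s) := fun h =>
      div_nonneg hp.ha.le (by positivity)
    refine (cic2_lim hp (l := 𝓝[>] 0)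
      (k := fun ε h => if ε < ‖h‖ then a / ‖h‖ ^ (N + 2 * s) else 0) ?_
      (fun ε h _ => by split_ifs; exacts [le_rfl, h0 h]) (fun h k => ?_) hF hb x).congr fun ε => ?_
    · filter_upwards [self_mem_nhdsWithin] with ε hε
      refine ⟨Measurable.ite (measurableSet_lt measurable_const measurable_norm) (by fun_prop)
        measurable_const, ?_, fun h => by rw [norm_neg],
        fun h => by split_ifs; exacts [h0 h, le_rfl]⟩
      have h1 := IntegrableOn.integrable_indicator ((cic2_tail hp 0 hε).const_mul a) (hm 0 ε)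
      refine h1.congr (Eventually.of_forall fun h => ?_)
      simp only [indicator, mem_ofPred_eq, zero_sub, norm_neg, div_eq_mul_inv]
    · refine tendsto_const_nhds.congr' ?_
      filter_upwards [mem_nhdsWithin_of_mem_nhds (gt_mem_nhds (norm_pos_iff.2 k))] with ε hε
      rw [if_pos hε]
    · rw [Lk, ← integral_indicator (hm x ε), ← integral_const_mul]
      refine integral_congr_ae (Eventually.of_forall fun y => ?_)
      simp only [indicator, mem_ofPred_eq]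
      split_ifs
      exacts [by ring, by ring]

theorem Lk_Lf (hp : Par N a s) {k : ℕ → Es N → ℝ} (hk : KF a s k) (hF : ContDiff ℝ 2 F)
    (hb : ∃ M, ∀ x, |F x| ≤ M) (x : Es N) :
    Tendsto (fun n => Lk (k n) F x) atTop (𝓝 (Lf a s F x)) := by
  exact cic2_lim hp (Eventually.of_forall hk.kn) hk.le hk.lim hF hb x

theorem Lk_loc (hp : Par N a s) {k : ℕ → Es N → ℝ} (hk : KF a s k) (hF : ContDiff ℝ 2 F)
    (hb : ∃ M, ∀ x, |F x| ≤ M) (R : ℝ) : ∃ C, ∀ n x, ‖x‖ ≤ R → |Lk (k n) F x| ≤ C := by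
  obtain ⟨Λ, h1, h2⟩ := sec_maj hp hF hb R
  refine ⟨1 / 2 * ∫ h, a * Λ h, fun n x hx => ?_⟩
  rw [Lk_sym (hk.kn n) ⟨hF.continuous.measurable, hb⟩, abs_mul, abs_neg,
    abs_of_pos one_half_pos, ← Real.norm_eq_abs]
  refine mul_le_mul_of_nonneg_left (norm_integral_le_of_norm_le (h1.const_mul a)
    (Eventually.of_forall fun h => ?_)) one_half_pos.le
  exact (cic2_bd (hk.kn n) (hk.le n) x h).trans
    (mul_le_mul_of_nonneg_left (h2 x h hx) hp.ha.le)

theorem cic2_supp (hc : HasCompactSupport F) : ∃ R > 0, ∀ x, R ≤ ‖x‖ → F x = 0 := by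
  obtain ⟨R, h1, h2⟩ := hc.isBounded.subset_ball_lt 0 0
  exact ⟨R, h1, fun x hx => image_eq_zero_of_notMem_tsupport fun k =>
    (mem_ball_zero_iff.1 (h2 k)).not_ge hx⟩

theorem Lk_maj (hp : Par N a s) {k : ℕ → Es N → ℝ} (hk : KF a s k) (hF : ContDiff ℝ 2 F)
    (hc : HasCompactSupport F) : ∃ Λ : Es N → ℝ, Integrable Λ ∧ ∀ n x, |Lk (k n) F x| ≤ Λ x := by
  obtain ⟨R, h1, h2⟩ := cic2_supp hc
  obtain ⟨C, hC⟩ := Lk_loc hp hk hF (hF.continuous.bounded_above_of_compact_support hc) (2 * R)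
  obtain ⟨_, -, h3⟩ := tail_int (cic2_N hp).1 (cic2_N hp).2
  have hi := (hF.continuous.integrable_of_hasCompactSupport (μ := volume) hc).norm
  refine ⟨_, ((integrableOn_const (C := C) (s := ball (0 : Es N) (2 * R))
    measure_ball_lt_top.ne).integrable_indicator measurableSet_ball).add
    (IntegrableOn.integrable_indicator ((h3 0 (2 * R) (by positivity)).1.const_mul
      ((∫ y, ‖F y‖) * (a * 2 ^ (N + 2 * s)))) measurableSet_ball.compl), fun n x => ?_⟩
  rw [Pi.add_apply]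
  by_cases j : x ∈ ball (0 : Es N) (2 * R)
  · rw [indicator_of_mem j, indicator_of_notMem (notMem_compl_iff.2 j), add_zero]
    exact hC n x (mem_ball_zero_iff.1 j).le
  · rw [indicator_of_notMem j, indicator_of_mem (mem_compl j), zero_add, zero_sub, norm_neg,
      mul_assoc, ← integral_mul_const, ← Real.norm_eq_abs]
    rw [mem_ball_zero_iff, not_lt] at j
    refine norm_integral_le_of_norm_le (hi.mul_const _) (Eventually.of_forall fun y => ?_)
    rw [h2 x (by linarith only [h1, j]), zero_sub, norm_mul, norm_neg]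
    rcases le_or_gt R ‖y‖ with w | w
    · rw [h2 y w, norm_zero, zero_mul, zero_mul]
    · have h4 : ‖x‖ / 2 ≤ ‖x - y‖ := by linarith only [j, w, norm_sub_norm_le x y]
      have h5 : 0 < ‖x‖ / 2 := by linarith only [h1, j]
      refine mul_le_mul_of_nonneg_left ?_ (norm_nonneg _)
      rw [Real.norm_of_nonneg ((hk.kn n).nonneg _)]
      refine (hk.le n _ (norm_pos_iff.1 (h5.trans_le h4))).trans
        ((div_le_div_of_nonneg_left hp.ha.le (Real.rpow_pos_of_pos h5 _) (Real.rpow_le_rpow h5.le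
          h4 ((Nat.cast_nonneg N).trans (cic2_N hp).2.le))).trans_eq ?_)
      rw [Real.div_rpow (norm_nonneg _) zero_le_two, Real.rpow_neg (norm_nonneg _),
        div_div_eq_mul_div, div_eq_mul_inv]

theorem Sm.bs (h : Sm Ω F) : BS F := by
  exact ⟨⟨h.cd.continuous.measurable, h.cd.continuous.bounded_above_of_compact_support h.cs⟩,
    (cic2_supp h.cs).imp fun _ k => k.2⟩

theorem Sm.isTest (hp : Par N a s) (hΩ : Dom Ω) (h : Sm Ω F) : IsTest N a s Ω F (Lf a s F) := by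
  obtain ⟨M, hM⟩ := hΩ.bd.isCompact_closure.exists_bound_of_continuousOn
    (Lf_cont hp h.cd h.bs.bdd).continuousOn
  exact ⟨h.cd.continuous, fun x hx => image_eq_zero_of_notMem_tsupport fun k =>
    hx (subset_closure (h.sub k)), fun x _ => Lf_has hp h.cd h.bs.bdd x, M,
    fun x hx => hM x (subset_closure hx)⟩

/-- the pairing with a bounded function passes to the limit -/
theorem Lk_pair (hp : Par N a s) {k : ℕ → Es N → ℝ} (hk : KF a s k) (h : Sm Ω F) {v : Es N → ℝ}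
    (hv : BM v) : Integrable (Lf a s F) ∧
      Tendsto (fun n => ∫ x, F x * Lk (k n) v x) atTop (𝓝 (∫ x, v x * Lf a s F x)) := by
  obtain ⟨Λ, h1, h2⟩ := Lk_maj hp hk h.cd h.cs
  obtain ⟨M, hM⟩ := hv.bdd
  have h3 := Lk_Lf hp hk h.cd h.bs.bdd
  refine ⟨h1.mono' (Lf_cont hp h.cd h.bs.bdd).aestronglyMeasurable
    (Eventually.of_forall fun x => le_of_tendsto' (h3 x).abs fun n => h2 n x), ?_⟩
  refine (tendsto_integral_of_dominated_convergence _
    (fun n => (hv.meas.mul (Lk_bm (hk.kn n) h.bs.toBM).meas).aestronglyMeasurable)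
    (h1.const_mul M) (fun n => Eventually.of_forall fun x => ?_)
    (Eventually.of_forall fun x => (h3 x).const_mul (v x))).congr fun n => ?_
  · rw [Pi.mul_apply, Real.norm_eq_abs, abs_mul]
    exact mul_le_mul (hM x) (h2 n x) (abs_nonneg _) ((abs_nonneg _).trans (hM x))
  · exact (Lk_dual (hk.kn n) hv h.bs).2.trans (Lk_dual (hk.kn n) hv h.bs).1.symm

end

end Pool.Agent.Work.MP_49e099_an
end

-- merged part: Pool.Agent.Work.MP_49e099_an.CI.G4
section
/-!
# The approximate identity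
`hi_set`: Fubini on `A × Ioi 0` (`gp_int`, `hw_int`, `hw_nonneg`). `gp_conc`: substitute `y = √τ • z` (`Measure.integral_comp_smul`), or Chebyshev: on `‖y‖ ≥ δ`, `gp τ y ≤ 2^(N/2) exp (-δ²/(2τ)) gp (2τ) y`.
`hi_ai`: substitute `u = t v` (`integral_comp_mul_left_Ioi`, `hw s t (t v) = hw s 1 v / t`) and use dominated convergence with majorant `hw s 1`.
-/

namespace Pool.Agent.Work.MP_49e099_an

open MeasureTheory Set Filter Topology Metric

noncomputable section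

variable {N : ℕ} {a s : ℝ} {Ω : Set (Es N)}

theorem cig4_s (hp : Par N a s) : 0 < s := lt_trans (by norm_num) hp.hs

theorem cig4_hw (s t : ℝ) : Measurable (hw s t) := by
  unfold hw
  fun_prop

theorem cig4_meas (s t : ℝ) : Measurable fun p : Es N × ℝ => gp p.2 p.1 * hw s t p.2 :=
  (gp_meas.comp measurable_swap).mul ((cig4_hw s t).comp measurable_snd)

theorem cig4_int (hp : Par N a s) {t : ℝ} (ht : 0 < t) :
    Integrable (fun p : Es N × ℝ => gp p.2 p.1 * hw s t p.2)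
      (volume.prod (volume.restrict (Ioi 0))) := by
  rw [integrable_prod_iff' (cig4_meas s t).aestronglyMeasurable]
  constructor
  · filter_upwards [ae_restrict_mem measurableSet_Ioi] with u hu
    exact (gp_int hu).1.mul_const _
  · refine (hw_int (cig4_s hp) hp.hs1 ht).1.congr ?_
    filter_upwards [ae_restrict_mem measurableSet_Ioi] with u hu
    have e : ∀ x : Es N, ‖gp u x * hw s t u‖ = gp u x * hw s t u := fun x =>
      Real.norm_of_nonneg (mul_nonneg (gp_pos hu x).le (hw_nonneg (cig4_s hp) ht hu))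
    simp only [e]
    rw [integral_mul_const, (gp_int hu).2, one_mul]

theorem hi_kn (hp : Par N a s) {t : ℝ} (ht : 0 < t) : Kn (hi (N := N) s t) := by
  have hm0 := (hw_int (cig4_s hp) hp.hs1 ht).2.2
  refine ⟨?_, (cig4_int hp ht).integral_prod_left.div_const _, fun h => ?_, fun h => ?_⟩
  · exact ((cig4_meas (N := N) s t).stronglyMeasurable.integral_prod_right'
      (ν := volume.restrict (Ioi 0))).measurable.div_const _
  · simp only [hi, gp, norm_neg]
  · exact div_nonneg (setIntegral_nonneg measurableSet_Ioi fun u hu =>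
      mul_nonneg (gp_pos hu h).le (hw_nonneg (cig4_s hp) ht hu)) hm0.le

theorem hi_set (hp : Par N a s) {t : ℝ} (ht : 0 < t) {A : Set (Es N)} (hA : MeasurableSet A) :
    ∫ y in A, hi s t y = (∫ u in Ioi 0, (∫ y in A, gp u y) * hw s t u) / hm s := by
  have hI : Integrable (Function.uncurry fun (y : Es N) (u : ℝ) => gp u y * hw s t u)
      ((volume.restrict A).prod (volume.restrict (Ioi 0))) := by
    rw [Measure.restrict_prod_eq_prod_univ]
    exact (cig4_int hp ht).integrableOn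
  have _ := hA
  unfold hi
  rw [integral_div, integral_integral_swap hI]
  simp only [integral_mul_const]

theorem cig4_cheb {δ τ : ℝ} (hδ : 0 < δ) (hτ : 0 < τ) {y : Es N} (hy : δ ≤ ‖y‖) :
    gp τ y ≤ (2 : ℝ) ^ ((N : ℝ) / 2) * Real.exp (-(δ ^ 2 / 2 * τ⁻¹)) * gp (2 * τ) y := by
  unfold gp
  have e1 : (Real.pi * (2 * τ)) ^ (-((N : ℝ) / 2)) =
      (2 : ℝ) ^ (-((N : ℝ) / 2)) * (Real.pi * τ) ^ (-((N : ℝ) / 2)) := by
    rw [← Real.mul_rpow (by norm_num) (by positivity)]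
    congr 1
    ring
  have e2 : (2 : ℝ) ^ ((N : ℝ) / 2) * (2 : ℝ) ^ (-((N : ℝ) / 2)) = 1 := by
    rw [← Real.rpow_add (by norm_num)]
    simp
  have e3 : Real.exp (-(‖y‖ ^ 2 / τ)) ≤
      Real.exp (-(δ ^ 2 / 2 * τ⁻¹)) * Real.exp (-(‖y‖ ^ 2 / (2 * τ))) := by
    rw [← Real.exp_add]
    refine Real.exp_le_exp.mpr ?_
    have h1 : δ ^ 2 ≤ ‖y‖ ^ 2 := pow_le_pow_left₀ hδ.le hy 2
    have h2 : δ ^ 2 / 2 * τ⁻¹ ≤ ‖y‖ ^ 2 / 2 * τ⁻¹ :=
      mul_le_mul_of_nonneg_right (by linarith only [h1]) (by positivity)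
    have h3 : ‖y‖ ^ 2 / (2 * τ) = ‖y‖ ^ 2 / 2 * τ⁻¹ := by field_simp
    have h4 : ‖y‖ ^ 2 / τ = 2 * (‖y‖ ^ 2 / 2 * τ⁻¹) := by field_simp
    linarith only [h2, h3, h4]
  have hP : 0 ≤ (Real.pi * τ) ^ (-((N : ℝ) / 2)) := by positivity
  rw [e1]
  calc _ ≤ (Real.pi * τ) ^ (-((N : ℝ) / 2)) *
        (Real.exp (-(δ ^ 2 / 2 * τ⁻¹)) * Real.exp (-(‖y‖ ^ 2 / (2 * τ)))) :=
        mul_le_mul_of_nonneg_left e3 hP
    _ = ((2 : ℝ) ^ ((N : ℝ) / 2) * (2 : ℝ) ^ (-((N : ℝ) / 2))) * ((Real.pi * τ) ^ (-((N : ℝ) / 2)) *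
        (Real.exp (-(δ ^ 2 / 2 * τ⁻¹)) * Real.exp (-(‖y‖ ^ 2 / (2 * τ))))) := by
        rw [e2, one_mul]
    _ = _ := by ring

theorem cig4_g0 {τ : ℝ} (hτ : 0 < τ) (A : Set (Es N)) : 0 ≤ ∫ y in A, gp τ y :=
  integral_nonneg fun y => (gp_pos hτ y).le

theorem cig4_g1 {τ : ℝ} (hτ : 0 < τ) (A : Set (Es N)) : ∫ y in A, gp τ y ≤ 1 := by
  rw [← (gp_int (N := N) hτ).2]
  exact setIntegral_le_integral (gp_int hτ).1 (Eventually.of_forall fun y => (gp_pos hτ y).le)

theorem gp_conc {δ : ℝ} (hδ : 0 < δ) :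
    Tendsto (fun τ => ∫ y in (ball (0 : Es N) δ)ᶜ, gp τ y) (𝓝[>] 0) (𝓝 0) := by
  have h1 : Tendsto (fun τ : ℝ => (2 : ℝ) ^ ((N : ℝ) / 2) * Real.exp (-(δ ^ 2 / 2 * τ⁻¹)))
      (𝓝[>] 0) (𝓝 0) := by
    have h2 : Tendsto (fun τ : ℝ => δ ^ 2 / 2 * τ⁻¹) (𝓝[>] 0) atTop :=
      tendsto_inv_nhdsGT_zero.const_mul_atTop (by positivity)
    simpa using (Real.tendsto_exp_neg_atTop_nhds_zero.comp h2).const_mul ((2 : ℝ) ^ ((N : ℝ) / 2))
  refine squeeze_zero' ?_ ?_ h1
  · filter_upwards [self_mem_nhdsWithin] with τ hτ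
    exact cig4_g0 hτ _
  · filter_upwards [self_mem_nhdsWithin] with τ hτ
    have hτ' : 0 < τ := hτ
    have h2 : 0 < 2 * τ := by positivity
    calc ∫ y in (ball (0 : Es N) δ)ᶜ, gp τ y
        ≤ ∫ y in (ball (0 : Es N) δ)ᶜ,
          (2 : ℝ) ^ ((N : ℝ) / 2) * Real.exp (-(δ ^ 2 / 2 * τ⁻¹)) * gp (2 * τ) y := by
          refine setIntegral_mono_on (gp_int hτ').1.integrableOn
            ((gp_int h2).1.const_mul _).integrableOn measurableSet_ball.compl fun y hy => ?_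
          refine cig4_cheb hδ hτ' ?_
          simpa using hy
      _ = (2 : ℝ) ^ ((N : ℝ) / 2) * Real.exp (-(δ ^ 2 / 2 * τ⁻¹)) *
          ∫ y in (ball (0 : Es N) δ)ᶜ, gp (2 * τ) y := integral_const_mul _ _
      _ ≤ _ := mul_le_of_le_one_right (by positivity) (cig4_g1 h2 _)

theorem cig4_scale {t v : ℝ} (ht : 0 < t) (hv : 0 < v) : t * hw s t (t * v) = hw s 1 v := by
  unfold hw
  have e1 : max (t * v - t) 0 = t * max (v - 1) 0 := by
    rw [mul_max_of_nonneg _ _ ht.le, mul_zero, mul_sub, mul_one]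
  have e2 : t ^ (-s) * t ^ s = 1 := by
    rw [← Real.rpow_add ht]
    simp
  rw [e1, Real.mul_rpow ht.le hv.le, Real.mul_rpow ht.le (le_max_right _ _), Real.one_rpow]
  calc t * (t ^ (-s) * (t ^ s * v ^ s - t ^ s * max (v - 1) 0 ^ s) / (s * (t * v)))
      = (t ^ (-s) * t ^ s) * (t * t⁻¹) * ((v ^ s - max (v - 1) 0 ^ s) / (s * v)) := by ring
    _ = _ := by
      rw [e2, mul_inv_cancel₀ ht.ne']
      ring

theorem cig4_sub (g : ℝ → ℝ) {t : ℝ} (ht : 0 < t) :
    ∫ u in Ioi 0, g u * hw s t u = ∫ v in Ioi 0, g (t * v) * hw s 1 v := by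
  have h := integral_comp_mul_left_Ioi (fun u => g u * hw s t u) 0 ht
  rw [mul_zero, smul_eq_mul] at h
  have e : ∫ u in Ioi 0, g u * hw s t u = t * ∫ v in Ioi 0, g (t * v) * hw s t (t * v) := by
    rw [h, ← mul_assoc, mul_inv_cancel₀ ht.ne', one_mul]
  rw [e, ← integral_const_mul]
  refine setIntegral_congr_fun measurableSet_Ioi fun v hv => ?_
  show t * (g (t * v) * hw s t (t * v)) = g (t * v) * hw s 1 v
  rw [← cig4_scale ht hv]
  ring

theorem hi_ai (hp : Par N a s) : AI (N := N) fun n => hi s (1 / ((n : ℝ) + 1)) := by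
  have ht : ∀ n : ℕ, (0 : ℝ) < 1 / ((n : ℝ) + 1) := fun n => by positivity
  have hs := cig4_s hp
  refine ⟨fun n => hi_kn hp (ht n), fun n => ?_, fun δ hδ => ?_⟩
  · have h := hi_set hp (ht n) MeasurableSet.univ
    simp only [Measure.restrict_univ] at h
    have h2 := hw_int hs hp.hs1 (ht n)
    rw [h, div_eq_one_iff_eq h2.2.2.ne', ← h2.2.1]
    refine setIntegral_congr_fun measurableSet_Ioi fun u hu => ?_
    show (∫ y : Es N, gp u y) * hw s _ u = hw s _ u
    rw [(gp_int hu).2, one_mul]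
  · have hg : Measurable fun u : ℝ => ∫ y in (ball (0 : Es N) δ)ᶜ, gp u y :=
      ((gp_meas (N := N)).stronglyMeasurable.integral_prod_right'
        (ν := volume.restrict (ball (0 : Es N) δ)ᶜ)).measurable
    have e : ∀ n : ℕ, ∫ y in (ball (0 : Es N) δ)ᶜ, hi s (1 / ((n : ℝ) + 1)) y =
        (∫ v in Ioi 0, (∫ y in (ball (0 : Es N) δ)ᶜ, gp (1 / ((n : ℝ) + 1) * v) y) * hw s 1 v) /
          hm s := fun n => by
      rw [hi_set hp (ht n) measurableSet_ball.compl,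
        cig4_sub (fun u => ∫ y in (ball (0 : Es N) δ)ᶜ, gp u y) (ht n)]
    simp only [e]
    have h := tendsto_integral_of_dominated_convergence (μ := volume.restrict (Ioi (0 : ℝ)))
      (F := fun (n : ℕ) (v : ℝ) =>
        (∫ y in (ball (0 : Es N) δ)ᶜ, gp (1 / ((n : ℝ) + 1) * v) y) * hw s 1 v)
      (f := fun _ => (0 : ℝ)) (hw s 1)
      (fun n => ((hg.comp (measurable_const_mul _)).mul (cig4_hw s 1)).aestronglyMeasurable)
      (hw_int hs hp.hs1 one_pos).1
      (fun n => by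
        filter_upwards [ae_restrict_mem measurableSet_Ioi] with v hv
        have h0 := mul_pos (ht n) hv
        have h1 := hw_nonneg hs one_pos hv
        rw [Real.norm_of_nonneg (mul_nonneg (cig4_g0 h0 _) h1)]
        exact mul_le_of_le_one_left h1 (cig4_g1 h0 _))
      (by
        filter_upwards [ae_restrict_mem measurableSet_Ioi] with v hv
        have h1 : Tendsto (fun n : ℕ => 1 / ((n : ℝ) + 1) * v) atTop (𝓝[>] 0) := by
          refine tendsto_nhdsWithin_iff.mpr ⟨?_, Eventually.of_forall fun n => mul_pos (ht n) hv⟩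
          have h2 := (tendsto_one_div_add_atTop_nhds_zero_nat (𝕜 := ℝ)).mul_const v
          rwa [zero_mul] at h2
        have h2 := (((gp_conc (N := N) hδ).comp h1).mul_const (hw s 1 v))
        rwa [zero_mul] at h2)
    have h2 := h.div_const (hm s)
    rwa [integral_zero, zero_div] at h2

theorem exists_heat (hp : Par N a s) : ∃ (c0 : ℝ) (k κ : ℕ → Es N → ℝ), Heat a s c0 k κ := by
  have ht : ∀ n : ℕ, (0 : ℝ) < 1 / ((n : ℝ) + 1) := fun n => by positivity
  refine ⟨_, _, _, hk_kf hp, hi_ai hp, ?_, fun n => hk_bdd hp (ht n),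
    fun ξ x v hξ h => hk_pv hp hξ h, fun n x hx => hk_fund hp (ht n) hx⟩
  have h1 : (2 : ℝ) ≤ N := by exact_mod_cast hp.hN
  have h2 : 0 < Real.Gamma ((N : ℝ) / 2 - s) := Real.Gamma_pos_of_pos (by linarith only [h1, hp, hp.hs1])
  have h3 := hA_pos hp
  have h4 := (hw_int (cig4_s hp) hp.hs1 one_pos).2.2
  have h5 := Real.pi_pos
  positivity

end

end Pool.Agent.Work.MP_49e099_an
end

-- merged part: Pool.Agent.Work.MP_49e099_an.CI.P1
section
/-!
# The compactly supported parametrix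
Let `b : ContDiffBump 0` with `rIn = R/2`, `rOut = R`, `β = N - 2s`; `kR = b * rz`, `F = (1 - b) * rz`, so `kR = rz - F` everywhere.
`bump_diff`: `m x = max ‖x‖ l` (`l = 0` allowed when `x, x' ≠ 0`). By symmetry let `‖x'‖ ≤ ‖x‖`; if `R ≤ ‖x'‖` both terms vanish; otherwise `b x m^(-β) - b x' m'^(-β) = b x (m^(-β) - m'^(-β)) + (b x - b x') m'^(-β)`, `rpow_diff`, `|m - m'| ≤ ‖x - x'‖`, `m'^(-β) = m' m'^(-β-1) ≤ R m'^(-β-1)`.
`far_smooth`: near `0` the function vanishes; elsewhere `ContDiffAt.rpow_const_of_ne`, `contDiffAt_norm`.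
`cut_weak`: `V = conv kR σ` is Lipschitz with bounded support (`Gk.conv_lip`, `W0.of_lip` on a large ball), `En φ V = lim ∫ φ Lk (k n) V` (`Ek_lim`, `Lk_dual`, `En_comm`), `Lk_conv`, and `Lk (k n) kR z = κ n z - Lk (k n) F z` for `z ≠ 0` (`Lk_sub`, `Gk.int_k`, `Heat.fund`). So `Lk (k n) V x = conv (κ n) σ x - conv (Lk (k n) F) σ x`; `ai_weak`; dominated convergence twice (`Lk_Lf`, `Lk_loc` with radius `2 ρ0`).
`exists_cut`: `q = -(Lf F) b'` with a bump `b' = 1` on `closedBall 0 (2 ρ0)` (`Lf_cont`, `HasCompactSupport.uniformContinuous_of_continuous`); `kf x = b x * c0 * max ‖x‖ l ^ (-β)`.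
-/

namespace Pool.Agent.Work.MP_49e099_an

open MeasureTheory Set Filter Topology Metric

noncomputable section

variable {N : ℕ} {a s : ℝ} {Ω : Set (Es N)}

theorem cip1_one {β R L p q u v d : ℝ} (hβ : 0 < β) (hR : 0 < R) (hu : 0 < u) (hv : 0 < v)
    (hvR : v ≤ R) (p0 : 0 ≤ p) (p1 : p ≤ 1) (hd : |u - v| ≤ d) (hL : |p - q| ≤ L * d) :
    |p * u ^ (-β) - q * v ^ (-β)| ≤ (β + |L| * R) * d * (u ^ (-β - 1) + v ^ (-β - 1)) := by
  have d0 : 0 ≤ d := (abs_nonneg _).trans hd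
  have hU : 0 < u ^ (-β - 1) := Real.rpow_pos_of_pos hu _
  have hV : 0 < v ^ (-β - 1) := Real.rpow_pos_of_pos hv _
  have h1 : |p * (u ^ (-β) - v ^ (-β))| ≤ β * d * (u ^ (-β - 1) + v ^ (-β - 1)) := by
    rw [abs_mul, abs_of_nonneg p0]
    refine (mul_le_of_le_one_left (abs_nonneg _) p1).trans ((rpow_diff hβ.le hu hv).trans ?_)
    gcongr
  have e : v ^ (-β) = v * v ^ (-β - 1) := by
    rw [Real.rpow_sub_one hv.ne']
    field_simp
  have h2 : |(p - q) * v ^ (-β)| ≤ |L| * R * d * (u ^ (-β - 1) + v ^ (-β - 1)) := by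
    rw [abs_mul, abs_of_pos (Real.rpow_pos_of_pos hv _), e]
    have h3 : |p - q| ≤ |L| * d := hL.trans (mul_le_mul_of_nonneg_right (le_abs_self L) d0)
    calc |p - q| * (v * v ^ (-β - 1)) ≤ |L| * d * (R * (u ^ (-β - 1) + v ^ (-β - 1))) := by
          gcongr
          linarith
      _ = _ := by ring
  calc |p * u ^ (-β) - q * v ^ (-β)|
      = |p * (u ^ (-β) - v ^ (-β)) + (p - q) * v ^ (-β)| := by congr 1; ring
    _ ≤ _ := (abs_add_le _ _).trans (add_le_add h1 h2)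
    _ = _ := by ring


theorem bump_diff (hp : Par N a s) {R : ℝ} {b : Es N → ℝ} {L : ℝ} (hR : 0 < R)
    (h01 : ∀ x, 0 ≤ b x ∧ b x ≤ 1) (h0 : ∀ x, R ≤ ‖x‖ → b x = 0)
    (hL : ∀ x x', |b x - b x'| ≤ L * ‖x - x'‖) : ∃ A > 0, ∀ (l : ℝ) (x x' : Es N), l ≤ R →
      0 < max ‖x‖ l → 0 < max ‖x'‖ l →
      |b x * max ‖x‖ l ^ (-((N : ℝ) - 2 * s)) - b x' * max ‖x'‖ l ^ (-((N : ℝ) - 2 * s))| ≤
        A * ‖x - x'‖ *
          (max ‖x‖ l ^ (-((N : ℝ) - 2 * s) - 1) + max ‖x'‖ l ^ (-((N : ℝ) - 2 * s) - 1)) := by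
  have hβ := (cia6_exp hp).1
  refine ⟨(N : ℝ) - 2 * s + |L| * R, by positivity, fun l x x' hl h1 h2 => ?_⟩
  have key : ∀ x x' : Es N, 0 < max ‖x‖ l → 0 < max ‖x'‖ l → ‖x'‖ < R →
      |b x * max ‖x‖ l ^ (-((N : ℝ) - 2 * s)) - b x' * max ‖x'‖ l ^ (-((N : ℝ) - 2 * s))| ≤
        ((N : ℝ) - 2 * s + |L| * R) * ‖x - x'‖ *
          (max ‖x‖ l ^ (-((N : ℝ) - 2 * s) - 1) + max ‖x'‖ l ^ (-((N : ℝ) - 2 * s) - 1)) :=
    fun x x' h1 h2 h3 => cip1_one hβ hR h1 h2 (max_le h3.le hl) (h01 x).1 (h01 x).2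
      ((abs_max_sub_max_le_abs _ _ _).trans (abs_norm_sub_norm_le _ _)) (hL x x')
  rcases lt_or_ge ‖x'‖ R with h3 | h3
  · exact key x x' h1 h2 h3
  rcases lt_or_ge ‖x‖ R with h4 | h4
  · rw [abs_sub_comm, norm_sub_rev, add_comm (max ‖x‖ l ^ _)]
    exact key x' x h2 h1 h4
  · rw [h0 x h4, h0 x' h3, zero_mul, zero_mul, sub_zero, abs_zero]
    positivity

theorem far_smooth (hp : Par N a s) (c0 : ℝ) (b : ContDiffBump (0 : Es N)) :
    ContDiff ℝ 2 (fun x => (1 - b x) * rz c0 s x) ∧ ∃ M, ∀ x, |(1 - b x) * rz c0 s x| ≤ M := by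
  have hβ := (cia6_exp hp).1
  have hr := b.rIn_pos
  refine ⟨contDiff_iff_contDiffAt.2 fun x => ?_, |c0| * b.rIn ^ (-((N : ℝ) - 2 * s)), fun x => ?_⟩
  · by_cases hx : x ∈ ball (0 : Es N) b.rIn
    · refine (contDiffAt_const (c := 0)).congr_of_eventuallyEq ?_
      filter_upwards [b.eventuallyEq_one_of_mem_ball hx] with y hy
      rw [hy, Pi.one_apply, sub_self, zero_mul]
    · have h0 : x ≠ 0 := fun e => hx (by rw [e]; exact mem_ball_self hr)
      exact (contDiffAt_const.sub b.contDiff.contDiffAt).mul (contDiffAt_const.mul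
        ((contDiffAt_norm ℝ h0).rpow_const_of_ne (norm_ne_zero_iff.2 h0)))
  · rcases le_total ‖x‖ b.rIn with h | h
    · rw [b.one_of_mem_closedBall (mem_closedBall_zero_iff.2 h), sub_self, zero_mul, abs_zero]
      positivity
    · rw [abs_mul, rz, abs_mul, abs_of_nonneg (Real.rpow_nonneg (norm_nonneg x) _),
        abs_of_nonneg (sub_nonneg.2 b.le_one)]
      refine (mul_le_of_le_one_left (by positivity) (sub_le_self _ b.nonneg)).trans ?_
      exact mul_le_mul_of_nonneg_left (Real.rpow_le_rpow_of_nonpos hr h (by linarith))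
        (abs_nonneg _)

theorem cip1_int {φ g : Es N → ℝ} (hφ : BS φ) (hg : BM g) : Integrable fun x => φ x * g x := by
  obtain ⟨M, hM⟩ := hg.bdd
  exact hφ.int.mul_bdd hg.meas.aestronglyMeasurable (ae_of_all _ hM)

theorem cip1_lim {ρ0 C : ℝ} {g : ℕ → Es N → ℝ} {q σ φ : Es N → ℝ} (hg : ∀ n, BM (g n))
    (hC : ∀ n z, ‖z‖ ≤ 2 * ρ0 → |g n z| ≤ C)
    (hq : ∀ z, ‖z‖ ≤ 2 * ρ0 → Tendsto (fun n => g n z) atTop (𝓝 (-q z))) (hσ : BS σ)
    (hσ0 : ∀ x, ρ0 ≤ ‖x‖ → σ x = 0) (hφ : BS φ) (hφ0 : ∀ x, ρ0 ≤ ‖x‖ → φ x = 0) :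
    Integrable (fun x => φ x * conv q σ x) ∧
      Tendsto (fun n => ∫ x, φ x * conv (g n) σ x) atTop (𝓝 (-∫ x, φ x * conv q σ x)) := by
  have hn : ∀ x y : Es N, ‖x‖ < ρ0 → ‖y‖ < ρ0 → ‖x - y‖ ≤ 2 * ρ0 := fun x y h1 h2 =>
    (norm_sub_le x y).trans (by linarith)
  have hb : ∀ n (x : Es N), ‖x‖ < ρ0 → ∀ y, ‖g n (x - y) * σ y‖ ≤ C * ‖σ y‖ := by
    intro n x hx y
    rcases lt_or_ge ‖y‖ ρ0 with h | h
    · rw [norm_mul]
      exact mul_le_mul_of_nonneg_right (hC n _ (hn x y hx h)) (norm_nonneg _)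
    · simp [hσ0 y h]
  have hi : Integrable fun y => C * ‖σ y‖ := hσ.int.norm.const_mul C
  have h1 : ∀ x, Tendsto (fun n => φ x * conv (g n) σ x) atTop (𝓝 (-(φ x * conv q σ x))) := by
    intro x
    rcases lt_or_ge ‖x‖ ρ0 with hx | hx
    · rw [← mul_neg]
      refine Tendsto.const_mul _ ?_
      unfold conv
      rw [← integral_neg]
      refine tendsto_integral_of_dominated_convergence _
        (fun n => cia6_sm (hg n).meas hσ.meas x) hi (fun n => ae_of_all _ (hb n x hx))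
        (ae_of_all _ fun y => ?_)
      rcases lt_or_ge ‖y‖ ρ0 with h | h
      · rw [← neg_mul]
        exact (hq _ (hn x y hx h)).mul_const _
      · simp [hσ0 y h]
    · simp [hφ0 x hx]
  have h2 : ∀ n x, ‖φ x * conv (g n) σ x‖ ≤ ‖φ x‖ * ∫ y, C * ‖σ y‖ := by
    intro n x
    rcases lt_or_ge ‖x‖ ρ0 with hx | hx
    · rw [norm_mul]
      exact mul_le_mul_of_nonneg_left
        (norm_integral_le_of_norm_le hi (ae_of_all _ (hb n x hx))) (norm_nonneg _)
    · simp [hφ0 x hx]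
  have h3 : ∀ n, AEStronglyMeasurable (fun x => φ x * conv (g n) σ x) volume := fun n =>
    (cip1_int hφ ((hg n).conv hσ)).aestronglyMeasurable
  have h4 : Integrable fun x => ‖φ x‖ * ∫ y, C * ‖σ y‖ := hφ.int.norm.mul_const _
  refine ⟨integrable_neg_iff.1 (h4.mono' (aestronglyMeasurable_of_tendsto_ae atTop h3
    (ae_of_all _ h1)) (ae_of_all _ fun x => le_of_tendsto' (h1 x).norm fun n => h2 n x)), ?_⟩
  rw [← integral_neg]
  exact tendsto_integral_of_dominated_convergence _ h3 h4 (fun n => ae_of_all _ (h2 n))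
    (ae_of_all _ h1)


theorem cut_weak (hp : Par N a s) {c0 A R ρ0 : ℝ} {k κ : ℕ → Es N → ℝ} (h : Heat a s c0 k κ)
    {kR F q : Es N → ℝ} (hG : Gk s A kR) (hout : ∀ x, R ≤ ‖x‖ → kR x = 0)
    (hF : ContDiff ℝ 2 F) (hb : ∃ M, ∀ x, |F x| ≤ M) (hs : ∀ x, kR x = rz c0 s x - F x)
    (hq : ∀ z, ‖z‖ ≤ 2 * ρ0 → q z = -Lf a s F z) {σ φ : Es N → ℝ} (hσ : BM σ)
    (hσ0 : ∀ x, ρ0 ≤ ‖x‖ → σ x = 0) (hc : Continuous φ) (hφ0 : ∀ x, ρ0 ≤ ‖x‖ → φ x = 0)
    (hφ : FE a s φ) : En N a s φ (conv kR σ) = ∫ x, φ x * (σ x + conv q σ x) := by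
  have bσ : BS σ := ⟨hσ, ρ0, hσ0⟩
  have bφ : BS φ := ⟨⟨hc.measurable, cia4_bdd (Ω := ball 0 ρ0) ⟨isOpen_ball, isBounded_ball⟩ hc
    fun x hx => hφ0 x (not_lt.1 (mt mem_ball_zero_iff.2 hx))⟩, ρ0, hφ0⟩
  have bF : BM F := ⟨hF.continuous.measurable, hb⟩
  obtain ⟨bV, -, L, hL⟩ := hG.conv_lip hp bσ
  have hV : FE a s (conv kR σ) := by
    refine (W0.of_lip (Ω := ball 0 (R + ρ0)) hp ⟨isOpen_ball, isBounded_ball⟩ hL
      fun x hx => ?_).1.toFE
    have h1 : R + ρ0 ≤ ‖x‖ := not_lt.1 (mt mem_ball_zero_iff.2 hx)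
    refine integral_eq_zero_of_ae (ae_of_all _ fun y => ?_)
    rcases lt_or_ge ‖y‖ ρ0 with h2 | h2
    · have h3 := norm_sub_norm_le x y
      simp [hout (x - y) (by linarith)]
    · simp [hσ0 y h2]
  obtain ⟨C, hC⟩ := Lk_loc hp h.kf hF hb (2 * ρ0)
  obtain ⟨i1, t1⟩ := cip1_lim (q := q) (fun n => Lk_bm (h.kf.kn n) bF) hC
    (fun z hz => by rw [hq z hz, neg_neg]; exact Lk_Lf hp h.kf hF hb z) bσ hσ0 bφ hφ0
  have t2 := (ai_weak h.ai bφ hc bσ).sub t1
  have t3 := Ek_lim hp.ha h.kf hV hφ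
  have e1 : ∀ n z, z ≠ 0 → Lk (k n) kR z = κ n z - Lk (k n) F z := fun n z hz => by
    obtain ⟨C', hC'⟩ := (gk_rz hp h.pos).int_k hp (h.kf.kn n) (h.bdd n)
    rw [funext hs, Lk_sub (h.kf.kn n) (hC' z).1 (bF.int_k (h.kf.kn n) z), h.fund n z hz]
  have e2 : ∀ n x, Lk (k n) (conv kR σ) x = conv (κ n) σ x - conv (Lk (k n) F) σ x := by
    intro n x
    obtain ⟨M, hM⟩ := hσ.bdd
    rw [Lk_conv hp hG (h.kf.kn n) (h.bdd n) bσ]
    unfold conv
    rw [← integral_sub (cig5_abs (h.ai.kn n) hσ.meas hM x).1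
      ((Lk_bm (h.kf.kn n) bF).conv_int bσ x)]
    refine integral_congr_ae ?_
    filter_upwards [cia6_ne hp x] with y hy
    rw [e1 n _ hy, sub_mul]
  have e3 : ∀ n, Ek (k n) (conv kR σ) φ =
      (∫ x, φ x * conv (κ n) σ x) - ∫ x, φ x * conv (Lk (k n) F) σ x := fun n => by
    rw [← (Lk_dual (h.kf.kn n) bV bφ).1, ← integral_sub (cip1_int bφ ((h.ai.kn n).conv_bm hσ))
      (cip1_int bφ ((Lk_bm (h.kf.kn n) bF).conv bσ))]
    exact integral_congr_ae (ae_of_all _ fun x => by simp only [e2, mul_sub])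
  rw [funext e3] at t3
  rw [En_comm, tendsto_nhds_unique t3 t2, sub_neg_eq_add, ← integral_add (cip1_int bφ hσ) i1]
  exact integral_congr_ae (ae_of_all _ fun x => by simp only [mul_add])

theorem exists_cut (hp : Par N a s) : ∃ c0 > 0, ∀ R > 0, ∀ ρ0 > 0,
    ∃ (A : ℝ) (kR q : Es N → ℝ), 0 < A ∧ Cut a s c0 R ρ0 A kR q := by
  obtain ⟨c0, k, κ, h⟩ := exists_heat hp
  have hc0 := h.pos
  have hβ := (cia6_exp hp).1
  refine ⟨c0, hc0, fun R hR ρ0 hρ => ?_⟩
  let b : ContDiffBump (0 : Es N) := ⟨R / 2, R, by linarith only [hR], by linarith only [hR]⟩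
  let b' : ContDiffBump (0 : Es N) := ⟨2 * ρ0, 3 * ρ0, by linarith, by linarith⟩
  have hb0 : ∀ x, R ≤ ‖x‖ → b x = 0 := fun x hx => b.zero_of_le_dist (by rwa [dist_zero_right])
  obtain ⟨L, hL⟩ := (b.contDiff (n := 1)).lipschitzWith_of_hasCompactSupport b.hasCompactSupport
    (by simp)
  obtain ⟨A, hA, hd⟩ := bump_diff hp hR (fun x => ⟨b.nonneg, b.le_one⟩) hb0
    fun x x' => by simpa only [dist_eq_norm, Real.norm_eq_abs] using hL.dist_le_mul x x'
  have hd' : ∀ (l : ℝ) (x x' : Es N), l ≤ R → 0 < max ‖x‖ l → 0 < max ‖x'‖ l →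
      |c0 * (b x * max ‖x‖ l ^ (-((N : ℝ) - 2 * s))) -
        c0 * (b x' * max ‖x'‖ l ^ (-((N : ℝ) - 2 * s)))| ≤ c0 * (A + 1) * ‖x - x'‖ *
          (max ‖x‖ l ^ (-((N : ℝ) - 2 * s) - 1) + max ‖x'‖ l ^ (-((N : ℝ) - 2 * s) - 1)) := by
    intro l x x' h1 h2 h3
    rw [← mul_sub, abs_mul, abs_of_pos hc0, mul_assoc c0, mul_assoc c0]
    refine mul_le_mul_of_nonneg_left ((hd l x x' h1 h2 h3).trans ?_) hc0.le
    gcongr
    linarith
  obtain ⟨hF, hFb⟩ := far_smooth hp c0 b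
  have hG : Gk s (c0 * (A + 1)) fun x => b x * rz c0 s x := by
    refine ⟨b.continuous.measurable.mul (gk_rz hp hc0).meas, fun x _ => ?_, fun x x' h1 h2 => ?_⟩
    · rw [rz, abs_of_nonneg (mul_nonneg b.nonneg (by positivity))]
      refine (mul_le_of_le_one_left (by positivity) b.le_one).trans ?_
      gcongr
      linarith only [hc0, hA, mul_pos_of_neg_of_neg (Mathlib.Tactic.Linarith.sub_neg_of_lt hc0) (Mathlib.Tactic.Linarith.sub_neg_of_lt hA)]
    · have h3 := hd' 0 x x' hR.le (lt_max_of_lt_left (norm_pos_iff.2 h1))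
        (lt_max_of_lt_left (norm_pos_iff.2 h2))
      rw [max_eq_left (norm_nonneg x), max_eq_left (norm_nonneg x')] at h3
      simpa only [rz, mul_left_comm c0] using h3
  have hout : ∀ x, R ≤ ‖x‖ → b x * rz c0 s x = 0 := fun x hx => by rw [hb0 x hx, zero_mul]
  have qc : Continuous fun z => -Lf a s (fun x => (1 - b x) * rz c0 s x) z * b' z :=
    (Lf_cont hp hF hFb).neg.mul b'.continuous
  have qs : HasCompactSupport fun z => -Lf a s (fun x => (1 - b x) * rz c0 s x) z * b' z :=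
    b'.hasCompactSupport.mul_left
  refine ⟨c0 * (A + 1), _, _, by positivity, hG, hout, fun l hl hl' => ?_,
    ⟨qc.measurable, qc.bounded_above_of_compact_support qs⟩,
    qs.uniformContinuous_of_continuous qc, fun σ φ h1 h2 h3 h4 h5 =>
      cut_weak hp h hG hout hF hFb (fun x => by ring) (fun z hz => ?_) h1 h2 h3 h4 h5⟩
  · refine ⟨fun x => c0 * (b x * max ‖x‖ l ^ (-((N : ℝ) - 2 * s))),
      ⟨measurable_const.mul (b.continuous.measurable.mul
        ((measurable_norm.max measurable_const).pow_const _)),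
        c0 * l ^ (-((N : ℝ) - 2 * s)), fun x => ?_⟩, fun x hx => ?_,
      fun x x' => hd' l x x' (by linarith only [hl, hl']) (lt_max_of_lt_right hl) (lt_max_of_lt_right hl)⟩
    · have h1 : 0 ≤ max ‖x‖ l ^ (-((N : ℝ) - 2 * s)) := by positivity
      rw [abs_of_nonneg (mul_nonneg hc0.le (mul_nonneg b.nonneg h1))]
      exact mul_le_mul_of_nonneg_left ((mul_le_of_le_one_left h1 b.le_one).trans
        (Real.rpow_le_rpow_of_nonpos hl (le_max_right _ _) (by linarith))) hc0.le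
    · beta_reduce
      rcases le_total ‖x‖ l with h1 | h1
      · have h2 := Real.rpow_le_rpow_of_nonpos (z := -((N : ℝ) - 2 * s)) (norm_pos_iff.2 hx) h1
          (by linarith only [hβ])
        rw [b.one_of_mem_closedBall (mem_closedBall_zero_iff.2 (h1.trans hl')), nr, rz,
          max_eq_right h1, max_eq_left (sub_nonneg.2 h2)]
        ring
      · rw [nr_out hp hl h1, max_eq_left h1, rz]
        ring
  · rw [b'.one_of_mem_closedBall (mem_closedBall_zero_iff.2 hz), mul_one]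

end

end Pool.Agent.Work.MP_49e099_an
end

-- merged part: Pool.Agent.Work.MP_49e099_an.CI.P8
section
/-!
# The peaks carry energy
`low_ball`: for `x ∈ ball p r` integrate over the shell `ball p (2 K r) \ ball p (K r)`, of volume `w (2^N - 1) (K r)^N`, where `‖x - y‖ ≤ 3 K r`; `Dsq_real`, `setIntegral_le_integral`; then integrate over the ball.
`peaks_low`: choose `K ≥ 1` with `C (1 + K)^(-β) ≤ c/4`; `scales` gives `2 K r ≤ l/2`, and `l0` is so small that the `l0`-neighbourhood of `S` lies in `Ω` (`IsCompact.exists_thickening_subset_open`). For `x ∈ ball p r`: `Ps x ≥ c α` (`Pk.pge`, `Pk.p0`); on the shell the other peaks vanish (`Pk.pout`, `Cfg.sep`) and `Ps y ≤ c α/4` (`Pk.ple`). The balls are disjoint and lie in `Ω`; `integral_biUnion_finset`, `setIntegral_mono_set`, `Cfg.mass`.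
-/

namespace Pool.Agent.Work.MP_49e099_an

open MeasureTheory Set Filter Topology Metric

noncomputable section

variable {N : ℕ} {a s : ℝ} {Ω : Set (Es N)}

theorem low_ball (hp : Par N a s) {K : ℝ} (hK : 1 ≤ K) : ∃ c1 > 0, ∀ (u : Es N → ℝ) (p : Es N)
    (r b : ℝ), 0 < r → 0 ≤ b → FE a s u → (∀ x, Dsq N a s u x < ⊤) →
    (∀ x y, ‖x - p‖ < r → K * r ≤ ‖y - p‖ → ‖y - p‖ < 2 * K * r → b ≤ u x - u y) →
      c1 * b ^ 2 * r ^ ((N : ℝ) - 2 * s) ≤ ∫ x in ball p r, Dr a s u x := by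
  obtain ⟨w, hw, hv⟩ := vol_ball N
  have ha := hp.ha
  have hK0 : 0 < K := one_pos.trans_le hK
  have h2 : (0 : ℝ) < 2 ^ N - 1 := sub_pos.2 (one_lt_pow₀ one_lt_two (by linarith only [hp, hp.hN]))
  have hs : (0 : ℝ) ≤ N + 2 * s := by linarith only [hp, hp.hs, Nat.cast_nonneg (α := ℝ) N]
  refine ⟨a / 2 * (w * (2 ^ N - 1) * K ^ N / (3 * K) ^ (N + 2 * s)) * w, by positivity,
    fun u p r b hr hb hu hf h => ?_⟩
  have hKr : 0 < K * r := by positivity
  have hrK : r ≤ K * r := le_mul_of_one_le_left hr.le hK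
  have hvol : volume.real (ball p (2 * K * r) \ ball p (K * r)) =
      w * (2 ^ N - 1) * K ^ N * r ^ N := by
    rw [measureReal_sdiff (ball_subset_ball (by linarith)) measurableSet_ball
      measure_ball_lt_top.ne, (hv p _ (by positivity)).1, (hv p _ hKr).1]
    ring
  have h1 : ∀ x ∈ ball p r, a / 2 * (b ^ 2 / (3 * K * r) ^ (N + 2 * s) *
      (w * (2 ^ N - 1) * K ^ N * r ^ N)) ≤ Dr a s u x := by
    intro x hx
    rw [mem_ball, dist_eq_norm] at hx
    obtain ⟨i1, e1⟩ := Dsq_real ha hu.meas (hf x)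
    rw [e1, ← hvol]
    refine mul_le_mul_of_nonneg_left (le_trans (setIntegral_ge_of_const_le_real
      (measurableSet_ball.diff measurableSet_ball)
      ((measure_mono sdiff_subset).trans_lt measure_ball_lt_top).ne (fun y hy => ?_)
      i1.integrableOn) (setIntegral_le_integral i1 (.of_forall fun y => cia2_nn _ _ _)))
      (by positivity)
    have y1 : ‖y - p‖ < 2 * K * r := by simpa only [mem_ball, dist_eq_norm] using hy.1
    have y2 : K * r ≤ ‖y - p‖ := by simpa only [mem_ball, dist_eq_norm, not_lt] using hy.2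
    have t1 := norm_sub_le_norm_sub_add_norm_sub x p y
    have t2 := norm_sub_le_norm_sub_add_norm_sub y x p
    rw [norm_sub_rev p y] at t1
    rw [norm_sub_rev y x] at t2
    exact div_le_div₀ (sq_nonneg _) (pow_le_pow_left₀ hb (h x y hx y2 y1) 2)
      (Real.rpow_pos_of_pos (by linarith only [hrK, hx, y2, t2]) _)
      (Real.rpow_le_rpow (norm_nonneg _) (by linarith only [hrK, hx, y1, t1]) hs)
  refine le_trans (le_of_eq ?_) (setIntegral_ge_of_const_le_real measurableSet_ball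
    measure_ball_lt_top.ne h1 hu.intDr.integrableOn)
  have e2 : r ^ ((N : ℝ) - 2 * s) = r ^ N * r ^ N / r ^ (N + 2 * s) := by
    rw [eq_div_iff (by positivity), ← Real.rpow_add hr, ← Real.rpow_natCast, ← Real.rpow_add hr]
    congr 1
    ring
  rw [(hv p r hr).1, e2, Real.mul_rpow (x := 3 * K) (by positivity) hr.le]
  field_simp

theorem peaks_low (hp : Par N a s) (ho : IsOpen Ω) {C c : ℝ} (hC : 0 < C) (hc : 0 < c) :
    ∃ c1 > 0, ∀ α > 0, ∀ (B : ℝ) (S : Set (Es N)), IsCompact S → S ⊆ Ω → ∃ l0 > 0,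
      ∀ (γ c0 l : ℝ) (g : Es N → ℝ) (T : Finset (Es N)) (r : Es N → ℝ) (ρ : Es N → Es N → ℝ)
        (V w : Es N → ℝ), Cfg s γ c0 C c α B l S g T r ρ → 0 < l → l ≤ l0 → Integrable g →
        (∀ x, w x = Ps c0 s l T ρ x + V x) → (∀ x, |V x| ≤ c * α / 8) → FE a s w →
        (∀ x, Dsq N a s w x < ⊤) → c1 * α * ∫ y, g y ≤ ∫ x in Ω, Dr a s w x := by
  have hβ := (cia6_exp hp).1
  obtain ⟨q, q0, q1, q2⟩ : ∃ q : ℝ, 0 < q ∧ q ≤ 1 ∧ C * q ^ ((N : ℝ) - 2 * s) ≤ c / 4 :=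
    ⟨min 1 ((c / 4 / C) ^ ((N : ℝ) - 2 * s)⁻¹), by positivity, min_le_left _ _,
      cia1_small hC hβ (by positivity) (by positivity) (min_le_right _ _)⟩
  obtain ⟨c1, h1, hlow⟩ := low_ball hp ((one_le_inv₀ q0).2 q1)
  refine ⟨c1 * (c / 2) ^ 2, by positivity, fun α hα B S hS hs => ?_⟩
  obtain ⟨δ, hδ, hth⟩ := hS.exists_thickening_subset_open ho hs
  obtain ⟨l0, l1, -, hsc⟩ := scales hp (lt_add_one ((N : ℝ) - 2 * s)) B
    (τ := q / 4) (by positivity)
  refine ⟨min l0 δ, lt_min l1 hδ, fun γ c0 l g T r ρ V w h hl hl0 hg hw hV hfe hf => ?_⟩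
  have hr : ∀ p ∈ T, r p ≤ q / 4 * l := fun p hp =>
    (hsc l (r p) hl (hl0.trans (min_le_left _ _)) (h.pos p hp) (h.le p hp)).1
  have hq : q / 4 * l ≤ l / 4 := by linarith only [q1, hl, mul_nonneg_of_nonpos_of_nonpos (Mathlib.Tactic.Linarith.sub_nonpos_of_le q1) (le_of_lt (Mathlib.Tactic.Linarith.sub_neg_of_lt hl))]
  have hsub : ∀ p ∈ T, ball p (r p) ⊆ Ω := fun p hp =>
    (ball_subset_ball (by linarith only [hδ, hq, hr, hp, hl0, hr p hp, hl0.trans (min_le_right _ _)])).trans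
      ((ball_subset_thickening (h.sub p hp) δ).trans hth)
  have h2 : ∀ p ∈ T, c1 * (c / 2) ^ 2 * α * (α * r p ^ ((N : ℝ) - 2 * s)) ≤
      ∫ x in ball p (r p), Dr a s w x := by
    intro p hp
    have r0 := h.pos p hp
    refine le_trans (le_of_eq (by ring))
      (hlow w p (r p) (c * α / 2) r0 (by positivity) hfe hf fun x y hx y1 y2 => ?_)
    have a1 : c * α ≤ Ps c0 s l T ρ x := ((h.pk p hp).pge x hx).trans
      (Finset.single_le_sum (f := fun p => conv (nr c0 s (l / 8)) (ρ p) x)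
        (fun p' hp' => (h.pk p' hp').p0 x) hp)
    have a2 : q⁻¹ * r p ≤ l / 4 := by
      rw [inv_mul_le_iff₀ q0]
      linarith only [hr, hp, hr p hp]
    have a3 : Ps c0 s l T ρ y = conv (nr c0 s (l / 8)) (ρ p) y :=
      Finset.sum_eq_single_of_mem p hp fun p' hp' hne => (h.pk p' hp').pout y (by
        have t1 := h.sep p' hp' p hp hne
        have t2 := norm_sub_le_norm_sub_add_norm_sub p' y p
        rw [norm_sub_rev p' y] at t2
        linarith only [y1, y2, a2, t1, t2])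
    have a4 : r p / (r p + ‖y - p‖) ≤ q := by
      rw [inv_mul_le_iff₀ q0] at y1
      rw [div_le_iff₀ (by positivity), mul_add]
      linarith only [y1, q0, r0, mul_pos q0 r0]
    have a5 := mul_le_mul_of_nonneg_left (Real.rpow_le_rpow (by positivity) a4 hβ.le)
      (mul_pos hC hα).le
    have a6 := mul_le_mul_of_nonneg_right q2 hα.le
    have a7 := (h.pk p hp).ple y
    have a8 := abs_le.1 (hV x)
    have a9 := abs_le.1 (hV y)
    rw [hw, hw, a3]
    linarith only [a1, a5, a6, a7, a8, a9, a8.1, a9.2]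
  have h3 := Finset.sum_le_sum h2
  rw [← Finset.mul_sum, (h.mass hα hl hg).2, ← integral_biUnion_finset T
    (fun _ _ => measurableSet_ball) (fun p hp p' hp' hne => ball_disjoint_ball (by
      rw [dist_eq_norm]
      linarith only [hl, hq, h, hp, hp', hne, hr, h.sep p hp p' hp' hne, hr p hp, hr p' hp'])) fun p _ => hfe.intDr.integrableOn]
    at h3
  exact h3.trans (setIntegral_mono_set hfe.intDr.integrableOn (.of_forall fun x => Dr_nonneg)
    (iUnion₂_subset hsub).eventuallyLE)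

end

end Pool.Agent.Work.MP_49e099_an
end

-- merged part: Pool.Agent.Work.MP_49e099_an.CI.P9
section
/-!
# The basic perturbation
Order of choices: `θ, γ` (`exists_ex`), `c0` (`exists_cut`), `C, c` (`exists_cfg`), `C1` (`peaks_Dsq`, doubled), `c1` (`peaks_low`). Given the data: `δ` with `thickening δ S ⊆ Ω`, `R = δ/2`, `ρ0` with `Ω ⊆ ball 0 ρ0`, the parametrix `kR, q`; `L` from `rest`; `δ'` from `Dsq_small` so that `Dsq V ≤ ofReal (min (τ/4) (τ/2)²)`; `l` below all thresholds and `l/8 ≤ δ/2`.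
Then `ρ = rs T ρ`, `w = conv kR (ρ - g)`, `e = conv q (ρ - g)`. `w` vanishes off `Ω` (`Cut.out`, `Cfg.rs_basic`), is Lipschitz (`Gk.conv_lip`), `W0.of_lip`. `Cut.weak` gives `ESol` (`setIntegral_eq_integral_of_forall_compl_eq_zero`). `w = Ps + V`: `Dsq_add_le`, `Dr_sqrt_add`.
-/

namespace Pool.Agent.Work.MP_49e099_an

open MeasureTheory Set Filter Topology Metric

noncomputable section

variable {N : ℕ} {a s : ℝ} {Ω : Set (Es N)}

theorem cip9_dr_add (ha : 0 < a) {u v : Es N → ℝ} (hu : Measurable u) (hv : Measurable v)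
    {x : Es N} (h1 : Dsq N a s u x < ⊤) (h2 : Dsq N a s v x < ⊤) :
    Dr a s (fun y => u y + v y) x ≤ 2 * Dr a s u x + 2 * Dr a s v x := by
  have h := Dsq_add_le (s := s) (x := x) ha hu hv
  have hf : 2 * Dsq N a s u x + 2 * Dsq N a s v x ≠ ⊤ :=
    ENNReal.add_ne_top.2 ⟨ENNReal.mul_ne_top (by simp) h1.ne, ENNReal.mul_ne_top (by simp) h2.ne⟩
  have h' := ENNReal.toReal_mono hf h
  rw [ENNReal.toReal_add (ENNReal.mul_ne_top (by simp) h1.ne)
    (ENNReal.mul_ne_top (by simp) h2.ne), ENNReal.toReal_mul, ENNReal.toReal_mul] at h'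
  simpa [Dr] using h'

theorem peak (hp : Par N a s) (hΩ : Dom Ω) : ∃ C1 > 0, ∃ c1 > 0,
    ∀ (α M τ : ℝ) (S : Set (Es N)) (g : Es N → ℝ), 0 < α → 0 < τ → IsCompact S → S ⊆ Ω →
      Measurable g → (∀ x, 0 ≤ g x ∧ g x ≤ M) → (∀ x, x ∉ S → g x = 0) →
      ∃ w ρ e : Es N → ℝ, W0 a s Ω w ∧ (∃ K : ℝ, ∀ x, Dsq N a s w x ≤ ENNReal.ofReal K) ∧
        BS ρ ∧ (∀ x, 0 ≤ ρ x) ∧ (∀ x, x ∉ Ω → ρ x = 0) ∧ ∫ x, ρ x = ∫ x, g x ∧
        Measurable e ∧ (∀ x, |e x| ≤ τ) ∧ ESol a s Ω w (fun x => ρ x - g x + e x) ∧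
        (∀ x, Dr a s w x ≤ C1 * α * ρ x + τ) ∧ (∀ x, √(Dr a s w x) ≤ τ + τ * ρ x) ∧
        c1 * α * ∫ x, g x ≤ ∫ x in Ω, Dr a s w x := by
  obtain ⟨θ, γ, hx⟩ := exists_ex hp
  obtain ⟨c0, h0, hcut⟩ := exists_cut hp
  obtain ⟨C, hC, c, hc, hcfg⟩ := exists_cfg hp hx.g1 h0
  obtain ⟨C1, hC1, hD⟩ := peaks_Dsq (C := C) hp hx hc h0
  obtain ⟨c1, hc1, hlow⟩ := peaks_low hp hΩ.op hC hc
  refine ⟨2 * C1, by positivity, c1, hc1, ?_⟩
  intro α M τ S g hα hτ hS hSΩ hg hgM hg0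
  obtain ⟨δ, hδ, hth⟩ := hS.exists_thickening_subset_open hΩ.op hSΩ
  obtain ⟨ρ0, hρ0, hball⟩ := hΩ.ball
  have hR : 0 < δ / 2 := by positivity
  obtain ⟨A, kR, q, hA, hCut⟩ := hcut (δ / 2) hR ρ0 hρ0
  obtain ⟨B, l1, hl1, hcfg'⟩ := hcfg α hα M
  obtain ⟨L, hrest⟩ := rest hp h0 hR hA hCut M ρ0
  have hτ' : 0 < min (τ / 4) ((τ / 2) ^ 2) := lt_min (by positivity) (by positivity)
  obtain ⟨δ', hδ', hsm⟩ := Dsq_small hp L hτ'
  obtain ⟨l2, hl2, hrest'⟩ := hrest (min δ' (c * α / 8)) (lt_min hδ' (by positivity))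
  obtain ⟨l3, hl3, hq⟩ := rest_q (s := s) hCut.bq hCut.uc M ρ0 hτ
  obtain ⟨l4, hl4, hD'⟩ := hD α hα B (τ / 4) (by positivity)
  obtain ⟨l5, hl5, hlow'⟩ := hlow α hα B S hS hSΩ
  obtain ⟨l, hl, hle1, hle2, hle3, hle4, hle5, hleδ⟩ :
      ∃ l : ℝ, 0 < l ∧ l ≤ l1 ∧ l ≤ l2 ∧ l ≤ l3 ∧ l ≤ l4 ∧ l ≤ l5 ∧ l ≤ δ := by
    refine ⟨min l1 (min l2 (min l3 (min l4 (min l5 δ)))), by positivity, ?_, ?_, ?_, ?_, ?_, ?_⟩ <;>
      simp
  obtain ⟨T, r, ρ, hT⟩ := hcfg' S g l hS hg hgM hg0 hl hle1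
  have hout : ∀ x : Es N, ρ0 ≤ ‖x‖ → x ∉ Ω := fun x hx' hxΩ => absurd (hball x hxΩ) (not_lt.2 hx')
  have hgR : ∀ x, ρ0 ≤ ‖x‖ → g x = 0 := fun x hx' => hg0 x fun hxS => hout x hx' (hSΩ hxS)
  have hgB : BS g := ⟨⟨hg, M, fun x => by rw [abs_of_nonneg (hgM x).1]; exact (hgM x).2⟩, ρ0, hgR⟩
  obtain ⟨hrB, hr0, -, hrs⟩ := hT.rs_basic
  obtain ⟨-, hPc, -⟩ := hT.ps_basic hp h0 hl
  have hσB : BS fun y => rs T ρ y - g y := hrB.sub hgB
  have hnear : ∀ (x p : Es N), p ∈ S → ‖x - p‖ < δ → x ∈ Ω := fun x p hpS h =>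
    hth (mem_thickening_iff.2 ⟨p, hpS, by rwa [dist_eq_norm]⟩)
  have hrΩ : ∀ x, x ∉ Ω → rs T ρ x = 0 := by
    intro x hxΩ
    by_contra h
    obtain ⟨p, hpS, hlt⟩ := hrs x h
    exact hxΩ (hnear x p hpS (by linarith only [hδ, hleδ, hlt]))
  have hσS : ∀ y, rs T ρ y - g y ≠ 0 → ∃ p ∈ S, ‖y - p‖ < δ / 2 := by
    intro y hy
    by_cases h : rs T ρ y = 0
    · refine ⟨y, ?_, by simpa using hδ⟩
      by_contra hyS
      exact hy (by rw [h, hg0 y hyS, sub_zero])
    · obtain ⟨p, hpS, hlt⟩ := hrs y h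
      exact ⟨p, hpS, by linarith only [hδ, hleδ, hlt]⟩
  have hwΩ : ∀ x, x ∉ Ω → conv kR (fun y => rs T ρ y - g y) x = 0 := by
    intro x hxΩ
    have h : ∀ y, kR (x - y) * (rs T ρ y - g y) = 0 := by
      intro y
      by_cases hy : rs T ρ y - g y = 0
      · rw [hy, mul_zero]
      · obtain ⟨p, hpS, hlt⟩ := hσS y hy
        rw [hCut.out (x - y) ?_, zero_mul]
        by_contra hlt'
        refine hxΩ (hnear x p hpS ?_)
        have h1 : ‖x - p‖ ≤ ‖x - y‖ + ‖y - p‖ := norm_sub_le_norm_sub_add_norm_sub x y p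
        linarith only [hlt, hlt', h1, not_le.1 hlt']
    simp only [conv, h, integral_zero]
  obtain ⟨-, -, Lw, hLw⟩ := hCut.gk.conv_lip hp hσB
  obtain ⟨hW, K, hK⟩ := W0.of_lip hp hΩ hLw hwΩ
  obtain ⟨V, hV, hVL, hVb⟩ := hrest' γ C c α B l S g T r ρ hT hα hl hle2 hg hgM hgR
  have hfin : ∀ x, Dsq N a s (conv kR fun y => rs T ρ y - g y) x < ⊤ := fun x =>
    lt_of_le_of_lt (hK x) ENNReal.ofReal_lt_top
  have hVm : Measurable V := by
    have : V = fun x => conv kR (fun y => rs T ρ y - g y) x - Ps c0 s l T ρ x := by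
      funext x; rw [hV x]; ring
    rw [this]
    exact hW.meas.sub hPc.measurable
  have hVD := hsm V hVL fun y => (hVb y).trans (min_le_left _ _)
  have hweq : (conv kR fun y => rs T ρ y - g y) = fun x => Ps c0 s l T ρ x + V x := funext hV
  refine ⟨conv kR fun y => rs T ρ y - g y, rs T ρ, conv q fun y => rs T ρ y - g y, hW, ⟨K, hK⟩, hrB,
    hr0, hrΩ, (hT.mass hα hl hgB.int).1, (hCut.bq.conv hσB).meas,
    hq γ c0 C c α B l S g T r ρ hT hα hl hle3 hg hgM hgR, ?_, ?_, ?_, ?_⟩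
  · intro φ hφc hφ
    rw [hCut.weak _ φ hσB.toBM (fun x hx' => by rw [hrΩ x (hout x hx'), hgR x hx', sub_zero]) hφc
      (fun x hx' => hφ.zero x (hout x hx')) hφ.toFE,
      setIntegral_eq_integral_of_forall_compl_eq_zero fun x hx' => by rw [hφ.zero x hx', mul_zero]]
    exact integral_congr_ae (Eventually.of_forall fun x => mul_comm _ _)
  · intro x
    obtain ⟨h1, h2, -⟩ := hD' l S g T r ρ hT hl hle4 x
    obtain ⟨h3, h4⟩ := Dr_le hτ'.le (hVD x)
    rw [hweq]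
    have h5 := cip9_dr_add hp.ha hPc.measurable hVm h1 h3
    have h6 := min_le_left (τ / 4) ((τ / 2) ^ 2)
    linarith only [h2, h4, h5, h6]
  · intro x
    obtain ⟨h1, -, h2⟩ := hD' l S g T r ρ hT hl hle4 x
    obtain ⟨h3, h4⟩ := Dr_le hτ'.le (hVD x)
    rw [hweq]
    have h5 := Dr_sqrt_add hp.ha hPc.measurable hVm h1 h3
    have h6 : √(Dr a s V x) ≤ τ / 2 :=
      Real.sqrt_le_iff.2 ⟨by positivity, h4.trans (min_le_right _ _)⟩
    have h7 := mul_nonneg hτ.le (hr0 x)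
    linarith only [hτ, h2, h5, h6, h7]
  · exact hlow' γ c0 l g T r ρ V _ hT hl hle5 hgB.int hV
      (fun y => (hVb y).trans (min_le_right _ _)) hW.toFE hfin

end

end Pool.Agent.Work.MP_49e099_an
end

-- merged part: Pool.Agent.Work.MP_49e099_an.CI.S2
section
/-!
# The iteration step
`esol_add`: `En_add`, `integral_add`; a continuous function in `W0` is bounded (`W0.bdd`).
`step`: `C1, c1` from `peak`, `α = 1/(4 μ2 C1)`, `A = C1 α`, `κ = min (μ1 c1 α / 8) (1/2)`. Let `u = u0 + W`, `I = ∫ ω`, `Dsq W ≤ ofReal KW` (`KW ≥ 0`), `CP` from `poincare_pt`, so `|c w| ≤ C √CP √(Dr w)` on `Ω`. `choose_g`, then `τ` below the thresholds of `low_real`, `gain` (with `D = Dr u`, `B = I`) and small against `η`, `κ I`; `peak` gives `w, ρ, e`. Put `ω' = ω + (ρ - g + e) - μ (Dr (u + w) - Dr u) - c w`. The lower bound is `low_real` at a.e. point (`FE.ae`, `Dr_sqrt_add`, `Dr_cross`, `Dr_le`). Integrating, `∫ ω' ≤ I + τ vol Ω - μ1 ∫ Dr w +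 2 μ2 ∫ √(Dr u) √(Dr w) + C ∫ |w|` with `∫ Dr w ≥ c1 α I/4`; `∫ |w| ≤ √CP τ (vol Ω + I)`; `En w w ≤ 2 (A I + τ vol Ω)` (`W0.half`). Mind `(fun x => u0 x + (W x + w x)) = fun x => (u0 x + W x) + w x`.
-/

namespace Pool.Agent.Work.MP_49e099_an

open MeasureTheory Set Filter Topology Metric

noncomputable section

variable {N : ℕ} {a s : ℝ} {Ω : Set (Es N)}

theorem cis2_bm (hΩ : Dom Ω) {g : Es N → ℝ} (hg : Measurable g) {M : ℝ} (h : ∀ x, |g x| ≤ M) :
    IntegrableOn g Ω :=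
  Measure.integrableOn_of_bounded (M := M) hΩ.fin.ne hg.aestronglyMeasurable
    (Eventually.of_forall fun x => by simpa using h x)

theorem cis2_mul {g R : Es N → ℝ} (hg : Measurable g) {M : ℝ} (h : ∀ x, |g x| ≤ M)
    (iR : IntegrableOn R Ω) : IntegrableOn (fun x => g x * R x) Ω :=
  Integrable.bdd_mul (c := M) iR hg.aestronglyMeasurable
    (Eventually.of_forall fun x => by simpa using h x)

theorem esol_add (hp : Par N a s) (hΩ : Dom Ω) {u w R R' : Es N → ℝ} (hu : FE a s u) (hw : FE a s w)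
    (iR : IntegrableOn R Ω) (iR' : IntegrableOn R' Ω) (h : ESol a s Ω u R) (h' : ESol a s Ω w R') :
    ESol a s Ω (fun x => u x + w x) fun x => R x + R' x := by
  intro φ hc hφ
  obtain ⟨M, hM⟩ := W0.bdd hΩ hc hφ
  have i1 : IntegrableOn (fun x => R x * φ x) Ω := by
    simpa only [mul_comm] using cis2_mul hφ.meas hM iR
  have i2 : IntegrableOn (fun x => R' x * φ x) Ω := by
    simpa only [mul_comm] using cis2_mul hφ.meas hM iR'
  rw [En_add hp.ha hφ.toFE hu hw, h φ hc hφ, h' φ hc hφ, ← integral_add i1 i2]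
  simp only [add_mul]

variable {m μ1 μ2 C lam : ℝ} {c μ f u0 : Es N → ℝ}

theorem cis2_mu (hd : Dat Ω m μ1 μ2 C c μ f) (x : Es N) : |μ x| ≤ μ2 := by
  have h1 := hd.m1 x
  have h0 := hd.m0
  rw [abs_of_nonneg (by linarith only [h1, h0])]
  exact hd.m2 x

theorem rhs_int (hp : Par N a s) (hΩ : Dom Ω) (hm : N / (2 * s) < m) (hd : Dat Ω m μ1 μ2 C c μ f)
    {u : Es N → ℝ} (hu : W0 a s Ω u) : IntegrableOn f Ω ∧ IntegrableOn (rhs a s lam c μ f u) Ω := by
  have hs := hp.hs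
  have hs1 := hp.hs1
  have hN : (2 : ℝ) ≤ N := by exact_mod_cast hp.hN
  have h1 : (1 : ℝ) ≤ m := by
    refine le_trans ?_ hm.le
    rw [le_div_iff₀ (by linarith only [hs, hs1])]
    linarith only [hs1, hN]
  have : IsFiniteMeasure (volume.restrict Ω) := isFiniteMeasure_restrict.2 hΩ.fin.ne
  have hf : IntegrableOn f Ω := hd.fp.integrable (ENNReal.one_le_ofReal.2 h1)
  refine ⟨hf, ?_⟩
  have i1 := cis2_mul hd.cm hd.cb (hu.int hp hΩ).integrableOn (Ω := Ω)
  have i2 := cis2_mul hd.mm (cis2_mu hd) hu.toFE.intDr.integrableOn (Ω := Ω)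
  exact (i1.add i2).add (hf.const_mul lam)

theorem cis2_tau {t1 t2 V I η P Q κ : ℝ} (h1 : 0 < t1) (h2 : 0 < t2) (hV : 0 ≤ V) (hI : 0 < I)
    (hη : 0 < η) (hP : 0 ≤ P) (hQ : 0 ≤ Q) (hκ : 0 < κ) : ∃ τ > 0, τ ≤ t1 ∧ τ ≤ t2 ∧
      τ * V + Q * (τ * V + τ * I) ≤ κ * I / 2 ∧ P * (τ * V + τ * I) ≤ η ∧ τ * V ≤ I := by
  have key : ∀ X Y : ℝ, 0 ≤ X → 0 < Y → ∃ t > 0, ∀ τ, 0 < τ → τ ≤ t → τ * X ≤ Y := by
    intro X Y hX hY
    refine ⟨Y / (X + 1), by positivity, fun τ h0 h => ?_⟩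
    rw [le_div_iff₀ (by positivity)] at h
    linarith only [h0, h]
  obtain ⟨t3, p3, h3⟩ := key (V + Q * (V + I)) (κ * I / 2) (by positivity) (by positivity)
  obtain ⟨t4, p4, h4⟩ := key (P * (V + I)) η (by positivity) hη
  obtain ⟨t5, p5, h5⟩ := key V I hV hI
  have hp : 0 < min (min t1 t2) (min t3 (min t4 t5)) := by positivity
  refine ⟨min (min t1 t2) (min t3 (min t4 t5)), hp, (min_le_left _ _).trans (min_le_left _ _),
    (min_le_left _ _).trans (min_le_right _ _), ?_, ?_, ?_⟩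
  · have := h3 _ hp ((min_le_right _ _).trans (min_le_left _ _))
    linarith only [this]
  · have := h4 _ hp ((min_le_right _ _).trans ((min_le_right _ _).trans (min_le_left _ _)))
    linarith
  · exact h5 _ hp ((min_le_right _ _).trans ((min_le_right _ _).trans (min_le_right _ _)))

theorem cis2_pt {μ1 μ2 μ D D' Dw cw Cw τ ρ e : ℝ} (h0 : 0 < μ1) (h1 : μ1 ≤ μ) (h2 : μ ≤ μ2)
    (hDw : 0 ≤ Dw) (hC : 0 ≤ Cw) (hx : |D' - D - Dw| ≤ 2 * √D * √Dw) (hcw : |cw| ≤ Cw * √Dw)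
    (hs : √Dw ≤ τ + τ * ρ) (he : |e| ≤ τ) :
    e - μ * (D' - D) - cw ≤ τ - μ1 * Dw + 2 * μ2 * (√D * √Dw) + Cw * (τ + τ * ρ) := by
  have a1 := (abs_le.1 hx).1
  have a2 := (abs_le.1 hcw).1
  have a3 := (abs_le.1 he).2
  have a4 : Cw * √Dw ≤ Cw * (τ + τ * ρ) := mul_le_mul_of_nonneg_left hs hC
  have a5 : 0 ≤ √D * √Dw := by positivity
  have a6 : μ * (Dw - 2 * (√D * √Dw)) ≤ μ * (D' - D) :=
    mul_le_mul_of_nonneg_left (by linarith only [a1]) (by linarith)
  have a7 : μ1 * Dw ≤ μ * Dw := mul_le_mul_of_nonneg_right h1 hDw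
  have a8 : μ * (√D * √Dw) ≤ μ2 * (√D * √Dw) := mul_le_mul_of_nonneg_right h2 a5
  linarith only [a2, a3, a4, a6, a7, a8]

theorem step (hp : Par N a s) (hΩ : Dom Ω) (hne : Ω.Nonempty) (hm : N / (2 * s) < m)
    (hd : Dat Ω m μ1 μ2 C c μ f) (h0 : W0 a s Ω u0) : ∃ q K : ℝ, 0 < q ∧ q < 1 ∧ 0 ≤ K ∧
    ∀ (W ω : Es N → ℝ) (η : ℝ), 0 < η → St a s lam μ2 Ω c μ f u0 W ω →
      ∃ w ω' : Es N → ℝ, W0 a s Ω w ∧ St a s lam μ2 Ω c μ f u0 (fun x => W x + w x) ω' ∧
        ∫ x in Ω, ω' x ≤ q * ∫ x in Ω, ω x ∧ En N a s w w ≤ K * ∫ x in Ω, ω x ∧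
        ∫ x, |w x| ≤ η := by
  have ha := hp.ha
  have hΩm : MeasurableSet Ω := hΩ.op.measurableSet
  have hμ1 := hd.m0
  have hμ2 : 0 < μ2 := lt_of_lt_of_le hμ1 ((hd.m1 0).trans (hd.m2 0))
  have hC : 0 ≤ C := (abs_nonneg _).trans (hd.cb 0)
  obtain ⟨C1, hC1, c1, hc1, hpk⟩ := peak hp hΩ
  obtain ⟨CP, hCP, hpo⟩ := poincare_pt hp hΩ
  obtain ⟨α, hα⟩ : ∃ α : ℝ, α = 1 / (4 * μ2 * C1) := ⟨_, rfl⟩
  have hα0 : 0 < α := by rw [hα]; positivity
  have hA : 0 ≤ C1 * α := by positivity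
  have hA2 : 2 * μ2 * (C1 * α) ≤ 1 / 2 := by
    rw [hα]
    apply le_of_eq
    field_simp
    norm_num
  obtain ⟨κ, hκ0, hκ1, hκ2⟩ : ∃ κ : ℝ, 0 < κ ∧ κ ≤ μ1 * c1 * α / 8 ∧ κ ≤ 1 / 2 :=
    ⟨min (μ1 * c1 * α / 8) (1 / 2), by positivity, min_le_left _ _, min_le_right _ _⟩
  refine ⟨1 - κ, 2 * (C1 * α + 1), by linarith only [hκ0, hκ2], by linarith only [hκ0], by positivity, ?_⟩
  intro W ω η hη hst
  obtain ⟨KW0, hKW0⟩ := hst.db
  obtain ⟨KW, hKW, hW⟩ : ∃ KW : ℝ, 0 ≤ KW ∧ ∀ x, Dsq N a s W x ≤ ENNReal.ofReal KW :=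
    ⟨max KW0 0, le_max_right _ _, fun x =>
      (hKW0 x).trans (ENNReal.ofReal_le_ofReal (le_max_left _ _))⟩
  obtain ⟨ε, hε, K, hlow⟩ := hst.low
  have hu : W0 a s Ω fun x => u0 x + W x := h0.add ha hst.w0
  obtain ⟨hI, K1, M, S, g, hK1, hS, hSΩ, hg, hgb, hg0, hres, hgl, hgu⟩ :=
    choose_g hp hΩ hne hμ2 hε hst.meas hst.int (measurable_Dr h0.meas) (fun _ => Dr_nonneg)
      h0.toFE.intDr.integrableOn hlow KW
  have heq := hst.eq
  generalize hudef : (fun x => u0 x + W x) = u at hu heq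
  generalize hIdef : ∫ x in Ω, ω x = I at hI hgl hgu
  have hCw : 0 ≤ C * √CP := by positivity
  obtain ⟨t1, ht1, hlr⟩ := low_real hμ2 hε hKW hK1 hA hA2 hCw
  obtain ⟨t2, ht2, hga⟩ := gain hΩ (measurable_Dr (a := a) (s := s) hu.meas) (fun _ => Dr_nonneg)
    hu.toFE.intDr.integrableOn (B := I) (δ := κ * I / (4 * μ2)) hA (by positivity)
  obtain ⟨τ, hτ, l1, l2, l3, l4, l5⟩ := cis2_tau (V := volume.real Ω) (P := √CP) ht1 ht2
    measureReal_nonneg hI hη (Real.sqrt_nonneg _) hCw hκ0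
  obtain ⟨w, ρ, e, hw, ⟨Kw0, hKw0⟩, hρ, hρ0, hρz, hρi, hem, heb, hes, hD1, hD2, hD3⟩ :=
    hpk α M τ S g hα0 hτ hS hSΩ hg hgb hg0
  obtain ⟨Kw, hKw, hwK⟩ : ∃ Kw : ℝ, 0 ≤ Kw ∧ ∀ x, Dsq N a s w x ≤ ENNReal.ofReal Kw :=
    ⟨max Kw0 0, le_max_right _ _, fun x =>
      (hKw0 x).trans (ENNReal.ofReal_le_ofReal (le_max_left _ _))⟩
  obtain ⟨K', hK'⟩ := hlr τ Kw hτ l1
  have huw : W0 a s Ω fun x => u x + w x := hu.add ha hw
  have hass : (fun x => u0 x + (W x + w x)) = fun x => u x + w x := by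
    rw [← hudef]
    funext x
    ring
  -- pointwise facts
  have hwp : ∀ x ∈ Ω, |w x| ≤ √CP * √(Dr a s w x) := by
    intro x hx
    have h1 := hpo w hw.zero x hx
    have hfin := (Dr_le hKw (hwK x)).1
    rw [← ENNReal.ofReal_toReal hfin.ne, ← ENNReal.ofReal_mul hCP.le,
      ENNReal.ofReal_le_ofReal_iff (by positivity)] at h1
    rw [← Real.sqrt_mul hCP.le]
    exact Real.abs_le_sqrt h1
  have hcw : ∀ x ∈ Ω, |c x * w x| ≤ C * √CP * √(Dr a s w x) := by
    intro x hx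
    rw [abs_mul, mul_assoc]
    exact mul_le_mul (hd.cb x) (hwp x hx) (abs_nonneg _) hC
  have hcr : ∀ᵐ x, |Dr a s (fun y => u y + w y) x - Dr a s u x - Dr a s w x| ≤
      2 * √(Dr a s u x) * √(Dr a s w x) := by
    filter_upwards [hu.toFE.ae] with x hx
    exact Dr_cross ha hu.meas hw.meas hx (Dr_le hKw (hwK x)).1
  -- integrability
  obtain ⟨Mρ, hMρ⟩ := hρ.bdd
  have iρ : IntegrableOn ρ Ω := cis2_bm hΩ hρ.meas hMρ
  have ig : IntegrableOn g Ω := cis2_bm hΩ hg (M := M) fun x => by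
    rw [abs_of_nonneg (hgb x).1]
    exact (hgb x).2
  have ie : IntegrableOn e Ω := cis2_bm hΩ hem heb
  have iτ : IntegrableOn (fun _ : Es N => τ) Ω := integrableOn_const hΩ.fin.ne
  have iDw : IntegrableOn (Dr a s w) Ω := hw.toFE.intDr.integrableOn
  have iτρ : IntegrableOn (fun x => τ + τ * ρ x) Ω := iτ.add (iρ.const_mul τ)
  have iR' : IntegrableOn (fun x => ρ x - g x + e x) Ω := (iρ.sub ig).add ie
  have iμ : IntegrableOn (fun x => μ x * (Dr a s (fun y => u y + w y) x - Dr a s u x)) Ω :=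
    cis2_mul hd.mm (cis2_mu hd) (huw.toFE.intDr.sub hu.toFE.intDr).integrableOn
  have icw : IntegrableOn (fun x => c x * w x) Ω :=
    cis2_mul hd.cm hd.cb (hw.int hp hΩ).integrableOn
  have iω' : IntegrableOn (fun x => ω x + (ρ x - g x + e x) -
      μ x * (Dr a s (fun y => u y + w y) x - Dr a s u x) - c x * w x) Ω :=
    ((hst.int.add iR').sub iμ).sub icw
  have isq : IntegrableOn (fun x => √(Dr a s u x) * √(Dr a s w x)) Ω :=
    (cia5_cs hu.toFE.intDr hw.toFE.intDr (fun _ => Dr_nonneg) fun _ => Dr_nonneg).1.integrableOn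
  have eρ : ∫ x in Ω, ρ x = ∫ x, g x := by
    rw [setIntegral_eq_integral_of_forall_compl_eq_zero hρz, hρi]
  have eg : ∫ x in Ω, g x = ∫ x, g x :=
    setIntegral_eq_integral_of_forall_compl_eq_zero fun x hx => hg0 x fun h => hx (hSΩ h)
  have eτ : ∫ _ in Ω, τ = τ * volume.real Ω := by
    rw [setIntegral_const, smul_eq_mul, mul_comm]
  have eτρ : ∫ x in Ω, (τ + τ * ρ x) = τ * volume.real Ω + τ * ∫ x, g x := by
    rw [integral_add iτ (iρ.const_mul τ), integral_const_mul, eρ, eτ]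
  have hτg : τ * ∫ x, g x ≤ τ * I := mul_le_mul_of_nonneg_left hgu hτ.le
  refine ⟨w, fun x => ω x + (ρ x - g x + e x) -
    μ x * (Dr a s (fun y => u y + w y) x - Dr a s u x) - c x * w x, hw,
    ⟨hst.w0.add ha hw, ⟨2 * KW + 2 * Kw, fun x => ?_⟩, ?_, iω', ?_, ε / 4, by positivity, K', ?_⟩,
    ?_, ?_, ?_⟩
  · refine (Dsq_add_le ha hst.w0.meas hw.meas).trans ?_
    rw [ENNReal.ofReal_add (by positivity) (by positivity), ENNReal.ofReal_mul (by norm_num),
      ENNReal.ofReal_mul (by norm_num), ENNReal.ofReal_ofNat]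
    gcongr
    · exact hW x
    · exact hwK x
  · have m1 := hst.meas
    have m2 := hρ.meas
    have m3 := hd.mm
    have m4 := hd.cm
    have m5 := hw.meas
    have m6 := measurable_Dr (a := a) (s := s) huw.meas
    have m7 := measurable_Dr (a := a) (s := s) hu.meas
    exact ((m1.add ((m2.sub hg).add hem)).sub (m3.mul (m6.sub m7))).sub (m4.mul m5)
  · have := esol_add hp hΩ hu.toFE hw.toFE ((rhs_int hp hΩ hm hd hu).2.add hst.int) iR' heq hes
    rw [hass]
    convert this using 2 with x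
    simp only [rhs, Pi.add_apply]
    ring
  · filter_upwards [hres, hcr, h0.toFE.ae] with x h1 h2 h3 hx
    have h4 : √(Dr a s u x) ≤ √(Dr a s u0 x) + √KW := by
      rw [← hudef]
      have h5 := Dr_le hKW (hW x)
      exact (Dr_sqrt_add ha h0.meas hst.w0.meas h3 h5.1).trans
        (add_le_add le_rfl (Real.sqrt_le_sqrt h5.2))
    have := hK' (μ x) (Dr a s u0 x) (Dr a s u x) (Dr a s (fun y => u y + w y) x) (Dr a s w x) (ρ x)
      (e x) (c x * w x) (ω x - g x) (hμ1.le.trans (hd.m1 x)) (hd.m2 x) Dr_nonneg Dr_nonneg h4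
      Dr_nonneg (Dr_le hKw (hwK x)).2 (hρ0 x) (hD1 x) (hD2 x) (heb x) (hcw x hx) h2 (h1 hx)
    linarith only [this]
  · have i0 : IntegrableOn (fun x => ρ x - g x) Ω := iρ.sub ig
    have i1 : IntegrableOn (fun x => ω x + (ρ x - g x)) Ω := hst.int.add i0
    have i2 : IntegrableOn (fun x => τ - μ1 * Dr a s w x) Ω := iτ.sub (iDw.const_mul μ1)
    have i3 : IntegrableOn (fun x => 2 * μ2 * (√(Dr a s u x) * √(Dr a s w x))) Ω :=
      isq.const_mul _
    have i4 : IntegrableOn (fun x => C * √CP * (τ + τ * ρ x)) Ω := iτρ.const_mul _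
    have i5 : IntegrableOn (fun x => τ - μ1 * Dr a s w x +
      2 * μ2 * (√(Dr a s u x) * √(Dr a s w x))) Ω := i2.add i3
    have i6 : IntegrableOn (fun x => τ - μ1 * Dr a s w x +
      2 * μ2 * (√(Dr a s u x) * √(Dr a s w x)) + C * √CP * (τ + τ * ρ x)) Ω := i5.add i4
    have hle : ∫ x in Ω, (ω x + (ρ x - g x + e x) -
        μ x * (Dr a s (fun y => u y + w y) x - Dr a s u x) - c x * w x) ≤
        ∫ x in Ω, (ω x + (ρ x - g x) + (τ - μ1 * Dr a s w x +
          2 * μ2 * (√(Dr a s u x) * √(Dr a s w x)) + C * √CP * (τ + τ * ρ x))) := by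
      refine integral_mono_ae iω' (i1.add i6) ?_
      rw [EventuallyLE, ae_restrict_iff' hΩm]
      filter_upwards [hcr] with x h2 hx
      have := cis2_pt hμ1 (hd.m1 x) (hd.m2 x) Dr_nonneg hCw h2 (hcw x hx) (hD2 x) (heb x)
      linarith only [this]
    rw [integral_add i1 i6, integral_add i5 i4, integral_add i2 i3,
      integral_add hst.int i0, integral_sub iρ ig, integral_sub iτ (iDw.const_mul μ1),
      integral_const_mul, integral_const_mul, integral_const_mul, eτρ, eτ, eρ, eg, hIdef] at hle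
    have b1 := hga τ (Dr a s w) ρ hτ l2 (fun _ => Dr_nonneg) hρ0 iρ (eρ ▸ hgu) hD1 hD2
    have b2 : 2 * μ2 * ∫ x in Ω, √(Dr a s u x) * √(Dr a s w x) ≤ κ * I / 2 := by
      refine (mul_le_mul_of_nonneg_left b1 (by positivity)).trans (le_of_eq ?_)
      field_simp
      norm_num
    have b3 : c1 * α * (I / 4) ≤ ∫ x in Ω, Dr a s w x :=
      (mul_le_mul_of_nonneg_left hgl (by positivity)).trans hD3
    have b4 : μ1 * (c1 * α * (I / 4)) ≤ μ1 * ∫ x in Ω, Dr a s w x :=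
      mul_le_mul_of_nonneg_left b3 hμ1.le
    have b5 : κ * I ≤ μ1 * c1 * α / 8 * I := mul_le_mul_of_nonneg_right hκ1 hI.le
    have b6 : C * √CP * (τ * volume.real Ω + τ * ∫ x, g x) ≤
        C * √CP * (τ * volume.real Ω + τ * I) := mul_le_mul_of_nonneg_left (by linarith only [hτg]) hCw
    linarith only [l3, hle, b2, b4, b5, b6]
  · have b1 : ∫ x in Ω, Dr a s w x ≤ ∫ x in Ω, (C1 * α * ρ x + τ) :=
      integral_mono iDw ((iρ.const_mul _).add iτ) hD1
    rw [integral_add (iρ.const_mul _) iτ, integral_const_mul, eτ, eρ] at b1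
    have b2 := hw.half ha hΩm
    have b3 : C1 * α * ∫ x, g x ≤ C1 * α * I := mul_le_mul_of_nonneg_left hgu hA
    linarith only [l5, b1, b2, b3]
  · have b1 : ∫ x, |w x| = ∫ x in Ω, |w x| :=
      (setIntegral_eq_integral_of_forall_compl_eq_zero fun x hx => by
        rw [hw.zero x hx, abs_zero]).symm
    have b2 : ∫ x in Ω, |w x| ≤ ∫ x in Ω, √CP * (τ + τ * ρ x) :=
      setIntegral_mono_on (hw.int hp hΩ).abs.integrableOn (iτρ.const_mul _) hΩm fun x hx =>
        (hwp x hx).trans (mul_le_mul_of_nonneg_left (hD2 x) (Real.sqrt_nonneg _))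
    rw [integral_const_mul, eτρ] at b2
    have b3 : √CP * (τ * volume.real Ω + τ * ∫ x, g x) ≤ √CP * (τ * volume.real Ω + τ * I) :=
      mul_le_mul_of_nonneg_left (by linarith only [hτg]) (Real.sqrt_nonneg _)
    linarith only [l4, b1, b2, b3]

end

end Pool.Agent.Work.MP_49e099_an
end

-- merged part: Pool.Agent.Work.MP_49e099_an.CI.S3
section
/-!
# The initial strict supersolution
`v = lam z`, `k = 4 (5 μ2 + 1)`, `u0 = v - k/2 v²`, `ω0 = (1 - k v) lam h - k/2 c v² - lam f + k Dr v - μ Dr u0`.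
`quad_esol`: for continuous `φ ∈ W0` (bounded, `W0.bdd`): `En φ u0 = En φ v - k/2 En φ (v v)`, `En_sq`, `VSol` tested with `φ` and with `v φ` (`W0.mul`); `∫ Dr v φ` is an integral over `Ω`.
`init_real`: `(1 - k v) lam h - lam f ≥ lam (θ - k lam M K) F ≥ 3/4 lam θ`, `k/2 |c| v² ≤ k/2 C lam² M² ≤ lam θ/4`, `Dv ≥ D0/4`.
`init`: `lin_super`; `|u0 x - u0 y| ≤ 2 |v x - v y|` when `k lam M ≤ 1` (`Dsq_mono`); in `St.low` take `ε = min (lam θ/2) 1` and threshold `0`.
-/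

namespace Pool.Agent.Work.MP_49e099_an

open MeasureTheory Set Filter Topology Metric

noncomputable section

variable {N : ℕ} {a s : ℝ} {Ω : Set (Es N)}

theorem cis3_mul {g φ : Es N → ℝ} (hg : IntegrableOn g Ω) (hφ : Measurable φ)
    (hb : ∃ M, ∀ x, |φ x| ≤ M) : IntegrableOn (fun x => g x * φ x) Ω := by
  obtain ⟨M, hM⟩ := hb
  exact hg.mul_bdd hφ.aestronglyMeasurable (Eventually.of_forall hM)

theorem quad_esol (hp : Par N a s) (hΩ : Dom Ω) {v R : Es N → ℝ} (k : ℝ) (hv : W0 a s Ω v)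
    (hb : ∃ M, ∀ x, |v x| ≤ M) (iR : IntegrableOn R Ω) (hR : VSol a s Ω v R) :
    W0 a s Ω (fun x => v x - k / 2 * (v x * v x)) ∧
      ESol a s Ω (fun x => v x - k / 2 * (v x * v x)) fun x => (1 - k * v x) * R x + k * Dr a s v x := by
  have hvv := hv.mul hp.ha hv.toFE hb hb
  refine ⟨hv.sub hp.ha (hvv.smul hp.ha _), fun φ hc hφ => ?_⟩
  have bφ := hφ.bdd hΩ hc
  have i1 := cis3_mul iR hφ.meas bφ
  have i2 := cis3_mul i1 hv.meas hb
  have i3 := cis3_mul (Ω := Ω) hv.toFE.intDr.integrableOn hφ.meas bφ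
  have e1 : ∫ x in Ω, Dr a s v x * φ x = ∫ x, Dr a s v x * φ x :=
    setIntegral_eq_integral_of_forall_compl_eq_zero fun x hx => by rw [hφ.zero x hx, mul_zero]
  have e2 : ∀ x, ((1 - k * v x) * R x + k * Dr a s v x) * φ x =
      R x * φ x - k * (R x * φ x * v x) + k * (Dr a s v x * φ x) := fun x => by ring
  have e3 : ∀ x, R x * (v x * φ x) = R x * φ x * v x := fun x => by ring
  rw [En_sub hp.ha hφ.toFE hv.toFE (hvv.smul hp.ha _).toFE, En_smul,
    En_sq hp.ha hφ.toFE hv.toFE bφ hb, En_comm φ v, hR φ hφ, hR _ (hv.mul hp.ha hφ.toFE hb bφ),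
    ← e1]
  simp only [e2, e3]
  have i4 : IntegrableOn (fun x => R x * φ x - k * (R x * φ x * v x)) Ω := i1.sub (i2.const_mul k)
  rw [integral_add i4 (i3.const_mul k), integral_sub i1 (i2.const_mul k), integral_const_mul,
    integral_const_mul]
  ring

theorem init_real {μ2 θ K M C : ℝ} (hμ : 0 < μ2) (hθ : 0 < θ) : ∃ lam0 > 0, ∀ lam, 0 < lam →
    lam < lam0 → 4 * (5 * μ2 + 1) * (lam * M) ≤ 1 ∧ ∀ z h f c μ Dv D0 : ℝ, |z| ≤ M →
      |h| ≤ K * (1 + |f|) → f + θ * (1 + |f|) ≤ h → |c| ≤ C → 0 ≤ μ → μ ≤ μ2 → 0 ≤ D0 → D0 ≤ 4 * Dv →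
      4 * μ2 * D0 + min (lam * θ / 2) 1 * (1 + D0) ≤
        (1 - 4 * (5 * μ2 + 1) * (lam * z)) * (lam * h) - 4 * (5 * μ2 + 1) / 2 * c * (lam * z) ^ 2 -
          lam * f + 4 * (5 * μ2 + 1) * Dv - μ * D0 := by
  obtain ⟨k, hk⟩ : ∃ k, k = 4 * (5 * μ2 + 1) := ⟨_, rfl⟩
  have k0 : 0 < k := by rw [hk]; positivity
  have p1 : 0 ≤ k * |M| := by positivity
  have p2 : 0 ≤ 4 * (k * (|M| * |K|)) / θ := by positivity
  have p3 : 0 ≤ 2 * (k * (|C| * M ^ 2)) / θ := by positivity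
  refine ⟨1 / (k * |M| + 4 * (k * (|M| * |K|)) / θ + 2 * (k * (|C| * M ^ 2)) / θ + 1),
    by positivity, fun lam l0 l1 => ?_⟩
  rw [lt_div_iff₀ (by positivity), mul_add, mul_add, mul_add] at l1
  have q1 := mul_nonneg l0.le p1
  have q2 := mul_nonneg l0.le p2
  have q3 := mul_nonneg l0.le p3
  have r2 : lam * (4 * (k * (|M| * |K|))) ≤ θ := by
    rw [← div_le_one hθ, mul_div_assoc]
    linarith only [l0, l1, q1, q3]
  have r3 : lam * (2 * (k * (|C| * M ^ 2))) ≤ θ := by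
    rw [← div_le_one hθ, mul_div_assoc]
    linarith only [l0, l1, q1, q2]
  rw [← hk]
  refine ⟨?_, fun z h f c μ Dv D0 hz hh hf hc m0 m2 d0 d4 => ?_⟩
  · have := mul_le_mul_of_nonneg_left (le_abs_self M) (mul_pos k0 l0).le
    linarith only [l0, l1, q2, q3, this]
  have f0 := abs_nonneg f
  have s1 : z * h ≤ |M| * (|K| * (1 + |f|)) := (le_abs_self _).trans (by
    rw [abs_mul]
    exact mul_le_mul (hz.trans (le_abs_self _)) (hh.trans
      (mul_le_mul_of_nonneg_right (le_abs_self _) (by positivity))) (abs_nonneg _) (abs_nonneg _))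
  have s2 : c * z ^ 2 ≤ |C| * M ^ 2 := mul_le_mul ((le_abs_self _).trans (hc.trans (le_abs_self _)))
    (sq_le_sq.2 (hz.trans (le_abs_self _))) (sq_nonneg _) (abs_nonneg _)
  have t1 := mul_le_mul_of_nonneg_left s1 (show 0 ≤ k * lam * lam by positivity)
  have t2 := mul_le_mul_of_nonneg_left s2 (show 0 ≤ k * lam * lam by positivity)
  have t3 := mul_le_mul_of_nonneg_left r2 (show 0 ≤ lam * (1 + |f|) by positivity)
  have t4 := mul_le_mul_of_nonneg_left r3 l0.le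
  have t5 := mul_le_mul_of_nonneg_left hf l0.le
  have t6 := mul_le_mul_of_nonneg_left d4 k0.le
  have t7 := mul_le_mul_of_nonneg_right m2 d0
  have t8 := mul_le_mul_of_nonneg_right (min_le_right (lam * θ / 2) 1) d0
  have t9 := min_le_left (lam * θ / 2) 1
  have t10 : 0 ≤ lam * θ * |f| := by positivity
  have t11 : k * D0 = 20 * (μ2 * D0) + 4 * D0 := by rw [hk]; ring
  linarith only [t1, t2, t3, t4, t5, t6, t7, t8, t9, t10, t11]

theorem init (hp : Par N a s) (hΩ : Dom Ω) {m μ1 μ2 C : ℝ} {c μ f : Es N → ℝ}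
    (hm : N / (2 * s) < m) (hd : Dat Ω m μ1 μ2 C c μ f) (hR : ¬ Res N a s Ω c f) :
    ∃ lam0 > 0, ∀ lam, 0 < lam → lam < lam0 → ∃ u0 ω0 : Es N → ℝ, W0 a s Ω u0 ∧
      St a s lam μ2 Ω c μ f u0 (fun _ => 0) ω0 := by
  obtain ⟨θ, hθ, K, M, z, h, hz, zb, mh, hb, hf, hs⟩ := lin_super hp hΩ hm hd hR
  obtain ⟨lam0, l0, hl⟩ := init_real (K := K) (M := M) (C := C)
    (hd.m0.trans_le ((hd.m1 0).trans (hd.m2 0))) hθ
  refine ⟨lam0, l0, fun lam h0 h1 => ?_⟩
  obtain ⟨k1, k2⟩ := hl lam h0 h1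
  have k0 : 0 < 4 * (5 * μ2 + 1) := by
    have := hd.m0.trans_le ((hd.m1 0).trans (hd.m2 0))
    positivity
  generalize 4 * (5 * μ2 + 1) = k at k0 k1 k2
  have hv := hz.smul hp.ha lam
  have vb : ∀ x, |lam * z x| ≤ lam * M := fun x => by
    rw [abs_mul, abs_of_pos h0]
    exact mul_le_mul_of_nonneg_left (zb x) h0.le
  have i0 := (rhs_int (lam := lam) hp hΩ hm hd hz).1
  have i1 : IntegrableOn h Ω := Integrable.mono'
    (((integrableOn_const hΩ.fin.ne).add i0.abs).const_mul K) mh.aestronglyMeasurable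
    (Eventually.of_forall hb)
  have i2 : IntegrableOn (fun x => lam * (c x * z x + h x)) Ω := by
    refine (Integrable.add ?_ i1).const_mul lam
    simpa only [mul_comm, IntegrableOn] using cis3_mul (hz.int hp hΩ).integrableOn hd.cm ⟨C, hd.cb⟩
  obtain ⟨w0, e0⟩ := quad_esol hp hΩ k hv ⟨_, vb⟩ i2 fun η hη => by
    rw [En_comm, En_smul, En_comm, hs η hη, ← integral_const_mul]
    simp only [mul_assoc]
  have m1 : Measurable fun x => 1 - k * (lam * z x) := (hv.meas.const_mul k).const_sub 1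
  refine ⟨_, fun x => (1 - k * (lam * z x)) * (lam * (c x * z x + h x)) +
    k * Dr a s (fun x => lam * z x) x -
      rhs a s lam c μ f (fun x => lam * z x - k / 2 * (lam * z x * (lam * z x))) x, w0,
    W0.zero', ⟨0, fun x => by simp [Dsq]⟩, ?_, ?_, ?_, min (lam * θ / 2) 1, by positivity, 0, ?_⟩
  · exact ((m1.mul (((hd.cm.mul hz.meas).add mh).const_mul lam)).add
      ((measurable_Dr hv.meas).const_mul k)).sub (((hd.cm.mul w0.meas).add
        (hd.mm.mul (measurable_Dr w0.meas))).add (hd.fm.const_mul lam))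
  · refine Integrable.sub (Integrable.add ?_ (hv.toFE.intDr.integrableOn.const_mul k))
      (rhs_int hp hΩ hm hd w0).2
    simpa only [mul_comm, IntegrableOn] using
      cis3_mul i2 m1 ⟨1 + k * (lam * M), fun x => (abs_sub _ _).trans (by
        rw [abs_one, abs_mul k, abs_of_pos k0]
        exact add_le_add le_rfl (mul_le_mul_of_nonneg_left (vb x) k0.le))⟩
  · simpa only [add_zero, add_sub_cancel] using e0
  · filter_upwards [hv.toFE.ae] with x hx _
    have d1 := Dsq_mono (N := N) (s := s) (x := x) (L := 2) (v := fun x => lam * z x)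
      (u := fun x => lam * z x - k / 2 * (lam * z x * (lam * z x))) hp.ha fun y => by
        have a1 := abs_le.1 (vb x)
        have a2 := abs_le.1 (vb y)
        have a3 := mul_le_mul_of_nonneg_left (add_le_add a1.1 a2.1) k0.le
        have a4 := mul_le_mul_of_nonneg_left (add_le_add a1.2 a2.2) k0.le
        rw [show lam * z x - k / 2 * (lam * z x * (lam * z x)) -
          (lam * z y - k / 2 * (lam * z y * (lam * z y))) =
            (1 - k / 2 * (lam * z x + lam * z y)) * (lam * z x - lam * z y) by ring, abs_mul]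
        exact mul_le_mul_of_nonneg_right (abs_le.2 ⟨by linarith only [k1, a4], by linarith only [k1, a3]⟩) (abs_nonneg _)
    have d2 := ENNReal.toReal_mono (ENNReal.mul_ne_top ENNReal.ofReal_ne_top hx.ne) d1
    rw [ENNReal.toReal_mul, ENNReal.toReal_ofReal (by norm_num), show (2 : ℝ) ^ 2 = 4 by norm_num]
      at d2
    have d3 := k2 (z x) (h x) (f x) (c x) (μ x) _ _ (zb x) (hb x) (hf x) (hd.cb x)
      (hd.m0.le.trans (hd.m1 x)) (hd.m2 x) ENNReal.toReal_nonneg d2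
    have d4 : ∀ t : ℝ, 0 ≤ t → (if 0 < t then t else 0) = t := fun t ht => by
      split_ifs with q
      exacts [rfl, le_antisymm ht (not_lt.1 q)]
    rw [d4 _ Dr_nonneg, rhs]
    unfold Dr
    linarith only [d3]

end

end Pool.Agent.Work.MP_49e099_an
end

-- merged part: Pool.Agent.Work.MP_49e099_an.CI.S4
section
/-!
# The iteration converges to a solution
`iter`: recursion on the subtype of states (`Nat.rec` with `Classical.choose`, or `exists_seq_of_forall_exists`-type lemmas; index the tolerance `η / 2^(n+1)` by the step). `en_cauchy`: `En_tri` along the telescoping sum, `√(K q^n) = √K (√q)^n`, geometric series (or `cauchySeq_of_le_geometric`-type estimates by hand).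
`limit_sol`: `w0_complete` gives `W`; for continuous `φ ∈ W0`, `|φ| ≤ Mφ`: `En φ (u0 + W n) → En φ (u0 + W)` (`En_tendsto`, `En_comm`), `∫ |c (W n - W) φ| → 0` (`poincare`), `∫ |μ (Dr (u0 + W n) - Dr (u0 + W)) φ| → 0` (`Dr_L1`, the energies are bounded by `En_tri`), `|∫ ω n φ| ≤ Mφ ∫ ω n → 0` since `ω n ≥ 0` a.e. on `Ω` (`St.low`; `μ2 > 0`).
-/

namespace Pool.Agent.Work.MP_49e099_an

open MeasureTheory Set Filter Topology Metric

noncomputable section

variable {N : ℕ} {a s : ℝ} {Ω : Set (Es N)}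

variable {m μ1 μ2 C lam : ℝ} {c μ f u0 ω0 : Es N → ℝ}

theorem cis4_mu (hd : Dat Ω m μ1 μ2 C c μ f) : 0 < μ2 :=
  lt_of_lt_of_le hd.m0 ((hd.m1 0).trans (hd.m2 0))

theorem cis4_nonneg {W ω : Es N → ℝ} (hΩ : Dom Ω) (hμ : 0 < μ2)
    (h : St a s lam μ2 Ω c μ f u0 W ω) : ∀ᵐ x ∂(volume.restrict Ω), 0 ≤ ω x := by
  obtain ⟨ε, hε, K, hK⟩ := h.low
  rw [ae_restrict_iff' hΩ.op.measurableSet]
  filter_upwards [hK] with x hx hxΩ
  have h1 := hx hxΩ
  have h2 : 0 ≤ Dr a s u0 x := Dr_nonneg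
  have h3 : 0 ≤ (if K < Dr a s u0 x then Dr a s u0 x else 0) := by
    split_ifs
    · exact h2
    · exact le_rfl
  have h4 : 0 ≤ 4 * μ2 * (if K < Dr a s u0 x then Dr a s u0 x else 0) := by positivity
  have h5 : 0 ≤ ε * (1 + Dr a s u0 x) := by positivity
  linarith

theorem iter (hp : Par N a s) (hΩ : Dom Ω) (hne : Ω.Nonempty) (hm : N / (2 * s) < m)
    (hd : Dat Ω m μ1 μ2 C c μ f) (h0 : W0 a s Ω u0) (hs : St a s lam μ2 Ω c μ f u0 (fun _ => 0) ω0)
    {η : ℝ} (hη : 0 < η) : ∃ q K : ℝ, 0 < q ∧ q < 1 ∧ 0 ≤ K ∧ ∃ W ω : ℕ → Es N → ℝ, ∀ n,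
      St a s lam μ2 Ω c μ f u0 (W n) (ω n) ∧ ∫ x in Ω, ω n x ≤ K * q ^ n ∧
      En N a s (fun x => W (n + 1) x - W n x) (fun x => W (n + 1) x - W n x) ≤ K * q ^ n ∧
      ∫ x, |W n x| ≤ η := by
  obtain ⟨q, K, hq, hq1, hK, hstep⟩ := step (lam := lam) hp hΩ hne hm hd h0
  have hμ := cis4_mu hd
  have hnext : ∀ (n : ℕ) (p : {p : (Es N → ℝ) × (Es N → ℝ) // St a s lam μ2 Ω c μ f u0 p.1 p.2}),
      ∃ p' : {p : (Es N → ℝ) × (Es N → ℝ) // St a s lam μ2 Ω c μ f u0 p.1 p.2},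
        ∃ w : Es N → ℝ, W0 a s Ω w ∧ p'.1.1 = (fun x => p.1.1 x + w x) ∧
          ∫ x in Ω, p'.1.2 x ≤ q * ∫ x in Ω, p.1.2 x ∧
          En N a s w w ≤ K * ∫ x in Ω, p.1.2 x ∧ ∫ x, |w x| ≤ η / 2 ^ (n + 1) := by
    intro n p
    obtain ⟨w, ω', h1, h2, h3, h4, h5⟩ := hstep p.1.1 p.1.2 (η / 2 ^ (n + 1)) (by positivity) p.2
    exact ⟨⟨(fun x => p.1.1 x + w x, ω'), h2⟩, w, h1, rfl, h3, h4, h5⟩
  choose F hF using hnext
  let P : ℕ → {p : (Es N → ℝ) × (Es N → ℝ) // St a s lam μ2 Ω c μ f u0 p.1 p.2} :=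
    fun n => Nat.rec ⟨(fun _ => 0, ω0), hs⟩ (fun n p => F n p) n
  have hP0 : (P 0).1 = (fun _ => 0, ω0) := rfl
  have hPs : ∀ n, P (n + 1) = F n (P n) := fun n => rfl
  have hI : 0 ≤ ∫ x in Ω, ω0 x := integral_nonneg_of_ae (cis4_nonneg hΩ hμ hs)
  set I := ∫ x in Ω, ω0 x with hIdef
  have h1 : ∀ n, ∫ x in Ω, (P n).1.2 x ≤ I * q ^ n := by
    intro n
    induction n with
    | zero => rw [hP0]; simp [hIdef]
    | succ n ih =>
      obtain ⟨w, -, -, h3, -, -⟩ := hF n (P n)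
      rw [hPs]
      calc _ ≤ q * ∫ x in Ω, (P n).1.2 x := h3
        _ ≤ q * (I * q ^ n) := mul_le_mul_of_nonneg_left ih hq.le
        _ = I * q ^ (n + 1) := by ring
  have h2 : ∀ n, ∫ x, |(P n).1.1 x| ≤ η - η / 2 ^ n := by
    intro n
    induction n with
    | zero => rw [hP0]; simp
    | succ n ih =>
      obtain ⟨w, hw, he, -, -, h5⟩ := hF n (P n)
      rw [hPs, he]
      have i1 : Integrable (P n).1.1 := (P n).2.w0.int hp hΩ
      have i2 : Integrable w := hw.int hp hΩ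
      have h6 : ∫ x, |(P n).1.1 x + w x| ≤ ∫ x, (|(P n).1.1 x| + |w x|) :=
        integral_mono (i1.add i2).abs (i1.abs.add i2.abs) fun x => abs_add_le _ _
      rw [integral_add i1.abs i2.abs] at h6
      have h7 : η / 2 ^ n = η / 2 ^ (n + 1) + η / 2 ^ (n + 1) := by
        rw [pow_succ]; field_simp; ring
      linarith only [ih, h5, h6, h7]
  refine ⟨q, I * (1 + K), hq, hq1, by positivity, fun n => (P n).1.1, fun n => (P n).1.2,
    fun n => ⟨(P n).2, ?_, ?_, ?_⟩⟩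
  · have h3 : 0 ≤ I * K * q ^ n := by positivity
    have h4 := h1 n
    have h5 : I * (1 + K) * q ^ n = I * q ^ n + I * K * q ^ n := by ring
    linarith only [h3, h4]
  · obtain ⟨w, -, he, -, h4, -⟩ := hF n (P n)
    have h3 : (fun x => (P (n + 1)).1.1 x - (P n).1.1 x) = w := by
      funext x
      rw [hPs, he]
      ring
    show En N a s (fun x => (P (n + 1)).1.1 x - (P n).1.1 x)
      (fun x => (P (n + 1)).1.1 x - (P n).1.1 x) ≤ _
    rw [h3]
    have h5 := mul_le_mul_of_nonneg_left (h1 n) hK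
    have h6 : 0 ≤ I * q ^ n := by positivity
    have h7 : I * (1 + K) * q ^ n = I * q ^ n + K * (I * q ^ n) := by ring
    linarith only [h4, h5, h6]
  · have h3 := h2 n
    have h4 : 0 ≤ η / 2 ^ n := by positivity
    show ∫ x, |(P n).1.1 x| ≤ η
    linarith only [h3, h4]

theorem cis4_symm (u v : Es N → ℝ) :
    En N a s (fun x => u x - v x) (fun x => u x - v x) =
      En N a s (fun x => v x - u x) (fun x => v x - u x) := by
  simp only [En]
  congr 1
  refine integral_congr_ae (Eventually.of_forall fun x => ?_)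
  refine integral_congr_ae (Eventually.of_forall fun y => ?_)
  ring

theorem en_cauchy (ha : 0 < a) {W : ℕ → Es N → ℝ} (hW : ∀ n, FE a s (W n)) {q K : ℝ} (hq : 0 < q)
    (hq1 : q < 1) (hK : 0 ≤ K) (h : ∀ n,
      En N a s (fun x => W (n + 1) x - W n x) (fun x => W (n + 1) x - W n x) ≤ K * q ^ n) :
    ∀ ε > 0, ∃ n0, ∀ n ≥ n0, ∀ k ≥ n0,
      En N a s (fun x => W n x - W k x) (fun x => W n x - W k x) ≤ ε := by
  set r := √q with hr
  have hr0 : 0 < r := Real.sqrt_pos.2 hq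
  have hr1 : r < 1 := by
    rw [hr, Real.sqrt_lt' one_pos]; simpa using hq1
  have hrq : r ^ 2 = q := Real.sq_sqrt hq.le
  have h1r : 0 < 1 - r := by linarith only [hr1]
  have hstep : ∀ n, √(En N a s (fun x => W (n + 1) x - W n x) (fun x => W (n + 1) x - W n x)) ≤
      √K * r ^ n := by
    intro n
    rw [Real.sqrt_le_iff]
    refine ⟨by positivity, (h n).trans (le_of_eq ?_)⟩
    rw [mul_pow, Real.sq_sqrt hK, ← pow_mul, mul_comm n 2, pow_mul, hrq]
  have hsum : ∀ k j, √(En N a s (fun x => W (k + j) x - W k x) (fun x => W (k + j) x - W k x)) ≤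
      √K * r ^ k * (1 - r ^ j) / (1 - r) := by
    intro k j
    induction j with
    | zero => simp [En]
    | succ j ih =>
      have h1 := En_tri ha ((hW (k + j + 1)).sub ha (hW (k + j))) ((hW (k + j)).sub ha (hW k))
      have h2 : (fun x => W (k + j + 1) x - W (k + j) x + (W (k + j) x - W k x)) =
          fun x => W (k + (j + 1)) x - W k x := by
        funext x; rw [← add_assoc]; ring
      rw [h2] at h1
      have h3 := hstep (k + j)
      have h4 : √K * r ^ k * (1 - r ^ (j + 1)) / (1 - r) =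
          √K * r ^ (k + j) + √K * r ^ k * (1 - r ^ j) / (1 - r) := by
        field_simp
        ring
      linarith only [ih, h1, h3, h4]
  have hbd : ∀ n0 k j, n0 ≤ k →
      En N a s (fun x => W (k + j) x - W k x) (fun x => W (k + j) x - W k x) ≤
        K / (1 - r) ^ 2 * q ^ n0 := by
    intro n0 k j hk
    have h1 : √K * r ^ k * (1 - r ^ j) / (1 - r) ≤ √K * r ^ n0 / (1 - r) := by
      refine div_le_div_of_nonneg_right ?_ h1r.le
      have h2 : r ^ k ≤ r ^ n0 := pow_le_pow_of_le_one hr0.le hr1.le hk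
      have h3 : 0 ≤ r ^ j := by positivity
      have h4 : 0 ≤ √K * r ^ k := by positivity
      calc √K * r ^ k * (1 - r ^ j) ≤ √K * r ^ k * 1 :=
            mul_le_mul_of_nonneg_left (by linarith only [h3]) h4
        _ ≤ √K * r ^ n0 := by
            rw [mul_one]; exact mul_le_mul_of_nonneg_left h2 (Real.sqrt_nonneg _)
    have h5 := (Real.sqrt_le_iff.1 ((hsum k j).trans h1)).2
    refine h5.trans (le_of_eq ?_)
    rw [div_pow, mul_pow, Real.sq_sqrt hK, ← pow_mul, mul_comm n0 2, pow_mul, hrq]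
    ring
  intro ε hε
  have ht : Tendsto (fun n : ℕ => K / (1 - r) ^ 2 * q ^ n) atTop (𝓝 (K / (1 - r) ^ 2 * 0)) :=
    (tendsto_pow_atTop_nhds_zero_of_lt_one hq.le hq1).const_mul _
  rw [mul_zero] at ht
  obtain ⟨n0, hn0⟩ := (ht.eventually (ge_mem_nhds hε)).exists
  refine ⟨n0, fun n hn k hk => ?_⟩
  rcases le_total k n with h1 | h1
  · obtain ⟨j, rfl⟩ := Nat.exists_eq_add_of_le h1
    exact (hbd n0 k j hk).trans hn0
  · obtain ⟨j, rfl⟩ := Nat.exists_eq_add_of_le h1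
    rw [cis4_symm]
    exact (hbd n0 n j hn).trans hn0

theorem cis4_diff (hp : Par N a s) (hΩ : Dom Ω) (hm : N / (2 * s) < m)
    (hd : Dat Ω m μ1 μ2 C c μ f) {u v ω φ : Es N → ℝ} (hu : W0 a s Ω u) (hv : W0 a s Ω v)
    (iω : IntegrableOn ω Ω) (hω : ∀ᵐ x ∂(volume.restrict Ω), 0 ≤ ω x) (hφ : Continuous φ)
    {M : ℝ} (hM : ∀ x, |φ x| ≤ M) :
    |(∫ x in Ω, (rhs a s lam c μ f u x + ω x) * φ x) - ∫ x in Ω, rhs a s lam c μ f v x * φ x| ≤
      M * (C * (∫ x, |u x - v x|) + μ2 * (∫ x, |Dr a s u x - Dr a s v x|) + ∫ x in Ω, ω x) := by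
  have hμ := cis4_mu hd
  have hC : 0 ≤ C := (abs_nonneg _).trans (hd.cb 0)
  have hM0 : 0 ≤ M := (abs_nonneg _).trans (hM 0)
  have iu := (rhs_int (lam := lam) hp hΩ hm hd hu).2
  have iv := (rhs_int (lam := lam) hp hΩ hm hd hv).2
  have hb : ∀ᵐ x ∂(volume.restrict Ω), ‖φ x‖ ≤ M := Eventually.of_forall fun x => hM x
  have i1 : Integrable (fun x => (rhs a s lam c μ f u x + ω x) * φ x) (volume.restrict Ω) :=
    Integrable.mul_bdd (iu.add iω) hφ.aestronglyMeasurable hb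
  have i2 : Integrable (fun x => rhs a s lam c μ f v x * φ x) (volume.restrict Ω) :=
    Integrable.mul_bdd iv hφ.aestronglyMeasurable hb
  have j1 : Integrable fun x => |u x - v x| := ((hu.int hp hΩ).sub (hv.int hp hΩ)).abs
  have j2 : Integrable fun x => |Dr a s u x - Dr a s v x| :=
    (hu.toFE.intDr.sub hv.toFE.intDr).abs
  have k1 : Integrable (fun x => C * |u x - v x|) (volume.restrict Ω) :=
    (j1.const_mul C).integrableOn
  have k2 : Integrable (fun x => μ2 * |Dr a s u x - Dr a s v x|) (volume.restrict Ω) :=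
    (j2.const_mul μ2).integrableOn
  have k3 : Integrable (fun x => C * |u x - v x| + μ2 * |Dr a s u x - Dr a s v x|)
      (volume.restrict Ω) := k1.add k2
  have k4 : Integrable (fun x => C * |u x - v x| + μ2 * |Dr a s u x - Dr a s v x| + ω x)
      (volume.restrict Ω) := k3.add iω
  rw [← integral_sub i1 i2, ← Real.norm_eq_abs]
  have h1 : ‖∫ x in Ω, ((rhs a s lam c μ f u x + ω x) * φ x - rhs a s lam c μ f v x * φ x)‖ ≤
      ∫ x in Ω, M * (C * |u x - v x| + μ2 * |Dr a s u x - Dr a s v x| + ω x) := by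
    refine norm_integral_le_of_norm_le (k4.const_mul M) ?_
    filter_upwards [hω] with x hx
    have e1 : (rhs a s lam c μ f u x + ω x) * φ x - rhs a s lam c μ f v x * φ x =
        (c x * (u x - v x) + μ x * (Dr a s u x - Dr a s v x) + ω x) * φ x := by
      simp only [rhs]; ring
    rw [e1, Real.norm_eq_abs, abs_mul, mul_comm]
    refine mul_le_mul (hM x) ?_ (abs_nonneg _) hM0
    have e2 : |c x * (u x - v x)| ≤ C * |u x - v x| := by
      rw [abs_mul]; exact mul_le_mul_of_nonneg_right (hd.cb x) (abs_nonneg _)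
    have e3 : |μ x * (Dr a s u x - Dr a s v x)| ≤ μ2 * |Dr a s u x - Dr a s v x| := by
      rw [abs_mul, abs_of_pos (lt_of_lt_of_le hd.m0 (hd.m1 x))]
      exact mul_le_mul_of_nonneg_right (hd.m2 x) (abs_nonneg _)
    have e4 := abs_add_le (c x * (u x - v x) + μ x * (Dr a s u x - Dr a s v x)) (ω x)
    have e5 := abs_add_le (c x * (u x - v x)) (μ x * (Dr a s u x - Dr a s v x))
    rw [abs_of_nonneg hx] at e4
    linarith only [e2, e3, e4, e5]
  refine h1.trans ?_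
  rw [integral_const_mul, integral_add k3 iω, integral_add k1 k2, integral_const_mul,
    integral_const_mul]
  refine mul_le_mul_of_nonneg_left ?_ hM0
  have l1 : ∫ x in Ω, |u x - v x| ≤ ∫ x, |u x - v x| :=
    setIntegral_le_integral j1 (Eventually.of_forall fun x => abs_nonneg _)
  have l2 : ∫ x in Ω, |Dr a s u x - Dr a s v x| ≤ ∫ x, |Dr a s u x - Dr a s v x| :=
    setIntegral_le_integral j2 (Eventually.of_forall fun x => abs_nonneg _)
  have l3 := mul_le_mul_of_nonneg_left l1 hC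
  have l4 := mul_le_mul_of_nonneg_left l2 hμ.le
  linarith only [l3, l4]

theorem limit_sol (hp : Par N a s) (hΩ : Dom Ω) (hne : Ω.Nonempty) (hm : N / (2 * s) < m)
    (hd : Dat Ω m μ1 μ2 C c μ f) (h0 : W0 a s Ω u0) (hs : St a s lam μ2 Ω c μ f u0 (fun _ => 0) ω0)
    {η : ℝ} (hη : 0 < η) : ∃ u : Es N → ℝ, W0 a s Ω u ∧ ESol a s Ω u (rhs a s lam c μ f u) ∧
      ∫ x, |u x - u0 x| ≤ η := by
  have ha := hp.ha
  have hμ := cis4_mu hd
  have hC : 0 ≤ C := (abs_nonneg _).trans (hd.cb 0)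
  obtain ⟨q, K, hq, hq1, hK, W, ω, hW⟩ := iter hp hΩ hne hm hd h0 hs hη
  have hW0 : ∀ n, W0 a s Ω (W n) := fun n => (hW n).1.w0
  obtain ⟨V, hV, hlim⟩ := w0_complete hp hΩ hW0
    (en_cauchy ha (fun n => (hW0 n).toFE) hq hq1 hK fun n => (hW n).2.2.1)
  obtain ⟨Cp, hCp, hpo⟩ := poincare hp hΩ
  set E : ℕ → ℝ := fun n => √(En N a s (fun x => W n x - V x) fun x => W n x - V x) with hE
  have hE0 : Tendsto E atTop (𝓝 0) := by
    have := hlim.sqrt
    rwa [Real.sqrt_zero] at this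
  have hL1 : ∀ n, ∫ x, |W n x - V x| ≤ Cp * E n := fun n => (hpo _ ((hW0 n).sub ha hV)).2
  have hu : W0 a s Ω fun x => u0 x + V x := h0.add ha hV
  have hun : ∀ n, W0 a s Ω fun x => u0 x + W n x := fun n => h0.add ha (hW0 n)
  have hsub : ∀ n, (fun x => (u0 x + W n x) - (u0 x + V x)) = fun x => W n x - V x := by
    intro n; funext x; ring
  refine ⟨fun x => u0 x + V x, hu, fun φ hφ hφ0 => ?_, ?_⟩
  · obtain ⟨M, hM⟩ := W0.bdd hΩ hφ hφ0
    have hM0 : 0 ≤ M := (abs_nonneg _).trans (hM 0)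
    have t1 : Tendsto (fun n => En N a s φ fun x => u0 x + W n x) atTop
        (𝓝 (En N a s φ fun x => u0 x + V x)) := by
      refine En_tendsto ha hφ0.toFE (fun n => (hun n).toFE) hu.toFE ?_
      simp only [hsub]
      exact hlim
    set B := √(En N a s (fun x => u0 x + V x) fun x => u0 x + V x) with hB
    have hb : ∀ n, |En N a s φ (fun x => u0 x + W n x) -
        ∫ x in Ω, rhs a s lam c μ f (fun x => u0 x + V x) x * φ x| ≤
        M * (C * (Cp * E n) + μ2 * (E n * (B + E n + B)) + K * q ^ n) := by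
      intro n
      rw [(hW n).1.eq φ hφ hφ0]
      refine (cis4_diff hp hΩ hm hd (hun n) hu (hW n).1.int (cis4_nonneg hΩ hμ (hW n).1) hφ
        hM).trans (mul_le_mul_of_nonneg_left ?_ hM0)
      have e1 : ∫ x, |(u0 x + W n x) - (u0 x + V x)| ≤ Cp * E n := by
        simpa only [add_sub_add_left_eq_sub] using hL1 n
      have e2 := Dr_L1 ha (hun n).toFE hu.toFE
      rw [hsub n] at e2
      have e3 := En_tri ha hu.toFE ((hW0 n).sub ha hV).toFE
      have e4 : (fun x => u0 x + V x + (W n x - V x)) = fun x => u0 x + W n x := by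
        funext x; ring
      rw [e4] at e3
      have e5 : 0 ≤ E n := Real.sqrt_nonneg _
      have e6 : ∫ x, |Dr a s (fun x => u0 x + W n x) x - Dr a s (fun x => u0 x + V x) x| ≤
          E n * (B + E n + B) :=
        e2.trans (mul_le_mul_of_nonneg_left (add_le_add e3 le_rfl) e5)
      have e7 := mul_le_mul_of_nonneg_left e1 hC
      have e8 := mul_le_mul_of_nonneg_left e6 hμ.le
      have e9 := (hW n).2.1
      linarith only [e7, e8, e9]
    have t2 : Tendsto (fun n => M * (C * (Cp * E n) + μ2 * (E n * (B + E n + B)) + K * q ^ n))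
        atTop (𝓝 (M * (C * (Cp * 0) + μ2 * (0 * (B + 0 + B)) + K * 0))) :=
      ((((hE0.const_mul Cp).const_mul C).add
        ((hE0.mul ((hE0.const_add B).add_const B)).const_mul μ2)).add
        ((tendsto_pow_atTop_nhds_zero_of_lt_one hq.le hq1).const_mul K)).const_mul M
    have e0 : M * (C * (Cp * 0) + μ2 * (0 * (B + 0 + B)) + K * 0) = 0 := by ring
    rw [e0] at t2
    have t3 := (t1.sub_const (∫ x in Ω, rhs a s lam c μ f (fun x => u0 x + V x) x * φ x)).abs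
    have t4 := le_of_tendsto_of_tendsto' t3 t2 hb
    exact sub_eq_zero.1 (abs_nonpos_iff.1 t4)
  · have e1 : ∀ n, ∫ x, |u0 x + V x - u0 x| ≤ η + Cp * E n := by
      intro n
      have i1 := (hW0 n).int hp hΩ
      have i2 := hV.int hp hΩ
      have e2 : ∫ x, |u0 x + V x - u0 x| ≤ ∫ x, (|W n x| + |W n x - V x|) := by
        refine integral_mono_of_nonneg (Eventually.of_forall fun x => abs_nonneg _)
          (i1.abs.add (i1.sub i2).abs) (Eventually.of_forall fun x => ?_)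
        have e3 : u0 x + V x - u0 x = W n x - (W n x - V x) := by ring
        show |u0 x + V x - u0 x| ≤ |W n x| + |W n x - V x|
        rw [e3]
        exact abs_sub _ _
      have j2 : Integrable fun x => |W n x - V x| := (i1.sub i2).abs
      rw [integral_add i1.abs j2] at e2
      have e4 := hL1 n
      have e5 := (hW n).2.2.2
      linarith
    have t1 : Tendsto (fun n => η + Cp * E n) atTop (𝓝 (η + Cp * 0)) :=
      (hE0.const_mul Cp).const_add η
    rw [mul_zero, add_zero] at t1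
    exact ge_of_tendsto' t1 e1

end

end Pool.Agent.Work.MP_49e099_an
end

-- merged part: Pool.Agent.Work.MP_49e099_an.CI.T1
section
/-!
# Sup-convolution
`supc_max`: `y ↦ v y - ‖x - y‖²/δ` is continuous and smaller than its value at `x` when `‖x - y‖² > 2 M δ` (`Continuous.exists_forall_ge'`, or `IsCompact.exists_isMaxOn` on a closed ball); `le_ciSup`. `supc_bm`: `lowerSemicontinuous_ciSup`, `LowerSemicontinuous.measurable`. `supc_sec`: with the maximiser `y` of `x`, `supc (x ± h) ≥ v y - ‖x ± h - y‖²/δ`, parallelogram law. `supc_lim`: `v x ≤ supc ≤ v y` and `y → x`.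
`supc_Lk`: `Lk_shift` on both sides and `supc (x - h) ≥ v (y - h) - ‖x - y‖²/δ`. `supc_up`: `Lk_sym`, `supc_sec` on the unit ball, `4 M` outside, `KF.le`, `ball_int`, `tail_int`.
`supc_fatou`: with `L n = Lk (k n) (supc δ v) ≤ C`, the functions `w (L n - B)₊` tend to `0` pointwise and are dominated by `w (C + |B|)`; `Lk_bm`.
-/

namespace Pool.Agent.Work.MP_49e099_an

open MeasureTheory Set Filter Topology Metric

noncomputable section

variable {N : ℕ} {a s : ℝ} {Ω : Set (Es N)}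

/-- the sup-convolution -/
def supc (δ : ℝ) (v : Es N → ℝ) (x : Es N) : ℝ := ⨆ y, (v y - ‖x - y‖ ^ 2 / δ)

variable {v : Es N → ℝ} {δ M : ℝ}

theorem cit1_bdd (hδ : 0 < δ) (hb : ∀ x, |v x| ≤ M) (x : Es N) :
    BddAbove (range fun y => v y - ‖x - y‖ ^ 2 / δ) := by
  refine ⟨M, ?_⟩
  rintro _ ⟨y, rfl⟩
  exact (sub_le_self _ (by positivity)).trans (abs_le.1 (hb y)).2

theorem le_supc (hδ : 0 < δ) (hb : ∀ x, |v x| ≤ M) (x y : Es N) :
    v y - ‖x - y‖ ^ 2 / δ ≤ supc δ v x :=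
  le_ciSup (cit1_bdd hδ hb x) y

theorem cit1_le (hδ : 0 < δ) (hb : ∀ x, |v x| ≤ M) (x : Es N) : v x ≤ supc δ v x := by
  simpa using le_supc hδ hb x x

theorem supc_max (hδ : 0 < δ) (hc : Continuous v) (hb : ∀ x, |v x| ≤ M) (x : Es N) :
    ∃ y, supc δ v x = v y - ‖x - y‖ ^ 2 / δ ∧ ‖x - y‖ ^ 2 ≤ 2 * M * δ := by
  have hM : 0 ≤ M := (abs_nonneg _).trans (hb x)
  have h0 : 0 ≤ 2 * M * δ := by positivity
  have hK : ∀ y : Es N, y ∈ closedBall x √(2 * M * δ) ↔ ‖x - y‖ ^ 2 ≤ 2 * M * δ := fun y => by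
    rw [mem_closedBall, dist_comm, dist_eq_norm, Real.le_sqrt (norm_nonneg _) h0]
  obtain ⟨y, hy, h1⟩ := (isCompact_closedBall x √(2 * M * δ)).exists_isMaxOn
    ⟨x, mem_closedBall_self (Real.sqrt_nonneg _)⟩ (f := fun y => v y - ‖x - y‖ ^ 2 / δ)
    (by fun_prop)
  refine ⟨y, le_antisymm (ciSup_le fun z => ?_) (le_supc hδ hb x y), (hK y).1 hy⟩
  by_cases hz : z ∈ closedBall x √(2 * M * δ)
  · exact h1 hz
  · have h2 : 2 * M ≤ ‖x - z‖ ^ 2 / δ := (le_div_iff₀ hδ).2 (not_le.1 (mt (hK z).2 hz)).le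
    have h3 : v x - ‖x - x‖ ^ 2 / δ ≤ v y - ‖x - y‖ ^ 2 / δ :=
      h1 (mem_closedBall_self (Real.sqrt_nonneg _))
    rw [sub_self, norm_zero, zero_pow two_ne_zero, zero_div, sub_zero] at h3
    have h4 := abs_le.1 (hb x)
    have h5 := abs_le.1 (hb z)
    linarith only [h2, h3, h4, h5]

theorem supc_bm (hδ : 0 < δ) (hc : Continuous v) (hb : ∀ x, |v x| ≤ M) :
    BM (supc δ v) ∧ ∀ x, |supc δ v x| ≤ M := by
  have h1 : ∀ x, |supc δ v x| ≤ M := fun x => abs_le.2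
    ⟨(abs_le.1 (hb x)).1.trans (cit1_le hδ hb x), ciSup_le fun y =>
      (sub_le_self _ (by positivity)).trans (abs_le.1 (hb y)).2⟩
  refine ⟨⟨LowerSemicontinuous.measurable (lowerSemicontinuous_ciSup (cit1_bdd hδ hb) fun y =>
    Continuous.lowerSemicontinuous (by fun_prop)), M, h1⟩, h1⟩

theorem supc_sec (hδ : 0 < δ) (hc : Continuous v) (hb : ∀ x, |v x| ≤ M) (x h : Es N) :
    -(2 * ‖h‖ ^ 2 / δ) ≤ supc δ v (x + h) + supc δ v (x - h) - 2 * supc δ v x := by
  obtain ⟨y, h1, -⟩ := supc_max hδ hc hb x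
  have h2 := le_supc hδ hb (x + h) y
  have h3 := le_supc hδ hb (x - h) y
  rw [add_sub_right_comm, norm_add_sq_real] at h2
  rw [sub_right_comm, norm_sub_sq_real] at h3
  rw [h1]
  refine le_trans (le_of_eq ?_) (sub_le_sub_right (add_le_add h2 h3) _)
  ring

theorem supc_lim (hc : Continuous v) (hb : ∀ x, |v x| ≤ M) (x : Es N) :
    Tendsto (fun j : ℕ => supc (1 / ((j : ℝ) + 1)) v x) atTop (𝓝 (v x)) := by
  have hδ : ∀ j : ℕ, 0 < 1 / ((j : ℝ) + 1) := fun j => by positivity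
  choose y h1 h2 using fun j : ℕ => supc_max (hδ j) hc hb x
  have h3 : Tendsto (fun j : ℕ => √(2 * M * (1 / ((j : ℝ) + 1)))) atTop (𝓝 0) := by
    simpa using (tendsto_one_div_add_atTop_nhds_zero_nat.const_mul (2 * M)).sqrt
  have h4 : Tendsto y atTop (𝓝 x) := by
    refine tendsto_iff_norm_sub_tendsto_zero.2 (squeeze_zero (fun j => norm_nonneg _)
      (fun j => ?_) h3)
    rw [norm_sub_rev]
    exact Real.le_sqrt_of_sq_le (h2 j)
  refine tendsto_of_tendsto_of_tendsto_of_le_of_le tendsto_const_nhds ((hc.tendsto x).comp h4)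
    (fun j => cit1_le (hδ j) hb x) fun j => ?_
  exact (h1 j).le.trans (sub_le_self _ (div_nonneg (sq_nonneg _) (hδ j).le))

theorem supc_Lk (hδ : 0 < δ) (hc : Continuous v) (hb : ∀ x, |v x| ≤ M) {k : Es N → ℝ} (hk : Kn k)
    {x y : Es N} (h : supc δ v x = v y - ‖x - y‖ ^ 2 / δ) : Lk k (supc δ v) x ≤ Lk k v y := by
  rw [Lk_shift, Lk_shift]
  refine integral_mono (cic1_one hk (supc_bm hδ hc hb).1 x (measurable_const.sub measurable_id))
    (cic1_one hk ⟨hc.measurable, M, hb⟩ y (measurable_const.sub measurable_id)) fun z => ?_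
  refine mul_le_mul_of_nonneg_right ?_ (hk.nonneg z)
  have h1 := le_supc hδ hb (x - z) (y - z)
  rw [sub_sub_sub_cancel_right] at h1
  linarith only [h, h1]

theorem supc_up (hp : Par N a s) (hδ : 0 < δ) (hc : Continuous v) (hb : ∀ x, |v x| ≤ M)
    {k : ℕ → Es N → ℝ} (hk : KF a s k) : ∃ C, ∀ n x, Lk (k n) (supc δ v) x ≤ C := by
  obtain ⟨hu, hM⟩ := supc_bm hδ hc hb
  have hM0 : 0 ≤ M := (abs_nonneg _).trans (hb 0)
  have ha := hp.ha
  obtain ⟨_, -, h1⟩ := ball_int (cic2_N hp).1 (α := N + 2 * s - 2) (by linarith only [hp, hp.hs1])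
  obtain ⟨_, -, h2⟩ := tail_int (cic2_N hp).1 (cic2_N hp).2
  have hΛ := (IntegrableOn.integrable_indicator ((h1 0 1 one_pos).1.const_mul (2 / δ * a))
    measurableSet_ball).add (IntegrableOn.integrable_indicator
      ((h2 0 1 one_pos).1.const_mul (4 * M * a)) measurableSet_ball.compl)
  refine ⟨?_, fun n x => ?_⟩
  swap
  rw [Lk_sym (hk.kn n) hu, neg_mul, ← mul_neg, ← integral_neg]
  have hD : ∀ h : Es N,
      |supc δ v (x + h) + supc δ v (x - h) - 2 * supc δ v x| ≤ 4 * M := fun h => by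
    have h3 := abs_le.1 (hM (x + h))
    have h4 := abs_le.1 (hM (x - h))
    have h5 := abs_le.1 (hM x)
    exact abs_le.2 ⟨by linarith only [h3, h4, h5], by linarith only [h3, h4, h5]⟩
  have hm := hu.meas
  refine mul_le_mul_of_nonneg_left (integral_mono (Integrable.neg ((hk.kn n).int.bdd_mul
    (Measurable.aestronglyMeasurable (by fun_prop)) (Eventually.of_forall hD))) hΛ fun h => ?_)
    one_half_pos.le
  have hk0 := (hk.kn n).nonneg h
  rw [Pi.add_apply, Pi.neg_apply, ← neg_mul]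
  by_cases e : h ∈ ball (0 : Es N) 1
  · rw [indicator_of_mem e, indicator_of_notMem (notMem_compl_iff.2 e), add_zero, zero_sub,
      norm_neg]
    rcases eq_or_ne h 0 with rfl | h0
    · rw [add_zero, sub_zero, two_mul, sub_self, neg_zero, zero_mul]
      positivity
    · refine (mul_le_mul (neg_le.1 (supc_sec hδ hc hb x h)) (hk.le n h h0) hk0
        (by positivity)).trans (le_of_eq ?_)
      rw [neg_sub, Real.rpow_sub (norm_pos_iff.2 h0), Real.rpow_two]
      ring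
  · rw [indicator_of_notMem e, indicator_of_mem (mem_compl e), zero_add, zero_sub, norm_neg,
      Real.rpow_neg (norm_nonneg _)]
    refine (mul_le_mul (neg_le.1 (abs_le.1 (hD h)).1)
      (hk.le n h fun h0 => e (h0 ▸ mem_ball_self one_pos)) hk0 (by positivity)).trans
      (le_of_eq ?_)
    ring

theorem supc_fatou (hp : Par N a s) (hδ : 0 < δ) (hc : Continuous v) (hb : ∀ x, |v x| ≤ M)
    {k : ℕ → Es N → ℝ} (hk : KF a s k) {w : Es N → ℝ} (hw : BS w) (h0 : ∀ x, 0 ≤ w x) {B : ℝ}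
    (h : ∀ x y, 0 < w x → supc δ v x = v y - ‖x - y‖ ^ 2 / δ → ‖x - y‖ ^ 2 ≤ 2 * M * δ →
      ∀ ε > 0, ∀ᶠ n in atTop, Lk (k n) v y ≤ B + ε) {ε : ℝ} (hε : 0 < ε) :
    ∀ᶠ n in atTop, ∫ x, w x * Lk (k n) (supc δ v) x ≤ B * (∫ x, w x) + ε := by
  obtain ⟨C, hC⟩ := supc_up hp hδ hc hb hk
  have hL := fun n => Lk_bm (hk.kn n) (supc_bm hδ hc hb).1
  have hm : ∀ n, AEStronglyMeasurable
      (fun x => w x * max (Lk (k n) (supc δ v) x - B) 0) volume := fun n =>
    (hw.meas.mul (((hL n).meas.sub_const B).max measurable_const)).aestronglyMeasurable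
  have hd : ∀ n, ∀ᵐ x, ‖w x * max (Lk (k n) (supc δ v) x - B) 0‖ ≤ w x * max (C - B) 0 :=
    fun n => Eventually.of_forall fun x => by
      rw [Real.norm_of_nonneg (mul_nonneg (h0 x) (le_max_right _ _))]
      exact mul_le_mul_of_nonneg_left (max_le_max (sub_le_sub_right (hC n x) B) le_rfl) (h0 x)
  have h1 := tendsto_integral_of_dominated_convergence (f := fun _ => (0 : ℝ)) _ hm
    (hw.int.mul_const _) hd (Eventually.of_forall fun x => by
      rcases (h0 x).eq_or_lt with e | e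
      · simp only [← e, zero_mul]
        exact tendsto_const_nhds
      · obtain ⟨y, e1, e2⟩ := supc_max hδ hc hb x
        refine (Tendsto.const_mul (w x) (a := 0) (tendsto_order.2 ⟨fun b hb' =>
          Eventually.of_forall fun n => hb'.trans_le (le_max_right _ _),
          fun b hb' => ?_⟩)).trans_eq (congrArg _ (mul_zero _))
        filter_upwards [h x y e e1 e2 (b / 2) (half_pos hb')] with n hn
        have := supc_Lk hδ hc hb (hk.kn n) e1
        exact max_lt (by linarith only [hb', hn, this]) hb')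
  rw [integral_zero] at h1
  filter_upwards [h1.eventually (eventually_le_nhds hε)] with n hn
  obtain ⟨K, hK⟩ := (hL n).bdd
  have i1 := (hw.int.mul_const (max (C - B) 0)).mono' (hm n) (hd n)
  refine le_trans ?_ (add_le_add le_rfl hn)
  rw [← integral_const_mul, ← integral_add (hw.int.const_mul B) i1]
  refine integral_mono (hw.int.mul_bdd (hL n).meas.aestronglyMeasurable (Eventually.of_forall hK))
    ((hw.int.const_mul B).add i1) fun x => ?_
  have := mul_le_mul_of_nonneg_left (le_max_left (Lk (k n) (supc δ v) x - B) 0) (h0 x)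
  linarith

end

end Pool.Agent.Work.MP_49e099_an
end

-- merged part: Pool.Agent.Work.MP_49e099_an.CI.T2
section
/-!
# Consequences of the comparison with the sup-convolution
`pos_energy`: let `|v| ≤ M`, `Ω ⊆ ball 0 R`, `δ = 1/(j+1) ≤ 1`, `w = (supc δ v)₊`. If `w x > 0` then every maximiser `y` has `v y > 0`, so `y ∈ Ω` and `‖x‖ ≤ R + √(2M)`; thus `BS w`, `∫ w ≤ M vol(ball)`. `Ek_mono`, `Lk_dual`, `supc_fatou` and `Ek_fatou` bound `∫⁻ Dsq w` by `ofReal (|B| M vol(ball))` uniformly in `j`; `supc_lim`, `Dsq_fatou`.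
`test_fe`: `ξ = ξ₊ - (-ξ)₊`, `Lk k (-ξ) = -Lk k ξ`.
`sub_test`: the support of `η` is compact in `Ω`, so for small `δ` the maximisers of points with `η x > 0` lie in `Ω` (`IsCompact.exists_cthickening_subset_open`). `supc_fatou` with `B = 0` and `Lk_pair` give `∫ supc δ v * Lf η ≤ 0`; let `δ → 0` (`supc_lim`, dominated convergence).
-/

namespace Pool.Agent.Work.MP_49e099_an

open MeasureTheory Set Filter Topology Metric

noncomputable section

variable {N : ℕ} {a s : ℝ} {Ω : Set (Es N)}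

variable {k : ℕ → Es N → ℝ} {v : Es N → ℝ}

theorem cit2_one (hp : Par N a s) (hk : KF a s k) (hc : Continuous v)
    (h0 : ∀ x, x ∉ Ω → v x = 0) {B M R δ : ℝ} (hb : ∀ x, |v x| ≤ M) (hR : ∀ x ∈ Ω, ‖x‖ < R)
    (hδ : 0 < δ) (hδ1 : δ ≤ 1)
    (h : ∀ y ∈ Ω, ∀ ε > 0, ∀ᶠ n in atTop, Lk (k n) v y ≤ B + ε) :
    ∫⁻ x, Dsq N a s (fun y => max (supc δ v y) 0) x ≤
      ENNReal.ofReal (|B| * ∫ x, (ball (0 : Es N) (R + √(2 * M))).indicator (fun _ => M) x) := by
  obtain ⟨hu, hM⟩ := supc_bm hδ hc hb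
  have hM0 : 0 ≤ M := (abs_nonneg _).trans (hb 0)
  have key : ∀ x y, 0 < max (supc δ v x) 0 → supc δ v x = v y - ‖x - y‖ ^ 2 / δ → y ∈ Ω := by
    intro x y h1 h2
    by_contra h3
    have h4 : 0 ≤ ‖x - y‖ ^ 2 / δ := by positivity
    rw [h0 y h3] at h2
    rw [max_eq_right (by linarith only [h2, h4])] at h1
    exact lt_irrefl _ h1
  have hs : ∀ x, R + √(2 * M) ≤ ‖x‖ → max (supc δ v x) 0 = 0 := by
    intro x hx
    refine ((le_max_right _ _).eq_or_lt.resolve_right fun h1 => ?_).symm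
    obtain ⟨y, e1, e2⟩ := supc_max hδ hc hb x
    have h2 := hR y (key x y h1 e1)
    have h3 : ‖x - y‖ ≤ √(2 * M) :=
      Real.le_sqrt_of_sq_le (e2.trans (mul_le_of_le_one_right (by positivity) hδ1))
    have h4 := norm_le_norm_sub_add x y
    linarith only [hx, h2, h3, h4]
  have hle : ∀ x, max (supc δ v x) 0 ≤ M := fun x => max_le (abs_le.1 (hM x)).2 hM0
  have hw : BS fun x => max (supc δ v x) 0 :=
    ⟨⟨hu.meas.max measurable_const, M, fun x => by
      rw [abs_of_nonneg (le_max_right _ _)]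
      exact hle x⟩, _, hs⟩
  have hI : ∫ x, max (supc δ v x) 0 ≤
      ∫ x, (ball (0 : Es N) (R + √(2 * M))).indicator (fun _ => M) x := by
    refine integral_mono hw.int (IntegrableOn.integrable_indicator
      (integrableOn_const measure_ball_lt_top.ne) measurableSet_ball) fun x => ?_
    by_cases e : x ∈ ball (0 : Es N) (R + √(2 * M))
    · rw [indicator_of_mem e]
      exact hle x
    · rw [indicator_of_notMem e]
      exact (hs x (not_lt.1 (mt mem_ball_zero_iff.2 e))).le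
  have hI0 : 0 ≤ ∫ x, max (supc δ v x) 0 := integral_nonneg fun x => le_max_right _ _
  refine Ek_fatou hp.ha hk hw fun ε hε => ?_
  filter_upwards [supc_fatou hp hδ hc hb hk hw (fun x => le_max_right _ _) (B := B)
    (fun x y h1 h2 _ => h y (key x y h1 h2)) hε] with n hn
  refine (Ek_mono (hk.kn n) hu hw).trans ?_
  rw [← (Lk_dual (hk.kn n) hu hw).1]
  refine hn.trans (add_le_add ?_ le_rfl)
  exact (mul_le_mul_of_nonneg_right (le_abs_self B) hI0).trans
    (mul_le_mul_of_nonneg_left hI (abs_nonneg B))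

theorem pos_energy (hp : Par N a s) (hΩ : Dom Ω) (hk : KF a s k) (hc : Continuous v)
    (h0 : ∀ x, x ∉ Ω → v x = 0) {B : ℝ}
    (h : ∀ y ∈ Ω, ∀ ε > 0, ∀ᶠ n in atTop, Lk (k n) v y ≤ B + ε) :
    ∫⁻ x, Dsq N a s (fun y => max (v y) 0) x < ⊤ := by
  obtain ⟨M, hb⟩ := cia4_bdd hΩ hc h0
  obtain ⟨R, -, hR⟩ := hΩ.ball
  have hδ : ∀ j : ℕ, 0 < 1 / ((j : ℝ) + 1) := fun j => by positivity
  have hδ1 : ∀ j : ℕ, 1 / ((j : ℝ) + 1) ≤ 1 := fun j => by
    rw [div_le_one (by positivity)]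
    linarith [Nat.cast_nonneg (α := ℝ) j]
  refine lt_of_le_of_lt ((Dsq_fatou (z := fun j y => max (supc (1 / ((j : ℝ) + 1)) v y) 0)
    (fun j => (supc_bm (hδ j) hc hb).1.meas.max measurable_const)
    (Eventually.of_forall fun x => (supc_lim hc hb x).max tendsto_const_nhds)).trans
    (liminf_le_of_frequently_le' (Frequently.of_forall fun j =>
      cit2_one hp hk hc h0 hb hR (hδ j) (hδ1 j) h))) ENNReal.ofReal_lt_top

theorem cit2_neg (k v : Es N → ℝ) (x : Es N) : Lk k (fun y => -v y) x = -Lk k v x := by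
  unfold Lk
  rw [← integral_neg]
  congr 1
  funext y
  ring

theorem test_fe (hp : Par N a s) (hΩ : Dom Ω) (hk : KF a s k) {g : Es N → ℝ} {M : ℝ}
    (hc : Continuous v) (h0 : ∀ x, x ∉ Ω → v x = 0)
    (h : ∀ y ∈ Ω, Tendsto (fun n => Lk (k n) v y) atTop (𝓝 (g y))) (hg : ∀ y ∈ Ω, |g y| ≤ M) :
    W0 a s Ω v := by
  have h1 : FE a s fun y => max (v y) 0 := ⟨hc.measurable.max measurable_const,
    pos_energy hp hΩ hk hc h0 (B := M) fun y hy ε hε =>
      (h y hy).eventually (eventually_le_nhds (by linarith only [hε, hg, hy, (abs_le.1 (hg y hy)).2]))⟩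
  have h2 : FE a s fun y => max (-v y) 0 := ⟨hc.neg.measurable.max measurable_const,
    pos_energy hp hΩ hk (v := fun y => -v y) hc.neg (fun x hx => by rw [h0 x hx, neg_zero])
      (B := M) fun y hy ε hε => by
        simp only [cit2_neg]
        exact (h y hy).neg.eventually (eventually_le_nhds (by linarith [(abs_le.1 (hg y hy)).1]))⟩
  have h3 := FE.sub hp.ha h1 h2
  simp only [max_zero_sub_max_neg_zero_eq_self] at h3
  exact ⟨h3, h0⟩

theorem sub_test (hp : Par N a s) (ho : IsOpen Ω) (hk : KF a s k) (hc : Continuous v)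
    (hb : ∃ M, ∀ x, |v x| ≤ M) (h : ∀ y ∈ Ω, ∀ ε > 0, ∀ᶠ n in atTop, Lk (k n) v y ≤ ε)
    {η : Es N → ℝ} (hη : Sm Ω η) (h0 : ∀ x, 0 ≤ η x) : ∫ x, v x * Lf a s η x ≤ 0 := by
  obtain ⟨M, hb⟩ := hb
  obtain ⟨ρ, hρ, hsub⟩ := IsCompact.exists_cthickening_subset_open hη.cs ho hη.sub
  have hδ : ∀ j : ℕ, 0 < 1 / ((j : ℝ) + 1) := fun j => by positivity
  have hint := (Lk_pair hp hk hη ⟨hc.measurable, M, hb⟩).1
  have h1 : Tendsto (fun j : ℕ => ∫ x, supc (1 / ((j : ℝ) + 1)) v x * Lf a s η x) atTop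
      (𝓝 (∫ x, v x * Lf a s η x)) := by
    refine tendsto_integral_of_dominated_convergence (fun x => M * ‖Lf a s η x‖)
      (fun j => (supc_bm (hδ j) hc hb).1.meas.aestronglyMeasurable.mul hint.aestronglyMeasurable)
      (hint.norm.const_mul M) (fun j => Eventually.of_forall fun x => ?_)
      (Eventually.of_forall fun x => (supc_lim hc hb x).mul_const _)
    rw [norm_mul]
    exact mul_le_mul_of_nonneg_right ((supc_bm (hδ j) hc hb).2 x) (norm_nonneg _)
  have h2 : Tendsto (fun j : ℕ => 2 * M * (1 / ((j : ℝ) + 1))) atTop (𝓝 0) := by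
    simpa using tendsto_one_div_add_atTop_nhds_zero_nat.const_mul (2 * M)
  refine le_of_tendsto h1 ?_
  filter_upwards [h2.eventually (eventually_le_nhds (pow_pos hρ 2))] with j hj
  refine le_of_forall_pos_le_add fun ε hε => ?_
  refine le_of_tendsto (Lk_pair hp hk hη (supc_bm (hδ j) hc hb).1).2 ?_
  have h3 := supc_fatou hp (hδ j) hc hb hk hη.bs h0 (B := 0) (fun x y e1 _ e3 ε' hε' => by
    rw [zero_add]
    refine h y (hsub (mem_cthickening_of_dist_le y x ρ _ (subset_tsupport η e1.ne') ?_)) ε' hε'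
    rw [dist_comm, dist_eq_norm]
    exact (sq_le_sq₀ (norm_nonneg _) hρ.le).1 (e3.trans hj)) hε
  simpa only [zero_mul] using h3

end

end Pool.Agent.Work.MP_49e099_an
end

-- merged part: Pool.Agent.Work.MP_49e099_an.CI.T3
section
/-!
# Test functions are subsolutions in the sense of distributions
`vit_car`: apply `exists_le_lowerSemicontinuous_lintegral_ge` to `Ω.indicator (ofReal (g + M))`, cut the majorant at `ofReal (2 M)`, take `toReal`, subtract `M` and restrict to `Ω` (open, so lower semicontinuity at points of `Ω` survives). If `Ω` is empty take `G = 0`.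
`pot_pair`: `Lk_pair` for `U = conv (rz c0 s) G` (`Gk.conv_lip`, `gk_rz`), `fund_conv`, `ai_weak`, uniqueness of limits.
`test_le`: `g' = Ω.indicator g` is measurable as the pointwise limit of `Ω.indicator (Lk (k n) ξ)` (`measurable_of_tendsto_metrizable`, `Lk_bm`). For `G` from `vit_car` and `v = ξ - U`: `Lk (k n) v y = Lk (k n) ξ y - conv (κ n) G y ≤ g y - G y + ε ≤ ε` eventually (`Lk_sub`, `ai_lsc`). `sub_test`, `pot_pair`, then let the error of `vit_car` tend to `0`.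
-/

namespace Pool.Agent.Work.MP_49e099_an

open MeasureTheory Set Filter Topology Metric

noncomputable section

variable {N : ℕ} {a s : ℝ} {Ω : Set (Es N)}

theorem cit3_ind (hΩ : Dom Ω) {u : Es N → ℝ} {M : ℝ} (hu : Measurable u) (hM : 0 ≤ M)
    (hb : ∀ y ∈ Ω, |u y| ≤ M) : BS (Ω.indicator u) := by
  obtain ⟨R, -, hR⟩ := hΩ.ball
  refine ⟨⟨hu.indicator hΩ.op.measurableSet, M, fun x => ?_⟩, R, fun x hx =>
    indicator_of_notMem (fun h => (hR x h).not_ge hx) _⟩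
  by_cases hx : x ∈ Ω
  · rw [indicator_of_mem hx]
    exact hb x hx
  · rw [indicator_of_notMem hx, abs_zero]
    exact hM

theorem cit3_mul {u f : Es N → ℝ} {μ : Measure (Es N)} (hu : BM u) (hf : Integrable f μ) :
    Integrable (fun x => u x * f x) μ := by
  obtain ⟨M, hM⟩ := hu.bdd
  exact hf.bdd_mul hu.meas.aestronglyMeasurable (Eventually.of_forall hM)

theorem vit_car (hΩ : Dom Ω) {g : Es N → ℝ} {M ε : ℝ} (hg : Measurable g)
    (hb : ∀ y ∈ Ω, |g y| ≤ M) (hε : 0 < ε) : ∃ G : Es N → ℝ, BS G ∧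
      (∀ y ∈ Ω, LowerSemicontinuousAt G y ∧ g y ≤ G y) ∧ ∫ y in Ω, (G y - g y) ≤ ε := by
  replace hb : ∀ y ∈ Ω, |g y| ≤ |M| := fun y hy => (hb y hy).trans (le_abs_self M)
  have hM := abs_nonneg M
  generalize |M| = K at hb hM
  have : IsFiniteMeasure (volume.restrict Ω) := isFiniteMeasure_restrict.2 hΩ.fin.ne
  have mf : Measurable fun y => ENNReal.ofReal (g y + K) := (hg.add_const K).ennreal_ofReal
  obtain ⟨H, h1, h2, h3⟩ := exists_le_lowerSemicontinuous_lintegral_ge (volume.restrict Ω) _ mf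
    (ENNReal.ofReal_pos.2 hε).ne'
  have hc : ENNReal.ofReal (K + K) ≠ ⊤ := ENNReal.ofReal_ne_top
  have l0 : LowerSemicontinuous fun y => ENNReal.truncateToReal (ENNReal.ofReal (K + K)) (H y) - K :=
    ((ENNReal.continuous_truncateToReal hc).sub continuous_const).comp_lowerSemicontinuous h2
      fun _ _ h => sub_le_sub_right (ENNReal.monotone_truncateToReal hc h) K
  have b1 : ∀ y ∈ Ω, g y + K ≤ ENNReal.truncateToReal (ENNReal.ofReal (K + K)) (H y) := by
    intro y hy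
    obtain ⟨a1, a2⟩ := abs_le.1 (hb y hy)
    refine le_trans (le_of_eq ?_) (ENNReal.monotone_truncateToReal hc (h1 y))
    rw [ENNReal.truncateToReal_eq_toReal hc (ENNReal.ofReal_le_ofReal (by linarith only [a2])),
      ENNReal.toReal_ofReal (by linarith)]
  have b2 : ∀ y, ENNReal.ofReal (ENNReal.truncateToReal (ENNReal.ofReal (K + K)) (H y)) ≤ H y :=
    fun y => ENNReal.ofReal_toReal_le.trans (min_le_right _ _)
  have b3 : ∀ y, ENNReal.truncateToReal (ENNReal.ofReal (K + K)) (H y) ≤ K + K := fun y =>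
    (ENNReal.truncateToReal_le hc).trans_eq (ENNReal.toReal_ofReal (by linarith only [hM]))
  have b4 : ∀ y, 0 ≤ ENNReal.truncateToReal (ENNReal.ofReal (K + K)) (H y) := fun y =>
    ENNReal.truncateToReal_nonneg
  generalize hT : (fun y => ENNReal.truncateToReal (ENNReal.ofReal (K + K)) (H y)) = T
  replace hT : ∀ y, ENNReal.truncateToReal (ENNReal.ofReal (K + K)) (H y) = T y :=
    fun y => congrFun hT y
  simp only [hT] at l0 b1 b2 b3 b4
  have mT : Measurable fun y => T y - K := l0.measurable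
  refine ⟨Ω.indicator fun y => T y - K, cit3_ind hΩ mT hM fun y _ =>
    abs_le.2 ⟨by linarith only [b4, b4 y], by linarith [b3 y]⟩, fun y hy => ⟨fun r hr => ?_, ?_⟩, ?_⟩
  · have hr' : r < Ω.indicator (fun y => T y - K) y := hr
    rw [indicator_of_mem hy] at hr'
    filter_upwards [l0 y r hr', hΩ.op.mem_nhds hy] with z hz hz'
    show r < Ω.indicator (fun y => T y - K) z
    rwa [indicator_of_mem hz']
  · rw [indicator_of_mem hy]
    linarith only [b1, hy, b1 y hy]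
  have e1 : ∫ y in Ω, (Ω.indicator (fun y => T y - K) y - g y) = ∫ y in Ω, (T y - K - g y) :=
    setIntegral_congr_fun hΩ.op.measurableSet fun y hy => by
      rw [indicator_of_mem hy]
  have hfin : ∫⁻ y in Ω, ENNReal.ofReal (g y + K) ≠ ⊤ := by
    refine ne_top_of_le_ne_top ?_ (setLIntegral_mono' (g := fun _ => ENNReal.ofReal (K + K))
      hΩ.op.measurableSet fun y hy => ENNReal.ofReal_le_ofReal ((b1 y hy).trans (b3 y)))
    rw [setLIntegral_const]
    exact ENNReal.mul_ne_top hc hΩ.fin.ne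
  rw [e1, integral_eq_lintegral_of_nonneg_ae (f := fun y => T y - K - g y) ((ae_restrict_mem hΩ.op.measurableSet).mono
    fun y hy => by
      show (0 : ℝ) ≤ T y - K - g y
      linarith [b1 y hy]) (mT.sub hg).aestronglyMeasurable]
  refine ENNReal.toReal_le_of_le_ofReal hε.le ((ENNReal.add_le_add_iff_left hfin).1
    (le_trans ?_ h3))
  rw [← lintegral_add_left mf]
  refine setLIntegral_mono' hΩ.op.measurableSet fun y hy => ?_
  rw [← ENNReal.ofReal_add (by linarith [(abs_le.1 (hb y hy)).1]) (by linarith [b1 y hy])]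
  refine le_trans (le_of_eq (congrArg _ ?_)) (b2 y)
  ring

variable {c0 : ℝ} {k κ : ℕ → Es N → ℝ}

theorem pot_pair (hp : Par N a s) (h : Heat a s c0 k κ) {G η : Es N → ℝ} (hG : BS G)
    (hη : Sm Ω η) : ∫ x, conv (rz c0 s) G x * Lf a s η x = ∫ x, η x * G x := by
  have h1 := (Lk_pair hp h.kf hη ((gk_rz hp h.pos).conv_lip hp hG).1).2
  simp only [fund_conv hp h hG] at h1
  exact tendsto_nhds_unique h1 (ai_weak h.ai hη.bs hη.cd.continuous hG)

theorem test_meas (hΩ : Dom Ω) (hk : KF a s k) {ξ g : Es N → ℝ} (hξ : BM ξ)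
    (hl : ∀ y ∈ Ω, Tendsto (fun n => Lk (k n) ξ y) atTop (𝓝 (g y))) :
    Measurable (Ω.indicator g) := by
  refine measurable_of_tendsto_metrizable (f := fun n => Ω.indicator (Lk (k n) ξ))
    (fun n => (Lk_bm (hk.kn n) hξ).meas.indicator hΩ.op.measurableSet)
    (tendsto_pi_nhds.2 fun y => ?_)
  by_cases hy : y ∈ Ω
  · simp only [indicator_of_mem hy]
    exact hl y hy
  · simp only [indicator_of_notMem hy]
    exact tendsto_const_nhds

theorem test_le (hp : Par N a s) (hΩ : Dom Ω) (h : Heat a s c0 k κ) {ξ g η : Es N → ℝ} {M : ℝ}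
    (hc : Continuous ξ) (hb : ∃ M, ∀ x, |ξ x| ≤ M)
    (hl : ∀ y ∈ Ω, Tendsto (fun n => Lk (k n) ξ y) atTop (𝓝 (g y))) (hg : ∀ y ∈ Ω, |g y| ≤ M)
    (hη : Sm Ω η) (h0 : ∀ x, 0 ≤ η x) : ∫ x, ξ x * Lf a s η x ≤ ∫ x in Ω, g x * η x := by
  have hξ : BM ξ := ⟨hc.measurable, hb⟩
  have mg := test_meas hΩ h.kf hξ hl
  have hg' : ∀ y ∈ Ω, |Ω.indicator g y| ≤ M := fun y hy => by
    rw [indicator_of_mem hy]
    exact hg y hy
  have bg : BM (Ω.indicator g) := by
    have := (cit3_ind hΩ mg (abs_nonneg M) fun y hy => (hg' y hy).trans (le_abs_self M)).toBM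
    rwa [indicator_indicator, inter_self] at this
  obtain ⟨K, hK⟩ := hη.bs.bdd
  have hK0 : 0 < K + 1 := by linarith [(abs_nonneg _).trans (hK 0)]
  have iL := (Lk_pair hp h.kf hη hξ).1
  have iη : IntegrableOn η Ω := hη.bs.int.integrableOn
  have : IsFiniteMeasure (volume.restrict Ω) := isFiniteMeasure_restrict.2 hΩ.fin.ne
  refine le_of_forall_pos_le_add fun ε hε => ?_
  obtain ⟨G, hG, hG1, hG2⟩ := vit_car hΩ mg hg' (div_pos hε hK0)
  obtain ⟨bU, cU, -⟩ := (gk_rz hp h.pos).conv_lip hp hG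
  have h1 := sub_test (v := fun x => ξ x - conv (rz c0 s) G x) hp hΩ.op h.kf (hc.sub cU) (by
    obtain ⟨M1, a1⟩ := hb
    obtain ⟨M2, a2⟩ := bU.bdd
    exact ⟨M1 + M2, fun x => (abs_sub _ _).trans (add_le_add (a1 x) (a2 x))⟩) (fun y hy δ hδ => by
      filter_upwards [ai_lsc h.ai hG.toBM (hG1 y hy).1 (half_pos hδ),
        (hl y hy).eventually (gt_mem_nhds (lt_add_of_pos_right _ (half_pos hδ)))] with n a1 a2
      rw [Lk_sub (h.kf.kn n) (hξ.int_k (h.kf.kn n) y) (bU.int_k (h.kf.kn n) y),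
        fund_conv hp h hG]
      have a3 := (hG1 y hy).2
      rw [indicator_of_mem hy] at a3
      linarith only [a1, a2, a3]) hη h0
  simp only [sub_mul] at h1
  rw [integral_sub (cit3_mul hξ iL) (cit3_mul bU iL), pot_pair hp h hG hη] at h1
  have e1 : ∫ x, η x * G x = ∫ x in Ω, η x * G x :=
    (setIntegral_eq_integral_of_forall_compl_eq_zero fun x hx => by
      rw [image_eq_zero_of_notMem_tsupport fun k => hx (hη.sub k), zero_mul]).symm
  have e2 : ∫ x in Ω, g x * η x = ∫ x in Ω, Ω.indicator g x * η x :=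
    setIntegral_congr_fun hΩ.op.measurableSet fun y hy => by
      rw [indicator_of_mem hy]
  have iG : IntegrableOn (fun x => G x - Ω.indicator g x) Ω := by
    have := (cit3_mul hG.toBM (integrable_const (μ := volume.restrict Ω) (1 : ℝ))).sub
      (cit3_mul bg (integrable_const (μ := volume.restrict Ω) (1 : ℝ)))
    simp only [mul_one] at this
    exact this
  have h2 : ∫ x in Ω, η x * G x ≤
      ∫ x in Ω, (Ω.indicator g x * η x + (K + 1) * (G x - Ω.indicator g x)) := by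
    refine setIntegral_mono_on (cit3_mul hη.bs.toBM hG.int).integrableOn
      ((cit3_mul bg iη).add (iG.const_mul _)) hΩ.op.measurableSet fun x hx => ?_
    have a1 := mul_le_mul_of_nonneg_right (show η x ≤ K + 1 by linarith only [hK, (abs_le.1 (hK x)).2])
      (sub_nonneg.2 (hG1 x hx).2)
    linarith only [a1]
  rw [integral_add (cit3_mul bg iη) (iG.const_mul _), integral_const_mul] at h2
  have h3 := mul_le_mul_of_nonneg_left hG2 hK0.le
  rw [mul_div_cancel₀ _ hK0.ne'] at h3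
  rw [e2]
  linarith only [h1, e1, h2, h3]

end

end Pool.Agent.Work.MP_49e099_an
end

-- merged part: Pool.Agent.Work.MP_49e099_an.CI.E2
section
/-!
# No resonance below the first eigenvalue
`abs_gap`: `(p - q)² - (|p| - |q|)² ≥ 4 p₊ q₋`; if `(v x)₊ (v y)₋ > 0` then `x ≠ y` lie in `Ω ⊆ ball 0 R`, so `‖x - y‖^(-N-2s) ≥ (2R)^(-N-2s)`; `En_prod`, `integral_prod_mul`.
`pos_ae`: `ψ x = infDist x Ωᶜ` is in `W0` (`W0.of_lip`) and positive on `Ω`. With `q u v = En u v - l1 ∫ u v` and `v = φ - t ψ`, `0 < t ≤ t0`: `q v v = t² q ψ ψ` because `q φ · = 0`, `q |v| |v| ≥ 0`, so `κ (∫ v₊) (∫ v₋) ≤ t² q ψ ψ`. Moreover `∫ v₊ ≥ ∫ (φ - t0 ψ)₊ > 0` for a small fixed `t0` (if it vanished for all `t0 = 1/(n+1)` then `φ ≤ 0` a.e.), and `∫ v₋ ≥ t ∫ ψ` over `Z = {φ = 0}`. Divide by `t`, let `t → 0`: `∫ ψ` over `Z` vanishes, so `Z ∩ Ω` is null.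
`strict`: `Res.rep`; `l1 ∫ φ² ≤ En φ φ = ∫ c φ²` forces `(l1 - c) φ² = 0` a.e. on `Ω`, so `c φ = l1 φ` a.e. on `Ω`; `pos_ae`.
-/

namespace Pool.Agent.Work.MP_49e099_an

open MeasureTheory Set Filter Topology Metric

noncomputable section

variable {N : ℕ} {a s : ℝ} {Ω : Set (Es N)}

theorem cie2_abs (ha : 0 < a) {v : Es N → ℝ} (hv : W0 a s Ω v) : W0 a s Ω fun x => |v x| :=
  hv.comp ha (Φ := fun t => |t|) (L := 1) (fun p q => by
    rw [one_mul]
    exact abs_abs_sub_abs_le_abs_sub p q) abs_zero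

theorem cie2_pt {R e : ℝ} (he : 0 ≤ e) (hR : ∀ x ∈ Ω, ‖x‖ < R) {v : Es N → ℝ}
    (h0 : ∀ x, x ∉ Ω → v x = 0) (x y : Es N) :
    (|v x| - |v y|) * (|v x| - |v y|) / ‖x - y‖ ^ e +
      4 * ((2 * R) ^ e)⁻¹ * (max (v x) 0 * max (-v y) 0) ≤
        (v x - v y) * (v x - v y) / ‖x - y‖ ^ e := by
  by_cases h : 0 < v x ∧ v y < 0
  · obtain ⟨h1, h2⟩ := h
    have hx : x ∈ Ω := by_contra fun k => h1.ne' (h0 x k)
    have hy : y ∈ Ω := by_contra fun k => h2.ne (h0 y k)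
    have hd : 0 < ‖x - y‖ := norm_pos_iff.2 (sub_ne_zero.2 fun k => by
      rw [k] at h1
      exact h1.not_gt h2)
    have h3 : ((2 * R) ^ e)⁻¹ ≤ (‖x - y‖ ^ e)⁻¹ := inv_anti₀ (Real.rpow_pos_of_pos hd e)
      (Real.rpow_le_rpow hd.le (by linarith [norm_sub_le x y, hR x hx, hR y hy]) he)
    have h4 := mul_le_mul_of_nonneg_right h3 (mul_pos h1 (neg_pos.2 h2)).le
    rw [abs_of_pos h1, abs_of_neg h2, max_eq_left h1.le, max_eq_left (neg_pos.2 h2).le,
      div_eq_mul_inv, div_eq_mul_inv]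
    linarith only [h4]
  · have e0 : max (v x) 0 * max (-v y) 0 = 0 := by
      rcases not_and_or.1 h with h | h
      · rw [max_eq_right (not_lt.1 h), zero_mul]
      · rw [max_eq_right (neg_nonpos.2 (not_lt.1 h)), mul_zero]
    rw [e0, mul_zero, add_zero]
    refine div_le_div_of_nonneg_right ?_ (by positivity)
    exact abs_le_iff_mul_self_le.1 (abs_abs_sub_abs_le_abs_sub _ _)

theorem abs_gap (hp : Par N a s) (hΩ : Dom Ω) : ∃ κ > 0, ∀ v : Es N → ℝ, W0 a s Ω v →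
    En N a s (fun x => |v x|) (fun x => |v x|) + κ * ((∫ x, max (v x) 0) * ∫ x, max (-v x) 0) ≤
      En N a s v v := by
  obtain ⟨R, hR0, hR⟩ := hΩ.ball
  have ha := hp.ha
  have he : 0 ≤ (N : ℝ) + 2 * s := by
    have := hp.hs
    positivity
  refine ⟨a / 2 * (4 * ((2 * R) ^ ((N : ℝ) + 2 * s))⁻¹), by positivity, fun v hv => ?_⟩
  have hw := (cie2_abs ha hv).toFE
  have iv := hv.int hp hΩ
  have i1 : Integrable fun x => max (v x) 0 := iv.pos_part
  have i2 : Integrable fun x => max (-v x) 0 := iv.neg_part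
  have i3 := (i1.mul_prod i2).const_mul (4 * ((2 * R) ^ ((N : ℝ) + 2 * s))⁻¹)
  have h := integral_mono ((hw.prod ha hw).add i3) (hv.toFE.prod ha hv.toFE)
    fun p => cie2_pt he hR hv.zero p.1 p.2
  rw [integral_add' (hw.prod ha hw) i3, integral_const_mul,
    integral_prod_mul (fun x => max (v x) 0) fun x => max (-v x) 0] at h
  rw [En_prod ha hw hw, En_prod ha hv.toFE hv.toFE, mul_assoc, ← mul_add]
  exact mul_le_mul_of_nonneg_left h (by positivity)

theorem cie2_psi (hp : Par N a s) (hΩ : Dom Ω) : ∃ ψ : Es N → ℝ, W0 a s Ω ψ ∧ (∀ x, 0 ≤ ψ x) ∧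
    ∀ x ∈ Ω, 0 < ψ x := by
  obtain ⟨R, hR0, hR⟩ := hΩ.ball
  have hne : Ωᶜ.Nonempty := ⟨EuclideanSpace.single ⟨0, lt_of_lt_of_le two_pos hp.hN⟩ R, fun h => by
    have := hR _ h
    rw [PiLp.norm_single, Real.norm_eq_abs, abs_of_pos hR0] at this
    exact this.false⟩
  refine ⟨fun x => infDist x Ωᶜ, (W0.of_lip hp hΩ (L := 1) (fun x y => ?_)
    fun x hx => infDist_zero_of_mem hx).1, fun x => infDist_nonneg, fun x hx =>
      (hΩ.op.isClosed_compl.notMem_iff_infDist_pos hne).1 fun k => k hx⟩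
  have := (lipschitz_infDist_pt Ωᶜ).dist_le_mul x y
  rwa [Real.dist_eq, dist_eq_norm] at this

theorem cie2_q (hp : Par N a s) (hΩ : Dom Ω) {l1 : ℝ} {φ ψ : Es N → ℝ} (hφ : W0 a s Ω φ)
    (hψ : W0 a s Ω ψ) (hs : VSol a s Ω φ fun x => l1 * φ x) (t : ℝ) :
    En N a s (fun x => φ x - t * ψ x) (fun x => φ x - t * ψ x) =
      l1 * (∫ x, (φ x - t * ψ x) ^ 2) + t ^ 2 * (En N a s ψ ψ - l1 * ∫ x, ψ x * ψ x) := by
  have ha := hp.ha
  have hs' : ∀ η, W0 a s Ω η → En N a s η φ = l1 * ∫ x, φ x * η x := fun η hη => by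
    rw [En_comm, hs η hη, setIntegral_eq_integral_of_forall_compl_eq_zero fun x hx => by
      rw [hη.zero x hx, mul_zero], ← integral_const_mul]
    simp only [mul_assoc]
  have ht := hψ.smul ha t
  have hv := hφ.sub ha ht
  have i1 := (L2_cs (hφ.memLp hp hΩ) (hv.memLp hp hΩ)).1
  have i2 := ((L2_cs (hφ.memLp hp hΩ) (hψ.memLp hp hΩ)).1).const_mul t
  have i3 := ((L2_cs (hψ.memLp hp hΩ) (hψ.memLp hp hΩ)).1).const_mul (t ^ 2)
  have i4 : Integrable fun x => φ x * (φ x - t * ψ x) - t * (φ x * ψ x) := i1.sub i2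
  have e : (fun x => (φ x - t * ψ x) ^ 2) =
      fun x => φ x * (φ x - t * ψ x) - t * (φ x * ψ x) + t ^ 2 * (ψ x * ψ x) :=
    funext fun x => by ring
  rw [En_sub ha hv.toFE hφ.toFE ht.toFE, En_smul, hs' _ hv, En_comm _ ψ,
    En_sub ha hψ.toFE hφ.toFE ht.toFE, En_smul, hs' _ hψ, e, integral_add i4 i3,
    integral_sub i1 i2, integral_const_mul, integral_const_mul]
  ring

theorem cie2_low {φ ψ : Es N → ℝ} (i1 : Integrable φ) (i2 : Integrable ψ) (h0 : ∀ᵐ x, 0 ≤ φ x)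
    (hne : ¬ ∀ᵐ x, φ x = 0) : ∃ t > 0, 0 < ∫ x, max (φ x - t * ψ x) 0 := by
  by_contra h
  refine hne ?_
  have h1 : ∀ n : ℕ, ∀ᵐ x, φ x ≤ 1 / ((n : ℝ) + 1) * ψ x := fun n => by
    have k : ∫ x, max (φ x - 1 / ((n : ℝ) + 1) * ψ x) 0 = 0 :=
      le_antisymm (not_lt.1 fun k => h ⟨_, Nat.one_div_pos_of_nat, k⟩)
        (integral_nonneg fun x => le_max_right _ _)
    filter_upwards [(integral_eq_zero_iff_of_nonneg (fun x => le_max_right _ _)
      (i1.sub (i2.const_mul _)).pos_part).1 k] with x hx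
    exact sub_nonpos.1 (max_eq_right_iff.1 hx)
  filter_upwards [ae_all_iff.2 h1, h0] with x hx hx0
  refine le_antisymm ?_ hx0
  have := (tendsto_one_div_add_atTop_nhds_zero_nat (𝕜 := ℝ)).mul_const (ψ x)
  rw [zero_mul] at this
  exact ge_of_tendsto' this hx

theorem pos_ae (hp : Par N a s) (hΩ : Dom Ω) {l1 : ℝ}
    (h1 : ∀ η, W0 a s Ω η → l1 * ∫ x, η x ^ 2 ≤ En N a s η η) {φ : Es N → ℝ} (hφ : W0 a s Ω φ)
    (hs : VSol a s Ω φ fun x => l1 * φ x) (h0 : ∀ᵐ x, 0 ≤ φ x) (hne : ¬ ∀ᵐ x, φ x = 0) :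
    ∀ᵐ x, x ∈ Ω → φ x ≠ 0 := by
  have ha := hp.ha
  obtain ⟨κ, hκ, hg⟩ := abs_gap hp hΩ
  obtain ⟨ψ, hψ, p0, p1⟩ := cie2_psi hp hΩ
  have i1 := hφ.int hp hΩ
  have i2 := hψ.int hp hΩ
  obtain ⟨t0, ht0, hm⟩ := cie2_low i1 i2 h0 hne
  have mZ : MeasurableSet {x | φ x = 0} := hφ.meas (measurableSet_singleton 0)
  have i3 := i2.indicator mZ
  have n3 : ∀ x, 0 ≤ {x | φ x = 0}.indicator ψ x := fun x => indicator_nonneg (fun y _ => p0 y) x
  have hJ : 0 ≤ ∫ x, {x | φ x = 0}.indicator ψ x := integral_nonneg n3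
  have key : ∀ t, 0 < t → t ≤ t0 → κ * (∫ x, max (φ x - t0 * ψ x) 0) *
      ∫ x, {x | φ x = 0}.indicator ψ x ≤ t * (En N a s ψ ψ - l1 * ∫ x, ψ x * ψ x) := by
    intro t ht htt
    have hv := hφ.sub ha (hψ.smul ha t)
    have iv := hv.int hp hΩ
    have a1 := hg _ hv
    have a2 := h1 _ (cie2_abs ha hv)
    simp only [sq_abs] at a2
    rw [cie2_q hp hΩ hφ hψ hs t] at a1
    have a3 : ∫ x, max (φ x - t0 * ψ x) 0 ≤ ∫ x, max (φ x - t * ψ x) 0 :=
      integral_mono (i1.sub (i2.const_mul _)).pos_part iv.pos_part fun x =>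
        max_le_max_right _ (sub_le_sub_left (mul_le_mul_of_nonneg_right htt (p0 x)) _)
    have a4 : t * ∫ x, {x | φ x = 0}.indicator ψ x ≤ ∫ x, max (-(φ x - t * ψ x)) 0 := by
      rw [← integral_const_mul]
      refine integral_mono (i3.const_mul t) iv.neg_part fun x => ?_
      by_cases hx : φ x = 0
      · refine le_trans (le_of_eq ?_) (le_max_left _ _)
        show t * _ = _
        rw [indicator_of_mem (show x ∈ {x | φ x = 0} from hx), hx, zero_sub, neg_neg]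
      · refine le_trans (le_of_eq ?_) (le_max_right _ _)
        show t * _ = _
        rw [indicator_of_notMem (show x ∉ {x | φ x = 0} from hx), mul_zero]
    have a5 := mul_le_mul_of_nonneg_left
      (mul_le_mul a3 a4 (mul_nonneg ht.le hJ) (hm.le.trans a3)) hκ.le
    exact le_of_mul_le_mul_left (by linarith only [a1, a2, a5]) ht
  have hJ0 : κ * (∫ x, max (φ x - t0 * ψ x) 0) * ∫ x, {x | φ x = 0}.indicator ψ x ≤ 0 := by
    have l : Tendsto (fun t : ℝ => t * (En N a s ψ ψ - l1 * ∫ x, ψ x * ψ x)) (𝓝[>] 0) (𝓝 0) := by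
      have := (tendsto_id (x := 𝓝 (0 : ℝ))).mul_const (En N a s ψ ψ - l1 * ∫ x, ψ x * ψ x)
      rw [zero_mul] at this
      exact this.mono_left nhdsWithin_le_nhds
    refine ge_of_tendsto l ?_
    filter_upwards [Ioc_mem_nhdsGT ht0] with t ht
    exact key t ht.1 ht.2
  have hJ1 : ∫ x, {x | φ x = 0}.indicator ψ x = 0 :=
    le_antisymm (nonpos_of_mul_nonpos_right hJ0 (mul_pos hκ hm)) hJ
  filter_upwards [(integral_eq_zero_iff_of_nonneg n3 i3).1 hJ1] with x hx hxΩ h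
  rw [indicator_of_mem (show x ∈ {x | φ x = 0} from h)] at hx
  exact (p1 x hxΩ).ne' hx

theorem strict (hp : Par N a s) (hΩ : Dom Ω) {l1 : ℝ}
    (h1 : ∀ η, W0 a s Ω η → l1 * ∫ x, η x ^ 2 ≤ En N a s η η) {c f : Es N → ℝ}
    (hc : MemLp c ⊤ (volume.restrict Ω)) (hle : ∀ᵐ x, x ∈ Ω → c x ≤ l1)
    (hne : ¬ ∀ᵐ x, x ∈ Ω → c x = l1) : ¬ Res N a s Ω c f := by
  intro hR
  obtain ⟨φ, hφ, hs, h0, hn, -⟩ := hR.rep hΩ hp
  have mΩ := hΩ.op.measurableSet
  have i1 : IntegrableOn (fun x => φ x * φ x) Ω :=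
    (L2_cs (hφ.memLp hp hΩ) (hφ.memLp hp hΩ)).1.integrableOn
  have i2 : IntegrableOn (fun x => c x * (φ x * φ x)) Ω := i1.mul_of_top_right hc
  have a1 := h1 φ hφ
  rw [hs φ hφ, ← setIntegral_eq_integral_of_forall_compl_eq_zero (s := Ω) fun x hx => by
    rw [hφ.zero x hx, zero_pow two_ne_zero]] at a1
  simp only [sq, mul_assoc] at a1
  have n1 : ∀ᵐ x ∂volume.restrict Ω, 0 ≤ l1 * (φ x * φ x) - c x * (φ x * φ x) := by
    filter_upwards [(ae_restrict_iff' mΩ).2 hle] with x hx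
    exact sub_nonneg.2 (mul_le_mul_of_nonneg_right hx (mul_self_nonneg _))
  have a2 : ∫ x in Ω, (l1 * (φ x * φ x) - c x * (φ x * φ x)) = 0 := by
    refine le_antisymm ?_ (integral_nonneg_of_ae n1)
    rw [integral_sub (i1.const_mul l1) i2, integral_const_mul]
    linarith only [a1]
  have a3 : ∀ᵐ x ∂volume.restrict Ω, c x * φ x = l1 * φ x := by
    filter_upwards [(integral_eq_zero_iff_of_nonneg_ae n1 ((i1.const_mul l1).sub i2)).1 a2] with x hx
    have hx' : l1 * (φ x * φ x) - c x * (φ x * φ x) = 0 := hx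
    by_cases h : φ x = 0
    · rw [h, mul_zero, mul_zero]
    · exact mul_right_cancel₀ h (by linarith only [hx'])
  have hs' : VSol a s Ω φ fun x => l1 * φ x := fun η hη => by
    rw [hs η hη]
    exact integral_congr_ae (a3.mono fun x hx => congrArg (· * η x) hx)
  refine hne ?_
  filter_upwards [pos_ae hp hΩ h1 hφ hs' h0 hn, (ae_restrict_iff' mΩ).1 a3] with x h2 h3 hx
  exact mul_right_cancel₀ (h2 hx) (h3 hx)

end

end Pool.Agent.Work.MP_49e099_an
end
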