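import Pool.Agent.Work.MP_49e099_an.CI.P7
import Pool.Agent.Work.MP_49e099_an.CI.G3
import Pool.Agent.Work.MP_49e099_an.CI.E2

-- merged part: Pool.Agent.Work.MP_49e099_an.CI.B3
section
/-!
# Exterior balls and the Hardy inequality
`extBall_loc`: let `D = fderiv ℝ F p0 ≠ 0`, `κ = ‖D‖`, `v` a unit vector with `D v ≥ 7κ/8` (`ContinuousLinearMap.exists_lt_apply_of_lt_opNorm`, or the gradient). Choose `ρ < r` with `‖fderiv F x - D‖ ≤ κ/8` on `ball p0 ρ` (`ContDiffOn.continuousOn_fderiv_of_isOpen`). For `p ∈ frontier Ω ∩ ball p0 (ρ/3)`, `t ≤ ρ/3`, `q = p + t v`, `y ∈ ball q (t/2)`: `F p ≥ 0` (`p ∉ Ω`, which is open), and `F y - F p ≥ D (y - p) - κ/8 ‖y - p‖ ≥ (7/8 - 1/2 - 3/16) κ t ≥ 0` (`Convex.norm_image_sub_le_of_norm_fderiv_le'`), so `y ∉ Ω`.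
`C1Bdry.ext`: the frontier is compact; finite subcover (`IsCompact.elim_nhds_subcover`), or `IsCompact.induction_on`. `ExtBall.zero`: `q ∉ closure Ω` and `q → p`.
`hardy`: `d = infDist x Ωᶜ > 0` is attained at `p ∈ Ωᶜ` (`IsClosed.exists_infDist_eq_dist`), `p ∈ closure (ball x d) ⊆ closure Ω`. If `d ≤ r0` integrate over `ball q (ε d)` where `u = 0` and `‖x - y‖ ≤ (2 + ε) d`; otherwise `poincare_pt`.
-/

namespace Pool.Agent.Work.MP_49e099_an

open MeasureTheory Set Filter Topology Metric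

noncomputable section

variable {N : ℕ} {a s : ℝ} {Ω : Set (Es N)}

theorem extBall_loc (ho : IsOpen Ω) (h : C1Bdry Ω) {p0 : Es N} (h0 : p0 ∈ frontier Ω) :
    ∃ ρ > 0, ∀ p ∈ frontier Ω, ‖p - p0‖ < ρ → ∀ t, 0 < t → t ≤ ρ →
      ∃ q : Es N, ‖q - p‖ ≤ t ∧ Disjoint (ball q (1 / 2 * t)) Ω := by
  obtain ⟨r, hr, F, hF, hD, hΩ⟩ := h p0 h0
  obtain ⟨D, eD⟩ : ∃ D, D = fderiv ℝ F p0 := ⟨_, rfl⟩
  rw [← eD] at hD
  have hκ : 0 < ‖D‖ := norm_pos_iff.2 hD
  obtain ⟨v, v1, v2⟩ : ∃ v : Es N, ‖v‖ ≤ 1 ∧ 7 / 8 * ‖D‖ ≤ D v := by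
    obtain ⟨v, v1, v2⟩ := D.exists_lt_apply_of_lt_opNorm (r := 7 / 8 * ‖D‖) (by linarith)
    rcases le_total 0 (D v) with e | e
    · exact ⟨v, v1.le, by rw [Real.norm_of_nonneg e] at v2; exact v2.le⟩
    · refine ⟨-v, by rw [norm_neg]; exact v1.le, ?_⟩
      rw [Real.norm_of_nonpos e] at v2
      rw [map_neg]
      exact v2.le
  have hc : ContinuousAt (fderiv ℝ F) p0 :=
    (hF.continuousOn_fderiv_of_isOpen isOpen_ball le_rfl).continuousAt (ball_mem_nhds p0 hr)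
  obtain ⟨δ, δ0, hδ⟩ := Metric.continuousAt_iff.1 hc (‖D‖ / 8) (by positivity)
  have m0 : 0 < min δ r := lt_min δ0 hr
  have sub : ball p0 (min δ r) ⊆ ball p0 r := ball_subset_ball (min_le_right _ _)
  refine ⟨min δ r / 3, by positivity, fun p hp h1 t t0 t1 => ⟨p + t • v, ?_, ?_⟩⟩
  · rw [add_sub_cancel_left, norm_smul, Real.norm_of_nonneg t0.le]
    exact mul_le_of_le_one_right t0.le v1
  refine Set.disjoint_left.2 fun y hy hy' => ?_
  have e1 : ‖y - (p + t • v)‖ < 1 / 2 * t := mem_ball_iff_norm.1 hy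
  have e2 : y - p = t • v + (y - (p + t • v)) := by abel
  have e3 : ‖y - p‖ ≤ 3 / 2 * t := by
    have k1 := norm_add_le (t • v) (y - (p + t • v))
    rw [← e2, norm_smul, Real.norm_of_nonneg t0.le] at k1
    have k2 := mul_le_of_le_one_right t0.le v1
    linarith
  have pm : p ∈ ball p0 (min δ r) := mem_ball_iff_norm.2 (by linarith)
  have ym : y ∈ ball p0 (min δ r) := mem_ball_iff_norm.2 (by
    have := norm_sub_le_norm_sub_add_norm_sub y p p0
    linarith)
  have k := (convex_ball p0 (min δ r)).norm_image_sub_le_of_norm_fderiv_le' (𝕜 := ℝ) (f := F)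
    (φ := D) (C := ‖D‖ / 8)
    (fun x hx => (hF.differentiableOn one_ne_zero).differentiableAt
      (isOpen_ball.mem_nhds (sub hx)))
    (fun x hx => by
      rw [eD, ← dist_eq_norm, ← eD]
      have := hδ ((mem_ball.1 hx).trans_le (min_le_left _ _))
      rw [← eD] at this
      exact this.le) pm ym
  have f1 : 0 ≤ F p := by
    by_contra hn
    rw [ho.frontier_eq] at hp
    exact hp.2 ((hΩ p (sub pm)).2 (not_le.1 hn))
  have f2 : F y < 0 := (hΩ y (sub ym)).1 hy'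
  have f3 : D (y - p) = t * D v + D (y - (p + t • v)) := by
    rw [e2, map_add, map_smul, smul_eq_mul]
  have f4 := (abs_le.1 ((D.le_opNorm (y - (p + t • v))).trans
    (mul_le_mul_of_nonneg_left e1.le hκ.le))).1
  have f5 := (abs_le.1 (k.trans (mul_le_mul_of_nonneg_left e3 (by positivity)))).1
  have f6 := mul_le_mul_of_nonneg_left v2 t0.le
  have f7 := mul_pos t0 hκ
  linarith

theorem C1Bdry.ext (hΩ : Dom Ω) (h : C1Bdry Ω) : ExtBall Ω := by
  have hK : IsCompact (frontier Ω) :=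
    hΩ.bd.isCompact_closure.of_isClosed_subset isClosed_frontier frontier_subset_closure
  have k : ∃ r0 > 0, ∀ p ∈ frontier Ω, p ∈ frontier Ω → ∀ t, 0 < t → t ≤ r0 →
      ∃ q : Es N, ‖q - p‖ ≤ t ∧ Disjoint (ball q (1 / 2 * t)) Ω := by
    refine hK.induction_on (p := fun S => ∃ r0 > 0, ∀ p ∈ S, p ∈ frontier Ω → ∀ t, 0 < t →
      t ≤ r0 → ∃ q : Es N, ‖q - p‖ ≤ t ∧ Disjoint (ball q (1 / 2 * t)) Ω)
      ⟨1, one_pos, fun p hp => hp.elim⟩ ?_ ?_ ?_
    · rintro S T hST ⟨r0, h0, h1⟩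
      exact ⟨r0, h0, fun p hp => h1 p (hST hp)⟩
    · rintro S T ⟨r0, h0, h1⟩ ⟨r1, h2, h3⟩
      refine ⟨min r0 r1, lt_min h0 h2, fun p hp hf t t0 t1 => ?_⟩
      rcases hp with hp | hp
      · exact h1 p hp hf t t0 (t1.trans (min_le_left _ _))
      · exact h3 p hp hf t t0 (t1.trans (min_le_right _ _))
    · intro x hx
      obtain ⟨ρ, h0, h1⟩ := extBall_loc hΩ.op h hx
      exact ⟨ball x ρ, mem_nhdsWithin_of_mem_nhds (ball_mem_nhds x h0), ρ, h0,
        fun p hp hf => h1 p hf (mem_ball_iff_norm.1 hp)⟩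
  obtain ⟨r0, h0, h1⟩ := k
  exact ⟨1 / 2, by norm_num, r0, h0, fun p hp => h1 p hp hp⟩

theorem ExtBall.zero (hΩ : Dom Ω) (h : ExtBall Ω) {ξ : Es N → ℝ} (hc : Continuous ξ)
    (h0 : ∀ x, x ∉ closure Ω → ξ x = 0) : ∀ x, x ∉ Ω → ξ x = 0 := by
  intro x hx
  by_cases hx' : x ∈ closure Ω
  swap
  · exact h0 x hx'
  obtain ⟨ε, ε0, r0, r1, h⟩ := h
  have hf : x ∈ frontier Ω := by
    rw [hΩ.op.frontier_eq]
    exact ⟨hx', hx⟩
  have k : x ∈ closure {y | ξ y = 0} := by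
    refine Metric.mem_closure_iff.2 fun η η0 => ?_
    have m0 : 0 < min r0 (η / 2) := lt_min r1 (by positivity)
    obtain ⟨q, q1, q2⟩ := h x hf _ m0 (min_le_left _ _)
    refine ⟨q, h0 q (Set.disjoint_left.1 (q2.closure_right isOpen_ball)
      (mem_ball_self (by positivity))), ?_⟩
    rw [dist_comm, dist_eq_norm]
    have := min_le_right r0 (η / 2)
    linarith
  rwa [(isClosed_eq hc continuous_const).closure_eq] at k

theorem hardy (hp : Par N a s) (hΩ : Dom Ω) (h : ExtBall Ω) : ∃ C > 0, ∀ u : Es N → ℝ,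
    (∀ y, y ∉ Ω → u y = 0) → ∀ x ∈ Ω,
      ENNReal.ofReal (u x ^ 2 * infDist x Ωᶜ ^ (-(2 * s))) ≤ ENNReal.ofReal C * Dsq N a s u x := by
  obtain ⟨ε, ε0, r0, r1, h⟩ := h
  obtain ⟨C2, c2, h2⟩ := poincare_pt hp hΩ
  obtain ⟨w, w0, hw⟩ := vol_ball N
  have ha := hp.ha
  have hs := hp.hs
  obtain ⟨C1, e1⟩ : ∃ C1, C1 = (2 + ε) ^ (N + 2 * s) / (a / 2 * w * ε ^ N) := ⟨_, rfl⟩
  have c1 : 0 < C1 := by rw [e1]; positivity
  have c3 : 0 < r0 ^ (-(2 * s)) * C2 := by positivity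
  refine ⟨C1 + r0 ^ (-(2 * s)) * C2, by positivity, fun u hu x hx => ?_⟩
  rcases (Ωᶜ).eq_empty_or_nonempty with e | hne
  · rw [e, infDist_empty, Real.zero_rpow (by linarith), mul_zero, ENNReal.ofReal_zero]
    exact zero_le
  have d0 : 0 < infDist x Ωᶜ :=
    (hΩ.op.isClosed_compl.notMem_iff_infDist_pos hne).1 fun k => k hx
  obtain ⟨p, p1, p2⟩ := hΩ.op.isClosed_compl.exists_infDist_eq_dist hne x
  have p3 : p ∈ frontier Ω := by
    rw [hΩ.op.frontier_eq]
    refine ⟨closure_mono (ball_infDist_compl_subset (x := x)) ?_, p1⟩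
    rw [closure_ball x d0.ne', mem_closedBall, dist_comm, p2]
  obtain ⟨d, ed⟩ : ∃ d, d = infDist x Ωᶜ := ⟨_, rfl⟩
  rw [← ed] at d0 p2 ⊢
  rcases le_total d r0 with hd | hd
  · obtain ⟨q, q1, q2⟩ := h p p3 d d0 hd
    have k : ∫⁻ _ in ball q (ε * d),
        ENNReal.ofReal (a / 2 * (u x ^ 2 / ((2 + ε) * d) ^ (N + 2 * s))) ≤ Dsq N a s u x := by
      refine le_trans (setLIntegral_mono' measurableSet_ball fun y hy => ?_)
        (setLIntegral_le_lintegral _ _)
      have y1 : y ∉ Ω := Set.disjoint_left.1 q2 hy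
      have y2 : 0 < ‖x - y‖ := norm_pos_iff.2 (sub_ne_zero.2 fun e => y1 (e ▸ hx))
      have y3 : ‖x - y‖ ≤ (2 + ε) * d := by
        have k1 := norm_sub_le_norm_sub_add_norm_sub x p y
        have k2 := norm_sub_le_norm_sub_add_norm_sub p q y
        have k3 : ‖q - y‖ < ε * d := mem_ball_iff_norm'.1 hy
        rw [norm_sub_rev p q] at k2
        rw [dist_eq_norm] at p2
        linarith
      rw [hu y y1, sub_zero]
      refine ENNReal.ofReal_le_ofReal (mul_le_mul_of_nonneg_left ?_ (by positivity))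
      exact div_le_div_of_nonneg_left (sq_nonneg _) (by positivity)
        (Real.rpow_le_rpow y2.le y3 (by positivity))
    rw [setLIntegral_const, ← ENNReal.ofReal_toReal (measure_ball_lt_top (x := q) (r := ε * d)).ne,
      ← measureReal_def, (hw q (ε * d) (by positivity)).1, ← ENNReal.ofReal_mul (by positivity)] at k
    refine le_trans ?_ (mul_le_mul' (ENNReal.ofReal_le_ofReal (le_add_of_nonneg_right c3.le)) k)
    rw [← ENNReal.ofReal_mul c1.le]
    refine ENNReal.ofReal_le_ofReal (le_of_eq ?_)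
    rw [e1, Real.mul_rpow (by positivity) d0.le, Real.rpow_add d0, Real.rpow_natCast,
      Real.rpow_neg d0.le, mul_pow]
    have g1 : 0 < (2 + ε) ^ (N + 2 * s) := by positivity
    have g2 : 0 < d ^ (2 * s) := by positivity
    field_simp
  · have k1 : u x ^ 2 * d ^ (-(2 * s)) ≤ r0 ^ (-(2 * s)) * u x ^ 2 := by
      rw [mul_comm]
      exact mul_le_mul_of_nonneg_right (Real.rpow_le_rpow_of_nonpos r1 hd (by linarith))
        (sq_nonneg _)
    refine (ENNReal.ofReal_le_ofReal k1).trans ?_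
    rw [ENNReal.ofReal_mul (by positivity)]
    refine (mul_le_mul' le_rfl (h2 u hu x hx)).trans ?_
    rw [← mul_assoc, ← ENNReal.ofReal_mul (by positivity)]
    exact mul_le_mul' (ENNReal.ofReal_le_ofReal (le_add_of_nonneg_left c1.le)) le_rfl

end

end Pool.Agent.Work.MP_49e099_an
end

-- merged part: Pool.Agent.Work.MP_49e099_an.CI.B4
section
/-!
# Cutting off near the boundary
`cz Ω j` is `j`-Lipschitz (`lipschitz_infDist_pt`), `0` for `d ≤ 1/j`, `1` for `d ≥ 2/j`, `d = infDist x Ωᶜ`. `cz_Dsq`: if `j d ≤ 4` (or `j = 0`) use `Dsq_lip` with `L = j`, `R = d`, `M = 1` (`j² d^(2-2s) ≤ 16 d^(-2s)`); otherwise `cz = 1` on `ball y (d/2)`: `L = 0`, `R = d/2`.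
`cz_in`: for large `j` the integrand vanishes on `ball y (d/2)`; it is at most `‖x - y‖^(-N-2s)` outside (`tail_int`) and tends to `0` for `x ∈ Ω`; `tendsto_lintegral_of_dominated_convergence'`.
`cz_key`: with `ψ = cz - 1`, `η x ψ x - η y ψ y = ψ x (η x - η y) + η y (ψ x - ψ y)`; use `half`, swap the variables in the second term (`lintegral_lintegral_swap`; `η y = 0` off `Ω`).
`cutoff`: both terms tend to `0` by dominated convergence on `Ω`, with majorants `Dsq η` and `C η² d^(-2s)` (`cz_Dsq`, `hardy`); `W0` of `η cz = η + η ψ`; `En_self`.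
-/

namespace Pool.Agent.Work.MP_49e099_an

open MeasureTheory Set Filter Topology Metric

noncomputable section

variable {N : ℕ} {a s : ℝ} {Ω : Set (Es N)}

/-- the cutoff functions -/
def cz (Ω : Set (Es N)) (j : ℕ) (x : Es N) : ℝ := min 1 (max (j * infDist x Ωᶜ - 1) 0)

theorem cz_basic (ho : IsOpen Ω) (hne : Ωᶜ.Nonempty) (j : ℕ) : Continuous (cz Ω j) ∧
    (∀ x, 0 ≤ cz Ω j x ∧ cz Ω j x ≤ 1) ∧ (∀ x y, |cz Ω j x - cz Ω j y| ≤ j * ‖x - y‖) ∧
    (∀ x, infDist x Ωᶜ ≤ 1 / (j + 1) → cz Ω j x = 0) ∧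
    ∀ x, 2 ≤ j * infDist x Ωᶜ → cz Ω j x = 1 := by
  have hj : (0 : ℝ) ≤ j := Nat.cast_nonneg _
  refine ⟨continuous_const.min (((continuous_const.mul (continuous_infDist_pt _)).sub
    continuous_const).max continuous_const),
    fun x => ⟨le_min zero_le_one (le_max_right _ _), min_le_left _ _⟩, fun x y => ?_,
    fun x hx => ?_, fun x hx => min_eq_left (le_max_of_le_left (by linarith))⟩
  · refine (abs_min_sub_min_le_max _ _ _ _).trans (max_le (by simp; positivity) ?_)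
    refine (abs_max_sub_max_le_abs _ _ _).trans ?_
    have h := (lipschitz_infDist_pt Ωᶜ).dist_le_mul x y
    rw [Real.dist_eq, dist_eq_norm, NNReal.coe_one, one_mul] at h
    rw [sub_sub_sub_cancel_right, ← mul_sub, abs_mul, abs_of_nonneg hj]
    exact mul_le_mul_of_nonneg_left h hj
  · rw [le_div_iff₀ (by positivity)] at hx
    have h0 : 0 ≤ infDist x Ωᶜ := infDist_nonneg
    rw [cz, max_eq_right (by linarith), min_eq_right zero_le_one]

theorem cib4_ne (hp : Par N a s) (hΩ : Dom Ω) : Ωᶜ.Nonempty := by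
  obtain ⟨R, hR, h⟩ := hΩ.ball
  refine ⟨EuclideanSpace.single ⟨0, by have := hp.hN; omega⟩ R, fun hx => ?_⟩
  have := h _ hx
  rw [PiLp.norm_single, Real.norm_eq_abs, abs_of_pos hR] at this
  exact lt_irrefl _ this

theorem cib4_pos (hp : Par N a s) (hΩ : Dom Ω) {y : Es N} (hy : y ∈ Ω) : 0 < infDist y Ωᶜ :=
  (hΩ.op.isClosed_compl.notMem_iff_infDist_pos (cib4_ne hp hΩ)).1 fun h => h hy

theorem cib4_near (hp : Par N a s) (hΩ : Dom Ω) {j : ℕ} {x y : Es N}
    (hj : 4 ≤ j * infDist y Ωᶜ) (h : ‖y - x‖ ≤ infDist y Ωᶜ / 2) : cz Ω j x = 1 := by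
  refine (cz_basic hΩ.op (cib4_ne hp hΩ) j).2.2.2.2 x ?_
  have h1 : infDist y Ωᶜ ≤ infDist x Ωᶜ + dist y x := infDist_le_infDist_add_dist
  rw [dist_eq_norm] at h1
  have h2 : (j : ℝ) * (infDist y Ωᶜ / 2) ≤ j * infDist x Ωᶜ :=
    mul_le_mul_of_nonneg_left (by linarith) (Nat.cast_nonneg _)
  linarith

theorem cib4_ev (hp : Par N a s) (hΩ : Dom Ω) {y : Es N} (hy : y ∈ Ω) :
    ∀ᶠ j : ℕ in atTop, 4 ≤ j * infDist y Ωᶜ :=
  (tendsto_natCast_atTop_atTop.atTop_mul_const (cib4_pos hp hΩ hy)).eventually_ge_atTop 4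

theorem cib4_one (hp : Par N a s) (hΩ : Dom Ω) {y : Es N} (hy : y ∈ Ω) :
    ∀ᶠ j : ℕ in atTop, cz Ω j y = 1 :=
  (cib4_ev hp hΩ hy).mono fun j hj => cib4_near hp hΩ hj (by
    rw [sub_self, norm_zero]
    exact div_nonneg infDist_nonneg zero_le_two)

theorem cib4_abs (hp : Par N a s) (hΩ : Dom Ω) (j : ℕ) (x y : Es N) :
    |cz Ω j x - cz Ω j y| ≤ 1 := by
  have h := (cz_basic hΩ.op (cib4_ne hp hΩ) j).2.1
  have h1 := h x
  have h2 := h y
  rw [abs_le]
  constructor <;> linarith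

theorem cib4_meas {u : Es N → ℝ} (hu : Measurable u) : Measurable fun p : Es N × Es N =>
    ENNReal.ofReal (a / 2 * ((u p.1 - u p.2) ^ 2 / ‖p.1 - p.2‖ ^ (N + 2 * s))) :=
  (((((hu.comp measurable_fst).sub (hu.comp measurable_snd)).pow_const 2).div
    ((measurable_fst.sub measurable_snd).norm.pow_const _)).const_mul _).ennreal_ofReal

theorem cz_Dsq (hp : Par N a s) (hΩ : Dom Ω) : ∃ C > 0, ∀ (j : ℕ), ∀ y ∈ Ω,
    Dsq N a s (cz Ω j) y ≤ ENNReal.ofReal (C * infDist y Ωᶜ ^ (-(2 * s))) := by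
  obtain ⟨C, hC, h⟩ := Dsq_lip hp
  refine ⟨C * (17 + (1 / 2) ^ (-(2 * s))), by positivity, fun j y hy => ?_⟩
  have hd := cib4_pos hp hΩ hy
  have hj : (0 : ℝ) ≤ j := Nat.cast_nonneg _
  have h1 : 0 < infDist y Ωᶜ ^ (-(2 * s)) := Real.rpow_pos_of_pos hd _
  have h2 : (0 : ℝ) < (1 / 2) ^ (-(2 * s)) := by positivity
  rcases le_total (j * infDist y Ωᶜ) 4 with h4 | h4
  · refine (h _ y j 1 _ hd (fun x _ => (cz_basic hΩ.op (cib4_ne hp hΩ) j).2.2.1 y x)
      (cib4_abs hp hΩ j y)).trans (ENNReal.ofReal_le_ofReal ?_)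
    rw [mul_assoc]
    refine mul_le_mul_of_nonneg_left ?_ hC.le
    rw [sub_eq_add_neg, Real.rpow_add hd, Real.rpow_two, ← mul_assoc, ← mul_pow]
    have h5 : (j * infDist y Ωᶜ) ^ 2 ≤ 4 ^ 2 := pow_le_pow_left₀ (by positivity) h4 2
    nlinarith
  · refine (h _ y 0 1 _ (half_pos hd) (fun x hx => ?_) (cib4_abs hp hΩ j y)).trans
      (ENNReal.ofReal_le_ofReal ?_)
    · rw [cib4_near hp hΩ h4 hx.le, cib4_near hp hΩ h4 (x := y) (by simpa using (half_pos hd).le)]
      simp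
    · rw [mul_assoc]
      refine mul_le_mul_of_nonneg_left ?_ hC.le
      rw [div_eq_mul_one_div, Real.mul_rpow hd.le (by norm_num), Real.mul_rpow hd.le (by norm_num)]
      nlinarith

theorem cz_in (hp : Par N a s) (hΩ : Dom Ω) {y : Es N} (hy : y ∈ Ω) :
    Tendsto (fun j : ℕ => ∫⁻ x in Ω,
      ENNReal.ofReal (a / 2 * ((cz Ω j y - cz Ω j x) ^ 2 / ‖y - x‖ ^ (N + 2 * s)))) atTop (𝓝 0) := by
  have hd := half_pos (cib4_pos hp hΩ hy)
  have ha := (half_pos hp.ha).le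
  obtain ⟨C, -, hC⟩ := tail_int (N := N) (γ := N + 2 * s) (by have := hp.hN; omega)
    (by have := hp.hs; linarith)
  have h := tendsto_lintegral_filter_of_dominated_convergence (μ := volume.restrict Ω)
    (l := atTop) (f := fun _ => 0) (F := fun (j : ℕ) x =>
      ENNReal.ofReal (a / 2 * ((cz Ω j y - cz Ω j x) ^ 2 / ‖y - x‖ ^ (N + 2 * s))))
    ((ball y (infDist y Ωᶜ / 2))ᶜ.indicator fun x =>
      ENNReal.ofReal (a / 2 * ‖y - x‖ ^ (-(N + 2 * s))))
    (Eventually.of_forall fun j =>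
      ((cia2_m (cz_basic hΩ.op (cib4_ne hp hΩ) j).1.measurable y).const_mul _).ennreal_ofReal)
    ((cib4_ev hp hΩ hy).mono fun j hj => Eventually.of_forall fun x => ?_) ?_
    ((ae_restrict_mem hΩ.op.measurableSet).mono fun x hx => ?_)
  · simpa only [lintegral_zero] using h
  · by_cases hx : x ∈ ball y (infDist y Ωᶜ / 2)
    · rw [mem_ball', dist_eq_norm] at hx
      rw [cib4_near hp hΩ hj hx.le, cib4_near hp hΩ hj (x := y) (by simpa using hd.le)]
      simp
    · rw [indicator_of_mem (mem_compl hx)]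
      refine ENNReal.ofReal_le_ofReal (mul_le_mul_of_nonneg_left ?_ ha)
      rw [Real.rpow_neg (norm_nonneg _), ← one_div]
      exact div_le_div_of_nonneg_right ((sq_le_one_iff_abs_le_one _).2 (cib4_abs hp hΩ j y x))
        (Real.rpow_nonneg (norm_nonneg _) _)
  · refine ((setLIntegral_le_lintegral _ _).trans_lt ?_).ne
    rw [lintegral_indicator measurableSet_ball.compl, cia2_set ha (hC y _ hd).1]
    exact ENNReal.ofReal_lt_top
  · refine tendsto_const_nhds.congr' ?_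
    filter_upwards [cib4_one hp hΩ hx, cib4_one hp hΩ hy] with j h1 h2
    rw [h1, h2]
    simp

theorem cz_key (hp : Par N a s) (hΩ : Dom Ω) {η : Es N → ℝ} (hη : W0 a s Ω η) (j : ℕ) :
    ∫⁻ x, Dsq N a s (fun y => η y * cz Ω j y - η y) x ≤
      4 * (∫⁻ x in Ω, ENNReal.ofReal ((cz Ω j x - 1) ^ 2) * Dsq N a s η x) +
      4 * ∫⁻ y in Ω, ENNReal.ofReal (η y ^ 2) * ∫⁻ x in Ω,
        ENNReal.ofReal (a / 2 * ((cz Ω j y - cz Ω j x) ^ 2 / ‖y - x‖ ^ (N + 2 * s))) := by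
  have ha := (half_pos hp.ha).le
  have mc := (cz_basic hΩ.op (cib4_ne hp hΩ) j).1.measurable
  generalize cz Ω j = c at mc
  have mη := hη.meas
  have mK : Measurable fun p : Es N × Es N =>
      ENNReal.ofReal (a / 2 * ((c p.2 - c p.1) ^ 2 / ‖p.2 - p.1‖ ^ (N + 2 * s))) :=
    (((((mc.comp measurable_snd).sub (mc.comp measurable_fst)).pow_const 2).div
      ((measurable_snd.sub measurable_fst).norm.pow_const _)).const_mul _).ennreal_ofReal
  have mη2 : Measurable fun p : Es N × Es N => ENNReal.ofReal (η p.2 ^ 2) :=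
    ((mη.comp measurable_snd).pow_const 2).ennreal_ofReal
  obtain ⟨K, hK⟩ : ∃ K : Es N → Es N → ENNReal, ∀ x y, K x y = ENNReal.ofReal (η y ^ 2) *
      ENNReal.ofReal (a / 2 * ((c y - c x) ^ 2 / ‖y - x‖ ^ (N + 2 * s))) := ⟨_, fun _ _ => rfl⟩
  have mP : Measurable (Function.uncurry K) := by
    have e : Function.uncurry K = fun p : Es N × Es N => ENNReal.ofReal (η p.2 ^ 2) *
        ENNReal.ofReal (a / 2 * ((c p.2 - c p.1) ^ 2 / ‖p.2 - p.1‖ ^ (N + 2 * s))) :=
      funext fun p => hK p.1 p.2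
    rw [e]
    exact mη2.mul mK
  have h1 : ∀ x, Dsq N a s (fun y => η y * c y - η y) x ≤
      2 * (ENNReal.ofReal ((c x - 1) ^ 2) * Dsq N a s η x) + 2 * ∫⁻ y, K x y := by
    intro x
    have mx : Measurable (K x) := mP.of_uncurry_left
    rw [← mul_add, Dsq, Dsq, ← lintegral_const_mul' _ _ ENNReal.ofReal_ne_top,
      ← lintegral_add_right _ mx, ← lintegral_const_mul' _ _ ENNReal.ofNat_ne_top]
    refine lintegral_mono fun y => ?_
    have n1 := mul_nonneg ha (cia2_nn (s := s) (η x - η y) x y)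
    have n2 := mul_nonneg ha (cia2_nn (s := s) (c y - c x) y x)
    have e2 : ∀ t : ℝ, 2 * ENNReal.ofReal t = ENNReal.ofReal (2 * t) := fun t => by
      rw [ENNReal.ofReal_mul zero_le_two, ENNReal.ofReal_ofNat]
    dsimp only
    rw [hK, ← ENNReal.ofReal_mul (sq_nonneg _), ← ENNReal.ofReal_mul (sq_nonneg _),
      ← ENNReal.ofReal_add (mul_nonneg (sq_nonneg _) n1) (mul_nonneg (sq_nonneg _) n2),
      e2, norm_sub_rev y x]
    refine ENNReal.ofReal_le_ofReal ?_
    have h0 : 0 ≤ a / 2 * (‖x - y‖ ^ ((N : ℝ) + 2 * s))⁻¹ := by positivity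
    have h2 : (η x * c x - η x - (η y * c y - η y)) ^ 2 ≤
        2 * ((c x - 1) ^ 2 * (η x - η y) ^ 2 + η y ^ 2 * (c y - c x) ^ 2) := by
      nlinarith [sq_nonneg ((c x - 1) * (η x - η y) + η y * (c y - c x))]
    have h3 := mul_le_mul_of_nonneg_left h2 h0
    simp only [div_eq_mul_inv] at h3 ⊢
    linarith
  have mw : Measurable fun y => η y * c y - η y := (mη.mul mc).sub mη
  refine (half hΩ.op.measurableSet mw fun x hx => by
    rw [hη.zero x hx, zero_mul, sub_zero]).trans ?_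
  refine (mul_le_mul_right (lintegral_mono h1) 2).trans (le_of_eq ?_)
  have mI : Measurable fun x => 2 * ∫⁻ y, K x y := mP.lintegral_prod_right.const_mul 2
  rw [lintegral_add_right _ mI,
    lintegral_const_mul' _ _ ENNReal.ofNat_ne_top, lintegral_const_mul' _ _ ENNReal.ofNat_ne_top,
    lintegral_lintegral_swap mP.aemeasurable, mul_add, ← mul_assoc, ← mul_assoc,
    show (2 : ENNReal) * 2 = 4 by norm_num]
  congr 2
  simp only [hK, lintegral_const_mul' _ _ ENNReal.ofReal_ne_top]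
  refine (setLIntegral_eq_of_support_subset fun y hy => ?_).symm
  by_contra h
  exact hy (by simp [hη.zero y h])

theorem cutoff (hp : Par N a s) (hΩ : Dom Ω) (hE : ExtBall Ω) {η : Es N → ℝ} (hη : W0 a s Ω η) :
    (∀ j, W0 a s Ω fun x => η x * cz Ω j x) ∧
      Tendsto (fun j => En N a s (fun x => η x * cz Ω j x - η x) fun x => η x * cz Ω j x - η x)
        atTop (𝓝 0) := by
  obtain ⟨C, hC, h1⟩ := cz_Dsq hp hΩ
  obtain ⟨C', -, h2⟩ := hardy hp hΩ hE
  have mΩ := hΩ.op.measurableSet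
  have mc := fun j => (cz_basic hΩ.op (cib4_ne hp hΩ) j).1.measurable
  have mη := hη.meas
  have fin : ∫⁻ x in Ω, Dsq N a s η x < ⊤ := (setLIntegral_le_lintegral _ _).trans_lt hη.fin
  have fin' : ∫⁻ x in Ω, ENNReal.ofReal C * (ENNReal.ofReal C' * Dsq N a s η x) < ⊤ := by
    rw [lintegral_const_mul' _ _ ENNReal.ofReal_ne_top,
      lintegral_const_mul' _ _ ENNReal.ofReal_ne_top]
    exact ENNReal.mul_lt_top ENNReal.ofReal_lt_top (ENNReal.mul_lt_top ENNReal.ofReal_lt_top fin)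
  have bA : ∀ j : ℕ, ∀ᵐ x ∂volume.restrict Ω,
      ENNReal.ofReal ((cz Ω j x - 1) ^ 2) * Dsq N a s η x ≤ Dsq N a s η x :=
    fun j => Eventually.of_forall fun x => by
      refine mul_le_of_le_one_left zero_le (ENNReal.ofReal_le_one.2 ?_)
      have := (cz_basic hΩ.op (cib4_ne hp hΩ) j).2.1 x
      nlinarith
  have bB : ∀ j : ℕ, ∀ᵐ y ∂volume.restrict Ω, ENNReal.ofReal (η y ^ 2) * ∫⁻ x in Ω,
      ENNReal.ofReal (a / 2 * ((cz Ω j y - cz Ω j x) ^ 2 / ‖y - x‖ ^ (N + 2 * s))) ≤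
      ENNReal.ofReal C * (ENNReal.ofReal C' * Dsq N a s η y) :=
    fun j => (ae_restrict_mem mΩ).mono fun y hy => by
      refine (mul_le_mul_right ((setLIntegral_le_lintegral _ _).trans (h1 j y hy)) _).trans ?_
      rw [← ENNReal.ofReal_mul (sq_nonneg _), mul_left_comm, ENNReal.ofReal_mul hC.le]
      exact mul_le_mul_right (h2 η hη.zero y hy) _
  have tA := tendsto_lintegral_of_dominated_convergence (μ := volume.restrict Ω)
    (f := fun _ => 0) _
    (fun j => (((mc j).sub_const 1).pow_const 2).ennreal_ofReal.mul (measurable_Dsq mη)) bA fin.ne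
    ((ae_restrict_mem mΩ).mono fun x hx => tendsto_const_nhds.congr'
      ((cib4_one hp hΩ hx).mono fun j hj => by simp [hj]))
  have tB := tendsto_lintegral_of_dominated_convergence (μ := volume.restrict Ω)
    (f := fun _ => 0) _
    (fun j => (mη.pow_const 2).ennreal_ofReal.mul (cib4_meas (mc j)).lintegral_prod_right') bB
    fin'.ne ((ae_restrict_mem mΩ).mono fun y hy => by
      have := ENNReal.Tendsto.const_mul (a := ENNReal.ofReal (η y ^ 2))
        (cz_in hp hΩ hy) (Or.inr ENNReal.ofReal_ne_top)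
      rw [mul_zero] at this
      exact this)
  have hw : ∀ j, FE a s fun x => η x * cz Ω j x - η x := fun j =>
    ⟨(mη.mul (mc j)).sub mη, (cz_key hp hΩ hη j).trans_lt (ENNReal.add_lt_top.2
      ⟨ENNReal.mul_lt_top ENNReal.ofNat_lt_top ((lintegral_mono_ae (bA j)).trans_lt fin),
        ENNReal.mul_lt_top ENNReal.ofNat_lt_top ((lintegral_mono_ae (bB j)).trans_lt fin')⟩)⟩
  refine ⟨fun j => ⟨?_, fun x hx => by rw [hη.zero x hx, zero_mul]⟩, ?_⟩
  · simpa only [sub_add_cancel] using (hw j).add hp.ha hη.toFE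
  · rw [lintegral_zero] at tA tB
    have t1 := (ENNReal.Tendsto.const_mul (a := 4) tA (Or.inr ENNReal.ofNat_ne_top)).add
      (ENNReal.Tendsto.const_mul (a := 4) tB (Or.inr ENNReal.ofNat_ne_top))
    rw [mul_zero, add_zero] at t1
    have t2 := (ENNReal.tendsto_toReal ENNReal.zero_ne_top).comp
      (tendsto_of_tendsto_of_tendsto_of_le_of_le tendsto_const_nhds t1 (fun _ => zero_le)
        fun j => cz_key hp hΩ hη j)
    refine t2.congr fun j => ?_
    rw [Function.comp_apply, ← (En_self hp.ha (hw j)).2,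
      ENNReal.toReal_ofReal (En_nonneg hp.ha _)]

end

end Pool.Agent.Work.MP_49e099_an
end

-- merged part: Pool.Agent.Work.MP_49e099_an.CI.B5
section
/-!
# Mollification
`conv_energy`: `conv κ η x = ∫ t, κ t * η (x - t)` (`integral_sub_left_eq_self`), Jensen in the form `(∫ κ F)² ≤ ∫ κ F²` (Cauchy-Schwarz, or expand `∫ κ (F - m)² ≥ 0`), Tonelli, and translation invariance `Dsq (fun y => η (y - t)) x = Dsq η (x - t)` (`lintegral_sub_right_eq_self`).
`mollify`: `φ n : ContDiffBump 0` with `rIn = δ/(4 (n+1))`, `rOut = δ/(2 (n+1))`; `z n = (φ n).normed volume ⋆[lsmul ℝ ℝ, volume] η = conv ((φ n).normed volume) η` (`convolution_def`, `convolution_eq_swap`). Smooth: `HasCompactSupport.contDiff_convolution_left`. The support lies in the compact set `{x | δ/2 ≤ infDist x Ωᶜ} ⊆ Ω`. `ContDiffBump.ae_convolution_tendsto_right_of_locallyIntegrable`, `en_lim`.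
-/

namespace Pool.Agent.Work.MP_49e099_an

open MeasureTheory Set Filter Topology Metric

noncomputable section

variable {N : ℕ} {a s : ℝ} {Ω : Set (Es N)}

theorem cib5_conv (κ η : Es N → ℝ) (x : Es N) : conv κ η x = ∫ t, κ t * η (x - t) := by
  rw [← integral_sub_left_eq_self (fun t => κ t * η (x - t)) volume x]
  simp only [conv, sub_sub_cancel]

theorem cib5_int {κ F : Es N → ℝ} (hκ : Integrable κ) (hF : BM F) :
    Integrable fun t => κ t * F t := by
  obtain ⟨M, hM⟩ := hF.bdd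
  exact hκ.mul_bdd hF.meas.aestronglyMeasurable (ae_of_all _ fun t => hM t)

theorem cib5_sq {F : Es N → ℝ} (hF : BM F) : BM fun t => F t ^ 2 := by
  obtain ⟨M, hM⟩ := hF.bdd
  refine ⟨hF.meas.pow_const 2, M ^ 2, fun t => ?_⟩
  rw [abs_pow]
  exact pow_le_pow_left₀ (abs_nonneg _) (hM t) 2

theorem cib5_sh {η : Es N → ℝ} (hη : BM η) (x : Es N) : BM fun t => η (x - t) := by
  obtain ⟨M, hM⟩ := hη.bdd
  exact ⟨hη.meas.comp (measurable_const.sub measurable_id), M, fun t => hM _⟩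

theorem cib5_sub {F G : Es N → ℝ} (hF : BM F) (hG : BM G) : BM fun t => F t - G t := by
  obtain ⟨M, hM⟩ := hF.bdd
  obtain ⟨M', hM'⟩ := hG.bdd
  exact ⟨hF.meas.sub hG.meas, M + M', fun t => (abs_sub _ _).trans (add_le_add (hM t) (hM' t))⟩

theorem cib5_jensen {κ F : Es N → ℝ} (hκ : Kn κ) (h1 : ∫ y, κ y = 1) (hF : BM F) :
    (∫ t, κ t * F t) ^ 2 ≤ ∫ t, κ t * F t ^ 2 := by
  have i1 := cib5_int hκ.int hF
  have i2 := cib5_int hκ.int (cib5_sq hF)
  obtain ⟨m, hm⟩ : ∃ m, ∫ t, κ t * F t = m := ⟨_, rfl⟩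
  have h2 : 0 ≤ ∫ t, (κ t * F t ^ 2 - 2 * m * (κ t * F t) + m ^ 2 * κ t) :=
    integral_nonneg fun t => by
      have h3 := mul_nonneg (hκ.nonneg t) (sq_nonneg (F t - m))
      simp only [Pi.zero_apply]
      linarith
  have i3 : Integrable fun t => κ t * F t ^ 2 - 2 * m * (κ t * F t) := i2.sub (i1.const_mul _)
  rw [integral_add i3 (hκ.int.const_mul _), integral_sub i2 (i1.const_mul _), integral_const_mul,
    integral_const_mul, h1, hm] at h2
  rw [hm]
  linarith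

theorem cib5_pt (ha : 0 < a) {κ η : Es N → ℝ} (hκ : Kn κ) (h1 : ∫ y, κ y = 1) (hη : BM η)
    (x : Es N) : Dsq N a s (conv κ η) x ≤ ∫⁻ t, ENNReal.ofReal (κ t) * Dsq N a s η (x - t) := by
  have h2 : ∀ y, ENNReal.ofReal (a / 2 * ((conv κ η x - conv κ η y) ^ 2 / ‖x - y‖ ^ (N + 2 * s))) ≤
      ∫⁻ t, ENNReal.ofReal (κ t) *
        ENNReal.ofReal (a / 2 * ((η (x - t) - η (y - t)) ^ 2 / ‖x - y‖ ^ (N + 2 * s))) := by
    intro y
    have hF := cib5_sub (cib5_sh hη x) (cib5_sh hη y)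
    have hw : 0 ≤ ‖x - y‖ ^ (N + 2 * s) := Real.rpow_nonneg (norm_nonneg _) _
    have hc : 0 ≤ a / 2 / ‖x - y‖ ^ (N + 2 * s) := by positivity
    have h3 := mul_le_mul_of_nonneg_left (cib5_jensen hκ h1 hF) hc
    have i2 := (cib5_int hκ.int (cib5_sq hF)).const_mul (a / 2 / ‖x - y‖ ^ (N + 2 * s))
    have h4 : conv κ η x - conv κ η y = ∫ t, κ t * (η (x - t) - η (y - t)) := by
      rw [cib5_conv, cib5_conv,
        ← integral_sub (cib5_int hκ.int (cib5_sh hη x)) (cib5_int hκ.int (cib5_sh hη y))]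
      simp only [mul_sub]
    rw [← integral_const_mul, ← h4] at h3
    refine (ENNReal.ofReal_le_ofReal ((le_of_eq (by ring)).trans h3)).trans ?_
    rw [ofReal_integral_eq_lintegral_ofReal i2 (ae_of_all _ fun t =>
      mul_nonneg hc (mul_nonneg (hκ.nonneg t) (sq_nonneg _)))]
    refine le_of_eq (lintegral_congr fun t => ?_)
    rw [← ENNReal.ofReal_mul (hκ.nonneg t)]
    congr 1
    ring
  refine (lintegral_mono h2).trans (le_of_eq ?_)
  have m1 := hκ.meas
  have m2 := hη.meas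
  rw [lintegral_lintegral_swap (Measurable.aemeasurable (by fun_prop))]
  refine lintegral_congr fun t => ?_
  rw [lintegral_const_mul' _ _ ENNReal.ofReal_ne_top, Dsq,
    ← lintegral_sub_right_eq_self (fun y => ENNReal.ofReal
      (a / 2 * ((η (x - t) - η y) ^ 2 / ‖x - t - y‖ ^ (N + 2 * s)))) t]
  simp only [sub_sub_sub_cancel_right]

theorem conv_energy (ha : 0 < a) {κ η : Es N → ℝ} (hκ : Kn κ) (h1 : ∫ y, κ y = 1) (hη : BM η) :
    ∫⁻ x, Dsq N a s (conv κ η) x ≤ ∫⁻ x, Dsq N a s η x := by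
  refine (lintegral_mono (cib5_pt ha hκ h1 hη)).trans (le_of_eq ?_)
  have m1 := hκ.meas
  have m2 : Measurable (Dsq N a s η) := measurable_Dsq hη.meas
  rw [lintegral_lintegral_swap (Measurable.aemeasurable (by fun_prop))]
  simp only [lintegral_const_mul' _ _ ENNReal.ofReal_ne_top, lintegral_sub_right_eq_self]
  rw [lintegral_mul_const _ m1.ennreal_ofReal,
    ← ofReal_integral_eq_lintegral_ofReal hκ.int (ae_of_all _ hκ.nonneg), h1, ENNReal.ofReal_one,
    one_mul]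

theorem mollify (hp : Par N a s) (hΩ : Dom Ω) {η : Es N → ℝ} (hη : W0 a s Ω η) {Z δ : ℝ}
    (hb : ∀ x, 0 ≤ η x ∧ η x ≤ Z) (hδ : 0 < δ) (h0 : ∀ x, infDist x Ωᶜ ≤ δ → η x = 0) :
    ∃ z : ℕ → Es N → ℝ, (∀ n, Sm Ω (z n) ∧ ∀ x, 0 ≤ z n x ∧ z n x ≤ Z) ∧
      Tendsto (fun n => En N a s (fun x => z n x - η x) fun x => z n x - η x) atTop (𝓝 0) := by
  let φ : ℕ → ContDiffBump (0 : Es N) := fun n =>
    ⟨δ / 4 * (1 / ((n : ℝ) + 1)), δ / 2 * (1 / ((n : ℝ) + 1)), by positivity,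
      mul_lt_mul_of_pos_right (by linarith) (by positivity)⟩
  have hκ : ∀ n, Kn ((φ n).normed volume) := fun n =>
    ⟨(φ n).continuous_normed.measurable, (φ n).integrable_normed, (φ n).normed_neg,
      (φ n).nonneg_normed⟩
  have hη' : BM η := ⟨hη.meas, Z, fun x => by
    rw [abs_of_nonneg (hb x).1]
    exact (hb x).2⟩
  have hl : LocallyIntegrable η := (hη.int hp hΩ).locallyIntegrable
  have he : ∀ n, conv ((φ n).normed volume) η =
      convolution ((φ n).normed volume) η (ContinuousLinearMap.lsmul ℝ ℝ) volume := fun n =>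
    funext fun x => by
      rw [convolution_lsmul_swap]
      rfl
  have hc : ∀ n, ContDiff ℝ 2 (conv ((φ n).normed volume) η) := fun n => by
    rw [he]
    exact HasCompactSupport.contDiff_convolution_left (n := 2) _ (φ n).hasCompactSupport_normed
      (φ n).contDiff_normed hl
  have hK : IsClosed {x : Es N | δ / 2 ≤ infDist x Ωᶜ} :=
    isClosed_le continuous_const (continuous_infDist_pt _)
  have hs : {x : Es N | δ / 2 ≤ infDist x Ωᶜ} ⊆ Ω := fun x hx => by_contra fun h => by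
    have h2 : δ / 2 ≤ infDist x Ωᶜ := hx
    rw [infDist_zero_of_mem (mem_compl h)] at h2
    linarith
  have hz : ∀ n x, x ∉ {x : Es N | δ / 2 ≤ infDist x Ωᶜ} → conv ((φ n).normed volume) η x = 0 := by
    intro n x hx
    rw [cib5_conv]
    refine integral_eq_zero_of_ae (ae_of_all _ fun t => ?_)
    by_cases ht : (φ n).normed volume t = 0
    · simp [ht]
    have h2 : t ∈ ball (0 : Es N) (φ n).rOut := (φ n).support_normed_eq (μ := volume) ▸ ht
    have h3 : ‖t‖ < δ / 2 * (1 / ((n : ℝ) + 1)) := mem_ball_zero_iff.1 h2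
    have h4 : 1 / ((n : ℝ) + 1) ≤ 1 := by
      rw [div_le_one (by positivity)]
      linarith [Nat.cast_nonneg (α := ℝ) n]
    have h5 := infDist_le_infDist_add_dist (x := x - t) (y := x) (s := Ωᶜ)
    rw [dist_eq_norm, sub_sub_cancel_left, norm_neg] at h5
    have h6 : infDist x Ωᶜ < δ / 2 := not_le.1 hx
    have h7 := mul_le_mul_of_nonneg_left h4 (half_pos hδ).le
    simp [h0 (x - t) (by linarith)]
  refine ⟨fun n => conv ((φ n).normed volume) η, fun n => ⟨⟨hc n,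
    HasCompactSupport.intro (isCompact_of_isClosed_isBounded hK (hΩ.bd.subset hs)) (hz n),
    (closure_minimal (Function.support_subset_iff'.2 (hz n)) hK).trans hs⟩, fun x => ?_⟩,
    en_lim hp.ha hη.toFE (fun n => (hc n).continuous.measurable) ?_
      fun n => conv_energy hp.ha (hκ n) (φ n).integral_normed hη'⟩
  · simp only [cib5_conv]
    refine ⟨integral_nonneg fun t => mul_nonneg ((hκ n).nonneg t) (hb _).1, ?_⟩
    refine (integral_mono (cib5_int (hκ n).int (cib5_sh hη' x)) ((hκ n).int.mul_const Z)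
      fun t => mul_le_mul_of_nonneg_left (hb _).2 ((hκ n).nonneg t)).trans ?_
    rw [integral_mul_const, (φ n).integral_normed, one_mul]
  · simp only [he]
    refine ContDiffBump.ae_convolution_tendsto_right_of_locallyIntegrable (K := 2) ?_
      (Eventually.of_forall fun n => le_of_eq ?_) hl
    · have h2 := (tendsto_one_div_add_atTop_nhds_zero_nat (𝕜 := ℝ)).const_mul (δ / 2)
      rwa [mul_zero] at h2
    · change δ / 2 * (1 / ((n : ℝ) + 1)) = 2 * (δ / 4 * (1 / ((n : ℝ) + 1)))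
      ring

end

end Pool.Agent.Work.MP_49e099_an
end

-- merged part: Pool.Agent.Work.MP_49e099_an.CI.B6
section
/-!
# Density of smooth functions and extension of identities
`dens`: for each `j` choose by `cutoff` and `mollify` (`cz_basic` gives `δ`) a smooth `z j` with energy distance at most `1/(j+1)` from `η` (`En_tri`). `poincare` gives convergence in `L¹`, a subsequence converges a.e. (`tendstoInMeasure_of_tendsto_eLpNorm`, `TendstoInMeasure.exists_seq_tendsto_ae`; or choose the distances summable and use `lintegral_tsum`).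
`ext_bdd`: replace `η` by `max (-M) (min M η)` (`En_congr`, `W0.comp`), split it into positive and negative part, `dens`, `En_tendsto`, dominated convergence with majorant `Z |R|`.
`ext_all`: the truncations `max (-k) (min k η)` converge in energy (`en_lim`, `Dsq_mono`) and are dominated by `|η|` (`W0.int`).
-/

namespace Pool.Agent.Work.MP_49e099_an

open MeasureTheory Set Filter Topology Metric

noncomputable section

variable {N : ℕ} {a s : ℝ} {Ω : Set (Es N)}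

theorem cib6_ne (hp : Par N a s) (hΩ : Dom Ω) : Ωᶜ.Nonempty := by
  obtain ⟨R, hR, h⟩ := hΩ.ball
  refine ⟨EuclideanSpace.single ⟨0, by have := hp.hN; omega⟩ R, fun k => ?_⟩
  have := h _ k
  rw [PiLp.norm_single, Real.norm_eq_abs, abs_of_pos hR] at this
  exact lt_irrefl _ this

theorem cib6_sqrt {f : ℕ → ℝ} (h : Tendsto f atTop (𝓝 0)) {ε : ℝ} (hε : 0 < ε) :
    ∃ n, √(f n) ≤ ε := by
  have h1 := (Real.continuous_sqrt.tendsto 0).comp h
  rw [Real.sqrt_zero] at h1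
  exact (h1.eventually (ge_mem_nhds hε)).exists

theorem cib6_approx (hp : Par N a s) (hΩ : Dom Ω) (hE : ExtBall Ω) {η : Es N → ℝ}
    (hη : W0 a s Ω η) {Z : ℝ} (hb : ∀ x, 0 ≤ η x ∧ η x ≤ Z) {ε : ℝ} (hε : 0 < ε) :
    ∃ z : Es N → ℝ, (Sm Ω z ∧ ∀ x, 0 ≤ z x ∧ z x ≤ Z) ∧
      √(En N a s (fun x => z x - η x) fun x => z x - η x) ≤ ε := by
  obtain ⟨h1, h2⟩ := cutoff hp hΩ hE hη
  obtain ⟨j, hj⟩ := cib6_sqrt h2 (half_pos hε)
  obtain ⟨-, c1, -, c2, -⟩ := cz_basic hΩ.op (cib6_ne hp hΩ) j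
  obtain ⟨z, h3, h4⟩ := mollify hp hΩ (h1 j) (Z := Z) (δ := 1 / (j + 1))
    (fun x => ⟨mul_nonneg (hb x).1 (c1 x).1,
      (mul_le_of_le_one_right (hb x).1 (c1 x).2).trans (hb x).2⟩) (by positivity)
    fun x hx => by rw [c2 x hx, mul_zero]
  obtain ⟨n, hn⟩ := cib6_sqrt h4 (half_pos hε)
  refine ⟨z n, h3 n, ?_⟩
  have h5 := En_tri hp.ha (((h3 n).1.w0 hp hΩ).sub hp.ha (h1 j)).toFE ((h1 j).sub hp.ha hη).toFE
  simp only [sub_add_sub_cancel] at h5
  linarith

theorem cib6_lip (p q m M : ℝ) : |max m (min M p) - max m (min M q)| ≤ 1 * |p - q| := by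
  rw [one_mul, max_comm m, max_comm m]
  refine (abs_max_sub_max_le_abs _ _ _).trans ?_
  simpa using abs_min_sub_min_le_max M p M q

theorem dens (hp : Par N a s) (hΩ : Dom Ω) (hE : ExtBall Ω) {η : Es N → ℝ} (hη : W0 a s Ω η) {Z : ℝ}
    (hb : ∀ x, 0 ≤ η x ∧ η x ≤ Z) :
    ∃ z : ℕ → Es N → ℝ, (∀ n, Sm Ω (z n) ∧ ∀ x, 0 ≤ z n x ∧ z n x ≤ Z) ∧
      Tendsto (fun n => En N a s (fun x => z n x - η x) fun x => z n x - η x) atTop (𝓝 0) ∧
      ∀ᵐ x, Tendsto (fun n => z n x) atTop (𝓝 (η x)) := by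
  choose z h1 h2 using fun n : ℕ => cib6_approx hp hΩ hE hη hb (ε := 1 / ((n : ℝ) + 1))
    (by positivity)
  have h3 : Tendsto (fun n => √(En N a s (fun x => z n x - η x) fun x => z n x - η x)) atTop
      (𝓝 0) := squeeze_zero (fun _ => Real.sqrt_nonneg _) h2 tendsto_one_div_add_atTop_nhds_zero_nat
  have h4 : Tendsto (fun n => En N a s (fun x => z n x - η x) fun x => z n x - η x) atTop
      (𝓝 0) := by
    have := h3.mul h3
    simpa only [Real.mul_self_sqrt (En_nonneg hp.ha _), mul_zero] using this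
  obtain ⟨C, -, hC⟩ := poincare hp hΩ
  have hw : ∀ n, W0 a s Ω fun x => z n x - η x := fun n => ((h1 n).1.w0 hp hΩ).sub hp.ha hη
  have h5 : Tendsto (fun n => ∫ x, |z n x - η x|) atTop (𝓝 0) := by
    have := h3.const_mul C
    rw [mul_zero] at this
    exact squeeze_zero (fun _ => integral_nonneg fun _ => abs_nonneg _) (fun n => (hC _ (hw n)).2)
      this
  have h6 : TendstoInMeasure volume z atTop η := by
    refine tendstoInMeasure_of_tendsto_eLpNorm (p := 1) one_ne_zero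
      (fun n => ((h1 n).1.w0 hp hΩ).meas.aestronglyMeasurable) hη.meas.aestronglyMeasurable ?_
    have := ENNReal.tendsto_ofReal h5
    rw [ENNReal.ofReal_zero] at this
    refine this.congr fun n => ?_
    rw [eLpNorm_one_eq_lintegral_enorm]
    exact ofReal_integral_norm_eq_lintegral_enorm ((hw n).int hp hΩ)
  obtain ⟨ns, h7, h8⟩ := h6.exists_seq_tendsto_ae
  exact ⟨fun n => z (ns n), fun n => h1 _, h4.comp h7.tendsto_atTop, h8⟩

theorem cib6_pos (hp : Par N a s) (hΩ : Dom Ω) (hE : ExtBall Ω) {u R : Es N → ℝ} (hu : FE a s u)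
    (hR : IntegrableOn R Ω)
    (h : ∀ η, Sm Ω η → (∀ x, 0 ≤ η x) → En N a s u η = ∫ x in Ω, R x * η x) {η : Es N → ℝ}
    (hη : W0 a s Ω η) {Z : ℝ} (hb : ∀ x, 0 ≤ η x ∧ η x ≤ Z) :
    En N a s u η = ∫ x in Ω, R x * η x := by
  obtain ⟨z, h1, h2, h3⟩ := dens hp hΩ hE hη hb
  have hw := fun n => (h1 n).1.w0 hp hΩ
  refine tendsto_nhds_unique (En_tendsto hp.ha hu (fun n => (hw n).toFE) hη.toFE h2) ?_
  simp only [fun n => h _ (h1 n).1 fun x => ((h1 n).2 x).1]
  refine tendsto_integral_of_dominated_convergence (fun x => ‖R x‖ * Z)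
    (fun n => hR.1.mul (hw n).meas.aestronglyMeasurable) (hR.norm.mul_const Z)
    (fun n => Eventually.of_forall fun x => ?_)
    (ae_restrict_of_ae (h3.mono fun x hx => hx.const_mul _))
  rw [norm_mul, Real.norm_of_nonneg ((h1 n).2 x).1]
  exact mul_le_mul_of_nonneg_left ((h1 n).2 x).2 (norm_nonneg _)

theorem ext_bdd (hp : Par N a s) (hΩ : Dom Ω) (hE : ExtBall Ω) {u R : Es N → ℝ} (hu : FE a s u)
    (hR : IntegrableOn R Ω)
    (h : ∀ η, Sm Ω η → (∀ x, 0 ≤ η x) → En N a s u η = ∫ x in Ω, R x * η x) {η : Es N → ℝ}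
    (hη : W0 a s Ω η) (hb : ∃ M, ∀ᵐ x, |η x| ≤ M) : En N a s u η = ∫ x in Ω, R x * η x := by
  obtain ⟨M, hM⟩ := hb
  have w1 : W0 a s Ω fun x => max 0 (min M (η x)) :=
    hη.comp hp.ha (Φ := fun p => max 0 (min M p)) (fun p q => cib6_lip p q 0 M)
      (max_eq_left (min_le_right _ _))
  have w2 : W0 a s Ω fun x => max 0 (min M (-1 * η x)) :=
    (hη.smul hp.ha (-1)).comp hp.ha (Φ := fun p => max 0 (min M p)) (fun p q => cib6_lip p q 0 M)
      (max_eq_left (min_le_right _ _))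
  have b : ∀ p : ℝ, 0 ≤ max 0 (min M p) ∧ max 0 (min M p) ≤ max 0 M := fun p =>
    ⟨le_max_left _ _, max_le_max le_rfl (min_le_left _ _)⟩
  have e : ∀ᵐ x, η x = max 0 (min M (η x)) - max 0 (min M (-1 * η x)) := hM.mono fun x hx => by
    have := abs_le.1 hx
    rw [min_eq_right this.2, min_eq_right (by linarith), neg_one_mul, max_comm, max_comm 0,
      max_zero_sub_max_neg_zero_eq_self]
  rw [En_congr (Eventually.of_forall fun _ => rfl) e, En_sub hp.ha hu w1.toFE w2.toFE,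
    cib6_pos hp hΩ hE hu hR h w1 fun x => b _, cib6_pos hp hΩ hE hu hR h w2 fun x => b _,
    ← integral_sub
      (hR.mul_bdd w1.meas.aestronglyMeasurable (Eventually.of_forall fun x =>
        (Real.norm_of_nonneg (b _).1).trans_le (b _).2))
      (hR.mul_bdd w2.meas.aestronglyMeasurable (Eventually.of_forall fun x =>
        (Real.norm_of_nonneg (b _).1).trans_le (b _).2))]
  refine integral_congr_ae (ae_restrict_of_ae (e.mono fun x hx => ?_))
  beta_reduce
  rw [← mul_sub, ← hx]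

theorem ext_all (hp : Par N a s) (hΩ : Dom Ω) (hE : ExtBall Ω) {u R : Es N → ℝ} (hu : FE a s u)
    (hR : AEStronglyMeasurable R (volume.restrict Ω)) (hb : ∃ M, ∀ x ∈ Ω, |R x| ≤ M)
    (h : ∀ η, Sm Ω η → (∀ x, 0 ≤ η x) → En N a s u η = ∫ x in Ω, R x * η x) :
    VSol a s Ω u R := by
  intro η hη
  obtain ⟨M, hM⟩ := hb
  have hM' : ∀ᵐ x ∂volume.restrict Ω, ‖R x‖ ≤ M :=
    (ae_restrict_mem hΩ.op.measurableSet).mono hM
  have hR' : IntegrableOn R Ω := IntegrableOn.of_bound hΩ.fin hR M hM'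
  have hw : ∀ k : ℕ, W0 a s Ω fun x => max (-(k : ℝ)) (min k (η x)) := fun k =>
    hη.comp hp.ha (Φ := fun p => max (-(k : ℝ)) (min k p)) (fun p q => cib6_lip p q _ _) (by simp)
  have hl : ∀ x, Tendsto (fun k : ℕ => max (-(k : ℝ)) (min k (η x))) atTop (𝓝 (η x)) := fun x => by
    refine tendsto_const_nhds.congr'
      ((tendsto_natCast_atTop_atTop.eventually_ge_atTop |η x|).mono fun k hk => ?_)
    have := abs_le.1 hk
    simp only [min_eq_right this.2, max_eq_right this.1]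
  have h2 := en_lim hp.ha hη.toFE (fun k => (hw k).meas) (Eventually.of_forall hl) fun k =>
    lintegral_mono fun x => by
      simpa using Dsq_mono (N := N) (s := s) (x := x) (v := η) hp.ha
        (u := fun x => max (-(k : ℝ)) (min k (η x))) fun y => cib6_lip _ _ _ _
  refine tendsto_nhds_unique (En_tendsto hp.ha hu (fun n => (hw n).toFE) hη.toFE h2) ?_
  have h3 : ∀ (k : ℕ) x, |max (-(k : ℝ)) (min k (η x))| ≤ k := fun k x =>
    abs_le.2 ⟨le_max_left _ _, max_le (neg_le_self k.cast_nonneg) (min_le_left _ _)⟩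
  simp only [fun k => ext_bdd hp hΩ hE hu hR' h (hw k) ⟨_, Eventually.of_forall (h3 k)⟩]
  refine tendsto_integral_of_dominated_convergence (fun x => M * ‖η x‖)
    (fun n => hR.mul (hw n).meas.aestronglyMeasurable)
    ((hη.int hp hΩ).norm.const_mul M).integrableOn (fun n => hM'.mono fun x hx => ?_)
    (Eventually.of_forall fun x => (hl x).const_mul _)
  rw [norm_mul]
  refine mul_le_mul hx ?_ (norm_nonneg _) ((norm_nonneg _).trans hx)
  simpa using cib6_lip (η x) 0 (-(n : ℝ)) n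

end

end Pool.Agent.Work.MP_49e099_an
end

-- merged part: Pool.Agent.Work.MP_49e099_an.CI.T4
section
/-!
# Test functions are variational solutions
`En_Lf`: `Ek_lim`, `Lk_dual`, `Lk_pair`, uniqueness of limits. `test_rep`: `exists_heat`, `ExtBall.zero`, `Heat.pv`, `test_fe`; `test_le` for `ξ` and `-ξ`; `En_Lf`; `ext_all` (`test_meas` gives the measurability of `g` on `Ω`).
`ESol.weak`: for a test pair `ξ, g`: `∫ u g = En ξ u = ∫ rhs ξ`. `weak_sm`: `Sm.isTest`, `test_rep` for `η`, `En_comm`.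
-/

namespace Pool.Agent.Work.MP_49e099_an

open MeasureTheory Set Filter Topology Metric

noncomputable section

variable {N : ℕ} {a s : ℝ} {Ω : Set (Es N)}

theorem En_Lf (hp : Par N a s) (hΩ : Dom Ω) {k : ℕ → Es N → ℝ} (hk : KF a s k) {ξ η : Es N → ℝ}
    (hξ : FE a s ξ) (hb : ∃ M, ∀ x, |ξ x| ≤ M) (hη : Sm Ω η) :
    En N a s ξ η = ∫ x, ξ x * Lf a s η x := by
  have hB : BM ξ := ⟨hξ.meas, hb⟩
  exact tendsto_nhds_unique (Ek_lim hp.ha hk hξ (hη.w0 hp hΩ).toFE)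
    ((Lk_pair hp hk hη hB).2.congr fun n => (Lk_dual (hk.kn n) hB hη.bs).1)

theorem cit4_neg (k u : Es N → ℝ) (x : Es N) : Lk k (fun y => -u y) x = -Lk k u x := by
  rw [Lk, Lk, ← integral_neg]
  exact integral_congr_ae (Eventually.of_forall fun y => by ring)

theorem test_rep (hp : Par N a s) (hΩ : Dom Ω) (hE : ExtBall Ω) {ξ g : Es N → ℝ}
    (h : IsTest N a s Ω ξ g) : Continuous ξ ∧ W0 a s Ω ξ ∧ VSol a s Ω ξ g := by
  obtain ⟨hc, h0, hl, M, hM⟩ := h
  obtain ⟨c0, k, κ, hH⟩ := exists_heat hp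
  have hz := hE.zero hΩ hc h0
  have hb := cia4_bdd hΩ hc hz
  have hB : BM ξ := ⟨hc.measurable, hb⟩
  have hl' : ∀ y ∈ Ω, Tendsto (fun n => Lk (k n) ξ y) atTop (𝓝 (g y)) := fun y hy =>
    hH.pv ξ y _ hB (hl y hy)
  have hw := test_fe hp hΩ hH.kf hc hz hl' hM
  refine ⟨hc, hw, ext_all hp hΩ hE hw.toFE
    ((aestronglyMeasurable_indicator_iff hΩ.op.measurableSet).1
      (test_meas hΩ hH.kf hB hl').aestronglyMeasurable) ⟨M, hM⟩ fun η hη h1 => ?_⟩
  rw [En_Lf hp hΩ hH.kf hw.toFE hb hη]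
  refine le_antisymm (test_le hp hΩ hH hc hb hl' hM hη h1) ?_
  have h2 := test_le hp hΩ hH (ξ := fun x => -ξ x) (g := fun x => -g x) (M := M) hc.neg
    (by simpa only [abs_neg] using hb)
    (fun y hy => (hl' y hy).neg.congr fun n => (cit4_neg _ _ _).symm)
    (by simpa only [abs_neg] using hM) hη h1
  simpa only [neg_mul, integral_neg, neg_le_neg_iff] using h2

variable {lam : ℝ} {c μ f u : Es N → ℝ}

theorem ESol.weak (hp : Par N a s) (hΩ : Dom Ω) (hE : ExtBall Ω) (hu : W0 a s Ω u)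
    (h : ESol a s Ω u (rhs a s lam c μ f u)) : IsWeakSol N a s Ω c μ f lam u := by
  refine ⟨Eventually.of_forall hu.zero, (hu.int hp hΩ).integrableOn,
    hu.toFE.ae.mono fun x hx _ => hx, hu.toFE.intDr.integrableOn, fun ξ g ht => ?_⟩
  obtain ⟨hc, hw, hv⟩ := test_rep hp hΩ hE ht
  simp only [mul_comm (u _)]
  exact (hv u hu).symm.trans (h ξ hc hw)

theorem weak_sm (hp : Par N a s) (hΩ : Dom Ω) (hE : ExtBall Ω) (hu : W0 a s Ω u)
    (h : IsWeakSol N a s Ω c μ f lam u) {η : Es N → ℝ} (hη : Sm Ω η) :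
    En N a s u η = ∫ x in Ω, rhs a s lam c μ f u x * η x := by
  have ht := hη.isTest hp hΩ
  have h1 := h.2.2.2.2 η _ ht
  simp only [mul_comm (u _)] at h1
  exact (En_comm _ _).trans (((test_rep hp hΩ hE ht).2.2 u hu).trans h1)

end

end Pool.Agent.Work.MP_49e099_an
end

-- merged part: Pool.Agent.Work.MP_49e099_an.CI.S5
section
/-!
# Infinitely many solutions, and none but zero at resonance
`sol_ne`: if `u = u0` a.e. then the right-hand sides agree a.e. (`Dsq_congr`), so `∫ ω0 φ = 0` for every continuous `φ ∈ W0` (`En_congr`, `rhs_int`). Take a bump `φ ≥ 0` in a small ball in `Ω` (`ContDiffBump`, `Sm.w0`): `∫ ω0 φ ≥ ε ∫ φ > 0`.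
`many`: `init`, then recursively `u (n+1)` with `∫ |u (n+1) - u0| ≤ (∫ |u n - u0|)/2`; the distances are positive (`sol_ne`, `integral_eq_zero_iff_of_nonneg`) and strictly decreasing, and they agree for a.e. equal functions. `ESol.weak`, `W0.inW0`.
`only_zero`: `Res.rep`, `stamp` with `h = 0`, `weak_sm` and `ext_bdd` give `En u φ = ∫ rhs u φ`, while `En φ u = ∫ c φ u`. So `∫ μ Dr u φ + lam ∫ f φ = 0`, both terms are nonnegative, `Dr u φ = 0` a.e. on `Ω`. There is `x ∈ Ω` with `φ x > 0`, `Dsq u x < ⊤`, `Dr u x = 0`; then `u x = 0` by `poincare_pt` and `u y = u x` for a.e. `y` (`lintegral_eq_zero_iff`).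
-/

namespace Pool.Agent.Work.MP_49e099_an

open MeasureTheory Set Filter Topology Metric

noncomputable section

variable {N : ℕ} {a s : ℝ} {Ω : Set (Es N)}

variable {m μ1 μ2 C lam : ℝ} {c μ f u0 ω0 u : Es N → ℝ}

theorem sol_ne (hp : Par N a s) (hΩ : Dom Ω) (hne : Ω.Nonempty) (hm : N / (2 * s) < m)
    (hd : Dat Ω m μ1 μ2 C c μ f) (h0 : W0 a s Ω u0) (hs : St a s lam μ2 Ω c μ f u0 (fun _ => 0) ω0)
    (hu : ESol a s Ω u (rhs a s lam c μ f u)) : ¬ ∀ᵐ x, u x = u0 x := by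
  intro h
  obtain ⟨p, hp0⟩ := hne
  obtain ⟨r, hr, hb⟩ := nhds_basis_closedBall.mem_iff.1 (hΩ.op.mem_nhds hp0)
  let φ : ContDiffBump p := ⟨r / 2, r, half_pos hr, half_lt_self hr⟩
  have hφ : Sm Ω φ := ⟨φ.contDiff, φ.hasCompactSupport, φ.tsupport_eq ▸ hb⟩
  have e1 := hs.eq φ φ.continuous (hφ.w0 hp hΩ)
  have e2 := hu φ φ.continuous (hφ.w0 hp hΩ)
  have hi : ∀ {g : Es N → ℝ}, IntegrableOn g Ω → IntegrableOn (fun x => g x * φ x) Ω := fun hg =>
    hg.mul_bdd φ.continuous.aestronglyMeasurable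
      (.of_forall fun x => (Real.norm_of_nonneg φ.nonneg).trans_le φ.le_one)
  have e3 : ∫ x in Ω, rhs a s lam c μ f u x * φ x = ∫ x in Ω, rhs a s lam c μ f u0 x * φ x := by
    refine integral_congr_ae (ae_restrict_of_ae ?_)
    filter_upwards [h, Dsq_congr (a := a) (s := s) h] with x h1 h2
    simp only [rhs, Dr, h1, h2]
  simp only [add_zero, add_mul] at e1
  rw [integral_add (hi (rhs_int hp hΩ hm hd h0).2) (hi hs.int),
    ← En_congr (.of_forall fun _ => rfl) h, e2, e3, left_eq_add] at e1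
  obtain ⟨ε, hε, K, hl⟩ := hs.low
  have h1 : ∀ᵐ x ∂volume.restrict Ω, 0 < ω0 x := by
    rw [ae_restrict_iff' hΩ.op.measurableSet]
    filter_upwards [hl] with x hx hx'
    have h2 := hd.m0.trans_le ((hd.m1 x).trans (hd.m2 x))
    have h3 : 0 ≤ Dr a s u0 x := Dr_nonneg
    refine lt_of_lt_of_le ?_ (hx hx')
    split_ifs <;> positivity
  have h2 := (setIntegral_eq_zero_iff_of_nonneg_ae
    (h1.mono fun x hx => mul_nonneg hx.le φ.nonneg) (hi hs.int)).1 e1
  obtain ⟨x, hx, h3, h4⟩ := Measure.exists_mem_of_measure_ne_zero_of_ae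
    (measure_ball_pos volume p hr).ne'
    (ae_restrict_of_ae_restrict_of_subset (ball_subset_closedBall.trans hb) (h1.and h2))
  exact (mul_pos h3 (φ.pos_of_mem_ball hx)).ne' h4

theorem many (hp : Par N a s) (hΩ : Dom Ω) (hE : ExtBall Ω) (hne : Ω.Nonempty)
    (hm : N / (2 * s) < m) (hd : Dat Ω m μ1 μ2 C c μ f) (hR : ¬ Res N a s Ω c f) :
    ∃ lam0 > 0, ∀ lam, 0 < lam → lam < lam0 → Many N a s Ω c μ f lam := by
  obtain ⟨lam0, h0, h1⟩ := init hp hΩ hm hd hR
  refine ⟨lam0, h0, fun lam p q => ?_⟩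
  obtain ⟨u0, ω0, hu, hs⟩ := h1 lam p q
  have h2 : ∀ η : {t : ℝ // 0 < t}, ∃ (u : Es N → ℝ) (η' : {t : ℝ // 0 < t}), W0 a s Ω u ∧
      ESol a s Ω u (rhs a s lam c μ f u) ∧ η' < η ∧ η'.1 = ∫ x, |u x - u0 x| := by
    intro η
    obtain ⟨u, w, e, h⟩ := limit_sol hp hΩ hne hm hd hu hs (half_pos η.2)
    refine ⟨u, ⟨_, (integral_nonneg fun x => abs_nonneg _).lt_of_ne' fun h3 =>
      sol_ne hp hΩ hne hm hd hu hs e ?_⟩, w, e, h.trans_lt (half_lt_self η.2), rfl⟩
    filter_upwards [(integral_eq_zero_iff_of_nonneg (fun x => abs_nonneg _)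
      ((w.sub hp.ha hu).int hp hΩ).abs).1 h3] with x hx
    exact sub_eq_zero.1 (abs_eq_zero.1 hx)
  choose F G w e h3 h4 using h2
  have h5 : StrictAnti fun n => G^[n] ⟨1, one_pos⟩ := strictAnti_nat_of_succ_lt fun n => by
    rw [Function.iterate_succ_apply']
    exact h3 _
  refine ⟨fun n => F (G^[n] ⟨1, one_pos⟩), fun n => ⟨(w _).inW0 hp hΩ, (e _).weak hp hΩ hE (w _)⟩,
    fun n k h => Nat.succ_injective (h5.injective (Subtype.ext ?_))⟩
  simp only [Function.iterate_succ_apply', h4]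
  exact integral_congr_ae (h.mono fun x hx => by simp only [hx])

theorem only_zero (hp : Par N a s) (hΩ : Dom Ω) (hE : ExtBall Ω) (hm : N / (2 * s) < m)
    (hd : Dat Ω m μ1 μ2 C c μ f) (hR : Res N a s Ω c f) (hl : 0 < lam) (hu : W0 a s Ω u)
    (h : IsWeakSol N a s Ω c μ f lam u) : ∀ᵐ x, u x = 0 := by
  obtain ⟨φ, hφ, hv, h0, hne, hf⟩ := hR.rep hΩ hp
  obtain ⟨M, hM⟩ := stamp (h := fun _ => 0) hp hΩ hm hd.cm hd.cb MemLp.zero' hφ
    (by simpa only [add_zero] using hv)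
  obtain ⟨i1, i2⟩ := rhs_int (lam := lam) hp hΩ hm hd hu
  have e1 := ext_bdd hp hΩ hE hu.toFE i2 (fun η hη _ => weak_sm hp hΩ hE hu h hη) hφ ⟨M, hM⟩
  have hi : ∀ {g : Es N → ℝ}, IntegrableOn g Ω → IntegrableOn (fun x => g x * φ x) Ω := fun hg =>
    hg.mul_bdd hφ.meas.aestronglyMeasurable (ae_restrict_of_ae hM)
  have i3 := hi ((hu.int hp hΩ).integrableOn.bdd_mul hd.cm.aestronglyMeasurable (.of_forall hd.cb))
  have e2 : (fun x => μ x * Dr a s u x * φ x) = fun x =>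
      rhs a s lam c μ f u x * φ x - c x * u x * φ x - lam * (f x * φ x) := by
    funext x
    simp only [rhs]
    ring
  have i4 : IntegrableOn (fun x => rhs a s lam c μ f u x * φ x - c x * u x * φ x) Ω :=
    (hi i2).sub i3
  have h1 : ∀ᵐ x ∂volume.restrict Ω, 0 ≤ μ x * Dr a s u x * φ x :=
    ae_restrict_of_ae (h0.mono fun x hx =>
      mul_nonneg (mul_nonneg (hd.m0.le.trans (hd.m1 x)) Dr_nonneg) hx)
  have h2 := (setIntegral_eq_zero_iff_of_nonneg_ae h1 (e2 ▸ i4.sub ((hi i1).const_mul lam))).1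
    ((integral_nonneg_of_ae h1).antisymm' (by
      rw [e2, integral_sub i4 ((hi i1).const_mul lam), integral_sub (hi i2) i3, ← e1, En_comm,
        hv u hu, integral_const_mul]
      simp only [mul_right_comm (c _) (φ _), sub_self, zero_sub, neg_nonpos]
      positivity))
  obtain ⟨K, -, hK⟩ := poincare_pt hp hΩ
  by_contra hc
  refine hne ?_
  filter_upwards [(ae_restrict_iff' hΩ.op.measurableSet).1 h2, hu.toFE.ae] with x h3 h4
  by_contra hx
  have h5 : x ∈ Ω := by_contra fun h5 => hx (hφ.zero x h5)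
  have h6 : Dsq N a s u x = 0 := ((ENNReal.toReal_eq_zero_iff _).1 ((mul_eq_zero.1
    ((mul_eq_zero.1 (h3 h5)).resolve_right hx)).resolve_left
      (hd.m0.trans_le (hd.m1 x)).ne')).resolve_right h4.ne
  have h7 := hK u hu.zero x h5
  rw [h6, mul_zero, nonpos_iff_eq_zero, ENNReal.ofReal_eq_zero, sq_nonpos_iff] at h7
  refine hc ?_
  filter_upwards [(lintegral_eq_zero_iff ((cia2_m hu.meas x).const_mul (a / 2)).ennreal_ofReal).1
    h6, cia6_ne hp x] with y h8 h9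
  have := hp.ha
  by_contra h10
  rw [h7, zero_sub, neg_sq] at h8
  exact (ENNReal.ofReal_pos.2 (by positivity)).ne' h8

end

end Pool.Agent.Work.MP_49e099_an
end

-- merged part: Pool.Agent.Work.MP_49e099_an.CI.Main
section
/-!
# The dichotomy
`exists_dat`: measurable representatives (`AEStronglyMeasurable.mk`), cut at the essential bounds (`eLpNormEssSup`, `MemLp.exists_bound`-type lemmas: `ae_le_eLpNormEssSup`, `eLpNorm_exponent_top`): `c' = max (-C) (min C ·)`, `μ' = max μ1 (min μ2 ·)` with `μ2 ≥ μ1`.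
`weak_congr`, `res_congr`, `weak_congr_u`: `integral_congr_ae`, `ae_restrict_of_ae`, `Dsq_congr`. `small_c`: `Res.rep`, `En φ φ = ∫ c φ² ≤ c0 ∫ φ² ≤ En φ φ / 2` (`poincare`), `W0.ae_zero`.
-/

namespace Pool.Agent.Work.MP_49e099_an

open MeasureTheory Set Filter Topology Metric

noncomputable section

variable {N : ℕ} {a s : ℝ} {Ω : Set (Es N)}

variable {m μ1 lam : ℝ} {c μ f c' μ' f' u u' : Es N → ℝ}

theorem cimain_bd {ν : Measure (Es N)} (hc : MemLp c ⊤ ν) : ∃ C, 0 ≤ C ∧ ∀ᵐ x ∂ν, |c x| ≤ C := by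
  have h1 := hc.2
  rw [eLpNorm_exponent_top, eLpNormEssSup_lt_top_iff_isBoundedUnder] at h1
  obtain ⟨C, hC⟩ := h1
  refine ⟨C, C.2, ?_⟩
  filter_upwards [eventually_map.1 hC] with x hx
  exact hx

theorem exists_dat (hf : MemLp f (ENNReal.ofReal m) (volume.restrict Ω))
    (hc : MemLp c ⊤ (volume.restrict Ω)) (hμ : MemLp μ ⊤ (volume.restrict Ω)) (h1 : 0 < μ1)
    (h2 : ∀ᵐ x ∂volume.restrict Ω, μ1 ≤ μ x) : ∃ (μ2 C : ℝ) (c' μ' f' : Es N → ℝ),
      Dat Ω m μ1 μ2 C c' μ' f' ∧ (∀ᵐ x ∂volume.restrict Ω, c x = c' x) ∧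
      (∀ᵐ x ∂volume.restrict Ω, μ x = μ' x) ∧ ∀ᵐ x ∂volume.restrict Ω, f x = f' x := by
  obtain ⟨C, hC0, hC⟩ := cimain_bd hc
  obtain ⟨D, -, hD⟩ := cimain_bd hμ
  refine ⟨max D μ1, C, fun x => max (-C) (min C (hc.1.mk c x)),
    fun x => max μ1 (min (max D μ1) (hμ.1.mk μ x)), hf.1.mk f,
    ⟨measurable_const.max (measurable_const.min hc.1.measurable_mk), fun x => ?_,
      measurable_const.max (measurable_const.min hμ.1.measurable_mk), h1, fun x => le_max_left _ _,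
      fun x => max_le (le_max_right _ _) (min_le_left _ _), hf.1.measurable_mk,
      (memLp_congr_ae hf.1.ae_eq_mk).1 hf⟩, ?_, ?_, hf.1.ae_eq_mk⟩
  · exact abs_le.2 ⟨le_max_left _ _, max_le (by linarith) (min_le_left _ _)⟩
  · filter_upwards [hC, hc.1.ae_eq_mk] with x e1 e2
    rw [← e2, min_eq_right (abs_le.1 e1).2, max_eq_right (abs_le.1 e1).1]
  · filter_upwards [hD, h2, hμ.1.ae_eq_mk] with x e1 e2 e3
    rw [← e3, min_eq_right ((abs_le.1 e1).2.trans (le_max_left _ _)), max_eq_right e2]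

theorem weak_congr (h1 : ∀ᵐ x ∂volume.restrict Ω, c x = c' x)
    (h2 : ∀ᵐ x ∂volume.restrict Ω, μ x = μ' x) (h3 : ∀ᵐ x ∂volume.restrict Ω, f x = f' x) :
    IsWeakSol N a s Ω c μ f lam u ↔ IsWeakSol N a s Ω c' μ' f' lam u := by
  have key : ∀ ξ : Es N → ℝ,
      ∫ x in Ω, (c x * u x + μ x * (Dsq N a s u x).toReal + lam * f x) * ξ x =
        ∫ x in Ω, (c' x * u x + μ' x * (Dsq N a s u x).toReal + lam * f' x) * ξ x := fun ξ => by
    refine integral_congr_ae ?_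
    filter_upwards [h1, h2, h3] with x e1 e2 e3
    rw [e1, e2, e3]
  unfold IsWeakSol
  simp only [key]

theorem weak_congr_u (h : ∀ᵐ x, u' x = u x) (hu : IsWeakSol N a s Ω c μ f lam u) :
    IsWeakSol N a s Ω c μ f lam u' := by
  obtain ⟨h1, h2, h3, h4, h5⟩ := hu
  have hD : ∀ᵐ x, Dsq N a s u' x = Dsq N a s u x := Dsq_congr h
  refine ⟨?_, ?_, ?_, ?_, fun ξ g ht => ?_⟩
  · filter_upwards [h, h1] with x e1 e2 hx
    rw [e1, e2 hx]
  · refine Integrable.congr h2 ?_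
    filter_upwards [ae_restrict_of_ae h] with x e
    exact e.symm
  · filter_upwards [hD, h3] with x e1 e2 hx
    rw [e1]
    exact e2 hx
  · refine Integrable.congr h4 ?_
    filter_upwards [ae_restrict_of_ae hD] with x e
    rw [e]
  · refine Eq.trans (integral_congr_ae ?_) ((h5 ξ g ht).trans (integral_congr_ae ?_))
    · filter_upwards [ae_restrict_of_ae h] with x e
      rw [e]
    · filter_upwards [ae_restrict_of_ae h, ae_restrict_of_ae hD] with x e1 e2
      rw [e1, e2]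

theorem res_congr (h1 : ∀ᵐ x ∂volume.restrict Ω, c x = c' x)
    (h3 : ∀ᵐ x ∂volume.restrict Ω, f x = f' x) : Res N a s Ω c f ↔ Res N a s Ω c' f' := by
  have k1 : ∀ φ η : Es N → ℝ, ∫ x in Ω, c x * φ x * η x = ∫ x in Ω, c' x * φ x * η x :=
    fun φ η => by
      refine integral_congr_ae ?_
      filter_upwards [h1] with x e
      rw [e]
  have k2 : ∀ φ : Es N → ℝ, ∫ x in Ω, f x * φ x = ∫ x in Ω, f' x * φ x := fun φ => by
    refine integral_congr_ae ?_
    filter_upwards [h3] with x e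
    rw [e]
  unfold Res
  simp only [k1, k2]

theorem small_c (hp : Par N a s) (hΩ : Dom Ω) : ∃ c0 > 0, ∀ c f : Es N → ℝ,
    MemLp c ⊤ (volume.restrict Ω) → (∀ᵐ x, x ∈ Ω → c x ≤ c0) → ¬ Res N a s Ω c f := by
  obtain ⟨C, hC, hP⟩ := poincare hp hΩ
  refine ⟨1 / (2 * C), by positivity, fun c f hc hle hR => ?_⟩
  obtain ⟨φ, hφ, hs, -, hne, -⟩ := Res.rep hΩ hp hR
  obtain ⟨D, -, hD⟩ := cimain_bd hc
  have i1 : Integrable fun x => φ x ^ 2 := (W0.memLp hp hΩ hφ).integrable_sq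
  have i2 : Integrable (fun x => c x * φ x ^ 2) (volume.restrict Ω) :=
    (i1.integrableOn (s := Ω)).bdd_mul hc.1 hD
  have e1 : En N a s φ φ = ∫ x in Ω, c x * φ x ^ 2 := by
    rw [hs φ hφ]
    congr 1
    funext x
    ring
  have e2 : ∫ x in Ω, c x * φ x ^ 2 ≤ ∫ x in Ω, 1 / (2 * C) * φ x ^ 2 := by
    refine integral_mono_ae i2 ((i1.integrableOn (s := Ω)).const_mul _) ?_
    filter_upwards [(ae_restrict_iff' hΩ.op.measurableSet).2 hle] with x e
    exact mul_le_mul_of_nonneg_right e (sq_nonneg _)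
  have e3 : ∫ x in Ω, φ x ^ 2 ≤ ∫ x, φ x ^ 2 :=
    setIntegral_le_integral i1 (Eventually.of_forall fun x => sq_nonneg _)
  rw [integral_const_mul] at e2
  have e4 := mul_le_mul_of_nonneg_left (e3.trans (hP φ hφ).1) (show 0 ≤ 1 / (2 * C) by positivity)
  have e5 : 1 / (2 * C) * (C * En N a s φ φ) = En N a s φ φ / 2 := by field_simp
  exact hne (W0.ae_zero hp hΩ hφ (by linarith))

theorem dichotomy (hp : Par N a s) (hΩ : Dom Ω) (hne : Ω.Nonempty) (hb : C1Bdry Ω) :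
    ∃ c0 > 0, ∀ (m μ1 : ℝ) (c μ f : Es N → ℝ), N / (2 * s) < m →
      MemLp f (ENNReal.ofReal m) (volume.restrict Ω) → MemLp c ⊤ (volume.restrict Ω) →
      MemLp μ ⊤ (volume.restrict Ω) → 0 < μ1 → (∀ᵐ x, x ∈ Ω → μ1 ≤ μ x) →
      ((∀ᵐ x, x ∈ Ω → c x ≤ c0) → ¬ Res N a s Ω c f) ∧
      (¬ Res N a s Ω c f → ∃ lam0 > 0, ∀ lam, 0 < lam → lam < lam0 → Many N a s Ω c μ f lam) ∧
      (Res N a s Ω c f → ∀ lam > 0, ∀ u, InW0 N s Ω u → IsWeakSol N a s Ω c μ f lam u →
        ∀ᵐ x, u x = 0) := by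
  obtain ⟨c0, h0, hs⟩ := small_c hp hΩ
  have hE := C1Bdry.ext hΩ hb
  refine ⟨c0, h0, fun m μ1 c μ f hm hf hc hμ h1 h2 => ?_⟩
  obtain ⟨μ2, C, c', μ', f', hd, e1, e2, e3⟩ :=
    exists_dat hf hc hμ h1 ((ae_restrict_iff' hΩ.op.measurableSet).2 h2)
  refine ⟨hs c f hc, fun hR => ?_, fun hR lam hl u hu hw => ?_⟩
  · obtain ⟨lam0, hl0, hM⟩ := many hp hΩ hE hne hm hd (mt (res_congr e1 e3).2 hR)
    refine ⟨lam0, hl0, fun lam k1 k2 => ?_⟩
    obtain ⟨u, hu, hinj⟩ := hM lam k1 k2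
    exact ⟨u, fun n => ⟨(hu n).1, (weak_congr e1 e2 e3).2 (hu n).2⟩, hinj⟩
  · obtain ⟨u', hu', e⟩ := InW0.rep hΩ hu a
    filter_upwards [e, only_zero hp hΩ hE hm hd ((res_congr e1 e3).1 hR) hl hu'
      (weak_congr_u e ((weak_congr e1 e2 e3).1 hw))] with x k1 k2
    rw [← k1, k2]

end

end Pool.Agent.Work.MP_49e099_an
end
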