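import Pool.Agent.Work.MP_49e099_an.Defs

/-! Definitions used in the statement of the dichotomy theorem. -/

namespace Pool.Agent.Work.MP_49e099_an

open MeasureTheory Set

variable {E : Type} [NormedAddCommGroup E] [MeasureSpace E]

/-- `u` lies in `W_0^{s,2}(Ω)`: it vanishes a.e. off `Ω`, is square integrable and has finite
Gagliardo seminorm. -/
def InW0 (N : ℕ) (s : ℝ) (Ω : Set E) (u : E → ℝ) : Prop :=
  (∀ᵐ x, x ∉ Ω → u x = 0) ∧ MemLp u 2 volume ∧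
    ∫⁻ x, ∫⁻ y, ENNReal.ofReal ((u x - u y) ^ 2 / ‖x - y‖ ^ (N + 2 * s)) < ⊤

/-- The energy form of `(-Δ)^s`. -/
noncomputable def En (N : ℕ) (a s : ℝ) (u v : E → ℝ) : ℝ :=
  a / 2 * ∫ x, ∫ y, (u x - u y) * (v x - v y) / ‖x - y‖ ^ (N + 2 * s)

/-- Principal resonance: `(-Δ)^s φ = c φ` has a nonnegative nonzero variational solution `φ` in
`W_0^{s,2}(Ω)` with `∫ f φ ≥ 0`. -/
def Res (N : ℕ) (a s : ℝ) (Ω : Set E) (c f : E → ℝ) : Prop :=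
  ∃ φ : E → ℝ, InW0 N s Ω φ ∧ (∀ᵐ x, 0 ≤ φ x) ∧ ¬ (∀ᵐ x, φ x = 0) ∧
    (∀ η, InW0 N s Ω η → En N a s φ η = ∫ x in Ω, c x * φ x * η x) ∧ 0 ≤ ∫ x in Ω, f x * φ x

/-- Infinitely many weak solutions in `W_0^{s,2}(Ω)`, pairwise not a.e. equal. -/
def Many (N : ℕ) (a s : ℝ) (Ω : Set E) (c μ f : E → ℝ) (lam : ℝ) : Prop :=
  ∃ u : ℕ → E → ℝ, (∀ n, InW0 N s Ω (u n) ∧ IsWeakSol N a s Ω c μ f lam (u n)) ∧
    ∀ n k, (∀ᵐ x, u n x = u k x) → n = k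

/-- The boundary is of class `C¹`: near each boundary point `Ω = {F < 0}` for a `C¹` function `F`
with nonzero derivative at the point. -/
def C1Bdry [NormedSpace ℝ E] (Ω : Set E) : Prop :=
  ∀ p ∈ frontier Ω, ∃ r > 0, ∃ F : E → ℝ, ContDiffOn ℝ 1 F (Metric.ball p r) ∧
    fderiv ℝ F p ≠ 0 ∧ ∀ x ∈ Metric.ball p r, x ∈ Ω ↔ F x < 0

end Pool.Agent.Work.MP_49e099_an
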